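import Pool.Agent.H37.AV.Defs
import Pool.Agent.H37.WK.Trans

/-!
Module RowsCard.  The number of rows, and weights as numbers of slots.

`w_eq_slots`: for `U ⊆ 2^V` the weight `∑_{A ∈ U} sb t (|V| - |A|)` is the number of slots with first side
in `U`: for `A ∈ U` the slots `(A, Q)` correspond to the sets `K = V \ (A ∪ Q) ⊆ V \ A` with fewer than
`t` elements (`Q = V \ A \ K`), and `sb t b = ∑_{j<t} C(b,j)` counts them.

`rows_card`: the rows `(A, B)` with `A ∈ R`, `|B| < t` (then `B ∉ R`), and those with `B ∈ R`, `|A| < t`: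
`W n t R` each (for `A ∈ R` the sets `B ⊆ [n] \ A` with `|B| < t`); the rows with both in `R`: the
ordered disjoint pairs of members, twice `disjPairs R` (the two members are different, as they are
disjoint and nonempty).  See the proofs in WK.Trans for the same counts.
-/

open Finset

namespace Pool.Agent.H37.AV

private lemma RowsCard_sb (Z : Finset ℕ) (t : ℕ) :
    (Z.powerset.filter (fun D : Finset ℕ => D.card < t)).card = WK.sb t Z.card := by
  unfold WK.sb
  rw [Finset.card_eq_sum_card_fiberwise (f := Finset.card) (t := range t)]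
  · apply Finset.sum_congr rfl
    intro j hj
    rw [← Finset.card_powersetCard]
    congr 1
    ext D
    simp only [Finset.mem_filter, Finset.mem_powerset, Finset.mem_powersetCard]
    constructor
    · rintro ⟨⟨h1, h2⟩, h3⟩
      exact ⟨h1, h3⟩
    · rintro ⟨h1, h3⟩
      have := Finset.mem_range.1 hj
      exact ⟨⟨h1, by omega⟩, h3⟩
  · intro D hD
    have h := (Finset.mem_filter.1 (Finset.mem_coe.1 hD)).2
    exact Finset.mem_coe.2 (Finset.mem_range.2 h)

private lemma RowsCard_sig {V : Finset ℕ} {t : ℕ} {U : Finset (Finset ℕ)} (hU : ∀ A ∈ U, A ⊆ V) :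
    WK.W V.card t U =
      (U.sigma (fun A => (V \ A).powerset.filter (fun D : Finset ℕ => D.card < t))).card := by
  unfold WK.W
  rw [card_sigma]
  apply sum_congr rfl
  intro A hA
  rw [RowsCard_sb, card_sdiff_of_subset (hU A hA)]

theorem w_eq_slots {V : Finset ℕ} {t : ℕ} {U : Finset (Finset ℕ)} (hU : ∀ A ∈ U, A ⊆ V) :
    WK.W V.card t U = ((slots V t).filter (fun s => s.1 ∈ U)).card := by
  rw [RowsCard_sig hU]
  refine card_bij' (i := fun p _ => (p.1, (V \ p.1) \ p.2))
    (j := fun s _ => ⟨s.1, V \ (s.1 ∪ s.2)⟩) ?_ ?_ ?_ ?_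
  · intro p hp
    rw [mem_sigma, mem_filter, mem_powerset] at hp
    obtain ⟨h1, h2, h3⟩ := hp
    rw [mem_filter, mem_slots]
    refine ⟨⟨hU _ h1, sdiff_subset.trans sdiff_subset, ?_, ?_⟩, h1⟩
    · rw [disjoint_left]
      intro x hx hx2
      exact (mem_sdiff.1 (mem_sdiff.1 hx2).1).2 hx
    · refine lt_of_le_of_lt (card_le_card ?_) h3
      intro x hx
      simp only [ker, mem_sdiff, mem_union, not_or, not_and, not_not] at hx
      exact hx.2.2 ⟨hx.1, hx.2.1⟩
  · intro s hs
    rw [mem_filter, mem_slots] at hs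
    obtain ⟨⟨h1, h2, h3, h4⟩, h5⟩ := hs
    rw [mem_sigma, mem_filter, mem_powerset]
    refine ⟨h5, ?_, h4⟩
    exact sdiff_subset_sdiff (Subset.refl _) subset_union_left
  · intro p hp
    rw [mem_sigma, mem_filter, mem_powerset] at hp
    obtain ⟨h1, h2, h3⟩ := hp
    obtain ⟨A, D⟩ := p
    simp only at h1 h2 h3 ⊢
    congr 1
    ext x
    simp only [mem_sdiff, mem_union, not_or, not_and, not_not]
    constructor
    · rintro ⟨a1, a2, a3⟩
      exact a3 ⟨a1, a2⟩
    · intro hx
      have := mem_sdiff.1 (h2 hx)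
      exact ⟨this.1, this.2, fun _ => hx⟩
  · intro s hs
    rw [mem_filter, mem_slots] at hs
    obtain ⟨⟨h1, h2, h3, h4⟩, h5⟩ := hs
    obtain ⟨P, Q⟩ := s
    simp only at h1 h2 h3 h5 ⊢
    refine Prod.ext rfl ?_
    ext x
    simp only [mem_sdiff, mem_union, not_or, not_and, not_not]
    constructor
    · rintro ⟨⟨a1, a2⟩, a3⟩
      by_contra hx
      exact hx (a3 a1 a2)
    · intro hx
      exact ⟨⟨h2 hx, fun hxP => disjoint_left.1 h3 hxP hx⟩, fun _ _ => hx⟩

/-- The rows with a given member `A ∈ 𝒜 ⊆ R` on the left and a small set on the right. -/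
theorem small_rows_card {V : Finset ℕ} {t : ℕ} {R 𝒜 : Finset (Finset ℕ)} (h : Av V t R)
    (h𝒜 : 𝒜 ⊆ R) :
    ((rows V t R).filter (fun r => r.1 ∈ 𝒜 ∧ r.2.card < t)).card = WK.W V.card t 𝒜 := by
  rw [RowsCard_sig (fun A hA => h.sub A (h𝒜 hA))]
  symm
  refine card_bij' (i := fun p _ => (p.1, p.2)) (j := fun s _ => ⟨s.1, s.2⟩) ?_ ?_ ?_ ?_
  · intro p hp
    rw [mem_sigma, mem_filter, mem_powerset] at hp
    obtain ⟨h1, h2, h3⟩ := hp
    rw [mem_filter, mem_rows]
    refine ⟨⟨h.sub _ (h𝒜 h1), h2.trans sdiff_subset, ?_, Or.inl (h𝒜 h1), Or.inr h3,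
      Or.inl (h𝒜 h1)⟩, h1, h3⟩
    rw [disjoint_left]
    intro x hx hx2
    exact (mem_sdiff.1 (h2 hx2)).2 hx
  · intro s hs
    rw [mem_filter, mem_rows] at hs
    obtain ⟨⟨h1, h2, h3, -, -, -⟩, h4, h5⟩ := hs
    rw [mem_sigma, mem_filter, mem_powerset]
    refine ⟨h4, ?_, h5⟩
    intro x hx
    rw [mem_sdiff]
    exact ⟨h2 hx, fun hx2 => disjoint_left.1 h3 hx2 hx⟩
  · intro p hp
    rfl
  · intro s hs
    rfl

private lemma RowsCard_pairs {V : Finset ℕ} {t : ℕ} {R : Finset (Finset ℕ)} (h : Av V t R) :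
    ((rows V t R).filter (fun r => r.1 ∈ R ∧ r.2 ∈ R)).card = 2 * WK.disjPairs R := by
  unfold WK.disjPairs
  rw [card_eq_sum_card_fiberwise (f := fun r : Slot => ({r.1, r.2} : Finset (Finset ℕ)))
    (t := (R.powersetCard 2).filter (fun P => ∀ A ∈ P, ∀ B ∈ P, A ≠ B → A ∩ B = ∅))]
  · rw [sum_const_nat (m := 2), mul_comm]
    intro P hP
    rw [mem_filter, mem_powersetCard] at hP
    obtain ⟨⟨h1, h2⟩, h3⟩ := hP
    obtain ⟨A, B, hAB, rfl⟩ := card_eq_two.1 h2
    have hA : A ∈ R := h1 (by simp)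
    have hB : B ∈ R := h1 (by simp)
    have hd : Disjoint A B := disjoint_iff_inter_eq_empty.2 (h3 A (by simp) B (by simp) hAB)
    have he : (((rows V t R).filter (fun r => r.1 ∈ R ∧ r.2 ∈ R)).filter
        (fun r : Slot => ({r.1, r.2} : Finset (Finset ℕ)) = {A, B})) = {(A, B), (B, A)} := by
      ext r
      rw [mem_filter, mem_filter, mem_rows, mem_insert, mem_singleton]
      constructor
      · rintro ⟨⟨-, -, -⟩, h5⟩
        have e1 : r.1 ∈ ({A, B} : Finset (Finset ℕ)) := by rw [← h5]; simp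
        have e2 : r.2 ∈ ({A, B} : Finset (Finset ℕ)) := by rw [← h5]; simp
        have e3 : A ∈ ({r.1, r.2} : Finset (Finset ℕ)) := by rw [h5]; simp
        have e4 : B ∈ ({r.1, r.2} : Finset (Finset ℕ)) := by rw [h5]; simp
        rw [mem_insert, mem_singleton] at e1 e2 e3 e4
        rcases e1 with e1 | e1
        · left
          rcases e2 with e2 | e2
          · exfalso
            rw [e1, e2] at e4
            rcases e4 with e4 | e4 <;> exact hAB e4.symm
          · exact Prod.ext e1 e2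
        · right
          rcases e2 with e2 | e2
          · exact Prod.ext e1 e2
          · exfalso
            rw [e1, e2] at e3
            rcases e3 with e3 | e3 <;> exact hAB e3
      · rintro (rfl | rfl)
        · exact ⟨⟨⟨h.sub A hA, h.sub B hB, hd, Or.inl hA, Or.inl hB, Or.inl hA⟩, hA, hB⟩, rfl⟩
        · exact ⟨⟨⟨h.sub B hB, h.sub A hA, hd.symm, Or.inl hB, Or.inl hA, Or.inl hB⟩, hB, hA⟩,
            pair_comm _ _⟩
    rw [he]
    rw [card_pair]
    intro hh
    exact hAB (congrArg Prod.fst hh)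
  · intro r hr
    have hr' := mem_filter.1 (mem_coe.1 hr)
    obtain ⟨h1, h2⟩ := hr'
    have h3 := mem_rows.1 h1
    have hne : r.1 ≠ r.2 := by
      intro he
      have h4 := h3.2.2.1
      rw [he] at h4
      have h5 := disjoint_self.1 h4
      have h6 := h.big _ h2.2
      rw [h5] at h6
      simp at h6
    refine mem_coe.2 (mem_filter.2 ⟨mem_powersetCard.2 ⟨?_, card_pair hne⟩, ?_⟩)
    · intro x hx
      rw [mem_insert, mem_singleton] at hx
      rcases hx with rfl | rfl
      · exact h2.1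
      · exact h2.2
    · intro A hA B hB hAB
      rw [mem_insert, mem_singleton] at hA hB
      rcases hA with rfl | rfl <;> rcases hB with rfl | rfl
      · exact absurd rfl hAB
      · exact disjoint_iff_inter_eq_empty.1 h3.2.2.1
      · exact disjoint_iff_inter_eq_empty.1 h3.2.2.1.symm
      · exact absurd rfl hAB

theorem rows_card {n t : ℕ} {R : Finset (Finset ℕ)} (ht : 1 ≤ t) (h : Av (Icc 1 n) t R) :
    (rows (Icc 1 n) t R).card = 2 * WK.W n t R + 2 * WK.disjPairs R := by
  have hn : (Icc 1 n).card = n := by simp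
  have h1 := small_rows_card h (Subset.refl R)
  rw [hn] at h1
  have h2 : ((rows (Icc 1 n) t R).filter (fun r => r.2 ∈ R ∧ r.1.card < t)).card =
      WK.W n t R := by
    rw [← h1]
    refine card_bij' (i := fun r _ => r.swap) (j := fun r _ => r.swap) ?_ ?_ ?_ ?_
    · intro r hr
      rw [mem_filter, mem_rows] at hr ⊢
      obtain ⟨⟨a1, a2, a3, a4, a5, a6⟩, a7, a8⟩ := hr
      exact ⟨⟨a2, a1, a3.symm, a5, a4, a6.symm⟩, a7, a8⟩
    · intro r hr
      rw [mem_filter, mem_rows] at hr ⊢
      obtain ⟨⟨a1, a2, a3, a4, a5, a6⟩, a7, a8⟩ := hr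
      exact ⟨⟨a2, a1, a3.symm, a5, a4, a6.symm⟩, a7, a8⟩
    · intro r _
      exact Prod.swap_swap r
    · intro r _
      exact Prod.swap_swap r
  have h3 := RowsCard_pairs h
  have hsmall : ∀ A ∈ R, ¬ A.card < t := fun A hA => by
    have := h.big A hA
    omega
  have key : rows (Icc 1 n) t R =
      ((rows (Icc 1 n) t R).filter (fun r => r.1 ∈ R ∧ r.2.card < t) ∪
        (rows (Icc 1 n) t R).filter (fun r => r.2 ∈ R ∧ r.1.card < t)) ∪
        (rows (Icc 1 n) t R).filter (fun r => r.1 ∈ R ∧ r.2 ∈ R) := by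
    ext r
    rw [mem_union, mem_union, mem_filter, mem_filter, mem_filter]
    constructor
    · intro hr
      obtain ⟨a1, a2, a3, a4, a5, a6⟩ := mem_rows.1 hr
      rcases a6 with a6 | a6
      · rcases a5 with a5 | a5
        · exact Or.inr ⟨hr, a6, a5⟩
        · exact Or.inl (Or.inl ⟨hr, a6, a5⟩)
      · rcases a4 with a4 | a4
        · exact Or.inr ⟨hr, a4, a6⟩
        · exact Or.inl (Or.inr ⟨hr, a6, a4⟩)
    · rintro ((h | h) | h) <;> exact h.1
  have hc := congrArg Finset.card key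
  rw [card_union_of_disjoint, card_union_of_disjoint, h1, h2, h3] at hc
  · omega
  · rw [disjoint_left]
    intro r hr hr2
    rw [mem_filter] at hr hr2
    exact hsmall _ hr.2.1 hr2.2.2
  · rw [disjoint_left]
    intro r hr hr2
    rw [mem_union, mem_filter, mem_filter] at hr
    rw [mem_filter] at hr2
    rcases hr with hr | hr
    · exact hsmall _ hr2.2.2 hr.2.2
    · exact hsmall _ hr2.2.1 hr.2.2

end Pool.Agent.H37.AV
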