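import Mathlib

/-!
Module Trace.  A rank bound (pure linear algebra).

`v i`, `i ∈ I`, are linearly independent vectors on the finite set `X` of coordinates.  `D`, `S`, `N` are
disjoint subsets of `X`; all `v i` vanish on `D`; on `S` only the `v i` with `i ∈ J` can be nonzero; for
every `x ∈ N` there is a vector `c` with `c x = 1`, squared norm `≤ B`, orthogonal to all `v i`.  Then
`|I| + |D| + |S| + |N| / B ≤ |X| + |J|`.

Proof.  Work in `EuclideanSpace ℝ X`.  `E` = span of the `v i`, `dim E = |I|`.  `F` = the subspace of the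
`f ∈ E` vanishing on `S`.  The restriction `E → ℝ^S` has rank `≤ |J|` (it is spanned by the images of the
`v i`, `i ∈ J`), so `dim F ≥ |I| - |J|` (rank-nullity).  Let `b_1, …, b_d` be an orthonormal basis of `F`
(`stdOrthonormalBasis`), and `q x = ∑_k (b_k x)^2`.  Then `∑_{x ∈ X} q x = d`; `q x = 0` for `x ∈ D ∪ S`;
`q x ≤ 1` always (Bessel for the unit vector `δ_x`: with `u = ∑_k (b_k x) b_k ∈ F`,
`‖δ_x - u‖² = 1 - q x`).  For `x ∈ N`: `⟪c, u⟫ = 0`, so `1 = ⟪c, δ_x⟫ = ⟪c, δ_x - u⟫`, hence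
`1 ≤ ‖c‖² ‖δ_x - u‖² ≤ B (1 - q x)`, i.e. `q x ≤ 1 - 1 / B`.  Sum up:
`|I| - |J| ≤ d ≤ |X| - |D| - |S| - |N| / B`.
-/

open Finset

namespace Pool.Agent.H37.AV

private lemma trace_basis {ι κ : Type*} [DecidableEq ι] [DecidableEq κ] (K : Finset ι)
    (X : Finset κ) (v : ι → κ → ℝ)
    (hind : ∀ l : ι → ℝ, (∀ x ∈ X, ∑ i ∈ K, l i * v i x = 0) → ∀ i ∈ K, l i = 0) :
    ∃ b : Fin K.card → κ → ℝ,
      (∀ j k, ∑ y ∈ X, b j y * b k y = if j = k then 1 else 0) ∧
      ∀ k, ∃ a : ι → ℝ, ∀ y ∈ X, b k y = ∑ i ∈ K, a i * v i y := by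
  classical
  let w : ↥K → EuclideanSpace ℝ ↥X := fun i => WithLp.toLp 2 (fun x => v i x)
  have hwx : ∀ (g : ↥K → ℝ) (x : ↥X), (∑ i, g i • w i) x = ∑ i, g i * v i x := by
    intro g x
    simp [w, WithLp.ofLp_sum, Finset.sum_apply]
  have hw : LinearIndependent ℝ w := by
    rw [Fintype.linearIndependent_iff]
    intro g hg i
    have h0 := hind (fun j => if h : j ∈ K then g ⟨j, h⟩ else 0) ?_ i i.2
    · simpa using h0
    · intro x hx
      have h1 := hwx g ⟨x, hx⟩
      rw [hg] at h1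
      rw [← Finset.sum_coe_sort K]
      refine Eq.trans (sum_congr rfl fun j _ => ?_) h1.symm
      rw [dif_pos j.2]
  have hdim : Module.finrank ℝ (Submodule.span ℝ (Set.range w)) = K.card := by
    rw [finrank_span_eq_card hw]
    simp
  let B := (stdOrthonormalBasis ℝ (Submodule.span ℝ (Set.range w))).reindex (finCongr hdim)
  refine ⟨fun k y => if h : y ∈ X then (B k : EuclideanSpace ℝ ↥X) ⟨y, h⟩ else 0, ?_, ?_⟩
  · intro j k
    have h1 := (orthonormal_iff_ite.1 B.orthonormal) k j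
    rw [Submodule.coe_inner, PiLp.inner_apply] at h1
    rw [← Finset.sum_coe_sort X]
    have h2 : (if k = j then (1:ℝ) else 0) = if j = k then 1 else 0 := by
      by_cases h : j = k
      · rw [if_pos h, if_pos h.symm]
      · rw [if_neg h, if_neg (fun h' => h h'.symm)]
    rw [← h2, ← h1]
    refine sum_congr rfl fun y _ => ?_
    beta_reduce
    rw [dif_pos y.2, dif_pos y.2]
    simp
  · intro k
    obtain ⟨g, hg⟩ := (Submodule.mem_span_range_iff_exists_fun ℝ).1 (B k).2
    refine ⟨fun j => if h : j ∈ K then g ⟨j, h⟩ else 0, fun y hy => ?_⟩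
    have h1 := hwx g ⟨y, hy⟩
    rw [hg] at h1
    beta_reduce
    rw [dif_pos hy, h1, ← Finset.sum_coe_sort K]
    refine sum_congr rfl fun j _ => ?_
    rw [dif_pos j.2]

theorem trace_bound {ι κ : Type*} [DecidableEq ι] [DecidableEq κ] (I J : Finset ι)
    (X D S N : Finset κ) (v : ι → κ → ℝ) {B : ℝ} (hB : 0 < B)
    (hind : ∀ l : ι → ℝ, (∀ x ∈ X, ∑ i ∈ I, l i * v i x = 0) → ∀ i ∈ I, l i = 0)
    (hJ : J ⊆ I) (hD : D ⊆ X) (hS : S ⊆ X) (hN : N ⊆ X)
    (hDS : Disjoint D S) (hDN : Disjoint D N) (hSN : Disjoint S N)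
    (hD0 : ∀ x ∈ D, ∀ i ∈ I, v i x = 0)
    (hS0 : ∀ x ∈ S, ∀ i ∈ I, i ∉ J → v i x = 0)
    (hN0 : ∀ x ∈ N, ∃ c : κ → ℝ, c x = 1 ∧ ∑ y ∈ X, c y ^ 2 ≤ B ∧
      ∀ i ∈ I, ∑ y ∈ X, c y * v i y = 0) :
    (I.card : ℝ) + D.card + S.card + N.card / B ≤ X.card + J.card := by
  classical
  obtain ⟨b, hb1, hb2⟩ := trace_basis (I \ J) X v (by
    intro l hl
    have h1 := hind (fun i => if i ∈ J then 0 else l i) (by
      intro x hx
      refine Eq.trans ?_ (hl x hx)
      have h2 : ∑ i ∈ I, (if i ∈ J then 0 else l i) * v i x =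
          ∑ i ∈ I, (if i ∈ J then 0 else l i * v i x) := by
        refine sum_congr rfl fun i _ => ?_
        by_cases h : i ∈ J
        · rw [if_pos h, if_pos h, zero_mul]
        · rw [if_neg h, if_neg h]
      rw [h2]
      have h3 : I \ J = I.filter (fun i => ¬ i ∈ J) := by
        ext i
        simp only [mem_sdiff, mem_filter]
      rw [h3, sum_filter]
      refine sum_congr rfl fun i _ => ?_
      by_cases h : i ∈ J
      · rw [if_pos h, if_neg (not_not.2 h)]
      · rw [if_neg h, if_pos h])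
    intro i hi
    have h4 := h1 i (mem_sdiff.1 hi).1
    rwa [if_neg (mem_sdiff.1 hi).2] at h4)
  set q : κ → ℝ := fun x => ∑ k, b k x * b k x with hq
  -- the total of `q`
  have hsum : ∑ x ∈ X, q x = (I \ J).card := by
    simp only [hq]
    rw [sum_comm]
    have h1 : ∀ k : Fin (I \ J).card, ∑ x ∈ X, b k x * b k x = 1 := by
      intro k
      rw [hb1 k k, if_pos rfl]
    rw [sum_congr rfl fun k _ => h1 k]
    simp
  -- the residual of a coordinate vector
  have hres : ∀ x ∈ X, ∑ y ∈ X, ((if y = x then 1 else 0) - ∑ k, b k x * b k y) ^ 2 = 1 - q x := by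
    intro x hx
    have h1 : ∀ y ∈ X, ((if y = x then (1:ℝ) else 0) - ∑ k, b k x * b k y) ^ 2 =
        (if y = x then (1 - 2 * ∑ k, b k x * b k y) else 0) +
          (∑ k, b k x * b k y) * (∑ k, b k x * b k y) := by
      intro y _
      by_cases h : y = x
      · rw [if_pos h, if_pos h]; ring
      · rw [if_neg h, if_neg h]; ring
    rw [sum_congr rfl h1, sum_add_distrib, sum_ite_eq' X x, if_pos hx]
    have h2 : ∑ y ∈ X, (∑ k, b k x * b k y) * (∑ k, b k x * b k y) = q x := by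
      have h3 : ∀ y ∈ X, (∑ k, b k x * b k y) * (∑ k, b k x * b k y) =
          ∑ j, ∑ k, b j x * b k x * (b j y * b k y) := by
        intro y _
        rw [sum_mul_sum]
        refine sum_congr rfl fun j _ => sum_congr rfl fun k _ => ?_
        ring
      rw [sum_congr rfl h3, sum_comm]
      simp only [hq]
      refine sum_congr rfl fun j _ => ?_
      rw [sum_comm]
      have h4 : ∀ k, ∑ y ∈ X, b j x * b k x * (b j y * b k y) =
          if k = j then b j x * b k x else 0 := by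
        intro k
        rw [← mul_sum, hb1 j k]
        by_cases h : j = k
        · rw [if_pos h, if_pos h.symm, mul_one]
        · rw [if_neg h, if_neg (fun h' => h h'.symm), mul_zero]
      rw [sum_congr rfl fun k _ => h4 k, sum_ite_eq' univ j, if_pos (mem_univ _)]
    rw [h2]
    simp only [hq]
    ring
  have hq1 : ∀ x ∈ X, q x ≤ 1 := by
    intro x hx
    have h1 : 0 ≤ ∑ y ∈ X, ((if y = x then (1:ℝ) else 0) - ∑ k, b k x * b k y) ^ 2 :=
      sum_nonneg fun y _ => sq_nonneg _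
    rw [hres x hx] at h1
    linarith
  have hqN : ∀ x ∈ N, q x ≤ 1 - 1 / B := by
    intro x hx
    obtain ⟨c, hc1, hc2, hc3⟩ := hN0 x hx
    have hxX := hN hx
    have h1 : ∀ k, ∑ y ∈ X, c y * b k y = 0 := by
      intro k
      obtain ⟨a, ha⟩ := hb2 k
      have h2 : ∀ y ∈ X, c y * b k y = ∑ i ∈ I \ J, a i * (c y * v i y) := by
        intro y hy
        rw [ha y hy, mul_sum]
        refine sum_congr rfl fun i _ => ?_
        ring
      rw [sum_congr rfl h2, sum_comm]
      refine sum_eq_zero fun i hi => ?_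
      rw [← mul_sum, hc3 i (mem_sdiff.1 hi).1, mul_zero]
    have h2 : ∑ y ∈ X, c y * ((if y = x then 1 else 0) - ∑ k, b k x * b k y) = 1 := by
      have h3 : ∀ y ∈ X, c y * ((if y = x then (1:ℝ) else 0) - ∑ k, b k x * b k y) =
          (if y = x then c y else 0) - ∑ k, b k x * (c y * b k y) := by
        intro y _
        rw [mul_sub, mul_sum]
        congr 1
        · by_cases h : y = x
          · rw [if_pos h, if_pos h, mul_one]
          · rw [if_neg h, if_neg h, mul_zero]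
        · refine sum_congr rfl fun k _ => ?_
          ring
      rw [sum_congr rfl h3, sum_sub_distrib, sum_ite_eq' X x, if_pos hxX, hc1, sum_comm]
      have h4 : ∑ k, ∑ y ∈ X, b k x * (c y * b k y) = 0 := by
        refine sum_eq_zero fun k _ => ?_
        rw [← mul_sum, h1 k, mul_zero]
      rw [h4, sub_zero]
    have h3 := sum_mul_sq_le_sq_mul_sq X c
      (fun y => (if y = x then 1 else 0) - ∑ k, b k x * b k y)
    rw [h2, hres x hxX] at h3
    have h4 : (∑ y ∈ X, c y ^ 2) * (1 - q x) ≤ B * (1 - q x) :=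
      mul_le_mul_of_nonneg_right hc2 (by linarith [hq1 x hxX])
    have h5 : 1 ≤ B * (1 - q x) := by nlinarith
    have h6 : 1 / B ≤ 1 - q x := by
      rw [div_le_iff₀ hB]
      linarith
    linarith
  have hqz : ∀ x ∈ X, (∀ i ∈ I \ J, v i x = 0) → q x = 0 := by
    intro x hx h
    simp only [hq]
    refine sum_eq_zero fun k _ => ?_
    obtain ⟨a, ha⟩ := hb2 k
    rw [ha x hx, sum_eq_zero (fun i hi => by rw [h i hi, mul_zero]), mul_zero]
  have hqD : ∀ x ∈ D, q x = 0 := fun x hx =>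
    hqz x (hD hx) fun i hi => hD0 x hx i (mem_sdiff.1 hi).1
  have hqS : ∀ x ∈ S, q x = 0 := fun x hx =>
    hqz x (hS hx) fun i hi => hS0 x hx i (mem_sdiff.1 hi).1 (mem_sdiff.1 hi).2
  -- sum up
  have hU : Disjoint (D ∪ S) N := disjoint_union_left.2 ⟨hDN, hSN⟩
  have hsub : (D ∪ S) ∪ N ⊆ X := union_subset (union_subset hD hS) hN
  have h1 : ∑ x ∈ X, (1 - q x) = X.card - (I \ J).card := by
    rw [sum_sub_distrib, hsum]
    simp
  have h2 : ∑ x ∈ (D ∪ S) ∪ N, (1 - q x) ≤ ∑ x ∈ X, (1 - q x) :=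
    sum_le_sum_of_subset_of_nonneg hsub fun x hx _ => by linarith [hq1 x hx]
  rw [sum_union hU, sum_union hDS] at h2
  have h3 : ∑ x ∈ D, (1 - q x) = D.card := by
    rw [sum_congr rfl fun x hx => by rw [hqD x hx, sub_zero]]
    simp
  have h4 : ∑ x ∈ S, (1 - q x) = S.card := by
    rw [sum_congr rfl fun x hx => by rw [hqS x hx, sub_zero]]
    simp
  have h5 : (N.card : ℝ) / B ≤ ∑ x ∈ N, (1 - q x) := by
    have h6 : ∑ x ∈ N, (1 / B) ≤ ∑ x ∈ N, (1 - q x) :=
      sum_le_sum fun x hx => by linarith [hqN x hx]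
    rw [sum_const, nsmul_eq_mul] at h6
    calc (N.card : ℝ) / B = N.card * (1 / B) := by ring
      _ ≤ _ := h6
  have h7 : ((I \ J).card : ℝ) + J.card = I.card := by
    exact_mod_cast card_sdiff_add_card_eq_card hJ
  rw [h1, h3, h4] at h2
  linarith

end Pool.Agent.H37.AV
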