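import Pool.Agent.H37.AV.Indep
import Pool.Agent.H37.AV.Trace
import Pool.Agent.H37.AV.RowsCard

/-!
Module Acc.  The two rank bounds for the number of rows.

Both are `trace_bound` with `I = rows`, `X = slots`, `v r s = 1` if `r.1 ⊆ s.1 ∧ r.2 ⊆ s.2`, else `0`
(independence: `rows_indep`; the third condition for `N` is `Ann`).

`acc_all`: `N` = all slots that are not rigid, `D = S = J = ∅`.

`acc`: `X = slots` is the disjoint union of `HL`, its mirror image, `S1`, its mirror image, `S2` and the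
dead slots `D` (no side contains a member): for a slot `(P, Q)`, if `P` and `Q` contain members it is in
`S2`; if only `P` does, `P` is in `H` or in `Y` (`inY_or_inH`), so it is in `HL` or `S1`
[if `P ∈ H` then `Q` contains no member `B`, as `|P ∩ B| = 0`].  `S = S1 ∪ mirror S1`, `N = N2 ⊆ S2`.
 * a row `(A, B)` below a dead slot: `A ∈ R` or `B ∈ R`, impossible.
 * a row `(A, B)` below a slot `(P, Q) ∈ S1`: `B ∉ R`, so `A ∈ R`, `|B| < t`; some `B' ∈ R` has
   `|P ∩ B'| ≤ t`, so `|A ∩ B'| ≤ t`, `≠ t`, so `A ∈ Rm`.  So `J` = rows with `A ∈ Rm, |B| < t` or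
   `B ∈ Rm, |A| < t`, `|J| = 2 W(Rm)` by `small_rows_card` (members have more than `t` elements, so the
   two kinds are disjoint) and the symmetry of the rows.
 So `|rows| + |D| + 2|S1| + |N2| / B ≤ |X| + 2 W(Rm) = 2|HL| + 2|S1| + |S2| + |D| + 2 W(Rm)`.
-/

open Finset

namespace Pool.Agent.H37.AV

/-- The evaluation of a row at a slot. -/
private noncomputable def AccV (r s : Slot) : ℝ := if r.1 ⊆ s.1 ∧ r.2 ⊆ s.2 then 1 else 0

private lemma AccV_zero {r s : Slot} (h : ¬ (r.1 ⊆ s.1 ∧ r.2 ⊆ s.2)) : AccV r s = 0 := if_neg h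

private lemma Acc_ind {V : Finset ℕ} {t : ℕ} {R : Finset (Finset ℕ)} (h : Av V t R)
    (l : Slot → ℝ) (hl : ∀ x ∈ slots V t, ∑ i ∈ rows V t R, l i * AccV i x = 0) :
    ∀ i ∈ rows V t R, l i = 0 := by
  apply rows_indep h l
  intro s hs
  rw [← hl s hs, sum_filter]
  refine sum_congr rfl fun i _ => ?_
  unfold AccV
  rw [mul_ite, mul_one, mul_zero]

private lemma Acc_ann {V : Finset ℕ} {t : ℕ} {R : Finset (Finset ℕ)} {s : Slot}
    (h : NR V t R s) : ∃ c : Slot → ℝ, c s = 1 ∧ ∑ y ∈ slots V t, c y ^ 2 ≤ Bd t ∧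
      ∀ i ∈ rows V t R, ∑ y ∈ slots V t, c y * AccV i y = 0 := by
  obtain ⟨c, h1, h2, h3⟩ := h
  refine ⟨c, h1, h2, fun i hi => ?_⟩
  rw [← h3 i hi, sum_filter]
  refine sum_congr rfl fun y _ => ?_
  unfold AccV
  rw [mul_ite, mul_one, mul_zero]

private lemma Acc_rm {V : Finset ℕ} {t : ℕ} {R : Finset (Finset ℕ)} (h : Av V t R)
    {P A : Finset ℕ} (hP : InY t R P) (hA : A ∈ R) (hAP : A ⊆ P) : A ∈ Rm t R := by
  obtain ⟨-, B, hB, hle⟩ := hP
  refine mem_Rm.2 ⟨hA, B, hB, ?_⟩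
  have h1 : (A ∩ B).card ≤ (P ∩ B).card := card_le_card (inter_subset_inter_right hAP)
  have h2 := h.av A hA B hB
  omega

theorem acc_all {V : Finset ℕ} {t : ℕ} {R : Finset (Finset ℕ)} (h : Av V t R) :
    ((rows V t R).card : ℝ) + ((slots V t).filter (NR V t R)).card / Bd t ≤ (slots V t).card := by
  have hB : 0 < Bd t := lt_of_lt_of_le one_pos (Bd_pos t)
  have key := trace_bound (rows V t R) ∅ (slots V t) ∅ ∅ ((slots V t).filter (NR V t R)) AccV hB
    (Acc_ind h) (empty_subset _) (empty_subset _) (empty_subset _) (filter_subset _ _)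
    (disjoint_empty_left _) (disjoint_empty_left _) (disjoint_empty_left _)
    (fun x hx => absurd hx (notMem_empty x)) (fun x hx => absurd hx (notMem_empty x))
    (fun x hx => Acc_ann (mem_filter.1 hx).2)
  simpa using key

theorem acc {V : Finset ℕ} {t : ℕ} {R : Finset (Finset ℕ)} (ht : 1 ≤ t) (h : Av V t R) :
    ((rows V t R).card : ℝ) + (N2 V t R).card / Bd t ≤
      2 * (HL V t R).card + (S2 V t R).card + 2 * (WK.W V.card t (Rm t R) : ℝ) := by
  classical
  have hB : 0 < Bd t := lt_of_lt_of_le one_pos (Bd_pos t)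
  set D : Finset Slot := (slots V t).filter (fun s => ¬ Up R s.1 ∧ ¬ Up R s.2) with hD
  set S' : Finset Slot := (slots V t).filter (fun s => InY t R s.2 ∧ ¬ Up R s.1) with hS'
  set H' : Finset Slot := (slots V t).filter (fun s => InH t R s.2) with hH'
  set J1 : Finset Slot := (rows V t R).filter (fun r => r.1 ∈ Rm t R ∧ r.2.card < t) with hJ1
  set J2 : Finset Slot := (rows V t R).filter (fun r => r.2 ∈ Rm t R ∧ r.1.card < t) with hJ2
  have hRm : Rm t R ⊆ R := fun A hA => (mem_Rm.1 hA).1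
  have cJ1 : J1.card = WK.W V.card t (Rm t R) := small_rows_card h hRm
  have cJ2 : J2.card = WK.W V.card t (Rm t R) := by
    rw [← cJ1]
    refine card_bij' (i := fun r _ => r.swap) (j := fun r _ => r.swap) ?_ ?_ ?_ ?_
    · intro r hr
      rw [hJ2, mem_filter, mem_rows] at hr
      rw [hJ1, mem_filter, mem_rows]
      obtain ⟨⟨a1, a2, a3, a4, a5, a6⟩, a7, a8⟩ := hr
      exact ⟨⟨a2, a1, a3.symm, a5, a4, a6.symm⟩, a7, a8⟩
    · intro r hr
      rw [hJ1, mem_filter, mem_rows] at hr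
      rw [hJ2, mem_filter, mem_rows]
      obtain ⟨⟨a1, a2, a3, a4, a5, a6⟩, a7, a8⟩ := hr
      exact ⟨⟨a2, a1, a3.symm, a5, a4, a6.symm⟩, a7, a8⟩
    · intro r _
      exact Prod.swap_swap r
    · intro r _
      exact Prod.swap_swap r
  have cH : H'.card ≤ (HL V t R).card := by
    refine card_le_card_of_injOn Prod.swap ?_ Prod.swap_injective.injOn
    intro s hs
    have hs' := mem_filter.1 (mem_coe.1 hs)
    exact mem_coe.2 (mem_HL.2 ⟨swap_mem_slots hs'.1, hs'.2⟩)
  have hX : slots V t ⊆ ((D ∪ S2 V t R) ∪ (HL V t R ∪ H')) ∪ (S1 V t R ∪ S') := by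
    intro s hs
    simp only [mem_union]
    by_cases u1 : Up R s.1
    · by_cases u2 : Up R s.2
      · exact Or.inl (Or.inl (Or.inr (mem_S2.2 ⟨hs, u1, u2⟩)))
      · rcases inY_or_inH (t := t) u1 with y | y
        · exact Or.inr (Or.inl (mem_S1.2 ⟨hs, y, u2⟩))
        · exact Or.inl (Or.inr (Or.inl (mem_HL.2 ⟨hs, y⟩)))
    · by_cases u2 : Up R s.2
      · rcases inY_or_inH (t := t) u2 with y | y
        · exact Or.inr (Or.inr (mem_filter.2 ⟨hs, y, u1⟩))
        · exact Or.inl (Or.inr (Or.inr (mem_filter.2 ⟨hs, y⟩)))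
      · exact Or.inl (Or.inl (Or.inl (mem_filter.2 ⟨hs, u1, u2⟩)))
  have cX : (slots V t).card ≤ D.card + (S2 V t R).card + (2 * (HL V t R).card) +
      (S1 V t R ∪ S').card := by
    refine (card_le_card hX).trans ((card_union_le _ _).trans ?_)
    refine Nat.add_le_add_right ((card_union_le _ _).trans ?_) _
    have e1 := card_union_le D (S2 V t R)
    have e2 := card_union_le (HL V t R) H'
    omega
  have key := trace_bound (rows V t R) (J1 ∪ J2) (slots V t) D (S1 V t R ∪ S') (N2 V t R) AccV hB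
    (Acc_ind h) (union_subset (filter_subset _ _) (filter_subset _ _)) (filter_subset _ _)
    (union_subset (filter_subset _ _) (filter_subset _ _))
    (fun s hs => mains_sub (mem_N2.1 hs).1) ?_ ?_ ?_ ?_ ?_
    (fun x hx => Acc_ann (mem_N2.1 hx).2.2.2)
  · have cJ : ((J1 ∪ J2).card : ℝ) ≤ 2 * (WK.W V.card t (Rm t R) : ℝ) := by
      have e := card_union_le J1 J2
      rw [cJ1, cJ2] at e
      have e' : ((J1 ∪ J2).card : ℝ) ≤
          ((WK.W V.card t (Rm t R) + WK.W V.card t (Rm t R) : ℕ) : ℝ) := by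
        exact_mod_cast e
      push_cast at e'
      linarith
    have cX' : ((slots V t).card : ℝ) ≤ ((D.card + (S2 V t R).card + (2 * (HL V t R).card) +
      (S1 V t R ∪ S').card : ℕ) : ℝ) := by exact_mod_cast cX
    push_cast at cX'
    linarith
  · rw [disjoint_left]
    intro s hs hs2
    have d := (mem_filter.1 hs).2
    rcases mem_union.1 hs2 with hs2 | hs2
    · exact d.1 (mem_S1.1 hs2).2.1.1
    · exact d.2 (mem_filter.1 hs2).2.1.1
  · rw [disjoint_left]
    intro s hs hs2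
    exact (mem_filter.1 hs).2.1 (mem_N2.1 hs2).2.1
  · rw [disjoint_left]
    intro s hs hs2
    have d := (mem_N2.1 hs2).2
    rcases mem_union.1 hs with hs | hs
    · exact (mem_S1.1 hs).2.2 d.2.1
    · exact (mem_filter.1 hs).2.2 d.1
  · intro s hs r hr
    apply AccV_zero
    rintro ⟨h1, h2⟩
    have d := (mem_filter.1 hs).2
    rcases (mem_rows.1 hr).2.2.2.2.2 with a | a
    · exact d.1 ⟨_, a, h1⟩
    · exact d.2 ⟨_, a, h2⟩
  · intro s hs r hr hrJ
    apply AccV_zero
    rintro ⟨h1, h2⟩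
    obtain ⟨-, -, -, a4, a5, a6⟩ := mem_rows.1 hr
    apply hrJ
    rcases mem_union.1 hs with hs | hs
    · obtain ⟨-, y1, y2⟩ := mem_S1.1 hs
      have n2 : r.2 ∉ R := fun hh => y2 ⟨_, hh, h2⟩
      have m1 : r.1 ∈ R := a6.resolve_right n2
      exact mem_union_left _ (mem_filter.2 ⟨hr, Acc_rm h y1 m1 h1, a5.resolve_left n2⟩)
    · obtain ⟨-, y1, y2⟩ := mem_filter.1 hs
      have n1 : r.1 ∉ R := fun hh => y2 ⟨_, hh, h1⟩
      have m2 : r.2 ∈ R := a6.resolve_left n1
      exact mem_union_right _ (mem_filter.2 ⟨hr, Acc_rm h y1 m2 h2, a4.resolve_left n1⟩)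

end Pool.Agent.H37.AV
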