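import Pool.Agent.H37.AV.RowsCard

/-!
Module BaseLower.  `2 W(base)` is at least `(1 - δ)` times the number of slots, `n ≥ n₀(t, δ)`.

`central_le`: `c_m = C(2m,m) / 4^m` satisfies `c_m² (2m+1) ≤ 1` (induction: `c_(m+1) = c_m (2m+1)/(2m+2)` and
`(2m+1)(2m+3) ≤ (2m+2)²`), so for every `δ' > 0` and `N ≥ N₀` all `C(N, j) ≤ δ' 2^N`
(`Nat.choose_le_middle`; for odd `N`, `C(2m+1, m) = C(2m+2, m+1) / 2`).
`base_lower`: by `w_eq_slots` `W(base) = #{slots, s.1 ∈ base}`, and by symmetry also `#{slots, s.2 ∈ base}`;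
no slot has both sides in `base` (they would meet in more than `t` elements, or directly:
`|s.1| + |s.2| ≤ n`).  A slot `(P, Q)` with `P, Q ∉ base`: for `n + t` odd `2|P|, 2|Q| ≤ n + t` and
`|P| + |Q| ≥ n - t + 1`, so `n - 3t + 2 ≤ 2|P| ≤ n + t`; for `n + t` even, with `P* = P \ {1}`,
`2|P*|, 2|Q*| ≤ n + t - 1` and `|P*| + |Q*| ≥ n - t`, so `n - 3t + 1 ≤ 2|P*| ≤ n + t - 1`.  For a given
kernel `K` with `k < t` elements the number of such `P ⊆ [n] \ K` is at most `(2t+1)`, resp. `2 (2t+1)`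
(with or without `1`), times the largest binomial coefficient `C(N, ·)`, `N ≤ n - k`, `N ≥ n - k - 1`, so at
most `(8t+4) δ' 2^(n-k)`; the number of slots is `∑_K 2^(n-|K|)`.
-/

open Finset

namespace Pool.Agent.H37.AV

private lemma bl_central (m : ℕ) : Nat.centralBinom m ^ 2 * (2 * m + 1) ≤ 16 ^ m := by
  induction m with
  | zero => simp
  | succ m ih =>
    have h := Nat.succ_mul_centralBinom_succ m
    have h1 : (Nat.centralBinom (m + 1) ^ 2 * (2 * (m + 1) + 1)) * (m + 1) ^ 2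
        = ((m + 1) * Nat.centralBinom (m + 1)) ^ 2 * (2 * m + 3) := by ring
    have h2 : ((m + 1) * Nat.centralBinom (m + 1)) ^ 2 * (2 * m + 3)
        = 4 * ((2 * m + 1) * (2 * m + 3)) * (Nat.centralBinom m ^ 2 * (2 * m + 1)) := by
      rw [h]; ring
    have h3 : 4 * ((2 * m + 1) * (2 * m + 3)) * (Nat.centralBinom m ^ 2 * (2 * m + 1)) ≤
        4 * ((2 * m + 2) * (2 * m + 2)) * 16 ^ m := by
      refine Nat.mul_le_mul ?_ ih
      nlinarith
    have h4 : 4 * ((2 * m + 2) * (2 * m + 2)) * 16 ^ m = 16 ^ (m + 1) * (m + 1) ^ 2 := by ring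
    have h5 : (Nat.centralBinom (m + 1) ^ 2 * (2 * (m + 1) + 1)) * (m + 1) ^ 2 ≤
        16 ^ (m + 1) * (m + 1) ^ 2 := by
      rw [h1, h2, ← h4]; exact h3
    exact Nat.le_of_mul_le_mul_right h5 (by positivity)

private lemma bl_choose (N j : ℕ) : N.choose j ^ 2 * (N + 1) ≤ 4 ^ N := by
  have hmid := Nat.choose_le_middle j N
  refine (Nat.mul_le_mul_right _ (Nat.pow_le_pow_left hmid 2)).trans ?_
  rcases Nat.even_or_odd' N with ⟨m, rfl | rfl⟩
  · have h1 := bl_central m
    have h2 : 2 * m / 2 = m := by omega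
    rw [h2, ← Nat.centralBinom_eq_two_mul_choose]
    calc Nat.centralBinom m ^ 2 * (2 * m + 1) ≤ 16 ^ m := h1
      _ = 4 ^ (2 * m) := by rw [pow_mul]; norm_num
  · have h1 := bl_central (m + 1)
    have h2 : (2 * m + 1) / 2 = m := by omega
    rw [h2]
    have h3 : Nat.centralBinom (m + 1) = 2 * (2 * m + 1).choose m := by
      rw [Nat.centralBinom_eq_two_mul_choose]
      have h4 : 2 * (m + 1) = (2 * m + 1) + 1 := by ring
      rw [h4, Nat.choose_succ_succ]
      have h5 : (2 * m + 1).choose (m + 1) = (2 * m + 1).choose m := by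
        rw [← Nat.choose_symm_of_eq_add]
        omega
      rw [h5]; ring
    rw [h3] at h1
    have h6 : (2 * (2 * m + 1).choose m) ^ 2 * (2 * (m + 1) + 1)
        = 4 * ((2 * m + 1).choose m ^ 2 * (2 * m + 3)) := by ring
    have h7 : (16 : ℕ) ^ (m + 1) = 4 * 4 ^ (2 * m + 1) := by
      rw [show (16 : ℕ) = 4 ^ 2 by norm_num, ← pow_mul]
      ring
    rw [h6, h7] at h1
    have h8 := Nat.le_of_mul_le_mul_left h1 (by norm_num)
    refine le_trans (Nat.mul_le_mul_left _ ?_) h8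
    omega

private lemma bl_small {δ : ℝ} (hδ : 0 < δ) {N : ℕ} (hN : 1 / δ ^ 2 ≤ (N : ℝ) + 1) (j : ℕ) :
    ((N.choose j : ℕ) : ℝ) ≤ δ * 2 ^ N := by
  have h1 : ((N.choose j : ℕ) : ℝ) ^ 2 * ((N : ℝ) + 1) ≤ 4 ^ N := by
    exact_mod_cast bl_choose N j
  have hN1 : 1 ≤ δ ^ 2 * ((N : ℝ) + 1) := by
    rw [div_le_iff₀ (by positivity)] at hN
    linarith
  have h2 : ((N.choose j : ℕ) : ℝ) ^ 2 ≤ (δ * 2 ^ N) ^ 2 := by
    have h3 : (δ * 2 ^ N) ^ 2 = δ ^ 2 * 4 ^ N := by
      rw [mul_pow, ← pow_mul, mul_comm N 2, pow_mul]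
      norm_num
    rw [h3]
    calc ((N.choose j : ℕ) : ℝ) ^ 2 = ((N.choose j : ℕ) : ℝ) ^ 2 * 1 := (mul_one _).symm
      _ ≤ ((N.choose j : ℕ) : ℝ) ^ 2 * (δ ^ 2 * ((N : ℝ) + 1)) :=
          mul_le_mul_of_nonneg_left hN1 (by positivity)
      _ = δ ^ 2 * (((N.choose j : ℕ) : ℝ) ^ 2 * ((N : ℝ) + 1)) := by ring
      _ ≤ δ ^ 2 * 4 ^ N := mul_le_mul_of_nonneg_left h1 (by positivity)
  exact le_of_sq_le_sq h2 (by positivity)

private lemma bl_base_sub {n t : ℕ} : ∀ A ∈ WK.base n t, A ⊆ Icc 1 n := by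
  intro A hA
  unfold WK.base at hA
  split_ifs at hA <;>
  · rw [Finset.mem_filter, Finset.mem_powerset] at hA
    exact hA.1

/-- sizes of the two sides of a slot -/
private lemma bl_sum {n t : ℕ} {s : Slot} (hs : s ∈ slots (Icc 1 n) t) :
    s.1.card + s.2.card + (ker (Icc 1 n) s).card = n := by
  obtain ⟨h1, h2, h3, -⟩ := mem_slots.1 hs
  have h4 : (ker (Icc 1 n) s).card = (Icc 1 n).card - (s.1 ∪ s.2).card :=
    Finset.card_sdiff_of_subset (Finset.union_subset h1 h2)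
  have h5 := Finset.card_le_card (Finset.union_subset h1 h2)
  rw [Finset.card_union_of_disjoint h3] at h4 h5
  rw [Nat.card_Icc] at h4 h5
  omega

private lemma bl_win {n t : ℕ} {s : Slot} (hs : s ∈ slots (Icc 1 n) t)
    (h1 : s.1 ∉ WK.base n t) (h2 : s.2 ∉ WK.base n t) :
    n + 1 ≤ 2 * s.1.card + 3 * t ∧ 2 * s.1.card ≤ n + t + 1 := by
  have hsum := bl_sum hs
  obtain ⟨s1, s2, -, hk⟩ := mem_slots.1 hs
  unfold WK.base at h1 h2
  have hcap : ∀ A : Finset ℕ, A ⊆ Icc 1 n → A.card ≤ (A ∩ (Icc 1 n \ {1})).card + 1 := by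
    intro A hA
    have : A ⊆ insert 1 (A ∩ (Icc 1 n \ {1})) := by
      intro x hx
      rw [Finset.mem_insert, Finset.mem_inter, Finset.mem_sdiff, Finset.mem_singleton]
      by_cases hx1 : x = 1
      · exact Or.inl hx1
      · exact Or.inr ⟨hx, hA hx, hx1⟩
    exact (Finset.card_le_card this).trans (Finset.card_insert_le _ _)
  split_ifs at h1 h2 with hodd
  · rw [Finset.mem_filter, Finset.mem_powerset, not_and] at h1 h2
    have h3 := h1 s1
    have h4 := h2 s2
    omega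
  · rw [Finset.mem_filter, Finset.mem_powerset, not_and] at h1 h2
    have h3 := h1 s1
    have h4 := h2 s2
    have h5 := hcap _ s1
    have h6 := hcap _ s2
    have h7 := Finset.card_le_card (Finset.inter_subset_left (s₁ := s.1) (s₂ := Icc 1 n \ {1}))
    -- the element `1` is in at most one of the two sides
    have h8 : s.1.card + s.2.card ≤
        (s.1 ∩ (Icc 1 n \ {1})).card + (s.2 ∩ (Icc 1 n \ {1})).card + 1 := by
      obtain ⟨-, -, hd, -⟩ := mem_slots.1 hs
      have hd' : Disjoint (s.1 ∩ (Icc 1 n \ {1})) (s.2 ∩ (Icc 1 n \ {1})) :=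
        hd.mono Finset.inter_subset_left Finset.inter_subset_left
      rw [← Finset.card_union_of_disjoint hd, ← Finset.card_union_of_disjoint hd']
      have : s.1 ∪ s.2 ⊆ insert 1 (s.1 ∩ (Icc 1 n \ {1}) ∪ s.2 ∩ (Icc 1 n \ {1})) := by
        intro x hx
        rw [Finset.mem_union] at hx
        rw [Finset.mem_insert, Finset.mem_union, Finset.mem_inter, Finset.mem_inter,
          Finset.mem_sdiff, Finset.mem_singleton]
        by_cases hx1 : x = 1
        · exact Or.inl hx1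
        · rcases hx with hx | hx
          · exact Or.inr (Or.inl ⟨hx, s1 hx, hx1⟩)
          · exact Or.inr (Or.inr ⟨hx, s2 hx, hx1⟩)
      exact (Finset.card_le_card this).trans (Finset.card_insert_le _ _)
    omega

private def blW (n t : ℕ) : Finset ℕ := Icc ((n + 1 - 3 * t) / 2) ((n + 1 - 3 * t) / 2 + 2 * t)

/-- bad slots with a given kernel -/
private lemma bl_fiber_le {n t : ℕ} {K : Finset ℕ} (hK : K ⊆ Icc 1 n) {δ : ℝ} (hδ : 0 < δ)
    (hN : 1 / δ ^ 2 ≤ ((n - K.card : ℕ) : ℝ) + 1) :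
    ((((slots (Icc 1 n) t).filter (fun s => s.1 ∉ WK.base n t ∧ s.2 ∉ WK.base n t)).filter
      (fun s => ker (Icc 1 n) s = K)).card : ℝ) ≤ (2 * t + 1) * (δ * 2 ^ (n - K.card)) := by
  classical
  have hVK : (Icc 1 n \ K).card = n - K.card := by
    rw [Finset.card_sdiff_of_subset hK, Nat.card_Icc, Nat.add_sub_cancel]
  have h1 : (((slots (Icc 1 n) t).filter (fun s => s.1 ∉ WK.base n t ∧ s.2 ∉ WK.base n t)).filter
      (fun s => ker (Icc 1 n) s = K)).card ≤
      ((blW n t).biUnion (fun p => (Icc 1 n \ K).powersetCard p)).card := by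
    refine Finset.card_le_card_of_injOn (fun s => s.1) ?_ ?_
    · intro s hs
      rw [Finset.mem_coe, Finset.mem_filter, Finset.mem_filter] at hs
      obtain ⟨⟨hs1, hs2, hs3⟩, hs4⟩ := hs
      have hw := bl_win hs1 hs2 hs3
      obtain ⟨s1, s2, -, -⟩ := mem_slots.1 hs1
      rw [Finset.mem_coe, Finset.mem_biUnion]
      refine ⟨s.1.card, ?_, ?_⟩
      · unfold blW
        rw [Finset.mem_Icc]
        omega
      · rw [Finset.mem_powersetCard]
        refine ⟨?_, rfl⟩
        intro x hx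
        rw [Finset.mem_sdiff]
        refine ⟨s1 hx, ?_⟩
        rw [← hs4]
        unfold ker
        rw [Finset.mem_sdiff, Finset.mem_union]
        tauto
    · intro s hs s' hs' he
      rw [Finset.mem_coe, Finset.mem_filter, Finset.mem_filter] at hs hs'
      obtain ⟨⟨hs1, -⟩, hs4⟩ := hs
      obtain ⟨⟨hs1', -⟩, hs4'⟩ := hs'
      have key : ∀ u : Slot, u ∈ slots (Icc 1 n) t → ker (Icc 1 n) u = K →
          u.2 = (Icc 1 n \ K) \ u.1 := by
        intro u hu hk
        obtain ⟨u1, u2, u3, -⟩ := mem_slots.1 hu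
        ext x
        rw [Finset.mem_sdiff, Finset.mem_sdiff, ← hk]
        unfold ker
        rw [Finset.mem_sdiff, Finset.mem_union]
        constructor
        · intro hx
          refine ⟨⟨u2 hx, fun h => h.2 (Or.inr hx)⟩, fun h => ?_⟩
          exact (Finset.disjoint_left.mp u3) h hx
        · rintro ⟨⟨hx1, hx2⟩, hx3⟩
          by_contra hx4
          exact hx2 ⟨hx1, fun h => h.elim hx3 hx4⟩
      have e1 : s.1 = s'.1 := he
      have e2 : s.2 = s'.2 := by
        rw [key s hs1 hs4, key s' hs1' hs4', e1]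
      exact Prod.ext e1 e2
  have h2 : (((blW n t).biUnion (fun p => (Icc 1 n \ K).powersetCard p)).card : ℝ) ≤
      ∑ _p ∈ blW n t, δ * 2 ^ (n - K.card) := by
    refine le_trans (Nat.cast_le.mpr Finset.card_biUnion_le) ?_
    rw [Nat.cast_sum]
    refine Finset.sum_le_sum fun p _ => ?_
    rw [Finset.card_powersetCard, hVK]
    exact bl_small hδ hN p
  have h3 : (blW n t).card = 2 * t + 1 := by
    unfold blW
    rw [Nat.card_Icc]
    omega
  rw [Finset.sum_const, h3, nsmul_eq_mul] at h2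
  have h4 : ((2 * t + 1 : ℕ) : ℝ) = 2 * t + 1 := by push_cast; ring
  rw [h4] at h2
  exact le_trans (Nat.cast_le.mpr h1) h2

/-- all slots with a given kernel -/
private lemma bl_fiber_ge {n t : ℕ} {K : Finset ℕ} (hK : K ⊆ Icc 1 n) (hKt : K.card < t) :
    2 ^ (n - K.card) ≤ ((slots (Icc 1 n) t).filter (fun s => ker (Icc 1 n) s = K)).card := by
  classical
  have hVK : (Icc 1 n \ K).card = n - K.card := by
    rw [Finset.card_sdiff_of_subset hK, Nat.card_Icc, Nat.add_sub_cancel]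
  rw [← hVK, ← Finset.card_powerset]
  refine Finset.card_le_card_of_injOn (fun P => (P, (Icc 1 n \ K) \ P)) ?_ ?_
  · intro P hP
    rw [Finset.mem_coe, Finset.mem_powerset] at hP
    rw [Finset.mem_coe, Finset.mem_filter]
    have hk : ker (Icc 1 n) (P, (Icc 1 n \ K) \ P) = K := by
      unfold ker
      ext x
      simp only [Finset.mem_sdiff, Finset.mem_union]
      constructor
      · rintro ⟨h1, h2⟩
        by_contra h3
        exact h2 (by
          by_cases h4 : x ∈ P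
          · exact Or.inl h4
          · exact Or.inr ⟨⟨h1, h3⟩, h4⟩)
      · intro h
        refine ⟨hK h, ?_⟩
        rintro (h1 | h1)
        · exact (Finset.mem_sdiff.1 (hP h1)).2 h
        · exact h1.1.2 h
    refine ⟨mem_slots.2 ⟨hP.trans Finset.sdiff_subset,
      Finset.sdiff_subset.trans Finset.sdiff_subset, Finset.disjoint_sdiff, ?_⟩, hk⟩
    rw [hk]
    exact hKt
  · intro P _ P' _ he
    exact congrArg Prod.fst he

theorem base_lower (t : ℕ) (ht : 1 ≤ t) {δ : ℝ} (hδ : 0 < δ) :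
    ∃ n₀ : ℕ, ∀ n ≥ n₀, ((slots (Icc 1 n) t).card : ℝ) * (1 - δ) ≤
      2 * (WK.W n t (WK.base n t) : ℝ) := by
  classical
  have _ := ht
  have h2t : (0 : ℝ) < 2 * t + 1 := by positivity
  set δ' : ℝ := δ / (2 * t + 1) with hδ'
  have hδ'pos : 0 < δ' := div_pos hδ h2t
  refine ⟨t + ⌈1 / δ' ^ 2⌉₊, fun n hn => ?_⟩
  have hV : (Icc 1 n).card = n := by rw [Nat.card_Icc, Nat.add_sub_cancel]
  have hW1 := w_eq_slots (t := t) (bl_base_sub (n := n) (t := t))
  rw [hV] at hW1
  have hW2 : ((slots (Icc 1 n) t).filter (fun s => s.1 ∈ WK.base n t)).card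
      = ((slots (Icc 1 n) t).filter (fun s => s.2 ∈ WK.base n t)).card := by
    refine Finset.card_bij (fun s _ => s.swap) ?_ ?_ ?_
    · intro s hs
      rw [Finset.mem_filter] at hs ⊢
      exact ⟨swap_mem_slots hs.1, hs.2⟩
    · intro s _ s' _ he
      exact Prod.swap_injective he
    · intro s hs
      rw [Finset.mem_filter] at hs
      exact ⟨s.swap, Finset.mem_filter.2 ⟨swap_mem_slots hs.1, hs.2⟩, Prod.swap_swap s⟩
  set bad := (slots (Icc 1 n) t).filter (fun s => s.1 ∉ WK.base n t ∧ s.2 ∉ WK.base n t)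
    with hbad
  have hcover : (slots (Icc 1 n) t).card ≤ WK.W n t (WK.base n t) + WK.W n t (WK.base n t)
      + bad.card := by
    conv_rhs => rw [hW1]
    conv_rhs => rw [add_assoc]
    have h1 : slots (Icc 1 n) t ⊆ (slots (Icc 1 n) t).filter (fun s => s.1 ∈ WK.base n t) ∪
        ((slots (Icc 1 n) t).filter (fun s => s.2 ∈ WK.base n t) ∪ bad) := by
      intro s hs
      rw [Finset.mem_union, Finset.mem_union, hbad, Finset.mem_filter, Finset.mem_filter,
        Finset.mem_filter]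
      by_cases h1 : s.1 ∈ WK.base n t
      · exact Or.inl ⟨hs, h1⟩
      · by_cases h2 : s.2 ∈ WK.base n t
        · exact Or.inr (Or.inl ⟨hs, h2⟩)
        · exact Or.inr (Or.inr ⟨hs, h1, h2⟩)
    refine (Finset.card_le_card h1).trans ((Finset.card_union_le _ _).trans ?_)
    refine Nat.add_le_add_left ((Finset.card_union_le _ _).trans ?_) _
    rw [← hW2]
  -- kernels
  set 𝒦 := (Icc 1 n).powerset.filter (fun K : Finset ℕ => K.card < t) with h𝒦
  have hmap : ∀ s ∈ slots (Icc 1 n) t, ker (Icc 1 n) s ∈ 𝒦 := by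
    intro s hs
    rw [h𝒦, Finset.mem_filter, Finset.mem_powerset]
    exact ⟨Finset.sdiff_subset, (mem_slots.1 hs).2.2.2⟩
  have hslots := Finset.card_eq_sum_card_fiberwise (f := ker (Icc 1 n))
    (s := slots (Icc 1 n) t) (t := 𝒦) hmap
  have hbadc := Finset.card_eq_sum_card_fiberwise (f := ker (Icc 1 n))
    (s := bad) (t := 𝒦) (fun s hs => hmap s (Finset.mem_filter.1 hs).1)
  have hbadle : (bad.card : ℝ) ≤ δ * ((slots (Icc 1 n) t).card : ℝ) := by
    rw [hbadc, hslots, Nat.cast_sum, Nat.cast_sum, Finset.mul_sum]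
    refine Finset.sum_le_sum fun K hK => ?_
    rw [h𝒦, Finset.mem_filter, Finset.mem_powerset] at hK
    have hN : 1 / δ' ^ 2 ≤ ((n - K.card : ℕ) : ℝ) + 1 := by
      have h1 : ⌈1 / δ' ^ 2⌉₊ ≤ n - K.card := by
        have := hK.2
        omega
      have h2 : (⌈1 / δ' ^ 2⌉₊ : ℝ) ≤ ((n - K.card : ℕ) : ℝ) := by exact_mod_cast h1
      have h3 := Nat.le_ceil (1 / δ' ^ 2)
      linarith
    have h1 := bl_fiber_le (t := t) hK.1 hδ'pos hN
    have h2 : ((2 ^ (n - K.card) : ℕ) : ℝ) ≤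
        (((slots (Icc 1 n) t).filter (fun s => ker (Icc 1 n) s = K)).card : ℝ) := by
      exact_mod_cast bl_fiber_ge hK.1 hK.2
    have h3 : (2 * (t : ℝ) + 1) * (δ' * 2 ^ (n - K.card)) = δ * 2 ^ (n - K.card) := by
      rw [hδ', ← mul_assoc, mul_div_cancel₀ _ h2t.ne']
    rw [h3] at h1
    refine h1.trans (mul_le_mul_of_nonneg_left ?_ hδ.le)
    rw [Nat.cast_pow, Nat.cast_ofNat] at h2
    exact h2
  have hcR : ((slots (Icc 1 n) t).card : ℝ) ≤ (WK.W n t (WK.base n t) : ℝ)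
      + (WK.W n t (WK.base n t) : ℝ) + (bad.card : ℝ) := by
    exact_mod_cast hcover
  linarith

end Pool.Agent.H37.AV
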