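import Pool.Agent.H37.AV.Zones

/-!
Module NegCost.  The weight of `Ng`.  `x = rew`, `κ = Bd t`.

`sb t (n - |A|) ≤ (n+1)^t` (`∑_{j<t} C(b,j) ≤ ∑_{j<t} b^j C(t-1,j)`, or by induction, or
`C(b,j) ≤ b^j` and `t`-fold sum `≤ (b+1)^t`), so `W(Ng) ≤ |Ng| (n+1)^t`.
`neg_count`: `#{P ⊆ [n] : InY P, s ≤ |P|} ≤ (2n/s)^(t+1) x / (2θ) + 240 κ (hh+t) x`: map `P` to the slot
`(P, [n] \ P)` (empty kernel, `t ≥ 1`), in `S1` or `S2`; for those in `S1` `st_ge'` (`2 t ≤ s ≤ |P|`) gives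
`(s/(2n))^(t+1) ≤ st n t |P|`, and `s1_st_le`; those in `S2`: `s2_card`.
`neg_cost`: `neg_bound` and `e5`.  (`|[n]| = n`; `s ≥ 1`, `n ≥ 1` as `2 t ≤ s`, `80 s ≤ n`.)
-/

open Finset

namespace Pool.Agent.H37.AV

variable {n t w r m h1 hh M s c1 : ℕ} {α β θ : ℝ} {R : Finset (Finset ℕ)}

private lemma nc_sb_zero (t : ℕ) : WK.sb t 0 ≤ 1 := by
  unfold WK.sb
  cases t with
  | zero => simp
  | succ t =>
    rw [sum_range_succ']
    simp

private lemma nc_sb (t b : ℕ) : WK.sb t b ≤ (b + 1) ^ t := by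
  rcases Nat.eq_zero_or_pos b with rfl | hb
  · simpa using nc_sb_zero t
  · induction t with
    | zero => simp [WK.sb]
    | succ t ih =>
      have h1 : WK.sb (t + 1) b = WK.sb t b + b.choose t := by
        unfold WK.sb
        exact sum_range_succ _ _
      have h2 : b.choose t ≤ b ^ t := Nat.choose_le_pow b t
      have h3 : b ^ t ≤ (b + 1) ^ t := Nat.pow_le_pow_left (by omega) t
      have h4 : (b + 1) ^ t ≤ b * (b + 1) ^ t := Nat.le_mul_of_pos_left _ hb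
      have h5 : (b + 1) ^ (t + 1) = b * (b + 1) ^ t + (b + 1) ^ t := by ring
      omega

private lemma nc_slot {V Z : Finset ℕ} {t : ℕ} (ht : 1 ≤ t) (hZ : Z ⊆ V) :
    ((Z, V \ Z) : Slot) ∈ slots V t := by
  rw [mem_slots]
  refine ⟨hZ, sdiff_subset, disjoint_sdiff, ?_⟩
  have h1 : ker V (Z, V \ Z) = ∅ := by
    show V \ (Z ∪ (V \ Z)) = ∅
    rw [union_sdiff_of_subset hZ, sdiff_self]
    rfl
  rw [h1, card_empty]
  omega

theorem neg_count (P : Prm n t w r m h1 hh M s c1 α β θ) (h : Av (Icc 1 n) t R)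
    (hbig : ∀ A ∈ R, w ≤ A.card) :
    (((Icc 1 n).powerset.filter (fun Z => InY t R Z ∧ s ≤ Z.card)).card : ℝ) ≤
      ((2 * (n : ℝ) / s) ^ (t + 1) / (2 * θ) + 240 * Bd t * (hh + t)) * rew n t r m s θ R := by
  classical
  have ht := P.ht
  have hs2 := P.hts
  have hsn := P.hsn
  have hθ := P.hθ
  have hn0 : (0 : ℝ) < n := by
    have : 0 < n := by omega
    exact_mod_cast this
  have hs0 : (0 : ℝ) < s := by
    have : 0 < s := by omega
    exact_mod_cast this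
  set F := (Icc 1 n).powerset.filter (fun Z => InY t R Z ∧ s ≤ Z.card) with hF
  let f : Finset ℕ → Slot := fun Z => (Z, Icc 1 n \ Z)
  have hf : Function.Injective f := fun Z Z' hZ => congrArg Prod.fst hZ
  have hmemF : ∀ Z ∈ F, Z ⊆ Icc 1 n ∧ InY t R Z ∧ s ≤ Z.card := by
    intro Z hZ
    rw [hF, mem_filter, mem_powerset] at hZ
    exact hZ
  have hsplit := card_filter_add_card_filter_not (s := F) (fun Z => Up R (Icc 1 n \ Z))
  -- the part in `S2`
  have h2 : ((F.filter (fun Z => Up R (Icc 1 n \ Z))).card : ℝ) ≤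
      240 * Bd t * (hh + t) * rew n t r m s θ R := by
    refine le_trans ?_ (s2_card P h hbig)
    rw [← card_image_of_injective _ hf]
    have hsub : (F.filter (fun Z => Up R (Icc 1 n \ Z))).image f ⊆ S2 (Icc 1 n) t R := by
      intro σ hσ
      obtain ⟨Z, hZ, rfl⟩ := mem_image.1 hσ
      obtain ⟨hZ1, hZ2⟩ := mem_filter.1 hZ
      obtain ⟨hZ3, hZ4, hZ5⟩ := hmemF Z hZ1
      exact mem_S2.2 ⟨nc_slot (by omega) hZ3, hZ4.1, hZ2⟩
    exact_mod_cast card_le_card hsub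
  -- the part in `S1`
  have h1 : ((F.filter (fun Z => ¬ Up R (Icc 1 n \ Z))).card : ℝ) ≤
      (2 * (n : ℝ) / s) ^ (t + 1) / (2 * θ) * rew n t r m s θ R := by
    set G := F.filter (fun Z => ¬ Up R (Icc 1 n \ Z)) with hG
    have hsub : G.image f ⊆ S1 (Icc 1 n) t R := by
      intro σ hσ
      obtain ⟨Z, hZ, rfl⟩ := mem_image.1 hσ
      obtain ⟨hZ1, hZ2⟩ := mem_filter.1 hZ
      obtain ⟨hZ3, hZ4, hZ5⟩ := hmemF Z hZ1
      exact mem_S1.2 ⟨nc_slot (by omega) hZ3, hZ4, hZ2⟩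
    have h3 : ∑ σ ∈ G.image f, st n t σ.1.card ≤ rew n t r m s θ R / (2 * θ) :=
      (Finset.sum_le_sum_of_subset_of_nonneg hsub fun σ _ _ => st_nonneg _ _ _).trans
        (s1_st_le P)
    rw [Finset.sum_image (fun a _ b _ hab => hf hab)] at h3
    have h4 : (G.card : ℝ) * ((s : ℝ) / (2 * n)) ^ (t + 1) ≤ ∑ Z ∈ G, st n t (f Z).1.card := by
      rw [← nsmul_eq_mul, ← Finset.sum_const]
      refine Finset.sum_le_sum fun Z hZ => ?_
      obtain ⟨hZ1, hZ2⟩ := mem_filter.1 hZ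
      obtain ⟨hZ3, hZ4, hZ5⟩ := hmemF Z hZ1
      have hZn : Z.card ≤ n := by
        have := card_le_card hZ3
        simpa using this
      refine le_trans ?_ (st_ge' (n := n) (t := t) (u := Z.card) (by omega) hZn (by omega))
      have h5 : (s : ℝ) ≤ Z.card := by exact_mod_cast hZ5
      gcongr
    have h5 : (G.card : ℝ) * ((s : ℝ) / (2 * n)) ^ (t + 1) ≤ rew n t r m s θ R / (2 * θ) :=
      h4.trans h3
    have h6 : (2 * (n : ℝ) / s) ^ (t + 1) * ((s : ℝ) / (2 * n)) ^ (t + 1) = 1 := by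
      rw [← mul_pow]
      have : 2 * (n : ℝ) / s * (s / (2 * n)) = 1 := by field_simp
      rw [this, one_pow]
    have h7 : (0 : ℝ) ≤ (2 * (n : ℝ) / s) ^ (t + 1) := by positivity
    calc (G.card : ℝ) = (2 * (n : ℝ) / s) ^ (t + 1) *
          ((G.card : ℝ) * ((s : ℝ) / (2 * n)) ^ (t + 1)) := by
          rw [mul_left_comm, h6, mul_one]
      _ ≤ (2 * (n : ℝ) / s) ^ (t + 1) * (rew n t r m s θ R / (2 * θ)) :=
          mul_le_mul_of_nonneg_left h5 h7
      _ = _ := by ring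
  have h3 : (F.card : ℝ) = ((F.filter (fun Z => Up R (Icc 1 n \ Z))).card : ℝ) +
      ((F.filter (fun Z => ¬ Up R (Icc 1 n \ Z))).card : ℝ) := by
    exact_mod_cast hsplit.symm
  rw [h3]
  linarith

theorem neg_cost (P : Prm n t w r m h1 hh M s c1 α β θ) (h : Av (Icc 1 n) t R)
    (hbig : ∀ A ∈ R, w ≤ A.card) :
    2 * (WK.W n t (Ng (Icc 1 n) t R s) : ℝ) ≤ rew n t r m s θ R / 16 := by
  have ht := P.ht
  have hs2 := P.hts
  have hsn := P.hsn
  have hn0 : (0 : ℝ) < n := by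
    have : 0 < n := by omega
    exact_mod_cast this
  have hx := rew_nonneg (R := R) P
  have hnb := neg_bound h (s := s) (by omega)
  have hcard : ((Icc 1 n).card : ℝ) = n := by simp
  rw [hcard] at hnb
  have hcount := neg_count P h hbig
  have he5 := P.e5
  set Q : ℝ := (1 + 2 * (s : ℝ) / n) ^ s with hQ
  have hQ0 : 0 < Q := by
    rw [hQ]
    positivity
  have hW : WK.W n t (Ng (Icc 1 n) t R s) ≤ (Ng (Icc 1 n) t R s).card * (n + 1) ^ t := by
    unfold WK.W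
    rw [← smul_eq_mul]
    refine Finset.sum_le_card_nsmul _ _ _ fun A _ => ?_
    exact (nc_sb t _).trans (Nat.pow_le_pow_left (by omega) t)
  have hW' : (WK.W n t (Ng (Icc 1 n) t R s) : ℝ) ≤
      ((Ng (Icc 1 n) t R s).card : ℝ) * ((n : ℝ) + 1) ^ t := by
    exact_mod_cast hW
  have hp : (0 : ℝ) < ((n : ℝ) + 1) ^ t := by positivity
  have h1 : 2 * (WK.W n t (Ng (Icc 1 n) t R s) : ℝ) * Q ≤
      2 * ((n : ℝ) + 1) ^ t * (((Ng (Icc 1 n) t R s).card : ℝ) * Q) := by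
    nlinarith [mul_le_mul_of_nonneg_right hW' hQ0.le]
  have h2 : 2 * ((n : ℝ) + 1) ^ t * (((Ng (Icc 1 n) t R s).card : ℝ) * Q) ≤
      2 * ((n : ℝ) + 1) ^ t * (((n : ℝ) + 1) ^ 2 *
        (((2 * (n : ℝ) / s) ^ (t + 1) / (2 * θ) + 240 * Bd t * (hh + t)) *
          rew n t r m s θ R)) := by
    refine mul_le_mul_of_nonneg_left (hnb.trans ?_) (by positivity)
    exact mul_le_mul_of_nonneg_left hcount (by positivity)
  have h3 : 2 * ((n : ℝ) + 1) ^ t * (((n : ℝ) + 1) ^ 2 *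
        (((2 * (n : ℝ) / s) ^ (t + 1) / (2 * θ) + 240 * Bd t * (hh + t)) *
          rew n t r m s θ R)) =
      (2 * ((n : ℝ) + 1) ^ (t + 2) *
        ((2 * (n : ℝ) / s) ^ (t + 1) / (2 * θ) + 240 * Bd t * (hh + t))) *
          rew n t r m s θ R := by
    rw [pow_add]
    ring
  have h4 : (2 * ((n : ℝ) + 1) ^ (t + 2) *
        ((2 * (n : ℝ) / s) ^ (t + 1) / (2 * θ) + 240 * Bd t * (hh + t))) *
          rew n t r m s θ R ≤ 1 / 16 * Q * rew n t r m s θ R :=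
    mul_le_mul_of_nonneg_right he5 hx
  have h5 : 2 * (WK.W n t (Ng (Icc 1 n) t R s) : ℝ) * Q ≤ rew n t r m s θ R / 16 * Q := by
    calc _ ≤ _ := h1
      _ ≤ _ := h2
      _ = _ := h3
      _ ≤ _ := h4
      _ = _ := by ring
  exact le_of_mul_le_mul_right h5 hQ0

end Pool.Agent.H37.AV
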