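import Pool.Agent.H37.AV.Zones

/-!
Module WallOne.  The weight of `cl1`.  `x = rew`, `κ = Bd t`, `𝒵` = all walls of the members of `cl1`.

`cl1_big`: `A ∈ cl1` has `2 |A| + |pt A| + 4 s ≥ n` (`A ∉ Ng`, `mem_Ng` with `B = pt A`, `pt_spec`), `|pt A| ≤ c1`
and `4 s ≤ 3 c1`, so `n ≤ 2 |A| + 4 c1`, and the same for every `Z ⊇ A`.
`wall_th`: `σ ∈ Th` with `σ.1 = Z ∈ 𝒵` (`wl_spec`: `A ⊆ Z`, `|Z \ A| ≤ t`): `|A ∩ Gs σ.swap| < t` by `few'`, so
`|σ.1 ∩ Gs σ.swap| ≤ 2 t - 1`; with `τ = σ.swap ∈ Th`: `Gs τ ⊆ τ.1 ∪ τ.2`, so `Gs τ \ τ.1 ⊆ σ.1 ∩ Gs τ` has at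
most `2 t - 1` elements.  `exits_near` with `d = 2 t - 1` and the antitone weight
`ω u = [n ≤ 2 (n + 1 - t - u) + 4 c1]` (for a main slot `τ`: `|τ.2| = n + 1 - t - |τ.1|`):
`# ≤ 2 t #{τ ∈ SQ : n ≤ 2 |τ.2| + 4 c1} + 2 t |N2| ≤ 2 t · 4 x + 2 t κ x ≤ 10 t κ x` (`sq_zone'`, `n2_le`).
`wall_one`: `W(𝒵) = #{slots, σ.1 ∈ 𝒵}` (`w_eq_slots`); `σ.1 ∈ 𝒵` is `InY` (`wl_spec`), so `σ ∈ S1` or `σ ∈ S2`.
The first kind: at most `4 x` by `s1_count_le` and `cl1_big`.  The second kind: `nonmain` with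
`g σ = [σ.1 ∈ 𝒵]`: at most `2 (κ x + 10 t κ x) + 2 · 4 x`.  So `W(𝒵) ≤ 35 t κ x` (`t ≥ 2`).
`wall_bound` with `b = w` (members have at least `w` elements): `w W(cl1) ≤ 2^(t+2) W(𝒵)`, and `e2`.
-/

open Finset

namespace Pool.Agent.H37.AV

variable {n t w r m h1 hh M s c1 : ℕ} {α β θ : ℝ} {R : Finset (Finset ℕ)}

private lemma wallone_mem {n t s c1 : ℕ} {R : Finset (Finset ℕ)} {A : Finset ℕ}
    (hA : A ∈ cl1 n t s c1 R) : A ∈ Rm t R ∧ A ∉ Ng (Icc 1 n) t R s ∧ (pt t R A).card ≤ c1 := by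
  classical
  unfold cl1 at hA
  simpa only [mem_filter] using hA

theorem cl1_big (P : Prm n t w r m h1 hh M s c1 α β θ) (h : Av (Icc 1 n) t R) {Z : Finset ℕ}
    (hZ : Z ∈ (cl1 n t s c1 R).biUnion (wl t R)) : n ≤ 2 * Z.card + 4 * c1 := by
  have hcard : (Icc 1 n : Finset ℕ).card = n := by simp
  obtain ⟨A, hA, hZA⟩ := mem_biUnion.1 hZ
  obtain ⟨a1, a2, a3⟩ := wallone_mem hA
  obtain ⟨w1, w2, w3, w4⟩ := wl_spec h a1 hZA
  obtain ⟨p1, p2, p3⟩ := pt_spec a1
  have hge : n ≤ 2 * A.card + (pt t R A).card + 4 * s := by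
    by_contra hcon
    push Not at hcon
    exact a2 (mem_Ng.2 ⟨(mem_Rm.1 a1).1, _, p1, p2, by rw [hcard]; omega⟩)
  have := card_le_card w2
  have := P.hsc
  omega

theorem wall_th (P : Prm n t w r m h1 hh M s c1 α β θ) (h : Av (Icc 1 n) t R) :
    (((Th (Icc 1 n) t R).filter (fun σ => σ.1 ∈ (cl1 n t s c1 R).biUnion (wl t R))).card : ℝ) ≤
      10 * t * Bd t * rew n t r m s θ R := by
  classical
  have hcard : (Icc 1 n : Finset ℕ).card = n := by simp
  have ht2 := P.ht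
  have ht1 : 1 ≤ t := by omega
  set ω : ℕ → ℝ := fun u => if n ≤ 2 * (n + 1 - t - u) + 4 * c1 then 1 else 0 with hω
  have hanti : Antitone ω := by
    intro u v huv
    simp only [hω]
    by_cases hv : n ≤ 2 * (n + 1 - t - v) + 4 * c1
    · have hu : n ≤ 2 * (n + 1 - t - u) + 4 * c1 := by omega
      rw [if_pos hv, if_pos hu]
    · rw [if_neg hv]
      split_ifs <;> norm_num
  have h0 : ∀ u, 0 ≤ ω u := by
    intro u
    simp only [hω]
    split_ifs <;> norm_num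
  have hle1 : ∀ u, ω u ≤ 1 := by
    intro u
    simp only [hω]
    split_ifs <;> norm_num
  have hmain : ∀ τ ∈ mains (Icc 1 n) t, τ.2.card = n + 1 - t - τ.1.card := by
    intro τ hτ
    obtain ⟨m1, m2, m3, m4⟩ := mem_mains.1 hτ
    have e1 : (ker (Icc 1 n) τ).card + (τ.1 ∪ τ.2).card = (Icc 1 n : Finset ℕ).card := by
      unfold ker
      exact card_sdiff_add_card_eq_card (union_subset m1 m2)
    rw [card_union_of_disjoint m3, hcard] at e1
    omega
  have hexit := exits_near (V := Icc 1 n) (R := R) ht2 h (2 * t - 1) hanti h0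
  have hd : (((2 * t - 1 : ℕ) : ℝ) + 1) = 2 * t := by
    have : (2 * t - 1 : ℕ) + 1 = 2 * t := by omega
    exact_mod_cast this
  rw [hd] at hexit
  have hSQ : ∑ s ∈ SQ (Icc 1 n) t R, ω s.1.card ≤ 4 * rew n t r m s θ R := by
    have e : ∑ s ∈ SQ (Icc 1 n) t R, ω s.1.card =
        (((SQ (Icc 1 n) t R).filter (fun σ => n ≤ 2 * σ.2.card + 4 * c1)).card : ℝ) := by
      rw [Finset.card_filter, Nat.cast_sum]
      refine Finset.sum_congr rfl fun σ hσ => ?_
      rw [hmain σ (mem_SQ.1 hσ).1]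
      simp only [hω]
      split_ifs <;> simp
    rw [e]
    exact sq_zone' P (filter_subset _ _) (fun σ hσ => (mem_filter.1 hσ).2)
  have hN2 : ∑ s ∈ N2 (Icc 1 n) t R, ω s.1.card ≤ Bd t * rew n t r m s θ R := by
    refine le_trans ?_ (n2_le (R := R) P)
    rw [Finset.card_eq_sum_ones, Nat.cast_sum]
    refine Finset.sum_le_sum fun σ _ => ?_
    have := hle1 σ.1.card
    push_cast
    exact this
  have hcount : (((Th (Icc 1 n) t R).filter
      (fun σ => σ.1 ∈ (cl1 n t s c1 R).biUnion (wl t R))).card : ℝ) ≤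
      ∑ s ∈ (Th (Icc 1 n) t R).filter (fun s => (Gs (Icc 1 n) R s \ s.1).card ≤ 2 * t - 1),
        ω s.1.card := by
    have e1 : (((Th (Icc 1 n) t R).filter
        (fun σ => σ.1 ∈ (cl1 n t s c1 R).biUnion (wl t R))).card : ℝ) =
        ∑ σ ∈ Th (Icc 1 n) t R, if σ.1 ∈ (cl1 n t s c1 R).biUnion (wl t R) then (1 : ℝ) else 0 := by
      rw [Finset.card_filter, Nat.cast_sum]
      refine Finset.sum_congr rfl fun σ _ => ?_
      split_ifs <;> simp
    rw [e1, ← sum_Th_swap, Finset.sum_filter]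
    refine Finset.sum_le_sum fun τ hτ => ?_
    obtain ⟨t1, t2, t3, t4⟩ := mem_Th.1 hτ
    rw [Prod.fst_swap]
    by_cases hZ : τ.2 ∈ (cl1 n t s c1 R).biUnion (wl t R)
    · rw [if_pos hZ]
      have hb := cl1_big P h hZ
      rw [hmain τ t1] at hb
      obtain ⟨A, hA, hZA⟩ := mem_biUnion.1 hZ
      obtain ⟨a1, a2, a3⟩ := wallone_mem hA
      obtain ⟨w1, w2, w3, w4⟩ := wl_spec h a1 hZA
      have hf := few ht1 h t1 t4 (mem_Rm.1 a1).1 w2
      have hG : (Gs (Icc 1 n) R τ \ τ.1).card ≤ 2 * t - 1 := by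
        have hsub : Gs (Icc 1 n) R τ \ τ.1 ⊆ (A ∩ Gs (Icc 1 n) R τ) ∪ (τ.2 \ A) := by
          intro x hx
          rw [mem_sdiff] at hx
          have hx1 := (mem_Gs.1 hx.1).1.resolve_left hx.2
          rw [mem_union, mem_inter, mem_sdiff]
          by_cases hxA : x ∈ A
          · exact Or.inl ⟨hxA, hx.1⟩
          · exact Or.inr ⟨hx1, hxA⟩
        have := (card_le_card hsub).trans (card_union_le _ _)
        omega
      rw [if_pos hG]
      simp only [hω]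
      rw [if_pos hb]
    · rw [if_neg hZ]
      split_ifs
      · exact h0 _
      · exact le_rfl
  have hx := rew_nonneg (R := R) P
  have hκ := Bd_pos t
  have htR : (0 : ℝ) ≤ t := Nat.cast_nonneg t
  calc _ ≤ _ := hcount
    _ ≤ _ := hexit
    _ ≤ 2 * t * (4 * rew n t r m s θ R) + 2 * t * (Bd t * rew n t r m s θ R) := by
        refine add_le_add (mul_le_mul_of_nonneg_left hSQ (by positivity))
          (mul_le_mul_of_nonneg_left hN2 (by positivity))
    _ ≤ 10 * t * Bd t * rew n t r m s θ R := by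
        have h5 : t * rew n t r m s θ R ≤ t * rew n t r m s θ R * Bd t :=
          le_mul_of_one_le_right (by positivity) hκ
        nlinarith

theorem wall_one (P : Prm n t w r m h1 hh M s c1 α β θ) (h : Av (Icc 1 n) t R)
    (hbig : ∀ A ∈ R, w ≤ A.card) :
    2 * (WK.W n t (cl1 n t s c1 R) : ℝ) ≤ rew n t r m s θ R / 16 := by
  classical
  have hcard : (Icc 1 n : Finset ℕ).card = n := by simp
  have ht2 := P.ht
  have ht1 : 1 ≤ t := by omega
  have hsub : cl1 n t s c1 R ⊆ Rm t R := fun A hA => (wallone_mem hA).1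
  have hb := wall_bound ht1 h hsub P.hw
    (fun A hA => hbig _ (pt_spec (hsub hA)).1)
  rw [hcard] at hb
  have hZ : ∀ Z ∈ (cl1 n t s c1 R).biUnion (wl t R), Z ⊆ Icc 1 n ∧ InY t R Z := by
    intro Z hZ
    obtain ⟨A, hA, hZA⟩ := mem_biUnion.1 hZ
    obtain ⟨w1, w2, w3, w4⟩ := wl_spec h (hsub hA) hZA
    exact ⟨w1, w4⟩
  have hslots : WK.W n t ((cl1 n t s c1 R).biUnion (wl t R)) =
      ((slots (Icc 1 n) t).filter (fun σ => σ.1 ∈ (cl1 n t s c1 R).biUnion (wl t R))).card := by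
    have := w_eq_slots (V := Icc 1 n) (t := t) (U := (cl1 n t s c1 R).biUnion (wl t R))
      (fun A hA => (hZ A hA).1)
    rw [hcard] at this
    exact this
  have hsplit : (slots (Icc 1 n) t).filter (fun σ => σ.1 ∈ (cl1 n t s c1 R).biUnion (wl t R)) ⊆
      (S1 (Icc 1 n) t R).filter (fun σ => σ.1 ∈ (cl1 n t s c1 R).biUnion (wl t R)) ∪
        (S2 (Icc 1 n) t R).filter (fun σ => σ.1 ∈ (cl1 n t s c1 R).biUnion (wl t R)) := by
    intro σ hσ
    rw [mem_filter] at hσ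
    rw [mem_union, mem_filter, mem_filter, mem_S1, mem_S2]
    have hy := (hZ _ hσ.2).2
    by_cases hup : Up R σ.2
    · exact Or.inr ⟨⟨hσ.1, hy.1, hup⟩, hσ.2⟩
    · exact Or.inl ⟨⟨hσ.1, hy, hup⟩, hσ.2⟩
  have hx := rew_nonneg (R := R) P
  have hκ := Bd_pos t
  have h1 : (((S1 (Icc 1 n) t R).filter
      (fun σ => σ.1 ∈ (cl1 n t s c1 R).biUnion (wl t R))).card : ℝ) ≤
      4 * rew n t r m s θ R :=
    s1_count_le P (filter_subset _ _) (fun σ hσ => cl1_big P h (mem_filter.1 hσ).2)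
  set g : Slot → ℝ := fun σ => if σ.1 ∈ (cl1 n t s c1 R).biUnion (wl t R) then 1 else 0 with hg
  have hsum : ∀ X : Finset Slot, ∑ σ ∈ X, g σ =
      ((X.filter (fun σ => σ.1 ∈ (cl1 n t s c1 R).biUnion (wl t R))).card : ℝ) := by
    intro X
    rw [Finset.card_filter, Nat.cast_sum]
    refine Finset.sum_congr rfl fun σ _ => ?_
    simp only [hg]
    split_ifs <;> simp
  have hg0 : ∀ σ, 0 ≤ g σ := by
    intro σ
    simp only [hg]
    split_ifs <;> norm_num
  have h2w : ∀ A ∈ R, 2 * t ≤ A.card := by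
    intro A hA
    have h1 := hbig A hA
    have h2 := P.hw
    have h3 : t ≤ t ^ 2 := by nlinarith
    omega
  have hnon := nonmain ht1 h h2w g hg0 (fun s x _ => le_rfl)
  rw [hsum, hsum, hsum, hsum] at hnon
  have hN2 : (((N2 (Icc 1 n) t R).filter
      (fun σ => σ.1 ∈ (cl1 n t s c1 R).biUnion (wl t R))).card : ℝ) ≤
      Bd t * rew n t r m s θ R := by
    refine le_trans ?_ (n2_le (R := R) P)
    exact_mod_cast card_le_card (filter_subset _ _)
  have hTh := wall_th P h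
  have h3 : (WK.W n t ((cl1 n t s c1 R).biUnion (wl t R)) : ℝ) ≤
      35 * t * Bd t * rew n t r m s θ R := by
    rw [hslots]
    have h4 : (((slots (Icc 1 n) t).filter
        (fun σ => σ.1 ∈ (cl1 n t s c1 R).biUnion (wl t R))).card : ℝ) ≤
        ((S1 (Icc 1 n) t R).filter
          (fun σ => σ.1 ∈ (cl1 n t s c1 R).biUnion (wl t R))).card +
        ((S2 (Icc 1 n) t R).filter
          (fun σ => σ.1 ∈ (cl1 n t s c1 R).biUnion (wl t R))).card := by
      exact_mod_cast (card_le_card hsplit).trans (card_union_le _ _)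
    have h5 : rew n t r m s θ R ≤ Bd t * rew n t r m s θ R := le_mul_of_one_le_left hx hκ
    have h6 : (2 : ℝ) ≤ t := by exact_mod_cast ht2
    have h7 : 0 ≤ Bd t * rew n t r m s θ R := mul_nonneg (by linarith) hx
    have h8 : 2 * (Bd t * rew n t r m s θ R) ≤ t * (Bd t * rew n t r m s θ R) :=
      mul_le_mul_of_nonneg_right h6 h7
    nlinarith
  have h4 : (w : ℝ) * WK.W n t (cl1 n t s c1 R) ≤
      2 ^ (t + 2) * WK.W n t ((cl1 n t s c1 R).biUnion (wl t R)) := by exact_mod_cast hb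
  have h5 : (w : ℝ) * (2 * WK.W n t (cl1 n t s c1 R)) ≤ w * (rew n t r m s θ R / 16) := by
    calc (w : ℝ) * (2 * WK.W n t (cl1 n t s c1 R)) =
          2 * ((w : ℝ) * WK.W n t (cl1 n t s c1 R)) := by ring
      _ ≤ 2 * (2 ^ (t + 2) * WK.W n t ((cl1 n t s c1 R).biUnion (wl t R))) := by linarith
      _ ≤ 2 * (2 ^ (t + 2) * (35 * t * Bd t * rew n t r m s θ R)) := by
          have := mul_le_mul_of_nonneg_left h3 (show (0 : ℝ) ≤ 2 ^ (t + 2) by positivity)
          linarith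
      _ = (2 ^ (t + 2) * (70 * t * Bd t)) * rew n t r m s θ R := by ring
      _ ≤ (w / 16) * rew n t r m s θ R := mul_le_mul_of_nonneg_right P.e2 hx
      _ = w * (rew n t r m s θ R / 16) := by ring
  have hc : (0 : ℝ) < w := by
    have h6 := P.hw
    have h7 : 0 < t ^ 2 := by positivity
    have : 0 < w := by omega
    exact_mod_cast this
  exact le_of_mul_le_mul_left h5 hc

end Pool.Agent.H37.AV
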