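import Pool.Agent.H37.AV.Zones

/-!
Module WallThree.  The weight of `cl3`, and its members pairwise meet in more than `t` elements.

`cl3_int`: let `A, A' ∈ cl3`, `|A ∩ A'| ≤ t`.  As `A, A' ∈ R`, `|A ∩ A'| < t`.  With `B = pt A`: `|A ∩ B| < t`,
`|B| > 3n/4`, so `|A| < n/4 + t` (both in `[n]`), and `|A'| < n/4 + t`.  `A ∉ Ng` with the member `A'` gives
`n ≤ 2 |A| + |A'| + 4 s < 3n/4 + 3t + 4s ≤ 3n/4 + 6s < n` (`2 t ≤ s`, `80 s ≤ n`, `s ≥ 1`).  Contradiction.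
`wall_three`: `𝒵` = all walls of the members of `cl3`.  By `w_eq_slots` and `wl_spec`
`W(𝒵) ≤ #{σ ∈ S1 : σ.1 ∈ 𝒵} + |S2| ≤ x / (2 θ) + 240 κ (hh+t) x` (`s1_fam_le`, `s2_card`).  `wall_bound` with
`b = n / 2` (natural division): `8 t² ≤ n / 2`, since `n ≥ 80 s ≥ 160 t` and `n ≥ 4 t³`, and `n ≤ 4 (n / 2)`.
So `n W(cl3) ≤ 2^(t+4) W(𝒵)`, and `e4`.
-/

open Finset

namespace Pool.Agent.H37.AV

variable {n t w r m h1 hh M s c1 : ℕ} {α β θ : ℝ} {R : Finset (Finset ℕ)}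

private lemma mem_cl3 {A : Finset ℕ} :
    A ∈ cl3 n t s R ↔ A ∈ Rm t R ∧ A ∉ Ng (Icc 1 n) t R s ∧ 3 * n < 4 * (pt t R A).card := by
  classical
  simp only [cl3, mem_filter]

private lemma cl3_small (h : Av (Icc 1 n) t R) {A : Finset ℕ} (hA : A ∈ cl3 n t s R) :
    4 * A.card + 4 ≤ n + 4 * t := by
  obtain ⟨h1, -, h3⟩ := mem_cl3.1 hA
  obtain ⟨p1, p2, -⟩ := pt_spec h1
  have e1 := card_union_add_card_inter A (pt t R A)
  have e2 : (A ∪ pt t R A).card ≤ (Icc 1 n).card :=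
    card_le_card (union_subset (h.sub _ (mem_Rm.1 h1).1) (h.sub _ p1))
  rw [Nat.card_Icc, Nat.add_sub_cancel] at e2
  omega

theorem cl3_int (P : Prm n t w r m h1 hh M s c1 α β θ) (h : Av (Icc 1 n) t R) :
    ∀ A ∈ cl3 n t s R, ∀ B ∈ cl3 n t s R, t < (A ∩ B).card := by
  intro A hA B hB
  by_contra hlt
  have a1 := cl3_small h hA
  have b1 := cl3_small h hB
  obtain ⟨hAm, hAN, -⟩ := mem_cl3.1 hA
  obtain ⟨hBm, -, -⟩ := mem_cl3.1 hB
  have hAR := (mem_Rm.1 hAm).1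
  have hBR := (mem_Rm.1 hBm).1
  have hne := h.av A hAR B hBR
  have h1 : ¬ (2 * A.card + B.card + 4 * s < n) := by
    intro hc
    apply hAN
    rw [mem_Ng]
    refine ⟨hAR, B, hBR, by omega, ?_⟩
    rw [Nat.card_Icc, Nat.add_sub_cancel]
    exact hc
  have h2 := P.ht
  have h3 := P.hts
  have h4 := P.hsn
  omega

theorem wall_three (P : Prm n t w r m h1 hh M s c1 α β θ) (h : Av (Icc 1 n) t R)
    (hbig : ∀ A ∈ R, w ≤ A.card) :
    2 * (WK.W n t (cl3 n t s R) : ℝ) ≤ rew n t r m s θ R / 16 := by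
  classical
  have ht := P.ht
  have hsub : cl3 n t s R ⊆ Rm t R := fun A hA => (mem_cl3.1 hA).1
  have hcard : (Icc 1 n).card = n := by rw [Nat.card_Icc, Nat.add_sub_cancel]
  set x := rew n t r m s θ R with hx
  have hx0 : 0 ≤ x := rew_nonneg P
  set Z : Finset (Finset ℕ) := (cl3 n t s R).biUnion (wl t R) with hZ
  have hZmem : ∀ Q ∈ Z, ∃ A ∈ cl3 n t s R, Q ⊆ Icc 1 n ∧ A ⊆ Q ∧ InY t R Q := by
    intro Q hQ
    rw [hZ, mem_biUnion] at hQ
    obtain ⟨A, hA, hQA⟩ := hQ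
    obtain ⟨w1, w2, -, w4⟩ := wl_spec h (hsub hA) hQA
    exact ⟨A, hA, w1, w2, w4⟩
  -- the number of slots
  have hW := w_eq_slots (V := Icc 1 n) (t := t) (U := Z) (fun Q hQ => by
    obtain ⟨A, -, h1, -, -⟩ := hZmem Q hQ
    exact h1)
  rw [hcard] at hW
  have hcov : (slots (Icc 1 n) t).filter (fun σ => σ.1 ∈ Z) ⊆
      (S1 (Icc 1 n) t R).filter (fun σ => σ.1 ∈ Z) ∪ S2 (Icc 1 n) t R := by
    intro σ hσ
    rw [mem_filter] at hσ
    obtain ⟨A, hA, q1, q2, q3⟩ := hZmem _ hσ.2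
    rw [mem_union, mem_filter, mem_S1, mem_S2]
    by_cases hu : Up R σ.2
    · exact Or.inr ⟨hσ.1, q3.1, hu⟩
    · exact Or.inl ⟨⟨hσ.1, q3, hu⟩, hσ.2⟩
  have hS1 : (((S1 (Icc 1 n) t R).filter (fun σ => σ.1 ∈ Z)).card : ℝ) ≤ x / (2 * θ) := by
    refine s1_fam_le P (filter_subset _ _) ?_
    intro σ hσ
    rw [mem_filter] at hσ
    obtain ⟨A, hA, q1, q2, q3⟩ := hZmem _ hσ.2
    exact ⟨A, hA, q2⟩
  have hS2 := s2_card P h hbig
  rw [← hx] at hS2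
  have hWZ : (WK.W n t Z : ℝ) ≤ x / (2 * θ) + 240 * Bd t * (hh + t) * x := by
    have e1 : WK.W n t Z ≤ ((S1 (Icc 1 n) t R).filter (fun σ => σ.1 ∈ Z)).card +
        (S2 (Icc 1 n) t R).card := by
      rw [hW]
      exact (card_le_card hcov).trans (card_union_le _ _)
    have e2 : (WK.W n t Z : ℝ) ≤ ((S1 (Icc 1 n) t R).filter (fun σ => σ.1 ∈ Z)).card +
        (S2 (Icc 1 n) t R).card := by exact_mod_cast e1
    linarith
  -- the wall bound
  have hb : 8 * t ^ 2 ≤ n / 2 := by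
    have h3 := P.hts
    have h4 := P.hsn
    have h5 := P.hn
    rw [Nat.le_div_iff_mul_le (by norm_num)]
    by_cases h6 : 10 ≤ t
    · nlinarith [Nat.mul_le_mul_right (t ^ 2) h6]
    · nlinarith
  have hbg : ∀ A ∈ cl3 n t s R, n / 2 ≤ (pt t R A).card := by
    intro A hA
    obtain ⟨-, -, h3⟩ := mem_cl3.1 hA
    omega
  have hwb := wall_bound (by omega) h hsub hb hbg
  rw [hcard, ← hZ] at hwb
  have hn160 : 160 ≤ n := by
    have h3 := P.hts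
    have h4 := P.hsn
    omega
  have hn4 : n ≤ 4 * (n / 2) := by omega
  have h7 : n * WK.W n t (cl3 n t s R) ≤ 2 ^ (t + 4) * WK.W n t Z := by
    calc n * WK.W n t (cl3 n t s R) ≤ 4 * (n / 2) * WK.W n t (cl3 n t s R) :=
          Nat.mul_le_mul_right _ hn4
      _ = 4 * (n / 2 * WK.W n t (cl3 n t s R)) := by ring
      _ ≤ 4 * (2 ^ (t + 2) * WK.W n t Z) := Nat.mul_le_mul_left _ hwb
      _ = 2 ^ (t + 4) * WK.W n t Z := by rw [pow_add, pow_add]; ring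
  have h8 : (n : ℝ) * WK.W n t (cl3 n t s R) ≤ 2 ^ (t + 4) * WK.W n t Z := by exact_mod_cast h7
  have hnpos : (0 : ℝ) < n := by
    have : 0 < n := by omega
    exact_mod_cast this
  have h9 : (n : ℝ) * (2 * WK.W n t (cl3 n t s R)) ≤ n * (x / 16) := by
    have e4 := P.e4
    have hp : (0 : ℝ) ≤ 2 ^ (t + 4) := by positivity
    calc (n : ℝ) * (2 * WK.W n t (cl3 n t s R)) = 2 * (n * WK.W n t (cl3 n t s R)) := by ring
      _ ≤ 2 * (2 ^ (t + 4) * WK.W n t Z) := by linarith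
      _ ≤ 2 * (2 ^ (t + 4) * (x / (2 * θ) + 240 * Bd t * (hh + t) * x)) := by
          have := mul_le_mul_of_nonneg_left hWZ hp
          linarith
      _ = (2 ^ (t + 5) * (1 / (2 * θ) + 240 * Bd t * (hh + t))) * x := by
          rw [pow_add, pow_add]; ring
      _ ≤ ((n : ℝ) / 16) * x := mul_le_mul_of_nonneg_right e4 hx0
      _ = n * (x / 16) := by ring
  exact le_of_mul_le_mul_left h9 hnpos

end Pool.Agent.H37.AV
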