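import Pool.Agent.H37.AV.Zones

/-!
Module WallTwo.  The weight of `cl2`.  `x = rew`, `κ = Bd t`, `𝒵` = all walls of the members of `cl2`.

`A ∈ cl2` has `2 |A| + |pt A| + 4 s ≥ n` (`A ∉ Ng`), `4 |pt A| ≤ 3 n`, `80 s ≤ n`, so
`40 |A| ≥ 20 n - 15 n - 80 s ≥ 4 n` and `n ≤ 10 |Z|` for every `Z ⊇ A`.  By `w_eq_slots` and `wl_spec`
`W(𝒵) ≤ #{σ ∈ S1 : σ.1 ∈ 𝒵} + |S2|`.  By `st_ge` (`20 t ≤ n`, as `2 t ≤ s`, `80 s ≤ n`) the first number is at
most `20^(t+1) ∑_{S1} st ≤ 20^(t+1) x / (2 θ)` (`s1_st_le`); the second is at most `240 κ (hh+t) x` (`s2_card`).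
`wall_bound` with `b = c1` and `e3`.  (`c1 > 0` as `t ≤ c1`.)
-/

open Finset

namespace Pool.Agent.H37.AV

variable {n t w r m h1 hh M s c1 : ℕ} {α β θ : ℝ} {R : Finset (Finset ℕ)}

private lemma walltwo_mem {n t s c1 : ℕ} {R : Finset (Finset ℕ)} {A : Finset ℕ}
    (hA : A ∈ cl2 n t s c1 R) : A ∈ Rm t R ∧ A ∉ Ng (Icc 1 n) t R s ∧ c1 < (pt t R A).card ∧
      4 * (pt t R A).card ≤ 3 * n := by
  classical
  unfold cl2 at hA
  simpa only [mem_filter] using hA

theorem wall_two (P : Prm n t w r m h1 hh M s c1 α β θ) (h : Av (Icc 1 n) t R)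
    (hbig : ∀ A ∈ R, w ≤ A.card) :
    2 * (WK.W n t (cl2 n t s c1 R) : ℝ) ≤ rew n t r m s θ R / 16 := by
  classical
  have hcard : (Icc 1 n : Finset ℕ).card = n := by simp
  have ht1 : 1 ≤ t := by
    have := P.ht
    omega
  have hsub : cl2 n t s c1 R ⊆ Rm t R := fun A hA => (walltwo_mem hA).1
  have hb := wall_bound ht1 h hsub P.hcw (fun A hA => (walltwo_mem hA).2.2.1.le)
  rw [hcard] at hb
  have hZ : ∀ Z ∈ (cl2 n t s c1 R).biUnion (wl t R), Z ⊆ Icc 1 n ∧ InY t R Z ∧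
      n ≤ 10 * Z.card := by
    intro Z hZ
    obtain ⟨A, hA, hZA⟩ := mem_biUnion.1 hZ
    obtain ⟨a1, a2, a3, a4⟩ := walltwo_mem hA
    obtain ⟨w1, w2, w3, w4⟩ := wl_spec h a1 hZA
    obtain ⟨p1, p2, p3⟩ := pt_spec a1
    have hge : n ≤ 2 * A.card + (pt t R A).card + 4 * s := by
      by_contra hcon
      push Not at hcon
      exact a2 (mem_Ng.2 ⟨(mem_Rm.1 a1).1, _, p1, p2, by rw [hcard]; omega⟩)
    have := card_le_card w2
    have := P.hsn
    exact ⟨w1, w4, by omega⟩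
  have hslots : WK.W n t ((cl2 n t s c1 R).biUnion (wl t R)) =
      ((slots (Icc 1 n) t).filter (fun σ => σ.1 ∈ (cl2 n t s c1 R).biUnion (wl t R))).card := by
    have := w_eq_slots (V := Icc 1 n) (t := t) (U := (cl2 n t s c1 R).biUnion (wl t R))
      (fun A hA => (hZ A hA).1)
    rw [hcard] at this
    exact this
  have hsplit : (slots (Icc 1 n) t).filter (fun σ => σ.1 ∈ (cl2 n t s c1 R).biUnion (wl t R)) ⊆
      (S1 (Icc 1 n) t R).filter (fun σ => σ.1 ∈ (cl2 n t s c1 R).biUnion (wl t R)) ∪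
        S2 (Icc 1 n) t R := by
    intro σ hσ
    rw [mem_filter] at hσ
    rw [mem_union, mem_filter, mem_S1, mem_S2]
    have hy := (hZ _ hσ.2).2.1
    by_cases hup : Up R σ.2
    · exact Or.inr ⟨hσ.1, hy.1, hup⟩
    · exact Or.inl ⟨⟨hσ.1, hy, hup⟩, hσ.2⟩
  have hx := rew_nonneg (R := R) P
  have hθ := P.hθ
  have h1 : (((S1 (Icc 1 n) t R).filter
      (fun σ => σ.1 ∈ (cl2 n t s c1 R).biUnion (wl t R))).card : ℝ) ≤
      20 ^ (t + 1) * (rew n t r m s θ R / (2 * θ)) := by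
    refine le_trans ?_ (mul_le_mul_of_nonneg_left (s1_st_le (R := R) P) (by positivity))
    rw [Finset.mul_sum, Finset.card_eq_sum_ones, Nat.cast_sum]
    refine le_trans (Finset.sum_le_sum (fun σ hσ => ?_))
      (Finset.sum_le_sum_of_subset_of_nonneg (filter_subset _ _)
        (fun σ _ _ => mul_nonneg (by positivity) (st_nonneg _ _ _)))
    rw [mem_filter] at hσ
    have q := hZ _ hσ.2
    have hle : σ.1.card ≤ n := by
      have := card_le_card q.1
      rwa [hcard] at this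
    have hts := P.hts
    have hsn := P.hsn
    have ht2 := P.ht
    have hst := st_ge (n := n) (t := t) (u := σ.1.card) q.2.2 (by omega) hle (by omega)
    push_cast
    have h20 : (20 : ℝ) ^ (t + 1) * (1 / 20 : ℝ) ^ (t + 1) = 1 := by
      rw [← mul_pow]
      norm_num
    calc (1 : ℝ) = (20 : ℝ) ^ (t + 1) * (1 / 20 : ℝ) ^ (t + 1) := h20.symm
      _ ≤ _ := mul_le_mul_of_nonneg_left hst (by positivity)
  have h2 := s2_card P h hbig
  have h3 : (WK.W n t ((cl2 n t s c1 R).biUnion (wl t R)) : ℝ) ≤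
      (20 ^ (t + 1) / (2 * θ) + 240 * Bd t * (hh + t)) * rew n t r m s θ R := by
    rw [hslots]
    have h4 : (((slots (Icc 1 n) t).filter
        (fun σ => σ.1 ∈ (cl2 n t s c1 R).biUnion (wl t R))).card : ℝ) ≤
        ((S1 (Icc 1 n) t R).filter
          (fun σ => σ.1 ∈ (cl2 n t s c1 R).biUnion (wl t R))).card +
          (S2 (Icc 1 n) t R).card := by
      exact_mod_cast (card_le_card hsplit).trans (card_union_le _ _)
    calc _ ≤ _ := h4
      _ ≤ 20 ^ (t + 1) * (rew n t r m s θ R / (2 * θ)) +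
          240 * Bd t * (hh + t) * rew n t r m s θ R := add_le_add h1 h2
      _ = _ := by ring
  have h4 : (c1 : ℝ) * WK.W n t (cl2 n t s c1 R) ≤
      2 ^ (t + 2) * WK.W n t ((cl2 n t s c1 R).biUnion (wl t R)) := by exact_mod_cast hb
  have h5 : (c1 : ℝ) * (2 * WK.W n t (cl2 n t s c1 R)) ≤ c1 * (rew n t r m s θ R / 16) := by
    calc (c1 : ℝ) * (2 * WK.W n t (cl2 n t s c1 R)) =
          2 * ((c1 : ℝ) * WK.W n t (cl2 n t s c1 R)) := by ring
      _ ≤ 2 * (2 ^ (t + 2) * WK.W n t ((cl2 n t s c1 R).biUnion (wl t R))) := by linarith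
      _ ≤ 2 * (2 ^ (t + 2) *
            ((20 ^ (t + 1) / (2 * θ) + 240 * Bd t * (hh + t)) * rew n t r m s θ R)) := by
          have := mul_le_mul_of_nonneg_left h3 (show (0 : ℝ) ≤ 2 ^ (t + 2) by positivity)
          linarith
      _ = (2 ^ (t + 3) * (20 ^ (t + 1) / (2 * θ) + 240 * Bd t * (hh + t))) *
            rew n t r m s θ R := by ring
      _ ≤ (c1 / 16) * rew n t r m s θ R := mul_le_mul_of_nonneg_right P.e3 hx
      _ = c1 * (rew n t r m s θ R / 16) := by ring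
  have hc : (0 : ℝ) < c1 := by
    have h6 := P.htc
    have : 0 < c1 := by omega
    exact_mod_cast this
  exact le_of_mul_le_mul_left h5 hc

end Pool.Agent.H37.AV
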