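import Pool.Agent.H37.AV.ThPr

/-!
Module Cost.  The part of `S2` that is not captured.  `x = rew`, `κ = Bd t`.

`s2_pr`: `nonmain` with `g σ = pr |σ.1| [2 |σ.1| ≤ n]` (it does not depend on `σ.2`; `2 t ≤ 8 t² ≤ w`): at most
`2 (∑_{N2} g + ∑_{Th} g) + 2 ∑_{S1} g ≤ 2 κ x + 2 κ (72 (h1+t) + 2tn/(M-t) + 28) x + 2 x`
`≤ κ (250 (h1+t) + 4tn/(M-t)) x` (`n2_le`, `th_pr`, `s1_pr_le`; `h1 + t ≥ 3`).
`cost`: by `pr_window` and `j2` for the side with at most half of the elements (for `σ.2` apply `pr_window` to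
`σ.swap`): `1 - pr |σ.1| - pr |σ.2| ≤ [2 |σ.1| ≤ n] (α pr |σ.1| + β) + [2 |σ.2| ≤ n] (α pr |σ.2| + β)`.
Sum over `S2`; by `sum_S2_swap` the two parts are equal: at most `2 α ∑ g + 2 β #{2 |σ.1| ≤ n}`, `s2_zone`.
`cost_all`: the combination needed in the end: `(1 - 2θ) cost + 2 θ |S2| ≤ x / 4` by `e1`
(`1 - 2 θ ∈ [0, 1]` and the bound of `cost` is nonnegative).
-/

open Finset

namespace Pool.Agent.H37.AV

variable {n t w r m h1 hh M s c1 : ℕ} {α β θ : ℝ} {R : Finset (Finset ℕ)}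

theorem s2_pr (P : Prm n t w r m h1 hh M s c1 α β θ) (h : Av (Icc 1 n) t R)
    (hbig : ∀ A ∈ R, w ≤ A.card) :
    ∑ σ ∈ (S2 (Icc 1 n) t R).filter (fun σ => 2 * σ.1.card ≤ n), pr n r m σ.1.card ≤
      Bd t * (250 * (h1 + t) + 4 * t * n / (M - t)) * rew n t r m s θ R := by
  have ht := P.ht
  have hnm := nonmain (by omega : 1 ≤ t) h (fun A hA => by
    have h1 := P.hw
    have h2 := hbig A hA
    nlinarith) (fun σ : Slot => if 2 * σ.1.card ≤ n then pr n r m σ.1.card else 0)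
    (fun σ => by
      split_ifs
      · exact pr_nonneg _ _ _ _
      · exact le_rfl)
    (fun σ x _ => le_rfl)
  rw [← Finset.sum_filter] at hnm
  have hN2 : ∑ σ ∈ N2 (Icc 1 n) t R, (if 2 * σ.1.card ≤ n then pr n r m σ.1.card else 0) ≤
      Bd t * rew n t r m s θ R := by
    refine le_trans ?_ (n2_le (R := R) P)
    rw [Finset.card_eq_sum_ones, Nat.cast_sum]
    refine Finset.sum_le_sum fun σ _ => ?_
    split_ifs with h3
    · have := pr_le_one (n := n) (r := r) (m := m) (u := σ.1.card) (by omega)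
      push_cast
      exact this
    · norm_num
  have hTh : ∑ σ ∈ Th (Icc 1 n) t R, (if 2 * σ.1.card ≤ n then pr n r m σ.1.card else 0) ≤
      Bd t * (72 * (h1 + t) + 2 * t * n / (M - t) + 28) * rew n t r m s θ R := by
    rw [← Finset.sum_filter]
    exact th_pr P h
  have hS1 : ∑ σ ∈ S1 (Icc 1 n) t R, (if 2 * σ.1.card ≤ n then pr n r m σ.1.card else 0) ≤
      rew n t r m s θ R := by
    refine le_trans ?_ (s1_pr_le (R := R) P)
    refine Finset.sum_le_sum fun σ _ => ?_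
    split_ifs
    · exact le_rfl
    · exact pr_nonneg _ _ _ _
  have hx := rew_nonneg (R := R) P
  have hB := Bd_pos t
  have h3 : (3 : ℝ) ≤ h1 + t := by
    have h4 := P.h1p
    have : 3 ≤ h1 + t := by omega
    exact_mod_cast this
  set x := rew n t r m s θ R with hxdef
  have e : (4 : ℝ) * t * n / (M - t) = 2 * (2 * t * n / (M - t)) := by ring
  rw [e]
  set q : ℝ := 2 * t * n / (M - t) with hq
  have hBx : 0 ≤ Bd t * x := mul_nonneg (by linarith) hx
  have h5 : x ≤ Bd t * x := by nlinarith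
  have h6 : Bd t * x * 3 ≤ Bd t * x * (h1 + t) := mul_le_mul_of_nonneg_left h3 hBx
  nlinarith

theorem Cost_window (P : Prm n t w r m h1 hh M s c1 α β θ) {σ : Slot}
    (hσ : σ ∈ slots (Icc 1 n) t) (h2 : 2 * σ.1.card ≤ n) :
    1 - pr n r m σ.1.card - pr n r m σ.2.card ≤ α * pr n r m σ.1.card + β := by
  have h3 : (Icc 1 n).card = n := by simp
  have h4 := pr_window (V := Icc 1 n) P.hrm (by rw [h3]; exact P.hrn) hσ
  rw [h3] at h4
  have h5 := P.j2 _ h2
  linarith

theorem cost (P : Prm n t w r m h1 hh M s c1 α β θ) (h : Av (Icc 1 n) t R)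
    (hbig : ∀ A ∈ R, w ≤ A.card) :
    ∑ σ ∈ S2 (Icc 1 n) t R, (1 - pr n r m σ.1.card - pr n r m σ.2.card) ≤
      (2 * α * (Bd t * (250 * (h1 + t) + 4 * t * n / (M - t))) +
        β * (240 * Bd t * (hh + t))) * rew n t r m s θ R := by
  have hα := P.hα
  have hβ := P.hβ
  let f : Slot → ℝ := fun σ => if 2 * σ.1.card ≤ n then α * pr n r m σ.1.card + β else 0
  have hf0 : ∀ σ, 0 ≤ f σ := by
    intro σ
    show 0 ≤ if 2 * σ.1.card ≤ n then α * pr n r m σ.1.card + β else 0
    split_ifs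
    · have := mul_nonneg hα (pr_nonneg n r m σ.1.card)
      linarith
    · exact le_rfl
  have hstep : ∀ σ ∈ S2 (Icc 1 n) t R,
      1 - pr n r m σ.1.card - pr n r m σ.2.card ≤ f σ + f σ.swap := by
    intro σ hσ
    have hs := (mem_S2.1 hσ).1
    obtain ⟨v1, v2, vd, -⟩ := mem_slots.1 hs
    have hsum : σ.1.card + σ.2.card ≤ n := by
      rw [← card_union_of_disjoint vd]
      have := card_le_card (union_subset v1 v2)
      simpa using this
    rcases le_or_gt (2 * σ.1.card) n with h2 | h2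
    · have h3 := Cost_window P hs h2
      have h4 : f σ = α * pr n r m σ.1.card + β := if_pos h2
      have h5 := hf0 σ.swap
      linarith
    · have h2' : 2 * σ.swap.1.card ≤ n := by
        rw [Prod.fst_swap]
        omega
      have h3 := Cost_window P (swap_mem_slots hs) h2'
      rw [Prod.fst_swap, Prod.snd_swap] at h3
      have h4 : f σ.swap = α * pr n r m σ.2.card + β := if_pos h2'
      have h5 := hf0 σ
      linarith
  have hsum := Finset.sum_le_sum hstep
  rw [Finset.sum_add_distrib, sum_S2_swap f] at hsum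
  have hf : ∑ σ ∈ S2 (Icc 1 n) t R, f σ =
      α * ∑ σ ∈ (S2 (Icc 1 n) t R).filter (fun σ => 2 * σ.1.card ≤ n), pr n r m σ.1.card +
        β * ((S2 (Icc 1 n) t R).filter (fun σ => 2 * σ.1.card ≤ n)).card := by
    show ∑ σ ∈ S2 (Icc 1 n) t R, (if 2 * σ.1.card ≤ n then α * pr n r m σ.1.card + β else 0) = _
    rw [← Finset.sum_filter, Finset.sum_add_distrib, Finset.mul_sum, Finset.sum_const,
      nsmul_eq_mul, mul_comm β]
  rw [hf] at hsum
  have h6 := mul_le_mul_of_nonneg_left (s2_pr P h hbig) hα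
  have h7 := mul_le_mul_of_nonneg_left (s2_zone P h hbig) hβ
  set x := rew n t r m s θ R with hxdef
  set q : ℝ := 4 * t * n / (M - t) with hq
  nlinarith

theorem cost_all (P : Prm n t w r m h1 hh M s c1 α β θ) (h : Av (Icc 1 n) t R)
    (hbig : ∀ A ∈ R, w ≤ A.card) :
    (1 - 2 * θ) * ∑ σ ∈ S2 (Icc 1 n) t R, (1 - pr n r m σ.1.card - pr n r m σ.2.card) +
      2 * θ * (S2 (Icc 1 n) t R).card ≤ rew n t r m s θ R / 4 := by
  have hθ := P.hθ
  have hθ1 := P.hθ1
  have hα := P.hα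
  have hβ := P.hβ
  have hx := rew_nonneg (R := R) P
  have hB := Bd_pos t
  have hc := cost P h hbig
  have hs := s2_card P h hbig
  have he := P.e1
  have hMt : (0 : ℝ) < M - t := by
    have := P.hM
    have h2 : (t : ℝ) < M := by exact_mod_cast this
    linarith
  have hC : 0 ≤ 2 * α * (Bd t * (250 * (h1 + t) + 4 * t * n / (M - t))) +
        β * (240 * Bd t * (hh + t)) := by
    have h2 : (0 : ℝ) ≤ 4 * t * n / (M - t) := by positivity
    have h3 : (0 : ℝ) ≤ Bd t := by linarith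
    positivity
  set x := rew n t r m s θ R with hxdef
  set C := 2 * α * (Bd t * (250 * (h1 + t) + 4 * t * n / (M - t))) +
        β * (240 * Bd t * (hh + t)) with hCdef
  have h4 : (1 - 2 * θ) *
      ∑ σ ∈ S2 (Icc 1 n) t R, (1 - pr n r m σ.1.card - pr n r m σ.2.card) ≤ C * x := by
    have h5 := mul_le_mul_of_nonneg_left hc (by linarith : (0 : ℝ) ≤ 1 - 2 * θ)
    have h6 : 0 ≤ C * x := mul_nonneg hC hx
    nlinarith
  have h7 : 2 * θ * ((S2 (Icc 1 n) t R).card : ℝ) ≤ 2 * θ * (240 * Bd t * (hh + t) * x) :=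
    mul_le_mul_of_nonneg_left hs (by linarith)
  have h8 : C + 2 * θ * (240 * Bd t * (hh + t)) ≤ 1 / 4 := by
    rw [hCdef]
    linarith
  have h9 := mul_le_mul_of_nonneg_right h8 hx
  linarith

end Pool.Agent.H37.AV
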