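import Mathlib
import Pool.Agent.H37.WK.Final

/-!
Families without a pair of members meeting in exactly `t` elements: definitions (MP_28c1b3_co, half A).

`V` is the ground set, `R` the family (members of size `> t`).  A *slot* is a pair `(P, Q)` of disjoint
subsets of `V` whose complement `ker V (P, Q)` has fewer than `t` elements; it is *main* when the
complement has exactly `t - 1` elements.  A *row* is a pair of disjoint sets `(A, B)`, each in `R` or
with fewer than `t` elements, at least one in `R`.  The row `(A, B)` is evaluated at the slot `(P, Q)` as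
`1` if `A ⊆ P` and `B ⊆ Q`, and as `0` otherwise.
-/

open Finset

namespace Pool.Agent.H37.AV

/-- Pairs of sets. -/
abbrev Slot := Finset ℕ × Finset ℕ

/-- `R` consists of subsets of `V` of size `> t`, no two of which (equal or not) meet in exactly `t`
elements. -/
structure Av (V : Finset ℕ) (t : ℕ) (R : Finset (Finset ℕ)) : Prop where
  sub : ∀ A ∈ R, A ⊆ V
  big : ∀ A ∈ R, t < A.card
  av : ∀ A ∈ R, ∀ B ∈ R, (A ∩ B).card ≠ t

/-- The part of `V` outside both sides of a pair. -/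
def ker (V : Finset ℕ) (s : Slot) : Finset ℕ := V \ (s.1 ∪ s.2)

/-- The slots. -/
def slots (V : Finset ℕ) (t : ℕ) : Finset Slot :=
  (V.powerset ×ˢ V.powerset).filter (fun s => Disjoint s.1 s.2 ∧ (ker V s).card < t)

/-- The main slots. -/
def mains (V : Finset ℕ) (t : ℕ) : Finset Slot :=
  (V.powerset ×ˢ V.powerset).filter (fun s => Disjoint s.1 s.2 ∧ (ker V s).card + 1 = t)

/-- The rows. -/
def rows (V : Finset ℕ) (t : ℕ) (R : Finset (Finset ℕ)) : Finset Slot :=
  (V.powerset ×ˢ V.powerset).filter (fun r => Disjoint r.1 r.2 ∧ (r.1 ∈ R ∨ r.1.card < t) ∧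
    (r.2 ∈ R ∨ r.2.card < t) ∧ (r.1 ∈ R ∨ r.2 ∈ R))

/-- `P` contains a member. -/
def Up (R : Finset (Finset ℕ)) (P : Finset ℕ) : Prop := ∃ A ∈ R, A ⊆ P

/-- `P` contains a member and meets some member in at most `t` elements. -/
def InY (t : ℕ) (R : Finset (Finset ℕ)) (P : Finset ℕ) : Prop := Up R P ∧ ∃ B ∈ R, (P ∩ B).card ≤ t

/-- `P` contains a member and meets every member in more than `t` elements. -/
def InH (t : ℕ) (R : Finset (Finset ℕ)) (P : Finset ℕ) : Prop := Up R P ∧ ∀ B ∈ R, t < (P ∩ B).card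

noncomputable instance (R : Finset (Finset ℕ)) : DecidablePred (Up R) := fun _ => Classical.dec _
noncomputable instance (t : ℕ) (R : Finset (Finset ℕ)) : DecidablePred (InY t R) :=
  fun _ => Classical.dec _
noncomputable instance (t : ℕ) (R : Finset (Finset ℕ)) : DecidablePred (InH t R) :=
  fun _ => Classical.dec _

/-- The vector `c` on the slots is orthogonal to every row. -/
def Ann (V : Finset ℕ) (t : ℕ) (R : Finset (Finset ℕ)) (c : Slot → ℝ) : Prop :=
  ∀ r ∈ rows V t R, ∑ s ∈ (slots V t).filter (fun s => r.1 ⊆ s.1 ∧ r.2 ⊆ s.2), c s = 0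

/-- Bound for the squared norm of the vectors used. -/
noncomputable def Bd (t : ℕ) : ℝ := (4 * t + 4) ^ 2 * 64 ^ t

/-- `s` is *not rigid*: some vector of squared norm at most `Bd t`, with value `1` at `s`, is
orthogonal to every row. -/
def NR (V : Finset ℕ) (t : ℕ) (R : Finset (Finset ℕ)) (s : Slot) : Prop :=
  ∃ c : Slot → ℝ, c s = 1 ∧ ∑ x ∈ slots V t, c x ^ 2 ≤ Bd t ∧ Ann V t R c

noncomputable instance (V : Finset ℕ) (t : ℕ) (R : Finset (Finset ℕ)) : DecidablePred (NR V t R) :=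
  fun _ => Classical.dec _

/-- Members that meet some member in fewer than `t` elements. -/
noncomputable def Rm (t : ℕ) (R : Finset (Finset ℕ)) : Finset (Finset ℕ) := by
  classical exact R.filter (fun A => ∃ B ∈ R, (A ∩ B).card < t)

/-- Slots with both sides containing a member. -/
noncomputable def S2 (V : Finset ℕ) (t : ℕ) (R : Finset (Finset ℕ)) : Finset Slot :=
  (slots V t).filter (fun s => Up R s.1 ∧ Up R s.2)

/-- Slots with the first side in `H`. -/
noncomputable def HL (V : Finset ℕ) (t : ℕ) (R : Finset (Finset ℕ)) : Finset Slot :=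
  (slots V t).filter (fun s => InH t R s.1)

/-- Slots with the first side in `Y`, the second side containing no member. -/
noncomputable def S1 (V : Finset ℕ) (t : ℕ) (R : Finset (Finset ℕ)) : Finset Slot :=
  (slots V t).filter (fun s => InY t R s.1 ∧ ¬ Up R s.2)

/-- Main slots with the second side in `Y`, the first side containing no member. -/
noncomputable def SQ (V : Finset ℕ) (t : ℕ) (R : Finset (Finset ℕ)) : Finset Slot :=
  (mains V t).filter (fun s => InY t R s.2 ∧ ¬ Up R s.1)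

/-- Main slots with both sides containing a member that are not rigid. -/
noncomputable def N2 (V : Finset ℕ) (t : ℕ) (R : Finset (Finset ℕ)) : Finset Slot :=
  (mains V t).filter (fun s => Up R s.1 ∧ Up R s.2 ∧ NR V t R s)

/-- Main slots with both sides containing a member that are rigid. -/
noncomputable def Th (V : Finset ℕ) (t : ℕ) (R : Finset (Finset ℕ)) : Finset Slot :=
  (mains V t).filter (fun s => Up R s.1 ∧ Up R s.2 ∧ ¬ NR V t R s)

/-- `K + x` is captured by the side `P`: some member contains `K + x` and lies in `K ∪ P + x`. -/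
def Cap (R : Finset (Finset ℕ)) (K P : Finset ℕ) (x : ℕ) : Prop :=
  ∃ A ∈ R, insert x K ⊆ A ∧ A ⊆ insert x (K ∪ P)

noncomputable instance (R : Finset (Finset ℕ)) (K P : Finset ℕ) : DecidablePred (Cap R K P) :=
  fun _ => Classical.dec _

/-- The elements `x` of the two sides of a slot `s` such that `ker V s + x` is captured by the first
side.  For the second side take `Gs V R s.swap`. -/
noncomputable def Gs (V : Finset ℕ) (R : Finset (Finset ℕ)) (s : Slot) : Finset ℕ :=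
  (s.1 ∪ s.2).filter (Cap R (ker V s) s.1)

lemma mem_slots {V : Finset ℕ} {t : ℕ} {s : Slot} :
    s ∈ slots V t ↔ s.1 ⊆ V ∧ s.2 ⊆ V ∧ Disjoint s.1 s.2 ∧ (ker V s).card < t := by
  simp only [slots, mem_filter, mem_product, mem_powerset, and_assoc]

lemma mem_mains {V : Finset ℕ} {t : ℕ} {s : Slot} :
    s ∈ mains V t ↔ s.1 ⊆ V ∧ s.2 ⊆ V ∧ Disjoint s.1 s.2 ∧ (ker V s).card + 1 = t := by
  simp only [mains, mem_filter, mem_product, mem_powerset, and_assoc]

lemma mem_rows {V : Finset ℕ} {t : ℕ} {R : Finset (Finset ℕ)} {r : Slot} :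
    r ∈ rows V t R ↔ r.1 ⊆ V ∧ r.2 ⊆ V ∧ Disjoint r.1 r.2 ∧ (r.1 ∈ R ∨ r.1.card < t) ∧
      (r.2 ∈ R ∨ r.2.card < t) ∧ (r.1 ∈ R ∨ r.2 ∈ R) := by
  simp only [rows, mem_filter, mem_product, mem_powerset, and_assoc]

lemma mains_sub {V : Finset ℕ} {t : ℕ} : mains V t ⊆ slots V t := by
  intro s hs
  obtain ⟨h1, h2, h3, h4⟩ := mem_mains.1 hs
  exact mem_slots.2 ⟨h1, h2, h3, by omega⟩

lemma mem_S2 {V : Finset ℕ} {t : ℕ} {R : Finset (Finset ℕ)} {s : Slot} :
    s ∈ S2 V t R ↔ s ∈ slots V t ∧ Up R s.1 ∧ Up R s.2 := by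
  simp only [S2, mem_filter]

lemma mem_HL {V : Finset ℕ} {t : ℕ} {R : Finset (Finset ℕ)} {s : Slot} :
    s ∈ HL V t R ↔ s ∈ slots V t ∧ InH t R s.1 := by
  simp only [HL, mem_filter]

lemma mem_S1 {V : Finset ℕ} {t : ℕ} {R : Finset (Finset ℕ)} {s : Slot} :
    s ∈ S1 V t R ↔ s ∈ slots V t ∧ InY t R s.1 ∧ ¬ Up R s.2 := by
  simp only [S1, mem_filter]

lemma mem_SQ {V : Finset ℕ} {t : ℕ} {R : Finset (Finset ℕ)} {s : Slot} :
    s ∈ SQ V t R ↔ s ∈ mains V t ∧ InY t R s.2 ∧ ¬ Up R s.1 := by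
  simp only [SQ, mem_filter]

lemma mem_N2 {V : Finset ℕ} {t : ℕ} {R : Finset (Finset ℕ)} {s : Slot} :
    s ∈ N2 V t R ↔ s ∈ mains V t ∧ Up R s.1 ∧ Up R s.2 ∧ NR V t R s := by
  simp only [N2, mem_filter]

lemma mem_Th {V : Finset ℕ} {t : ℕ} {R : Finset (Finset ℕ)} {s : Slot} :
    s ∈ Th V t R ↔ s ∈ mains V t ∧ Up R s.1 ∧ Up R s.2 ∧ ¬ NR V t R s := by
  simp only [Th, mem_filter]

lemma mem_Gs {V : Finset ℕ} {R : Finset (Finset ℕ)} {s : Slot} {x : ℕ} :
    x ∈ Gs V R s ↔ (x ∈ s.1 ∨ x ∈ s.2) ∧ Cap R (ker V s) s.1 x := by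
  simp only [Gs, mem_filter, mem_union]

lemma mem_Rm {t : ℕ} {R : Finset (Finset ℕ)} {A : Finset ℕ} :
    A ∈ Rm t R ↔ A ∈ R ∧ ∃ B ∈ R, (A ∩ B).card < t := by
  classical
  simp only [Rm, mem_filter]

lemma ker_swap (V : Finset ℕ) (s : Slot) : ker V s.swap = ker V s := by
  simp only [ker, Prod.fst_swap, Prod.snd_swap, union_comm]

lemma swap_mem_slots {V : Finset ℕ} {t : ℕ} {s : Slot} (h : s ∈ slots V t) : s.swap ∈ slots V t := by
  obtain ⟨h1, h2, h3, h4⟩ := mem_slots.1 h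
  exact mem_slots.2 ⟨h2, h1, h3.symm, by rw [ker_swap]; exact h4⟩

lemma swap_mem_mains {V : Finset ℕ} {t : ℕ} {s : Slot} (h : s ∈ mains V t) : s.swap ∈ mains V t := by
  obtain ⟨h1, h2, h3, h4⟩ := mem_mains.1 h
  exact mem_mains.2 ⟨h2, h1, h3.symm, by rw [ker_swap]; exact h4⟩

lemma Up.mono {R : Finset (Finset ℕ)} {P P' : Finset ℕ} (h : Up R P) (hP : P ⊆ P') : Up R P' := by
  obtain ⟨A, hA, hAP⟩ := h
  exact ⟨A, hA, hAP.trans hP⟩

/-- Two sides containing members: both are in `Y`. -/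
lemma inY_of_up {t : ℕ} {R : Finset (Finset ℕ)} {P Q : Finset ℕ} (hPQ : Disjoint P Q)
    (hP : Up R P) (hQ : Up R Q) : InY t R P := by
  obtain ⟨B, hB, hBQ⟩ := hQ
  refine ⟨hP, B, hB, ?_⟩
  have : P ∩ B = ∅ := by
    rw [← Finset.disjoint_iff_inter_eq_empty]
    exact hPQ.mono_right hBQ
  rw [this]; simp

lemma inY_or_inH {t : ℕ} {R : Finset (Finset ℕ)} {P : Finset ℕ} (h : Up R P) :
    InY t R P ∨ InH t R P := by
  by_cases hh : ∃ B ∈ R, (P ∩ B).card ≤ t
  · exact Or.inl ⟨h, hh⟩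
  · push Not at hh
    exact Or.inr ⟨h, hh⟩

lemma not_inH_of_inY {t : ℕ} {R : Finset (Finset ℕ)} {P : Finset ℕ} (h : InY t R P) :
    ¬ InH t R P := by
  rintro ⟨-, h2⟩
  obtain ⟨-, B, hB, hle⟩ := h
  exact absurd (h2 B hB) (by omega)

lemma Bd_pos (t : ℕ) : 1 ≤ Bd t := by
  unfold Bd
  have h1 : (1 : ℝ) ≤ (4 * t + 4) ^ 2 := by
    have : (0 : ℝ) ≤ t := Nat.cast_nonneg t
    nlinarith
  have h2 : (1 : ℝ) ≤ 64 ^ t := one_le_pow₀ (by norm_num)
  nlinarith

end Pool.Agent.H37.AV
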