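import Mathlib

/-!
Module Layer.  From counting below every threshold to antitone weights.

For `M` larger than all values of `f`, `g`, `k` that occur,
`ω u = ω M + ∑_{κ < M} (ω κ - ω (κ+1)) [u ≤ κ]` for `u ≤ M`, with nonnegative coefficients.  Apply `H` for
each `κ < M`, and for `κ = M` (all elements) with coefficient `ω M ≥ 0`, and sum.
-/

open Finset

namespace Pool.Agent.H37.AV

private lemma layer_one (ω : ℕ → ℝ) (u M : ℕ) (h : u ≤ M) :
    ω u = ω M + ∑ κ ∈ range M, (ω κ - ω (κ + 1)) * (if u ≤ κ then 1 else 0) := by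
  induction M, h using Nat.le_induction with
  | base =>
    have h0 : ∑ κ ∈ range u, (ω κ - ω (κ + 1)) * (if u ≤ κ then (1 : ℝ) else 0) = 0 := by
      refine sum_eq_zero fun κ hκ => ?_
      rw [mem_range] at hκ
      rw [if_neg (by omega), mul_zero]
    rw [h0, add_zero]
  | succ M hM ih =>
    rw [sum_range_succ, if_pos hM, mul_one]
    linarith

private lemma layer_two {α : Type*} (T : Finset α) (h : α → ℕ) (ω : ℕ → ℝ) (M : ℕ)
    (hM : ∀ x ∈ T, h x ≤ M) :
    ∑ x ∈ T, ω (h x) = ω M * (T.filter (fun x => h x ≤ M)).card +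
      ∑ κ ∈ range M, (ω κ - ω (κ + 1)) * (T.filter (fun x => h x ≤ κ)).card := by
  have h1 : ∑ x ∈ T, ω (h x) = ∑ x ∈ T, (ω M + ∑ κ ∈ range M,
      (ω κ - ω (κ + 1)) * (if h x ≤ κ then 1 else 0)) :=
    sum_congr rfl fun x hx => layer_one ω (h x) M (hM x hx)
  rw [h1, sum_add_distrib, sum_const, nsmul_eq_mul, filter_true_of_mem hM, mul_comm, sum_comm]
  congr 1
  refine sum_congr rfl fun κ _ => ?_
  rw [← mul_sum, card_filter]
  push_cast
  rfl

theorem layer {α β γ : Type*} (X : Finset α) (Y : Finset β) (Z : Finset γ) (f : α → ℕ) (g : β → ℕ)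
    (k : γ → ℕ) {c d : ℝ}
    (H : ∀ κ : ℕ, ((X.filter (fun x => f x ≤ κ)).card : ℝ) ≤
      c * (Y.filter (fun y => g y ≤ κ)).card + d * (Z.filter (fun z => k z ≤ κ)).card)
    {ω : ℕ → ℝ} (hω : Antitone ω) (h0 : ∀ u, 0 ≤ ω u) :
    ∑ x ∈ X, ω (f x) ≤ c * ∑ y ∈ Y, ω (g y) + d * ∑ z ∈ Z, ω (k z) := by
  set M := X.sup f + Y.sup g + Z.sup k with hM
  have hX : ∀ x ∈ X, f x ≤ M := fun x hx => by
    have := le_sup (f := f) hx
    omega
  have hY : ∀ x ∈ Y, g x ≤ M := fun x hx => by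
    have := le_sup (f := g) hx
    omega
  have hZ : ∀ x ∈ Z, k x ≤ M := fun x hx => by
    have := le_sup (f := k) hx
    omega
  rw [layer_two X f ω M hX, layer_two Y g ω M hY, layer_two Z k ω M hZ]
  have h1 : ω M * ((X.filter (fun x => f x ≤ M)).card : ℝ) ≤
      ω M * (c * (Y.filter (fun y => g y ≤ M)).card + d * (Z.filter (fun z => k z ≤ M)).card) :=
    mul_le_mul_of_nonneg_left (H M) (h0 M)
  have h2 : ∑ κ ∈ range M, (ω κ - ω (κ + 1)) * ((X.filter (fun x => f x ≤ κ)).card : ℝ) ≤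
      ∑ κ ∈ range M, (ω κ - ω (κ + 1)) *
        (c * (Y.filter (fun y => g y ≤ κ)).card + d * (Z.filter (fun z => k z ≤ κ)).card) :=
    sum_le_sum fun κ _ => mul_le_mul_of_nonneg_left (H κ)
      (by have := hω (Nat.le_succ κ); simp only [Nat.succ_eq_add_one] at this; linarith)
  have h3 : ∑ κ ∈ range M, (ω κ - ω (κ + 1)) *
        (c * (Y.filter (fun y => g y ≤ κ)).card + d * (Z.filter (fun z => k z ≤ κ)).card) =
      c * ∑ κ ∈ range M, (ω κ - ω (κ + 1)) * ((Y.filter (fun y => g y ≤ κ)).card : ℝ) +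
      d * ∑ κ ∈ range M, (ω κ - ω (κ + 1)) * ((Z.filter (fun z => k z ≤ κ)).card : ℝ) := by
    rw [mul_sum, mul_sum, ← sum_add_distrib]
    refine sum_congr rfl fun κ _ => ?_
    ring
  rw [h3] at h2
  linarith

end Pool.Agent.H37.AV
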