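import Pool.Agent.H37.AV.Sec

/-!
Module SecSqrt.  The number of members of `S` of size `≤ κ`.

Notation: `a k`, `d k`, `e k` = numbers of sets of size `k` in `S`, `D`, `N`; `γ = |G| ≤ h²`, `h ≥ 1`;
`Δ = |D_(<κ)| = ∑_(k<κ) d k`, `E = |N_(≤κ)| = ∑_(k≤κ) e k`.  (`S = ∅` is trivial; members of `S` have size
between `2` and `γ`.)  All sums below are over `k ≤ κ`.
 * always `a k ≤ Δ` for `k ≤ κ` (`sec_chain`).
 * upper part, `2 k ≥ γ + 1 + 2 h`, `k ≤ γ`: by `sec_lym`
   `a k ≤ ((γ - k + 1) / k) (a (k-1) + d (k-1)) ≤ (1 - 2h/γ) (…) ≤ (1 - 2/h) (a (k-1) + d (k-1))`, as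
   `(2k - γ - 1) / k ≥ 2h/γ ≥ 2/h`.  Let `u` be the first such `k`.  Summing over `u ≤ k ≤ κ`:
   `(2/h) ∑ a k ≤ a (u-1) + Δ ≤ 2 Δ`, so the upper part is at most `h Δ`.
 * lower part, `2 k + t + 2 h ≤ γ` and `k < κ`: by `sec_growth`
   `a k ≤ ((k+1)/(γ-k-t+1)) (a (k+1) + e (k+1)) ≤ (1 - 2/h) (a (k+1) + e (k+1))`, as
   `(γ - 2k - t) / (γ - k - t + 1) ≥ 2h / γ ≥ 2/h` (`t ≥ 1`).  Let `l` be the last such `k`.  Summing:
   `(2/h) ∑ a k ≤ a (l+1) + E ≤ Δ + E` (`l + 1 ≤ κ`), so the lower part is at most `(h/2) (Δ + E)`.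
 * the remaining `k ≤ κ` (`γ < 2k + t + 2h` and `2k < γ + 1 + 2h`, or `k = κ`): at most
   `(4h + t + 1)/2 + 2` values, each contributing at most `Δ`.
Total at most `(h + h/2 + 2h + t/2 + 3) (Δ + E) ≤ 8 (h + t) (Δ + E)`.
-/

open Finset

namespace Pool.Agent.H37.AV

/-- The contraction step. -/
theorem SecSqrt_contr {M h a b : ℕ} (hh : 1 ≤ h) (h0 : 1 ≤ M) (hM : M ≤ h ^ 2)
    (H : M * a + 2 * h * b ≤ M * b) : h * a + 2 * b ≤ h * b := by
  have hab : a ≤ b := by
    have h1 : M * a ≤ M * b := (Nat.le_add_right _ _).trans H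
    exact Nat.le_of_mul_le_mul_left h1 h0
  obtain ⟨c, rfl⟩ := Nat.exists_eq_add_of_le hab
  have h1 : 2 * h * (a + c) ≤ M * c := by
    have : M * (a + c) = M * a + M * c := by ring
    omega
  have h2 : M * c ≤ h ^ 2 * c := Nat.mul_le_mul_right c hM
  have h3 : h * (2 * (a + c)) ≤ h * (h * c) := by
    calc h * (2 * (a + c)) = 2 * h * (a + c) := by ring
      _ ≤ h ^ 2 * c := h1.trans h2
      _ = h * (h * c) := by ring
  have h4 : 2 * (a + c) ≤ h * c := Nat.le_of_mul_le_mul_left h3 hh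
  have h5 : h * (a + c) = h * a + h * c := by ring
  omega

theorem SecSqrt_up (a d : ℕ → ℕ) (h n : ℕ)
    (hc : ∀ i < n, h * a (i + 1) + 2 * (a i + d i) ≤ h * (a i + d i)) :
    2 * ∑ i ∈ range n, a (i + 1) + h * a n ≤ h * a 0 + h * ∑ i ∈ range n, d i + 2 * a n := by
  induction n with
  | zero => simp
  | succ n ih =>
    have h1 := ih fun i hi => hc i (Nat.lt_succ_of_lt hi)
    have h2 := hc n (Nat.lt_succ_self n)
    rw [sum_range_succ, sum_range_succ]
    nlinarith [h1, h2]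

theorem SecSqrt_low (a e : ℕ → ℕ) (h n : ℕ) (h0 : a 0 = 0)
    (hc : ∀ i < n, h * a i + 2 * (a (i + 1) + e (i + 1)) ≤ h * (a (i + 1) + e (i + 1))) :
    2 * ∑ i ∈ range n, a i + 2 * a n ≤ h * ∑ i ∈ range n, e (i + 1) + h * a n := by
  induction n with
  | zero => simp [h0]
  | succ n ih =>
    have h1 := ih fun i hi => hc i (Nat.lt_succ_of_lt hi)
    have h2 := hc n (Nat.lt_succ_self n)
    rw [sum_range_succ, sum_range_succ]
    nlinarith [h1, h2]

theorem SecSqrt_seq (a d e : ℕ → ℕ) {γ h t κ Δ E : ℕ} (ht : 1 ≤ t) (hh : 2 ≤ h)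
    (hG : γ ≤ h ^ 2) (a0 : a 0 = 0) (atop : ∀ k, γ < k → a k = 0) (aD : ∀ k ≤ κ, a k ≤ Δ)
    (lym : ∀ k, (k + 1) * a (k + 1) ≤ (γ - k) * (a k + d k))
    (gr : ∀ k, (γ + 1 - (k + t)) * a k ≤ (k + 1) * (a (k + 1) + e (k + 1)))
    (hD : ∑ k ∈ range κ, d k ≤ Δ) (hE : ∑ k ∈ range (κ + 1), e k ≤ E) :
    ∑ k ∈ range (κ + 1), a k ≤ 8 * (h + t) * (Δ + E) := by
  -- the lower part
  have low : ∀ j ≤ κ, (∀ k < j, 2 * k + t + 2 * h ≤ γ) →
      2 * ∑ k ∈ range j, a k ≤ h * (Δ + E) := by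
    intro j hj hk
    have h1 := SecSqrt_low a e h j a0 (fun i hi => by
      have hi1 := hk i hi
      refine SecSqrt_contr (M := γ + 1 - (i + t)) (by omega) (by omega) ?_ ?_
      · exact le_trans (by omega) hG
      · have h2 := gr i
        have h3 : (i + 1 + 2 * h) * (a (i + 1) + e (i + 1)) ≤
            (γ + 1 - (i + t)) * (a (i + 1) + e (i + 1)) :=
          Nat.mul_le_mul_right _ (by omega)
        nlinarith [h2, h3])
    have h2 : ∑ i ∈ range j, e (i + 1) ≤ E := by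
      refine le_trans ?_ hE
      have h3 : ∑ i ∈ range j, e (i + 1) ≤ ∑ i ∈ range κ, e (i + 1) :=
        sum_le_sum_of_subset (range_subset_range.mpr hj)
      have h4 := sum_range_succ' e κ
      omega
    have h3 := aD j hj
    have h4 : h * ∑ i ∈ range j, e (i + 1) ≤ h * E := Nat.mul_le_mul_left h h2
    have h5 : h * a j ≤ h * Δ := Nat.mul_le_mul_left h h3
    have h6 : h * (Δ + E) = h * Δ + h * E := by ring
    omega
  -- the upper part
  have up : ∀ u, 1 ≤ u → u ≤ κ → γ + 1 + 2 * h ≤ 2 * u →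
      2 * ∑ k ∈ Ico u (κ + 1), a k ≤ 2 * h * Δ := by
    intro u hu1 hu hu2
    have h1 := SecSqrt_up (fun i => a (u - 1 + i)) (fun i => d (u - 1 + i)) h (κ + 1 - u)
      (fun i hi => by
        show h * a (u - 1 + (i + 1)) + 2 * (a (u - 1 + i) + d (u - 1 + i)) ≤
          h * (a (u - 1 + i) + d (u - 1 + i))
        have e1 : u - 1 + (i + 1) = (u - 1 + i) + 1 := by omega
        rw [e1]
        by_cases hk : γ < u - 1 + i + 1
        · rw [atop _ hk, mul_zero, zero_add]
          exact Nat.mul_le_mul_right _ hh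
        · push Not at hk
          refine SecSqrt_contr (M := u - 1 + i + 1) (by omega) (by omega) (hk.trans hG) ?_
          have h2 := lym (u - 1 + i)
          have h3 : (γ - (u - 1 + i) + 2 * h) * (a (u - 1 + i) + d (u - 1 + i)) ≤
              (u - 1 + i + 1) * (a (u - 1 + i) + d (u - 1 + i)) :=
            Nat.mul_le_mul_right _ (by omega)
          nlinarith [h2, h3])
    have e1 : ∑ k ∈ Ico u (κ + 1), a k = ∑ i ∈ range (κ + 1 - u), a (u - 1 + (i + 1)) := by
      rw [sum_Ico_eq_sum_range]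
      refine sum_congr rfl fun i _ => ?_
      congr 1
      omega
    have e2 : ∑ i ∈ range (κ + 1 - u), d (u - 1 + i) ≤ Δ := by
      refine le_trans ?_ hD
      have h3 : ∑ i ∈ range (κ + 1 - u), d (u - 1 + i) = ∑ k ∈ Ico (u - 1) κ, d k := by
        rw [sum_Ico_eq_sum_range]
        have : κ - (u - 1) = κ + 1 - u := by omega
        rw [this]
      rw [h3]
      refine sum_le_sum_of_subset fun x hx => ?_
      rw [mem_Ico] at hx
      exact mem_range.mpr hx.2
    have h3 : a (u - 1 + 0) ≤ Δ := aD _ (by omega)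
    have h4 : a (u - 1 + (κ + 1 - u)) ≤ Δ := aD _ (by omega)
    have h5 : h * a (u - 1 + 0) ≤ h * Δ := Nat.mul_le_mul_left h h3
    have h6 : h * ∑ i ∈ range (κ + 1 - u), d (u - 1 + i) ≤ h * Δ := Nat.mul_le_mul_left h e2
    have h7 : 2 * a (u - 1 + (κ + 1 - u)) ≤ h * a (u - 1 + (κ + 1 - u)) :=
      Nat.mul_le_mul_right _ hh
    rw [e1]
    have h8 : 2 * h * Δ = h * Δ + h * Δ := by ring
    omega
  -- blocks of bounded length
  have mid : ∀ x y, y ≤ κ + 1 → ∑ k ∈ Ico x y, a k ≤ (y - x) * Δ := by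
    intro x y hy
    have h1 := sum_le_card_nsmul (Ico x y) a Δ (fun k hk => aD k (by
      rw [mem_Ico] at hk
      omega))
    rwa [Nat.card_Ico, smul_eq_mul] at h1
  -- assembly
  obtain ⟨p, hp1, hp2, hp3⟩ : ∃ p, (∀ k < p, 2 * k + t + 2 * h ≤ γ) ∧
      γ < 2 * p + t + 2 * h ∧ (p = 0 ∨ 2 * p ≤ γ) := by
    by_cases hc : t + 2 * h ≤ γ
    · exact ⟨(γ - t - 2 * h) / 2 + 1, fun k hk => by omega, by omega, Or.inr (by omega)⟩
    · exact ⟨0, fun k hk => by omega, by omega, Or.inl rfl⟩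
  have hΔE : Δ ≤ Δ + E := Nat.le_add_right _ _
  have key : ∀ m, m ≤ 2 * h + t + 2 → m * Δ ≤ (2 * h + t + 2) * (Δ + E) := fun m hm =>
    Nat.mul_le_mul hm hΔE
  have hfin : h * (Δ + E) + 2 * h * Δ + 2 * ((2 * h + t + 2) * (Δ + E)) ≤
      2 * (8 * (h + t) * (Δ + E)) := by
    have h1 : 2 * h * Δ ≤ 2 * h * (Δ + E) := Nat.mul_le_mul_left _ hΔE
    have h2 : (h + 2 * h + 2 * (2 * h + t + 2)) * (Δ + E) ≤ (2 * (8 * (h + t))) * (Δ + E) :=
      Nat.mul_le_mul_right _ (by omega)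
    nlinarith [h1, h2]
  by_cases hpk : κ ≤ p
  · -- only the lower part and one more value
    have h1 := low κ le_rfl (fun k hk => hp1 k (by omega))
    rw [sum_range_succ]
    have h2 := aD κ le_rfl
    have h3 := key 1 (by omega)
    have h4 : 0 ≤ 2 * h * Δ := Nat.zero_le _
    omega
  · push Not at hpk
    have h1 := low p hpk.le hp1
    have e1 : ∑ k ∈ range (κ + 1), a k = ∑ k ∈ range p, a k + ∑ k ∈ Ico p (κ + 1), a k :=
      (sum_range_add_sum_Ico a (by omega)).symm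
    by_cases huk : κ + 1 ≤ (γ + 2 * h + 2) / 2
    · have h2 := mid p (κ + 1) le_rfl
      have h3 := key (κ + 1 - p) (by omega)
      have h4 : 0 ≤ 2 * h * Δ := Nat.zero_le _
      omega
    · push Not at huk
      have h2 := mid p ((γ + 2 * h + 2) / 2) (by omega)
      have h3 := key ((γ + 2 * h + 2) / 2 - p) (by omega)
      have h4 := up ((γ + 2 * h + 2) / 2) (by omega) (by omega) (by omega)
      have e2 : ∑ k ∈ Ico p (κ + 1), a k = ∑ k ∈ Ico p ((γ + 2 * h + 2) / 2), a k +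
          ∑ k ∈ Ico ((γ + 2 * h + 2) / 2) (κ + 1), a k :=
        (sum_Ico_consecutive a (by omega) (by omega)).symm
      omega

theorem sec_sqrt {G : Finset ℕ} {t h : ℕ} {S D N : Finset (Finset ℕ)} (hS : Sec G t S D N)
    (ht : 1 ≤ t) (hh : 1 ≤ h) (hG : G.card ≤ h ^ 2) (κ : ℕ) :
    (S.filter (fun X => X.card ≤ κ)).card ≤ 8 * (h + t) *
      ((D.filter (fun X => X.card < κ)).card + (N.filter (fun X => X.card ≤ κ)).card) := by
  classical
  have hS2 : ∀ X ∈ S, 2 ≤ X.card := fun X hX => by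
    have := hS.int X hX X hX
    rwa [inter_self] at this
  have hSG : ∀ X ∈ S, X.card ≤ G.card := fun X hX => card_le_card (hS.sub X hX)
  have fib : ∀ (A : Finset (Finset ℕ)) (m : ℕ), (A.filter (fun X => X.card < m)).card =
      ∑ k ∈ range m, (A.filter (fun X => X.card = k)).card := by
    intro A m
    rw [card_eq_sum_card_fiberwise (f := fun X : Finset ℕ => X.card) (t := range m)
      (fun X hX => by
        have := (mem_filter.mp (Finset.mem_coe.mp hX)).2
        exact Finset.mem_coe.mpr (mem_range.mpr this))]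
    refine sum_congr rfl fun k hk => ?_
    congr 1
    ext X
    simp only [mem_filter]
    rw [mem_range] at hk
    constructor
    · rintro ⟨⟨h1, _⟩, h2⟩
      exact ⟨h1, h2⟩
    · rintro ⟨h1, h2⟩
      exact ⟨⟨h1, by omega⟩, h2⟩
  have fib' : ∀ (A : Finset (Finset ℕ)) (m : ℕ), (A.filter (fun X => X.card ≤ m)).card =
      ∑ k ∈ range (m + 1), (A.filter (fun X => X.card = k)).card := by
    intro A m
    rw [← fib A (m + 1)]
    congr 1
    ext X
    simp only [mem_filter]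
    constructor
    · rintro ⟨h1, h2⟩
      exact ⟨h1, by omega⟩
    · rintro ⟨h1, h2⟩
      exact ⟨h1, by omega⟩
  by_cases h2 : 2 ≤ h
  · rw [fib' S κ]
    refine SecSqrt_seq (fun k => (S.filter (fun X => X.card = k)).card)
      (fun k => (D.filter (fun X => X.card = k)).card)
      (fun k => (N.filter (fun X => X.card = k)).card) ht h2 hG ?_ ?_ ?_ ?_ ?_ ?_ ?_
    · show (S.filter (fun X => X.card = 0)).card = 0
      rw [card_eq_zero, filter_eq_empty_iff]
      intro X hX hc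
      have := hS2 X hX
      omega
    · intro k hk
      show (S.filter (fun X => X.card = k)).card = 0
      rw [card_eq_zero, filter_eq_empty_iff]
      intro X hX hc
      have := hSG X hX
      omega
    · intro k hk
      refine (sec_chain hS k).trans (card_le_card fun X hX => ?_)
      rw [mem_filter] at hX ⊢
      exact ⟨hX.1, by omega⟩
    · exact fun k => sec_lym hS k
    · exact fun k => sec_growth hS k
    · exact (fib D κ).ge
    · exact (fib' N κ).ge
  · have h3 : h = 1 := by omega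
    subst h3
    have h4 : (S.filter (fun X => X.card ≤ κ)).card = 0 := by
      rw [card_eq_zero, filter_eq_empty_iff]
      intro X hX hc
      have h5 := hS2 X hX
      have h6 := hSG X hX
      omega
    rw [h4]
    exact Nat.zero_le _

end Pool.Agent.H37.AV
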