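import Pool.Agent.H37.AV.Sec

/-!
Module SecTop.  Members of `S` close to the whole of `G`.

`sec_top`: let `a k`, `d k` be the numbers of sets of size `k` in `S`, `D`, `γ = |G|`, `Δ = |D_(<κ)|`.  For
`4 k ≥ 3 γ + 4`, `k ≤ γ`: `sec_lym` gives `a k ≤ ((γ-k+1)/k) (a (k-1) + d (k-1)) ≤ (1/3) (…)`, as
`3 (γ - k + 1) ≤ k`.  Let `u` be the first such `k`; sum over `u ≤ k ≤ κ`:
`3 ∑ a k ≤ a (u-1) + ∑ a k + Δ`, so `2 ∑ a k ≤ a (u-1) + Δ ≤ 2 Δ` (`sec_chain`, `u - 1 < κ` if the sum is not
empty).  The sets with `7 γ < 8 |X|` and `4 |X| < 3 γ + 4`: then `7γ < 8|X| < 6 γ + 8`, so `γ < 8`, and for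
`γ < 8` the condition `7γ < 8|X| ≤ 8γ` leaves only `|X| = γ`: `sec_chain` gives at most `Δ` for them.  Total at
most `2 Δ ≤ 4 Δ`.

`sec_near`: the sets with `|G \ X| ≤ d` have one of the `d + 1` sizes `γ - d, …, γ`; `sec_chain` for each.
-/

open Finset

namespace Pool.Agent.H37.AV

private theorem SecTop_fiber {G : Finset ℕ} {t : ℕ} {S D N : Finset (Finset ℕ)}
    (hS : Sec G t S D N) {k κ : ℕ} (hk : k ≤ κ) {T : Finset (Finset ℕ)} (hT : T ⊆ S) :
    (T.filter (fun X => X.card = k)).card ≤ (D.filter (fun X => X.card < κ)).card := by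
  have h1 : (T.filter (fun X => X.card = k)).card ≤ (S.filter (fun X => X.card = k)).card :=
    Finset.card_le_card (Finset.filter_subset_filter _ hT)
  have h2 := sec_chain hS k
  have h3 : (D.filter (fun X => X.card < k)).card ≤ (D.filter (fun X => X.card < κ)).card := by
    refine Finset.card_le_card ?_
    intro X hX
    rw [Finset.mem_filter] at hX ⊢
    exact ⟨hX.1, by omega⟩
  omega

private theorem SecTop_succ (D : Finset (Finset ℕ)) (m : ℕ) :
    (D.filter (fun X => X.card < m + 1)).card =
      (D.filter (fun X => X.card < m)).card + (D.filter (fun X => X.card = m)).card := by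
  rw [← Finset.card_union_of_disjoint]
  · congr 1
    ext X
    rw [Finset.mem_union, Finset.mem_filter, Finset.mem_filter, Finset.mem_filter]
    constructor
    · rintro ⟨h1, h2⟩
      rcases Nat.lt_succ_iff_lt_or_eq.1 h2 with h3 | h3
      · exact Or.inl ⟨h1, h3⟩
      · exact Or.inr ⟨h1, h3⟩
    · rintro (⟨h1, h2⟩ | ⟨h1, h2⟩)
      · exact ⟨h1, by omega⟩
      · exact ⟨h1, by omega⟩
  · rw [Finset.disjoint_left]
    intro X h1 h2
    rw [Finset.mem_filter] at h1 h2
    omega

private theorem SecTop_sum {G : Finset ℕ} {t : ℕ} {S D N : Finset (Finset ℕ)}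
    (hS : Sec G t S D N) {u : ℕ} (hu : 3 * G.card + 4 ≤ 4 * (u + 1)) (j : ℕ)
    (hj : u + j ≤ G.card) :
    2 * ∑ k ∈ Finset.Ico (u + 1) (u + j + 1), (S.filter (fun X => X.card = k)).card +
      (S.filter (fun X => X.card = u + j)).card ≤ (D.filter (fun X => X.card < u + j)).card := by
  induction j with
  | zero =>
    have h1 := sec_chain hS u
    simpa using h1
  | succ j ih =>
    have h1 := ih (by omega)
    have h2 := sec_lym hS (u + j)
    rw [← add_assoc] at hj ⊢
    rw [Finset.sum_Ico_succ_top (by omega), SecTop_succ D (u + j)]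
    have h3 : 3 * (G.card - (u + j)) ≤ u + j + 1 := by omega
    set a := (S.filter (fun X => X.card = u + j)).card
    set b := (S.filter (fun X => X.card = u + j + 1)).card
    set d := (D.filter (fun X => X.card = u + j)).card
    have h4 : (u + j + 1) * (3 * b) ≤ (u + j + 1) * (a + d) := by
      calc (u + j + 1) * (3 * b) = 3 * ((u + j + 1) * b) := by ring
        _ ≤ 3 * ((G.card - (u + j)) * (a + d)) := Nat.mul_le_mul_left _ h2
        _ = 3 * (G.card - (u + j)) * (a + d) := by ring
        _ ≤ (u + j + 1) * (a + d) := Nat.mul_le_mul_right _ h3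
    have h5 : 3 * b ≤ a + d := Nat.le_of_mul_le_mul_left h4 (by omega)
    omega

theorem sec_top {G : Finset ℕ} {t : ℕ} {S D N : Finset (Finset ℕ)} (hS : Sec G t S D N) (κ : ℕ) :
    (S.filter (fun X => 7 * G.card < 8 * X.card ∧ X.card ≤ κ)).card ≤
      4 * (D.filter (fun X => X.card < κ)).card := by
  set T := S.filter (fun X => 7 * G.card < 8 * X.card ∧ X.card ≤ κ) with hT
  set Δ := (D.filter (fun X => X.card < κ)).card with hΔ
  obtain ⟨u, hu1, hu2⟩ : ∃ u : ℕ, 3 * G.card + 4 ≤ 4 * (u + 1) ∧ 4 * u < 3 * G.card + 4 :=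
    ⟨(3 * G.card + 3) / 4, by omega, by omega⟩
  have hsplit : T.card ≤ (T.filter (fun X => u + 1 ≤ X.card)).card +
      (T.filter (fun X => X.card = G.card)).card := by
    rw [← Finset.card_filter_add_card_filter_not (s := T) (fun X => u + 1 ≤ X.card)]
    refine Nat.add_le_add_left (Finset.card_le_card ?_) _
    intro X hX
    rw [Finset.mem_filter] at hX ⊢
    refine ⟨hX.1, ?_⟩
    have hX1 := hX.1
    rw [hT, Finset.mem_filter] at hX1
    have h3 := Finset.card_le_card (hS.sub X hX1.1)
    omega
  have hlast : (T.filter (fun X => X.card = G.card)).card ≤ Δ := by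
    by_cases hk : G.card ≤ κ
    · exact SecTop_fiber hS hk (fun X hX => (Finset.mem_filter.1 hX).1)
    · have h4 : T.filter (fun X => X.card = G.card) = ∅ := by
        rw [Finset.filter_eq_empty_iff]
        intro X hX hXk
        rw [hT, Finset.mem_filter] at hX
        omega
      rw [h4]
      simp
  have hfirst : (T.filter (fun X => u + 1 ≤ X.card)).card ≤ Δ := by
    by_cases hm : u + 1 ≤ min κ G.card
    · obtain ⟨j, hj⟩ : ∃ j, min κ G.card = u + j := ⟨min κ G.card - u, by omega⟩
      have h5 := SecTop_sum hS hu1 j (by omega)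
      have h6 : ∀ X ∈ T.filter (fun X => u + 1 ≤ X.card), X.card ∈ Finset.Ico (u + 1) (u + j + 1) := by
        intro X hX
        rw [Finset.mem_filter, hT, Finset.mem_filter] at hX
        have h3 := Finset.card_le_card (hS.sub X hX.1.1)
        rw [Finset.mem_Ico]
        omega
      rw [Finset.card_eq_sum_card_fiberwise h6]
      have h7 : ∑ k ∈ Finset.Ico (u + 1) (u + j + 1),
          ((T.filter (fun X => u + 1 ≤ X.card)).filter (fun X => X.card = k)).card ≤
          ∑ k ∈ Finset.Ico (u + 1) (u + j + 1), (S.filter (fun X => X.card = k)).card := by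
        refine Finset.sum_le_sum fun k _ => Finset.card_le_card ?_
        intro X hX
        rw [Finset.mem_filter, Finset.mem_filter, hT, Finset.mem_filter] at hX
        rw [Finset.mem_filter]
        exact ⟨hX.1.1.1, hX.2⟩
      have h8 : (D.filter (fun X => X.card < u + j)).card ≤ Δ := by
        refine Finset.card_le_card ?_
        intro X hX
        rw [Finset.mem_filter] at hX ⊢
        exact ⟨hX.1, by omega⟩
      omega
    · have h4 : T.filter (fun X => u + 1 ≤ X.card) = ∅ := by
        rw [Finset.filter_eq_empty_iff]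
        intro X hX hXk
        rw [hT, Finset.mem_filter] at hX
        have h3 := Finset.card_le_card (hS.sub X hX.1)
        omega
      rw [h4]
      simp
  omega

theorem sec_near {G : Finset ℕ} {t : ℕ} {S D N : Finset (Finset ℕ)} (hS : Sec G t S D N)
    (d κ : ℕ) :
    (S.filter (fun X => (G \ X).card ≤ d ∧ X.card ≤ κ)).card ≤
      (d + 1) * (D.filter (fun X => X.card < κ)).card := by
  set T := S.filter (fun X => (G \ X).card ≤ d ∧ X.card ≤ κ) with hT
  have h1 : ∀ X ∈ T, X.card ∈ Finset.Icc (G.card - d) G.card := by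
    intro X hX
    rw [hT, Finset.mem_filter] at hX
    have h2 := Finset.card_sdiff_add_card_eq_card (hS.sub X hX.1)
    have h3 := Finset.card_le_card (hS.sub X hX.1)
    rw [Finset.mem_Icc]
    omega
  rw [Finset.card_eq_sum_card_fiberwise h1]
  refine (Finset.sum_le_card_nsmul _ _ (D.filter (fun X => X.card < κ)).card ?_).trans ?_
  · intro k _
    by_cases hk : k ≤ κ
    · exact SecTop_fiber hS hk (fun X hX => (Finset.mem_filter.1 hX).1)
    · have h4 : T.filter (fun X => X.card = k) = ∅ := by
        rw [Finset.filter_eq_empty_iff]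
        intro X hX hXk
        rw [hT, Finset.mem_filter] at hX
        omega
      rw [h4]
      simp
  · rw [Nat.card_Icc, smul_eq_mul]
    exact Nat.mul_le_mul_right _ (by omega)

end Pool.Agent.H37.AV
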