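import Pool.Agent.H37.AV.Glob
import Pool.Agent.H37.AV.Layer
import Pool.Agent.H37.AV.SecSqrt
import Pool.Agent.H37.AV.SecTop

/-!
Module Exits.  The three consequences of `glob`, with antitone weights of `|s.1|` (by `layer`).

`exits_sqrt`: `sel G X` = `|G| ≤ h²`, `cD = cN = 8 (h + t)` (`sec_sqrt`; `|D_(<κ)| ≤ |D_(≤κ)|`).
`exits_top`: `sel G X` = `7 |G| < 8 |X|`, `cD = 4`, `cN = 0`.
`exits_near`: `sel G X` = `|G \ X| ≤ d`, `cD = d + 1`, `cN = 0`; `Gs s \ (s.1 ∩ Gs s) = Gs s \ s.1`.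
-/

open Finset

namespace Pool.Agent.H37.AV

variable {V : Finset ℕ} {t : ℕ} {R : Finset (Finset ℕ)}

theorem exits_sqrt (ht : 2 ≤ t) (h : Av V t R) {hh : ℕ} (hhh : 1 ≤ hh) {ω : ℕ → ℝ}
    (hω : Antitone ω) (h0 : ∀ u, 0 ≤ ω u) :
    ∑ s ∈ (Th V t R).filter (fun s => (Gs V R s).card ≤ hh ^ 2), ω s.1.card ≤
      8 * (hh + t) * ∑ s ∈ SQ V t R, ω s.1.card + 16 * (hh + t) * ∑ s ∈ N2 V t R, ω s.1.card := by
  refine layer _ _ _ (fun s : Slot => s.1.card) (fun s : Slot => s.1.card)
    (fun s : Slot => s.1.card) (fun κ => ?_) hω h0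
  have hc : (0 : ℝ) ≤ 8 * (hh + t) := by positivity
  have := glob ht h (fun G _ => G.card ≤ hh ^ 2) hc hc (fun G S D N hS κ => ?_) κ
  · rw [filter_filter]
    calc _ ≤ _ := this
      _ = _ := by ring
  · by_cases hG : G.card ≤ hh ^ 2
    · simp only [hG, true_and]
      have h1 := sec_sqrt hS (by omega) hhh hG κ
      have h2 : (D.filter (fun X => X.card < κ)).card ≤ (D.filter (fun X => X.card ≤ κ)).card :=
        card_le_card (monotone_filter_right _ (fun X _ hX => le_of_lt hX))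
      have h3 : (S.filter (fun X => X.card ≤ κ)).card ≤ 8 * (hh + t) *
          ((D.filter (fun X => X.card ≤ κ)).card + (N.filter (fun X => X.card ≤ κ)).card) :=
        h1.trans (Nat.mul_le_mul_left _ (by omega))
      have h4 : ((S.filter (fun X => X.card ≤ κ)).card : ℝ) ≤ 8 * (hh + t) *
          ((D.filter (fun X => X.card ≤ κ)).card + (N.filter (fun X => X.card ≤ κ)).card) := by
        exact_mod_cast h3
      calc _ ≤ _ := h4
        _ = _ := by ring
    · simp only [hG, false_and, filter_false, card_empty, Nat.cast_zero]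
      positivity

theorem exits_top (ht : 2 ≤ t) (h : Av V t R) {ω : ℕ → ℝ} (hω : Antitone ω) (h0 : ∀ u, 0 ≤ ω u) :
    ∑ s ∈ (Th V t R).filter (fun s => 7 * (Gs V R s).card < 8 * (s.1 ∩ Gs V R s).card),
        ω s.1.card ≤
      4 * ∑ s ∈ SQ V t R, ω s.1.card + 4 * ∑ s ∈ N2 V t R, ω s.1.card := by
  refine layer _ _ _ (fun s : Slot => s.1.card) (fun s : Slot => s.1.card)
    (fun s : Slot => s.1.card) (fun κ => ?_) hω h0
  have := glob ht h (fun G X => 7 * G.card < 8 * X.card) (cD := 4) (cN := 0) (by norm_num)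
    le_rfl (fun G S D N hS κ => ?_) κ
  · rw [filter_filter]
    calc _ ≤ _ := this
      _ = _ := by ring
  · have h1 := sec_top hS κ
    have h2 : (D.filter (fun X => X.card < κ)).card ≤ (D.filter (fun X => X.card ≤ κ)).card :=
      card_le_card (monotone_filter_right _ (fun X _ hX => le_of_lt hX))
    have h3 := h1.trans (Nat.mul_le_mul_left 4 h2)
    rw [zero_mul, add_zero]
    exact_mod_cast h3

theorem exits_near (ht : 2 ≤ t) (h : Av V t R) (d : ℕ) {ω : ℕ → ℝ} (hω : Antitone ω)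
    (h0 : ∀ u, 0 ≤ ω u) :
    ∑ s ∈ (Th V t R).filter (fun s => (Gs V R s \ s.1).card ≤ d), ω s.1.card ≤
      (d + 1) * ∑ s ∈ SQ V t R, ω s.1.card + (d + 1) * ∑ s ∈ N2 V t R, ω s.1.card := by
  refine layer _ _ _ (fun s : Slot => s.1.card) (fun s : Slot => s.1.card)
    (fun s : Slot => s.1.card) (fun κ => ?_) hω h0
  have := glob ht h (fun G X => (G \ X).card ≤ d) (cD := (d + 1)) (cN := 0) (by positivity)
    le_rfl (fun G S D N hS κ => ?_) κ
  · rw [filter_filter]
    have e : ∀ s : Slot, Gs V R s \ (s.1 ∩ Gs V R s) = Gs V R s \ s.1 := by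
      intro s
      ext y
      simp only [mem_sdiff, mem_inter]
      tauto
    simp only [e] at this
    calc _ ≤ _ := this
      _ = _ := by ring
  · have h1 := sec_near hS d κ
    have h2 : (D.filter (fun X => X.card < κ)).card ≤ (D.filter (fun X => X.card ≤ κ)).card :=
      card_le_card (monotone_filter_right _ (fun X _ hX => le_of_lt hX))
    have h3 := h1.trans (Nat.mul_le_mul_left (d + 1) h2)
    rw [zero_mul, add_zero]
    exact_mod_cast h3

end Pool.Agent.H37.AV
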