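import Pool.Agent.H37.AV.Loc

/-!
Module TypeClass.  `N` has `t + 1` elements, `A ⊆ N ∪ T`, `A ∩ N = N \ {b}`, `B ⊆ N ∪ T'`,
`B ∩ N = N \ {a}`, `A, B ∈ R`.

`M` = the set of the `j ∈ N` for which some member `C ⊆ N ∪ T'` has `C ∩ N = N \ {j}`.  So `a ∈ M`.  If
`j ∈ M` then no member `C ⊆ N ∪ T` has `C ∩ N = N \ {j}` (it would meet the other in `N \ {j}`, `t`
elements); in particular `b ∉ M`.  No member `C ⊆ N ∪ T` contains `N` (`C ∩ B = N \ {a}`), and no member
`C ⊆ N ∪ T'` contains `N` (`C ∩ A = N \ {b}`).  Use in `loc`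
 `- ∑_{j ∈ M} e_(N\{j},{j}) + ∑_{j ∈ N\M} e_({j},N\{j}) + (|M| - 1) e_(N,∅) - (|N\M| - 1) e_(∅,N)`.
None of the pairs of traces is realised (for `j ∈ N \ M` no member has trace `N \ {j}` from the `T'`
side; sets with at least `t` elements in a row are members).
Coefficients (`m = |M|`, `m' = |N \ M|`, `m + m' = t + 1`):
 `(∅,∅)`: `(-1)^(t+1) (-m + m' + (m-1) - (m'-1)) = 0`;
 `({i},∅)`: `(-1)^t (-(m - [i∈M]) + [i∉M] + (m-1)) = 0`;
 `(∅,{i})`: `(-1)^t (-[i∈M] + (m' - [i∉M]) - (m'-1)) = 0`;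
 `({u,v},∅)`: `(-1)^(t-1) (|{u,v} ∩ M| - 1)`;   `({u},{v})`: `(-1)^(t-1) ([u∉M] - [v∈M])`;
 `(∅,{u,v})`: `(-1)^(t-1) (1 - |{u,v} \ M|)`:
these are `± 1` if `u, v` are both in `M` or both outside.  All coefficients are bounded by
`2 (t + 1) + (m - 1) + (m' - 1) ≤ 4 t + 4`.  Pairs with `|L₁ ∪ L₂| ≤ 1` are exactly those with
`|N \ (L₁ ∪ L₂)| ≥ t`.
-/

open Finset

namespace Pool.Agent.H37.AV

private theorem tc_sign {N X Y L₁ L₂ : Finset ℕ} (h1 : L₁ ⊆ X) (h2 : L₂ ⊆ Y)
    (hXY : Disjoint X Y) (hN : X ∪ Y = N) :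
    ((-1 : ℝ)) ^ ((X \ L₁).card + (Y \ L₂).card) = (-1) ^ (N.card + L₁.card + L₂.card) := by
  have e1 := Finset.card_sdiff_add_card_eq_card h1
  have e2 := Finset.card_sdiff_add_card_eq_card h2
  have e3 : N.card = X.card + Y.card := by rw [← hN, Finset.card_union_of_disjoint hXY]
  have e4 : N.card + L₁.card + L₂.card =
      ((X \ L₁).card + (Y \ L₂).card) + 2 * (L₁.card + L₂.card) := by omega
  rw [e4, pow_add (-1 : ℝ) (_ + _) (2 * _), pow_mul]
  norm_num

/-- the pairs of the combination -/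
private def tcL (N M : Finset ℕ) : ℕ ⊕ Bool → Slot
  | Sum.inl j => if j ∈ M then (N.erase j, {j}) else ({j}, N.erase j)
  | Sum.inr true => (N, ∅)
  | Sum.inr false => (∅, N)

/-- the coefficients of the combination -/
private noncomputable def tcA (N M : Finset ℕ) : ℕ ⊕ Bool → ℝ
  | Sum.inl j => if j ∈ M then -1 else 1
  | Sum.inr true => (M.card : ℝ) - 1
  | Sum.inr false => -(((N \ M).card : ℝ) - 1)

private noncomputable def tcS (N M L₁ L₂ : Finset ℕ) : ℝ :=
  (∑ j ∈ N, if j ∈ M then (if L₁ ⊆ N.erase j ∧ L₂ ⊆ {j} then -1 else 0)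
    else (if L₁ ⊆ {j} ∧ L₂ ⊆ N.erase j then 1 else 0)) +
  (if L₂ = ∅ then (M.card : ℝ) - 1 else 0) + (if L₁ = ∅ then -(((N \ M).card : ℝ) - 1) else 0)

private theorem tc_kap {N M L₁ L₂ : Finset ℕ} (h1 : L₁ ⊆ N) (h2 : L₂ ⊆ N) :
    kap (N.disjSum Finset.univ) (tcL N M) (tcA N M) L₁ L₂ =
      (-1) ^ (N.card + L₁.card + L₂.card) * tcS N M L₁ L₂ := by
  classical
  unfold kap tcS
  rw [Finset.sum_disjSum, Fintype.sum_bool, mul_add, mul_add, Finset.mul_sum, add_assoc]
  congr 1
  · refine Finset.sum_congr rfl fun j hj => ?_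
    have hN1 : N.erase j ∪ {j} = N := by
      rw [Finset.union_comm, ← Finset.insert_eq, Finset.insert_erase hj]
    have hd : Disjoint (N.erase j) {j} := by
      rw [Finset.disjoint_singleton_right]
      exact Finset.notMem_erase j N
    by_cases hjM : j ∈ M
    · simp only [tcL, tcA, hjM, if_true]
      by_cases hc : L₁ ⊆ N.erase j ∧ L₂ ⊆ {j}
      · rw [if_pos hc, if_pos hc, tc_sign hc.1 hc.2 hd hN1]
        ring
      · rw [if_neg hc, if_neg hc, mul_zero]
    · simp only [tcL, tcA, hjM, if_false]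
      by_cases hc : L₁ ⊆ {j} ∧ L₂ ⊆ N.erase j
      · rw [if_pos hc, if_pos hc, tc_sign hc.1 hc.2 hd.symm
          ((Finset.union_comm {j} (N.erase j)).trans hN1)]
        ring
      · rw [if_neg hc, if_neg hc, mul_zero]
  · congr 1
    · simp only [tcL, tcA]
      by_cases hc : L₂ = ∅
      · have hc' : L₁ ⊆ N ∧ L₂ ⊆ ∅ := ⟨h1, by rw [hc]⟩
        rw [if_pos hc', if_pos hc, tc_sign hc'.1 hc'.2 (Finset.disjoint_empty_right N)
          (Finset.union_empty N)]
        ring
      · have hc' : ¬ (L₁ ⊆ N ∧ L₂ ⊆ ∅) := fun h => hc (Finset.subset_empty.1 h.2)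
        rw [if_neg hc', if_neg hc, mul_zero]
    · simp only [tcL, tcA]
      by_cases hc : L₁ = ∅
      · have hc' : L₁ ⊆ ∅ ∧ L₂ ⊆ N := ⟨by rw [hc], h2⟩
        rw [if_pos hc', if_pos hc, tc_sign hc'.1 hc'.2 (Finset.disjoint_empty_left N)
          (Finset.empty_union N)]
        ring
      · have hc' : ¬ (L₁ ⊆ ∅ ∧ L₂ ⊆ N) := fun h => hc (Finset.subset_empty.1 h.1)
        rw [if_neg hc', if_neg hc, mul_zero]

private theorem tc_sumM {N M : Finset ℕ} (hM : M ⊆ N) (c : ℝ) :
    ∑ j ∈ N, (if j ∈ M then c else 0) = M.card * c := by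
  classical
  rw [Finset.sum_ite_mem, Finset.inter_eq_right.2 hM, Finset.sum_const, nsmul_eq_mul]

private theorem tc_sumN {N M : Finset ℕ} (c : ℝ) :
    ∑ j ∈ N, (if j ∈ M then 0 else c) = (N \ M).card * c := by
  classical
  have : ∀ j ∈ N, (if j ∈ M then (0 : ℝ) else c) = if j ∈ N \ M then c else 0 := by
    intro j hj
    by_cases h : j ∈ M
    · rw [if_pos h, if_neg]
      rw [Finset.mem_sdiff]
      exact fun h' => h'.2 h
    · rw [if_neg h, if_pos]
      exact Finset.mem_sdiff.2 ⟨hj, h⟩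
  rw [Finset.sum_congr rfl this]
  exact tc_sumM Finset.sdiff_subset c

private theorem tc_sub_erase {N : Finset ℕ} {i j : ℕ} (hi : i ∈ N) : {i} ⊆ N.erase j ↔ j ≠ i := by
  rw [Finset.singleton_subset_iff, Finset.mem_erase]
  exact ⟨fun h => h.1.symm, fun h => ⟨h.symm, hi⟩⟩

private theorem tc_00 {N M : Finset ℕ} (hM : M ⊆ N) : tcS N M ∅ ∅ = 0 := by
  unfold tcS
  simp only [Finset.empty_subset, and_self, if_true]
  have : ∀ j ∈ N, (if j ∈ M then (-1 : ℝ) else 1) =
      (if j ∈ M then (-1) else 0) + (if j ∈ M then 0 else 1) := by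
    intro j _
    by_cases h : j ∈ M <;> simp [h]
  rw [Finset.sum_congr rfl this, Finset.sum_add_distrib, tc_sumM hM, tc_sumN]
  ring

private theorem tc_10 {N M : Finset ℕ} (hM : M ⊆ N) {i : ℕ} (hi : i ∈ N) :
    tcS N M {i} ∅ = 0 := by
  classical
  unfold tcS
  have : ∀ j ∈ N, (if j ∈ M then (if {i} ⊆ N.erase j ∧ ∅ ⊆ ({j} : Finset ℕ) then (-1 : ℝ) else 0)
      else (if ({i} : Finset ℕ) ⊆ {j} ∧ ∅ ⊆ N.erase j then 1 else 0)) =
      (if j ∈ M then (-1) else 0) + (if j = i then 1 else 0) := by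
    intro j _
    simp only [tc_sub_erase hi, Finset.singleton_subset_iff, Finset.mem_singleton]
    by_cases h' : j = i
    · subst h'
      by_cases h : j ∈ M <;> simp [h]
    · have h'' : ¬ i = j := fun e => h' e.symm
      by_cases h : j ∈ M <;> simp [h, h', h'']
  rw [Finset.sum_congr rfl this, Finset.sum_add_distrib, tc_sumM hM, Finset.sum_ite_eq', if_pos hi,
    if_pos rfl, if_neg (Finset.singleton_ne_empty i)]
  ring

private theorem tc_01 {N M : Finset ℕ} {i : ℕ} (hi : i ∈ N) :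
    tcS N M ∅ {i} = 0 := by
  classical
  unfold tcS
  have : ∀ j ∈ N, (if j ∈ M then (if ∅ ⊆ N.erase j ∧ {i} ⊆ ({j} : Finset ℕ) then (-1 : ℝ) else 0)
      else (if (∅ : Finset ℕ) ⊆ {j} ∧ {i} ⊆ N.erase j then 1 else 0)) =
      (if j ∈ M then 0 else 1) + (if j = i then (-1) else 0) := by
    intro j _
    simp only [tc_sub_erase hi, Finset.singleton_subset_iff, Finset.mem_singleton]
    by_cases h' : j = i
    · subst h'
      by_cases h : j ∈ M <;> simp [h]
    · have h'' : ¬ i = j := fun e => h' e.symm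
      by_cases h : j ∈ M <;> simp [h, h', h'']
  rw [Finset.sum_congr rfl this, Finset.sum_add_distrib, tc_sumN, Finset.sum_ite_eq', if_pos hi,
    if_pos rfl, if_neg (Finset.singleton_ne_empty i)]
  ring

private theorem tc_20 {N M : Finset ℕ} (hM : M ⊆ N) {u v : ℕ} (huv : u ≠ v) (hu : u ∈ N)
    (hv : v ∈ N) :
    tcS N M {u, v} ∅ = (if u ∈ M then 1 else 0) + (if v ∈ M then 1 else 0) - 1 := by
  classical
  unfold tcS
  have : ∀ j ∈ N, (if j ∈ M then
        (if {u, v} ⊆ N.erase j ∧ ∅ ⊆ ({j} : Finset ℕ) then (-1 : ℝ) else 0)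
      else (if ({u, v} : Finset ℕ) ⊆ {j} ∧ ∅ ⊆ N.erase j then 1 else 0)) =
      (if j ∈ M then (-1) else 0) + (if j = u then (if u ∈ M then 1 else 0) else 0) +
        (if j = v then (if v ∈ M then 1 else 0) else 0) := by
    intro j _
    have e1 : ({u, v} : Finset ℕ) ⊆ N.erase j ↔ j ≠ u ∧ j ≠ v := by
      rw [Finset.insert_subset_iff, tc_sub_erase hv, Finset.mem_erase]
      exact ⟨fun h => ⟨h.1.1.symm, h.2⟩, fun h => ⟨⟨h.1.symm, hu⟩, h.2⟩⟩
    have e2 : ¬ ({u, v} : Finset ℕ) ⊆ {j} := by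
      intro h
      rw [Finset.insert_subset_iff, Finset.singleton_subset_iff, Finset.mem_singleton,
        Finset.mem_singleton] at h
      exact huv (h.1.trans h.2.symm)
    simp only [e1, e2, Finset.empty_subset, and_true, if_false]
    by_cases h : j ∈ M
    · by_cases h' : j = u
      · subst h'
        simp [h, huv]
      · by_cases h'' : j = v
        · subst h''
          simp [h, h']
        · simp [h, h', h'']
    · by_cases h' : j = u
      · subst h'
        simp [h, huv]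
      · by_cases h'' : j = v
        · subst h''
          simp [h, h']
        · simp [h, h', h'']
  rw [Finset.sum_congr rfl this, Finset.sum_add_distrib, Finset.sum_add_distrib, tc_sumM hM,
    Finset.sum_ite_eq', if_pos hu, Finset.sum_ite_eq', if_pos hv, if_pos rfl,
    if_neg (Finset.insert_ne_empty u {v})]
  ring

private theorem tc_02 {N M : Finset ℕ} {u v : ℕ} (huv : u ≠ v) (hu : u ∈ N) (hv : v ∈ N) :
    tcS N M ∅ {u, v} = 1 - (if u ∈ M then 0 else 1) - (if v ∈ M then 0 else 1) := by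
  classical
  unfold tcS
  have : ∀ j ∈ N, (if j ∈ M then
        (if ∅ ⊆ N.erase j ∧ {u, v} ⊆ ({j} : Finset ℕ) then (-1 : ℝ) else 0)
      else (if (∅ : Finset ℕ) ⊆ {j} ∧ {u, v} ⊆ N.erase j then 1 else 0)) =
      (if j ∈ M then 0 else 1) + (if j = u then (if u ∈ M then 0 else (-1)) else 0) +
        (if j = v then (if v ∈ M then 0 else (-1)) else 0) := by
    intro j _
    have e1 : ({u, v} : Finset ℕ) ⊆ N.erase j ↔ j ≠ u ∧ j ≠ v := by
      rw [Finset.insert_subset_iff, tc_sub_erase hv, Finset.mem_erase]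
      exact ⟨fun h => ⟨h.1.1.symm, h.2⟩, fun h => ⟨⟨h.1.symm, hu⟩, h.2⟩⟩
    have e2 : ¬ ({u, v} : Finset ℕ) ⊆ {j} := by
      intro h
      rw [Finset.insert_subset_iff, Finset.singleton_subset_iff, Finset.mem_singleton,
        Finset.mem_singleton] at h
      exact huv (h.1.trans h.2.symm)
    simp only [e1, e2, Finset.empty_subset, true_and, and_false, if_false]
    by_cases h : j ∈ M
    · by_cases h' : j = u
      · subst h'
        simp [h, huv]
      · by_cases h'' : j = v
        · subst h''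
          simp [h, h']
        · simp [h, h', h'']
    · by_cases h' : j = u
      · subst h'
        simp [h, huv]
      · by_cases h'' : j = v
        · subst h''
          simp [h, h']
        · simp [h, h', h'']
  rw [Finset.sum_congr rfl this, Finset.sum_add_distrib, Finset.sum_add_distrib, tc_sumN,
    Finset.sum_ite_eq', if_pos hu, Finset.sum_ite_eq', if_pos hv,
    if_neg (Finset.insert_ne_empty u {v}), if_pos rfl]
  by_cases h1 : u ∈ M <;> by_cases h2 : v ∈ M <;> simp only [h1, h2, if_true, if_false] <;> ring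

private theorem tc_11 {N M : Finset ℕ} {u v : ℕ} (huv : u ≠ v) (hu : u ∈ N) (hv : v ∈ N) :
    tcS N M {u} {v} = (if u ∈ M then 0 else 1) - (if v ∈ M then 1 else 0) := by
  classical
  unfold tcS
  have : ∀ j ∈ N, (if j ∈ M then
        (if {u} ⊆ N.erase j ∧ {v} ⊆ ({j} : Finset ℕ) then (-1 : ℝ) else 0)
      else (if ({u} : Finset ℕ) ⊆ {j} ∧ {v} ⊆ N.erase j then 1 else 0)) =
      (if j = u then (if u ∈ M then 0 else 1) else 0) +
        (if j = v then (if v ∈ M then (-1) else 0) else 0) := by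
    intro j _
    simp only [tc_sub_erase hu, tc_sub_erase hv, Finset.singleton_subset_iff,
      Finset.mem_singleton]
    by_cases h' : j = u
    · subst h'
      by_cases h : j ∈ M
      · simp [h, huv]
      · simp [h, huv]
    · by_cases h'' : j = v
      · subst h''
        by_cases h : j ∈ M
        · simp [h, h']
        · simp [h, h', huv]
      · have h3 : ¬ u = j := fun e => h' e.symm
        have h4 : ¬ v = j := fun e => h'' e.symm
        simp [h', h'', h3, h4]
  rw [Finset.sum_congr rfl this, Finset.sum_add_distrib, Finset.sum_ite_eq', if_pos hu,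
    Finset.sum_ite_eq', if_pos hv, if_neg (Finset.singleton_ne_empty v),
    if_neg (Finset.singleton_ne_empty u)]
  by_cases h1 : u ∈ M <;> by_cases h2 : v ∈ M <;> simp only [h1, h2, if_true, if_false] <;> ring

theorem nr_class {V : Finset ℕ} {t : ℕ} {R : Finset (Finset ℕ)} {N T T' : Finset ℕ} (ht : 2 ≤ t)
    (h : Av V t R) (hNT : Disjoint N T) (hNT' : Disjoint N T') (hTT' : Disjoint T T')
    (hV : N ∪ (T ∪ T') = V) (hN : N.card = t + 1) {a b : ℕ} (ha : a ∈ N) (hb : b ∈ N) (hab : a ≠ b)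
    (hA : ∃ A ∈ R, A ⊆ N ∪ T ∧ A ∩ N = N.erase b) (hB : ∃ B ∈ R, B ⊆ N ∪ T' ∧ B ∩ N = N.erase a) :
    ∃ M : Finset ℕ, M ⊆ N ∧ a ∈ M ∧ b ∉ M ∧ ∀ L₁ L₂ : Finset ℕ, Disjoint L₁ L₂ → L₁ ∪ L₂ ⊆ N →
      (L₁ ∪ L₂).card = 2 → (L₁ ∪ L₂ ⊆ M ∨ Disjoint (L₁ ∪ L₂) M) → NR V t R (T ∪ L₁, T' ∪ L₂) := by
  classical
  obtain ⟨A, hAR, hAN, hAb⟩ := hA
  obtain ⟨B, hBR, hBN, hBa⟩ := hB
  let M : Finset ℕ := N.filter (fun j => ∃ C ∈ R, C ⊆ N ∪ T' ∧ C ∩ N = N.erase j)
  have hMN : M ⊆ N := filter_subset _ _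
  have haM : a ∈ M := mem_filter.2 ⟨ha, B, hBR, hBN, hBa⟩
  have hint : ∀ C D : Finset ℕ, C ⊆ N ∪ T → D ⊆ N ∪ T' → C ∩ D = (C ∩ N) ∩ (D ∩ N) := by
    intro C D hC hD
    ext y
    simp only [mem_inter]
    constructor
    · rintro ⟨h1, h2⟩
      have h3 : y ∈ N := by
        rcases mem_union.1 (hC h1) with h3 | h3
        · exact h3
        · rcases mem_union.1 (hD h2) with h4 | h4
          · exact h4
          · exact absurd h4 (Finset.disjoint_left.1 hTT' h3)
      exact ⟨⟨h1, h3⟩, h2, h3⟩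
    · rintro ⟨⟨h1, -⟩, h2, -⟩
      exact ⟨h1, h2⟩
  have hcard : ∀ j ∈ N, (N.erase j).card = t := by
    intro j hj
    rw [card_erase_of_mem hj, hN]
    omega
  have hbM : b ∉ M := by
    intro hb'
    obtain ⟨-, C, hC, hCN, hCb⟩ := mem_filter.1 hb'
    apply h.av A hAR C hC
    rw [hint A C hAN hCN, hAb, hCb, inter_self, hcard b hb]
  refine ⟨M, hMN, haM, hbM, fun L₁ L₂ h12 hL hc hcase => ?_⟩
  have hm : M.card + (N \ M).card = t + 1 := by
    rw [← hN, add_comm]
    exact Finset.card_sdiff_add_card_eq_card hMN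
  have hm1 : 1 ≤ M.card := Finset.card_pos.2 ⟨a, haM⟩
  have hm2 : 1 ≤ (N \ M).card := Finset.card_pos.2 ⟨b, mem_sdiff.2 ⟨hb, hbM⟩⟩
  have hbig : ∀ (D : Finset ℕ), t ≤ D.card → (D ∈ R ∨ D.card < t) → D ∈ R := by
    intro D h1 h2
    rcases h2 with h2 | h2
    · exact h2
    · omega
  have hL1 : L₁ ⊆ N := subset_union_left.trans hL
  have hL2 : L₂ ⊆ N := subset_union_right.trans hL
  refine loc hNT hNT' hTT' hV (by omega) (N.disjSum Finset.univ) (tcL N M) (tcA N M)
    ?_ ?_ ?_ ?_ hL1 hL2 h12 ?_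
  · rintro (j | c) hi
    · have hj : j ∈ N := Finset.inl_mem_disjSum.1 hi
      have hd : Disjoint (N.erase j) {j} := by
        rw [Finset.disjoint_singleton_right]
        exact Finset.notMem_erase j N
      by_cases hjM : j ∈ M
      · simp only [tcL, hjM, if_true]
        exact ⟨Finset.erase_subset _ _, Finset.singleton_subset_iff.2 hj, hd⟩
      · simp only [tcL, hjM, if_false]
        exact ⟨Finset.singleton_subset_iff.2 hj, Finset.erase_subset _ _, hd.symm⟩
    · cases c
      · exact ⟨Finset.empty_subset _, Finset.Subset.refl _, Finset.disjoint_empty_left _⟩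
      · exact ⟨Finset.Subset.refl _, Finset.empty_subset _, Finset.disjoint_empty_right _⟩
  · rintro (j | c) hi r hr hr1 hr2 hr3 hr4
    · have hj : j ∈ N := Finset.inl_mem_disjSum.1 hi
      obtain ⟨-, -, hrd, hra, hrb, -⟩ := mem_rows.1 hr
      by_cases hjM : j ∈ M
      · simp only [tcL, hjM, if_true] at hr3 hr4
        obtain ⟨-, C, hC, hCN, hCj⟩ := mem_filter.1 hjM
        have h1 : r.1 ∈ R := hbig _ (by
          rw [← hcard j hj, ← hr3]
          exact card_le_card inter_subset_left) hra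
        apply h.av _ h1 C hC
        rw [hint _ C hr1 hCN, hr3, hCj, inter_self, hcard j hj]
      · simp only [tcL, hjM, if_false] at hr3 hr4
        have h1 : r.2 ∈ R := hbig _ (by
          rw [← hcard j hj, ← hr4]
          exact card_le_card inter_subset_left) hrb
        exact hjM (mem_filter.2 ⟨hj, r.2, h1, hr2, hr4⟩)
    · obtain ⟨-, -, hrd, hra, hrb, -⟩ := mem_rows.1 hr
      cases c
      · have hr3' : r.1 ∩ N = ∅ := hr3
        have hr4' : r.2 ∩ N = N := hr4
        have h1 : r.2 ∈ R := hbig _ (by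
          have : (r.2 ∩ N).card ≤ r.2.card := card_le_card inter_subset_left
          rw [hr4', hN] at this
          omega) hrb
        apply h.av A hAR _ h1
        rw [hint A _ hAN hr2, hAb, hr4', inter_eq_left.2 (Finset.erase_subset _ _), hcard b hb]
      · have hr3' : r.1 ∩ N = N := hr3
        have h1 : r.1 ∈ R := hbig _ (by
          have : (r.1 ∩ N).card ≤ r.1.card := card_le_card inter_subset_left
          rw [hr3', hN] at this
          omega) hra
        apply h.av _ h1 B hBR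
        rw [hint _ B hr1 hBN, hBa, hr3', inter_eq_right.2 (Finset.erase_subset _ _), hcard a ha]
  · intro K₁ K₂ hK1 hK2 hK12 hK
    rw [tc_kap hK1 hK2]
    have h1 : (K₁ ∪ K₂).card ≤ 1 := by
      have := Finset.card_sdiff_add_card_eq_card (Finset.union_subset hK1 hK2)
      omega
    rw [Finset.card_union_of_disjoint hK12] at h1
    have h2 : tcS N M K₁ K₂ = 0 := by
      rcases Nat.eq_zero_or_pos K₁.card with h3 | h3
      · rw [Finset.card_eq_zero] at h3
        rcases Nat.eq_zero_or_pos K₂.card with h4 | h4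
        · rw [Finset.card_eq_zero] at h4
          rw [h3, h4]
          exact tc_00 hMN
        · obtain ⟨i, hi⟩ := Finset.card_eq_one.1 (show K₂.card = 1 by omega)
          rw [h3, hi]
          refine tc_01 ?_
          rw [hi] at hK2
          exact Finset.singleton_subset_iff.1 hK2
      · obtain ⟨i, hi⟩ := Finset.card_eq_one.1 (show K₁.card = 1 by omega)
        have h4 : K₂ = ∅ := by
          rw [← Finset.card_eq_zero]
          omega
        rw [hi, h4]
        refine tc_10 hMN ?_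
        rw [hi] at hK1
        exact Finset.singleton_subset_iff.1 hK1
    rw [h2, mul_zero]
  · intro K₁ K₂
    unfold kap
    refine (Finset.abs_sum_le_sum_abs _ _).trans ?_
    have h1 : ∀ i ∈ N.disjSum (Finset.univ : Finset Bool),
        |if K₁ ⊆ (tcL N M i).1 ∧ K₂ ⊆ (tcL N M i).2 then
          tcA N M i * (-1) ^ (((tcL N M i).1 \ K₁).card + ((tcL N M i).2 \ K₂).card) else 0| ≤
        |tcA N M i| := by
      intro i _
      split_ifs
      · rw [abs_mul, abs_pow, abs_neg, abs_one, one_pow, mul_one]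
      · rw [abs_zero]
        exact abs_nonneg _
    refine (Finset.sum_le_sum h1).trans ?_
    rw [Finset.sum_disjSum, Fintype.sum_bool]
    have h2 : ∑ j ∈ N, |tcA N M (Sum.inl j)| = (t : ℝ) + 1 := by
      have : ∀ j ∈ N, |tcA N M (Sum.inl j)| = 1 := by
        intro j _
        by_cases hj : j ∈ M <;> simp [tcA, hj]
      rw [Finset.sum_congr rfl this, Finset.sum_const, hN, nsmul_eq_mul]
      push_cast
      ring
    rw [h2]
    have h3 : |tcA N M (Sum.inr true)| = (M.card : ℝ) - 1 := by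
      have : (1 : ℝ) ≤ M.card := by exact_mod_cast hm1
      simp only [tcA]
      rw [abs_of_nonneg (by linarith)]
    have h4 : |tcA N M (Sum.inr false)| = ((N \ M).card : ℝ) - 1 := by
      have : (1 : ℝ) ≤ (N \ M).card := by exact_mod_cast hm2
      simp only [tcA]
      rw [abs_neg, abs_of_nonneg (by linarith)]
    rw [h3, h4]
    have h5 : (M.card : ℝ) + (N \ M).card = t + 1 := by exact_mod_cast hm
    have h6 : (0 : ℝ) ≤ t := Nat.cast_nonneg t
    linarith
  · rw [tc_kap hL1 hL2, abs_mul, abs_pow, abs_neg, abs_one, one_pow, one_mul]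
    rw [Finset.card_union_of_disjoint h12] at hc
    have hin : ∀ z ∈ L₁ ∪ L₂, (z ∈ M ↔ L₁ ∪ L₂ ⊆ M) := by
      intro z hz
      rcases hcase with hcase | hcase
      · exact ⟨fun _ => hcase, fun _ => hcase hz⟩
      · exact ⟨fun hz' => absurd hz' (Finset.disjoint_left.1 hcase hz), fun h' => h' hz⟩
    rcases Nat.lt_or_ge L₁.card 1 with h1 | h1
    · have h2 : L₁ = ∅ := by
        rw [← Finset.card_eq_zero]
        omega
      obtain ⟨u, v, huv, h3⟩ := Finset.card_eq_two.1 (show L₂.card = 2 by omega)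
      have hu : u ∈ L₂ := by rw [h3]; simp
      have hv : v ∈ L₂ := by rw [h3]; simp
      have hu' := hin u (mem_union_right _ hu)
      have hv' := hin v (mem_union_right _ hv)
      rw [h2, h3, tc_02 huv (hL2 hu) (hL2 hv)]
      by_cases h4 : L₁ ∪ L₂ ⊆ M
      · simp [hu'.2 h4, hv'.2 h4]
      · have h5 : u ∉ M := fun h' => h4 (hu'.1 h')
        have h6 : v ∉ M := fun h' => h4 (hv'.1 h')
        simp [h5, h6]
    · rcases Nat.lt_or_ge L₁.card 2 with h2 | h2
      · obtain ⟨u, h3⟩ := Finset.card_eq_one.1 (show L₁.card = 1 by omega)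
        obtain ⟨v, h4⟩ := Finset.card_eq_one.1 (show L₂.card = 1 by omega)
        have hu : u ∈ L₁ := by rw [h3]; simp
        have hv : v ∈ L₂ := by rw [h4]; simp
        have huv : u ≠ v := by
          rintro rfl
          exact Finset.disjoint_left.1 h12 hu hv
        have hu' := hin u (mem_union_left _ hu)
        have hv' := hin v (mem_union_right _ hv)
        rw [h3, h4, tc_11 huv (hL1 hu) (hL2 hv)]
        by_cases h5 : L₁ ∪ L₂ ⊆ M
        · simp [hu'.2 h5, hv'.2 h5]
        · have h6 : u ∉ M := fun h' => h5 (hu'.1 h')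
          have h7 : v ∉ M := fun h' => h5 (hv'.1 h')
          simp [h6, h7]
      · have h3 : L₂ = ∅ := by
          rw [← Finset.card_eq_zero]
          omega
        obtain ⟨u, v, huv, h4⟩ := Finset.card_eq_two.1 (show L₁.card = 2 by omega)
        have hu : u ∈ L₁ := by rw [h4]; simp
        have hv : v ∈ L₁ := by rw [h4]; simp
        have hu' := hin u (mem_union_left _ hu)
        have hv' := hin v (mem_union_left _ hv)
        rw [h3, h4, tc_20 hMN huv (hL1 hu) (hL1 hv)]
        by_cases h5 : L₁ ∪ L₂ ⊆ M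
        · simp [hu'.2 h5, hv'.2 h5]
        · have h6 : u ∉ M := fun h' => h5 (hu'.1 h')
          have h7 : v ∉ M := fun h' => h5 (hv'.1 h')
          simp [h6, h7]

end Pool.Agent.H37.AV
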