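import Pool.Agent.H37.AV.Rigid
import Pool.Agent.H37.AV.TypeClass

/-!
Module FThree.  Moving one element `i` of `K = ker V s` into the first side and one element `v` of the
two sides into the kernel: for a rigid main slot `s` either all `v ∈ Gs V R s` or all `v ∈ Gs V R s.swap`
give slots that are not rigid.

Suppose not: there are `a ∈ G` and `b ∈ Γ` such that both slots are rigid.  `N = K + a + b`,
`T = s.1 \ {a,b}`, `T' = s.2 \ {a,b}`.  The witness `A` of `a` does not contain `b` (`wit`, or `star_left`),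
so `A ∩ N = K + a = N \ {b}`; the witness `B` of `b` does not contain `a`, so `B ∩ N = N \ {a}`.  Let `M` be
the set given by `nr_class`.  If `i ∈ M` then `{i, a} ⊆ M`: the slot with kernel `N \ {i, a} = K - i + b` in which
`a` stays on its side and `i` joins the first side, i.e. the slot obtained by moving `v = b`,
`(insert i (s.1.erase b), s.2.erase b) = (T ∪ L₁, T' ∪ L₂)` with `L₁ = {i} ∪ ({a} ∩ s.1)`, `L₂ = {a} ∩ s.2`, is
not rigid.  If `i ∉ M` then `{i, b}` is disjoint from `M` and the slot obtained by moving `v = a` is not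
rigid.  Contradiction.
-/

open Finset

namespace Pool.Agent.H37.AV

private theorem ft_set (P : Finset ℕ) {a b : ℕ} (hab : a ≠ b) (i : ℕ) :
    (P \ {a, b}) ∪ insert i ({a} ∩ P) = insert i (P.erase b) := by
  ext y
  simp only [mem_union, mem_sdiff, mem_insert, mem_singleton, mem_inter, mem_erase, not_or]
  constructor
  · rintro (⟨h1, h2, h3⟩ | h1 | ⟨h1, h2⟩)
    · exact Or.inr ⟨h3, h1⟩
    · exact Or.inl h1
    · exact Or.inr ⟨by rw [h1]; exact hab, h2⟩
  · rintro (h1 | ⟨h1, h2⟩)
    · exact Or.inr (Or.inl h1)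
    · by_cases e : y = a
      · exact Or.inr (Or.inr ⟨e, h2⟩)
      · exact Or.inl ⟨h2, e, h1⟩

private theorem ft_set' (P : Finset ℕ) {a b : ℕ} (hab : a ≠ b) :
    (P \ {a, b}) ∪ ({a} ∩ P) = P.erase b := by
  ext y
  simp only [mem_union, mem_sdiff, mem_insert, mem_singleton, mem_inter, mem_erase, not_or]
  constructor
  · rintro (⟨h1, h2, h3⟩ | ⟨h1, h2⟩)
    · exact ⟨h3, h1⟩
    · exact ⟨by rw [h1]; exact hab, h2⟩
  · rintro ⟨h1, h2⟩
    by_cases e : y = a
    · exact Or.inr ⟨e, h2⟩
    · exact Or.inl ⟨h2, e, h1⟩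

private theorem ft_notker {V : Finset ℕ} {s : Slot} {x : ℕ} (hx : x ∈ s.1 ∨ x ∈ s.2) :
    x ∉ ker V s := by
  intro h
  rw [ker, mem_sdiff, mem_union] at h
  exact h.2 hx

/-- the witness set of the trace of `A` on `N = K + a + b` -/
private theorem ft_trace {K G A : Finset ℕ} {a b : ℕ} (hab : a ≠ b) (hbK : b ∉ K) (hbG : b ∉ G)
    {P : Finset ℕ} (h1 : insert a K ⊆ A) (h2 : A ⊆ insert a (K ∪ (P ∩ G))) :
    A ⊆ insert a (insert b K) ∪ (P \ {a, b}) ∧
      A ∩ insert a (insert b K) = (insert a (insert b K)).erase b := by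
  have hbA : b ∉ A := by
    intro hb
    have h3 := h2 hb
    rw [mem_insert, mem_union, mem_inter] at h3
    rcases h3 with h3 | h3 | h3
    · exact hab h3.symm
    · exact hbK h3
    · exact hbG h3.2
  constructor
  · intro y hy
    have h3 := h2 hy
    rw [mem_insert, mem_union, mem_inter] at h3
    rw [mem_union, mem_insert, mem_insert, mem_sdiff, mem_insert, mem_singleton]
    rcases h3 with h3 | h3 | h3
    · exact Or.inl (Or.inl h3)
    · exact Or.inl (Or.inr (Or.inr h3))
    · by_cases e1 : y = a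
      · exact Or.inl (Or.inl e1)
      · refine Or.inr ⟨h3.1, ?_⟩
        rintro (e | e)
        · exact e1 e
        · exact hbA (e ▸ hy)
  · ext y
    rw [mem_inter, mem_erase, mem_insert, mem_insert]
    constructor
    · rintro ⟨hy, h3⟩
      exact ⟨fun e => hbA (e ▸ hy), h3⟩
    · rintro ⟨hne, h3⟩
      refine ⟨?_, h3⟩
      rcases h3 with h3 | h3 | h3
      · rw [h3]
        exact h1 (mem_insert_self _ _)
      · exact absurd h3 hne
      · exact h1 (mem_insert_of_mem h3)

theorem f_three {V : Finset ℕ} {t : ℕ} {R : Finset (Finset ℕ)} {s : Slot} (ht : 2 ≤ t)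
    (h : Av V t R) (hs : s ∈ mains V t) (hr : ¬ NR V t R s) {i : ℕ} (hi : i ∈ ker V s) :
    (∀ a ∈ Gs V R s, NR V t R (insert i (s.1.erase a), s.2.erase a)) ∨
      (∀ b ∈ Gs V R s.swap, NR V t R (insert i (s.1.erase b), s.2.erase b)) := by
  by_contra hcon
  rw [not_or] at hcon
  obtain ⟨hc1, hc2⟩ := hcon
  push Not at hc1 hc2
  obtain ⟨a, ha, hna⟩ := hc1
  obtain ⟨b, hb, hnb⟩ := hc2
  obtain ⟨hs1, hs2, hs3, hs4⟩ := mem_mains.1 hs
  have hdis := gs_disj h hs
  have hab : a ≠ b := by
    rintro rfl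
    exact Finset.disjoint_left.1 hdis ha hb
  have has := (mem_Gs.1 ha).1
  have hbs := (mem_Gs.1 hb).1.symm
  have haK := ft_notker (V := V) has
  have hbK := ft_notker (V := V) hbs
  have hbG : b ∉ Gs V R s := fun h5 => Finset.disjoint_left.1 hdis h5 hb
  have haG : a ∉ Gs V R s.swap := fun h5 => Finset.disjoint_left.1 hdis ha h5
  obtain ⟨A, hA, hA1, hA2⟩ := wit ht h hs hr ha
  obtain ⟨B, hB, hB1, hB2⟩ := wit ht h (swap_mem_mains hs) (fun hc => hr (nr_swap.1 hc)) hb
  rw [ker_swap] at hB1 hB2
  obtain ⟨hA3, hA4⟩ := ft_trace hab hbK hbG hA1 hA2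
  obtain ⟨hB3, hB4⟩ := ft_trace hab.symm haK haG hB1 hB2
  rw [Finset.insert_comm b a, Finset.pair_comm b a] at hB3
  rw [Finset.insert_comm b a] at hB4
  have his1 : i ∉ s.1 := fun h5 => ft_notker (V := V) (Or.inl h5) hi
  have his2 : i ∉ s.2 := fun h5 => ft_notker (V := V) (Or.inr h5) hi
  have hia : i ≠ a := fun e => haK (e ▸ hi)
  have hib : i ≠ b := fun e => hbK (e ▸ hi)
  have hiV : i ∈ V := (mem_sdiff.1 hi).1
  obtain ⟨M, hMN, haM, hbM, hM⟩ := nr_class (N := insert a (insert b (ker V s)))
    (T := s.1 \ {a, b}) (T' := s.2 \ {a, b}) (a := a) (b := b) ht h (by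
      rw [Finset.disjoint_left]
      intro y hy hy'
      rw [mem_sdiff, mem_insert, mem_singleton, not_or] at hy'
      rw [mem_insert, mem_insert] at hy
      rcases hy with hy | hy | hy
      · exact hy'.2.1 hy
      · exact hy'.2.2 hy
      · exact ft_notker (Or.inl hy'.1) hy) (by
      rw [Finset.disjoint_left]
      intro y hy hy'
      rw [mem_sdiff, mem_insert, mem_singleton, not_or] at hy'
      rw [mem_insert, mem_insert] at hy
      rcases hy with hy | hy | hy
      · exact hy'.2.1 hy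
      · exact hy'.2.2 hy
      · exact ft_notker (Or.inr hy'.1) hy) (hs3.mono sdiff_subset sdiff_subset) (by
      ext y
      simp only [mem_union, mem_insert, mem_sdiff, mem_singleton, ker]
      constructor
      · rintro ((rfl | rfl | ⟨hy, -⟩) | ⟨hy, -⟩ | ⟨hy, -⟩)
        · rcases has with h5 | h5
          · exact hs1 h5
          · exact hs2 h5
        · rcases hbs with h5 | h5
          · exact hs1 h5
          · exact hs2 h5
        · exact hy
        · exact hs1 hy
        · exact hs2 hy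
      · intro hy
        by_cases e1 : y = a
        · exact Or.inl (Or.inl e1)
        by_cases e2 : y = b
        · exact Or.inl (Or.inr (Or.inl e2))
        by_cases e3 : y ∈ s.1
        · exact Or.inr (Or.inl ⟨e3, by simp [e1, e2]⟩)
        by_cases e4 : y ∈ s.2
        · exact Or.inr (Or.inr ⟨e4, by simp [e1, e2]⟩)
        exact Or.inl (Or.inr (Or.inr ⟨hy, by simp [e3, e4]⟩))) (by
      rw [card_insert_of_notMem, card_insert_of_notMem hbK, hs4]
      rw [mem_insert, not_or]
      exact ⟨hab, haK⟩) (mem_insert_self _ _) (mem_insert_of_mem (mem_insert_self _ _)) hab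
    ⟨A, hA, hA3, hA4⟩ ⟨B, hB, hB3, hB4⟩
  have hiN : i ∈ insert a (insert b (ker V s)) := mem_insert_of_mem (mem_insert_of_mem hi)
  have hcase : ∀ c d : ℕ, c ≠ d → (c ∈ s.1 ∨ c ∈ s.2) → i ≠ c → ({a, b} : Finset ℕ) = {c, d} →
      c ∈ insert a (insert b (ker V s)) → ({i, c} ⊆ M ∨ Disjoint ({i, c} : Finset ℕ) M) →
      NR V t R (insert i (s.1.erase d), s.2.erase d) := by
    intro c d hcd hcs hic hpair hcN hor
    have hu : insert i ({c} ∩ s.1) ∪ ({c} ∩ s.2) = {i, c} := by
      ext y
      simp only [mem_union, mem_insert, mem_inter, mem_singleton]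
      constructor
      · rintro ((h5 | ⟨h5, -⟩) | ⟨h5, -⟩)
        · exact Or.inl h5
        · exact Or.inr h5
        · exact Or.inr h5
      · rintro (h5 | h5)
        · exact Or.inl (Or.inl h5)
        · rcases hcs with h6 | h6
          · exact Or.inl (Or.inr ⟨h5, h5 ▸ h6⟩)
          · exact Or.inr ⟨h5, h5 ▸ h6⟩
    have h5 := hM (insert i ({c} ∩ s.1)) ({c} ∩ s.2) (by
      rw [Finset.disjoint_left]
      intro y hy hy'
      rw [mem_insert, mem_inter] at hy
      rw [mem_inter] at hy'
      rcases hy with hy | hy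
      · exact his2 (hy ▸ hy'.2)
      · exact Finset.disjoint_left.1 hs3 hy.2 hy'.2) (by
      rw [hu]
      intro y hy
      rw [mem_insert, mem_singleton] at hy
      rcases hy with rfl | rfl
      · exact hiN
      · exact hcN) (by
      rw [hu, Finset.card_pair hic]) (by
      rw [hu]
      exact hor)
    rw [hpair, ft_set s.1 hcd i, ft_set' s.2 hcd] at h5
    exact h5
  by_cases hiM : i ∈ M
  · refine hnb (hcase a b hab has hia rfl (mem_insert_self _ _) (Or.inl ?_))
    intro y hy
    rw [mem_insert, mem_singleton] at hy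
    rcases hy with rfl | rfl
    · exact hiM
    · exact haM
  · refine hna (hcase b a hab.symm hbs hib (Finset.pair_comm a b)
      (mem_insert_of_mem (mem_insert_self _ _)) (Or.inr ?_))
    rw [Finset.disjoint_left]
    intro y hy
    rw [mem_insert, mem_singleton] at hy
    rcases hy with rfl | rfl
    · exact hiM
    · exact hbM

end Pool.Agent.H37.AV
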