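import Mathlib

/-!
Module Fkg.  A consequence of the Harris-Kleitman inequality.

`f x`, `x ∈ C`, are increasing properties of the subsets `P` of `W`.  For a good `P` and every `x ∈ C`
exactly one of `f x P`, `f x (W \ P)` holds, and `f x P` fails for some `x ∈ C`.  Then at least `4^(-|C|)` of
the subsets of `W` are not good.

Let `β` be the proportion of bad `P`.  If `β ≥ 1/2`, done for `C ≠ ∅`; if `C = ∅` no `P` is good.  Let
`β < 1/2`.  For every `x ∈ C`: `2 #{P : f x P} = #{P : f x P} + #{P : f x (W \ P)} ≥ #{good P}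
≥ 2^|W| / 2`, so `f x` holds for at least a quarter of the `P`.  By Harris-Kleitman (two up-sets of `2^W` of
densities `p`, `q` have an intersection of density `≥ p q`; Mathlib: `IsUpperSet.le_card_inter_finset`, for
`Finset α`, `α = W` as a subtype; or prove it directly for `W.powerset` by induction on `W`) and induction
on `C`, all `f x P`, `x ∈ C`, hold for at least `4^(-|C|) 2^|W|` of the `P`; none of these is good.
-/

open Finset

namespace Pool.Agent.H37.AV

open Classical in
/-- the subsets `P` of `W` with `a P` -/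
noncomputable def fkgSet (W : Finset ℕ) (a : Finset ℕ → Prop) : Finset (Finset ℕ) :=
  W.powerset.filter a

open Classical in
theorem mem_fkgSet {W P : Finset ℕ} {a : Finset ℕ → Prop} :
    P ∈ fkgSet W a ↔ P ⊆ W ∧ a P := by
  rw [fkgSet, mem_filter, mem_powerset]

/-- number of the subsets `P` of `W` with `a P` -/
noncomputable def fkgCnt (W : Finset ℕ) (a : Finset ℕ → Prop) : ℕ := (fkgSet W a).card

open Classical in
theorem fkgCnt_insert {W : Finset ℕ} {y : ℕ} (hy : y ∉ W) (a : Finset ℕ → Prop) :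
    fkgCnt (insert y W) a = fkgCnt W a + fkgCnt W (fun P => a (insert y P)) := by
  unfold fkgCnt fkgSet
  rw [card_filter, card_filter, card_filter, sum_powerset_insert hy]

theorem fkgCnt_mono {W : Finset ℕ} {a b : Finset ℕ → Prop} (h : ∀ P ⊆ W, a P → b P) :
    fkgCnt W a ≤ fkgCnt W b := by
  unfold fkgCnt
  refine card_le_card fun P hP => ?_
  rw [mem_fkgSet] at hP ⊢
  exact ⟨hP.1, h P hP.1 hP.2⟩

theorem fkgCnt_compl (W : Finset ℕ) (a : Finset ℕ → Prop) :
    fkgCnt W (fun P => a (W \ P)) = fkgCnt W a := by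
  unfold fkgCnt
  refine card_nbij' (fun P => W \ P) (fun P => W \ P) ?_ ?_ ?_ ?_
  · intro P hP
    rw [mem_coe, mem_fkgSet] at hP ⊢
    exact ⟨sdiff_subset, hP.2⟩
  · intro P hP
    rw [mem_coe, mem_fkgSet] at hP ⊢
    exact ⟨sdiff_subset, by rw [Finset.sdiff_sdiff_eq_self hP.1]; exact hP.2⟩
  · intro P hP
    rw [mem_coe, mem_fkgSet] at hP
    exact Finset.sdiff_sdiff_eq_self hP.1
  · intro P hP
    rw [mem_coe, mem_fkgSet] at hP
    exact Finset.sdiff_sdiff_eq_self hP.1

open Classical in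
theorem fkgCnt_split (W : Finset ℕ) (a : Finset ℕ → Prop) :
    fkgCnt W a + fkgCnt W (fun P => ¬ a P) = 2 ^ W.card := by
  unfold fkgCnt fkgSet
  rw [← card_powerset, card_filter_add_card_filter_not]

/-- Harris-Kleitman -/
theorem fkg_hk (W : Finset ℕ) : ∀ a b : Finset ℕ → Prop,
    (∀ P P' : Finset ℕ, P ⊆ P' → P' ⊆ W → a P → a P') →
    (∀ P P' : Finset ℕ, P ⊆ P' → P' ⊆ W → b P → b P') →
    fkgCnt W a * fkgCnt W b ≤ 2 ^ W.card * fkgCnt W (fun P => a P ∧ b P) := by
  induction W using Finset.induction_on with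
  | empty =>
    intro a b _ _
    by_cases ha : a ∅ <;> by_cases hb : b ∅ <;> simp [fkgCnt, fkgSet, filter_singleton, ha, hb]
  | insert y W hy ih =>
    intro a b ha hb
    rw [fkgCnt_insert hy, fkgCnt_insert hy, fkgCnt_insert hy, card_insert_of_notMem hy]
    have h0 := ih a b (fun P P' h1 h2 => ha P P' h1 (h2.trans (subset_insert y W)))
      (fun P P' h1 h2 => hb P P' h1 (h2.trans (subset_insert y W)))
    have h1 := ih (fun P => a (insert y P)) (fun P => b (insert y P))
      (fun P P' h1 h2 => ha _ _ (insert_subset_insert y h1) (insert_subset_insert y h2))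
      (fun P P' h1 h2 => hb _ _ (insert_subset_insert y h1) (insert_subset_insert y h2))
    have h2 : fkgCnt W a ≤ fkgCnt W (fun P => a (insert y P)) :=
      fkgCnt_mono fun P hP => ha _ _ (subset_insert y P) (insert_subset_insert y hP)
    have h3 : fkgCnt W b ≤ fkgCnt W (fun P => b (insert y P)) :=
      fkgCnt_mono fun P hP => hb _ _ (subset_insert y P) (insert_subset_insert y hP)
    set a0 := fkgCnt W a
    set a1 := fkgCnt W (fun P => a (insert y P))
    set b0 := fkgCnt W b
    set b1 := fkgCnt W (fun P => b (insert y P))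
    have h4 : (a0 + a1) * (b0 + b1) ≤ 2 * (a0 * b0 + a1 * b1) := by
      obtain ⟨u, hu⟩ := Nat.exists_eq_add_of_le h2
      obtain ⟨v, hv⟩ := Nat.exists_eq_add_of_le h3
      rw [hu, hv]
      nlinarith [Nat.zero_le (u * v)]
    rw [pow_succ]
    nlinarith

theorem fkg_all (W C : Finset ℕ) (f : ℕ → Finset ℕ → Prop)
    (hf : ∀ x ∈ C, ∀ P P' : Finset ℕ, P ⊆ P' → P' ⊆ W → f x P → f x P')
    (h4 : ∀ x ∈ C, 2 ^ W.card ≤ 4 * fkgCnt W (f x)) :
    2 ^ W.card ≤ 4 ^ C.card * fkgCnt W (fun P => ∀ x ∈ C, f x P) := by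
  induction C using Finset.induction_on with
  | empty =>
    have h := fkgCnt_split W (fun _ => True)
    have h2 : fkgCnt W (fun _ => ¬ True) = 0 := by simp [fkgCnt, fkgSet]
    simp only [card_empty, pow_zero, one_mul, notMem_empty, false_imp_iff, implies_true]
    omega
  | insert y C hy ih =>
    have h1 := ih (fun x hx => hf x (mem_insert_of_mem hx)) (fun x hx => h4 x (mem_insert_of_mem hx))
    have h2 := h4 y (mem_insert_self y C)
    have h3 := fkg_hk W (f y) (fun P => ∀ x ∈ C, f x P) (hf y (mem_insert_self y C))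
      (fun P P' hP hP' h x hx => hf x (mem_insert_of_mem hx) P P' hP hP' (h x hx))
    have e : (fun P => ∀ x ∈ insert y C, f x P) = (fun P => f y P ∧ ∀ x ∈ C, f x P) := by
      funext P
      simp only [forall_mem_insert]
    rw [e, card_insert_of_notMem hy]
    have hpos : 0 < 2 ^ W.card := by positivity
    refine Nat.le_of_mul_le_mul_left ?_ hpos
    calc 2 ^ W.card * 2 ^ W.card
        ≤ (4 * fkgCnt W (f y)) * (4 ^ C.card * fkgCnt W (fun P => ∀ x ∈ C, f x P)) :=
          Nat.mul_le_mul h2 h1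
      _ = 4 ^ (C.card + 1) * (fkgCnt W (f y) * fkgCnt W (fun P => ∀ x ∈ C, f x P)) := by ring
      _ ≤ 4 ^ (C.card + 1) * (2 ^ W.card * fkgCnt W (fun P => f y P ∧ ∀ x ∈ C, f x P)) :=
          Nat.mul_le_mul_left _ h3
      _ = 2 ^ W.card * (4 ^ (C.card + 1) * fkgCnt W (fun P => f y P ∧ ∀ x ∈ C, f x P)) := by ring

theorem fkg_bad (W C : Finset ℕ) (f : ℕ → Finset ℕ → Prop)
    (hf : ∀ x ∈ C, ∀ P P' : Finset ℕ, P ⊆ P' → P' ⊆ W → f x P → f x P') (good : Finset ℕ → Prop)
    [DecidablePred good] (h1 : ∀ P ⊆ W, good P → ∀ x ∈ C, (f x P ↔ ¬ f x (W \ P)))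
    (h2 : ∀ P ⊆ W, good P → ∃ x ∈ C, ¬ f x P) :
    2 ^ W.card ≤ 4 ^ C.card * (W.powerset.filter (fun P => ¬ good P)).card := by
  have hb : (W.powerset.filter (fun P => ¬ good P)).card = fkgCnt W (fun P => ¬ good P) := by
    unfold fkgCnt
    congr 1
    ext P
    rw [mem_fkgSet, mem_filter, mem_powerset]
  rw [hb]
  have hs := fkgCnt_split W good
  rcases C.eq_empty_or_nonempty with rfl | hC
  · have h0 : fkgCnt W good ≤ fkgCnt W (fun _ => False) :=
      fkgCnt_mono fun P hP hg => by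
        obtain ⟨x, hx, _⟩ := h2 P hP hg
        exact absurd hx (notMem_empty x)
    have h0' : fkgCnt W (fun _ => False) = 0 := by simp [fkgCnt, fkgSet]
    simp only [card_empty, pow_zero, one_mul]
    omega
  by_cases hβ : 2 ^ W.card ≤ 2 * fkgCnt W (fun P => ¬ good P)
  · have hc : 1 ≤ C.card := hC.card_pos
    have h4 : 4 ≤ 4 ^ C.card := by
      calc 4 = 4 ^ 1 := by norm_num
        _ ≤ 4 ^ C.card := Nat.pow_le_pow_right (by norm_num) hc
    calc 2 ^ W.card ≤ 2 * fkgCnt W (fun P => ¬ good P) := hβ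
      _ ≤ 4 ^ C.card * fkgCnt W (fun P => ¬ good P) := Nat.mul_le_mul_right _ (by omega)
  push Not at hβ
  refine (fkg_all W C f hf fun x hx => ?_).trans (Nat.mul_le_mul_left _ (fkgCnt_mono ?_))
  · have h3 : fkgCnt W good ≤ fkgCnt W (f x) + fkgCnt W (fun P => f x (W \ P)) := by
      unfold fkgCnt
      refine (card_le_card ?_).trans (card_union_le _ _)
      intro P hP
      rw [mem_fkgSet] at hP
      rw [mem_union, mem_fkgSet, mem_fkgSet]
      by_cases h : f x P
      · exact Or.inl ⟨hP.1, h⟩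
      · refine Or.inr ⟨hP.1, ?_⟩
        by_contra h'
        exact h ((h1 P hP.1 hP.2 x hx).mpr h')
    rw [fkgCnt_compl] at h3
    omega
  · intro P hP h hg
    obtain ⟨x, hx, hn⟩ := h2 P hP hg
    exact hn (h x hx)

end Pool.Agent.H37.AV
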