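import Pool.Agent.H37.AV.Rigid

/-!
Module Flip.  Moving one element `y` from the first to the second side.

`s = (P, Q)`, `s' = (P - y, Q + y)`, `K` their common kernel.  Note `Cap R K P x` is monotone in `P`, and
`y ∈ G(s) ↔ y ∈ G(s')` as `insert y (K ∪ P) = insert y (K ∪ (P - y))`.

`flip_const`: both rigid implies `G(s') = G(s)`.  `G(s') ⊆ G(s)` by monotonicity.  Let `x ∈ G(s) \ G(s')`;
`x ≠ y`; by `gs_union` `x ∈ Γ(s')`.  The witness `A` (`K + x ⊆ A ⊆ K ∪ P + x`) contains `y` (else it would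
be a witness for `s'`).  If `y ∈ Γ(s)`: `star_left` at `s` with `a = x`, `b = y` (`A ⊇ K + x + y`).  So
`y ∈ G(s)`, hence `y ∈ G(s')`, and `star_left` at `s'` with `a = y`, `b = x`: `K + x + y ⊆ A ⊆ K ∪ P + x
⊆ K ∪ (P - y) + y + x`.  Contradiction.

`uniq_down`: `τ = (P, Q)` a main slot, `y, z ∈ Q`, `s = (P + y, Q - y)`, `s₂ = (P + z, Q - z)` rigid,
`y ∈ G(s)`, `z ∈ G(s₂)`; then `G(s) = G(s₂)`.  By symmetry it suffices to derive a contradiction from
`x ∈ G(s₂)`, `x ∉ G(s)`.  `y ≠ z`, `x ∈ Γ(s)` by `gs_union`.  `A`: `K + x ⊆ A ⊆ K ∪ P + z + x` (from `s₂`);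
`B`: `K + x ⊆ B ⊆ K ∪ (Q - y) + x` (from `s`).  `A ∩ B ⊆ K + x + z`, and it is not `K + x`, so `z ∈ A ∩ B`
and `z ≠ x`.  `z ∈ G(s)`: the witness of `z ∈ G(s₂)` lies in `K ∪ P + z`, so it captures `z` at `s` too.
Now `star_right` at `s` with `a = z`, `b = x`: `K + z + x ⊆ B ⊆ K ∪ (Q - y) + x`.  Contradiction.

`uniq_up`: `τ = (P, Q)`, `y, z ∈ P`, `s = (P - y, Q + y)`, `s₂ = (P - z, Q + z)` rigid, `y ∈ G(s)`,
`z ∈ G(s₂)`; then `G(s) = G(s₂)`.  Let `x ∈ G(s) \ G(s₂)`, so `x ∈ Γ(s₂)`.  `A`: `K + x ⊆ A ⊆ K ∪ (P - y) + x`,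
`B`: `K + x ⊆ B ⊆ K ∪ Q + z + x`.  `A ∩ B ⊆ K + x + z`, so `z ∈ A ∩ B`, `z ≠ x`; `star_right` at `s₂` with
`a = z`, `b = x`: `K + z + x ⊆ B ⊆ K ∪ (Q + z) + x`.  Contradiction.
-/

open Finset

namespace Pool.Agent.H37.AV

variable {V : Finset ℕ} {t : ℕ} {R : Finset (Finset ℕ)}

lemma ker_flip {P Q : Finset ℕ} {y : ℕ} (hy : y ∈ P) :
    ker V (P.erase y, insert y Q) = ker V (P, Q) := by
  have : (P.erase y) ∪ insert y Q = P ∪ Q := by
    ext x
    simp only [mem_union, mem_erase, mem_insert]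
    by_cases hx : x = y
    · subst hx; simp [hy]
    · simp [hx]
  simp only [ker, this]

lemma ker_flip' {P Q : Finset ℕ} {y : ℕ} (hy : y ∈ Q) :
    ker V (insert y P, Q.erase y) = ker V (P, Q) := by
  have : (insert y P) ∪ Q.erase y = P ∪ Q := by
    ext x
    simp only [mem_union, mem_erase, mem_insert]
    by_cases hx : x = y
    · subst hx; simp [hy]
    · simp [hx]
  simp only [ker, this]

/-- Moving an element keeps a main slot main. -/
theorem flip_mem_mains {P Q : Finset ℕ} {y : ℕ} (hy : y ∈ P) (hs : (P, Q) ∈ mains V t) :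
    (P.erase y, insert y Q) ∈ mains V t := by
  obtain ⟨h1, h2, h3, h4⟩ := mem_mains.1 hs
  simp only at h1 h2 h3
  refine mem_mains.2 ⟨(erase_subset _ _).trans h1, insert_subset (h1 hy) h2, ?_, ?_⟩
  · simp only
    rw [disjoint_insert_right]
    exact ⟨notMem_erase _ _, h3.mono_left (erase_subset _ _)⟩
  · rw [ker_flip hy]; exact h4

theorem flip_mem_mains' {P Q : Finset ℕ} {y : ℕ} (hy : y ∈ Q) (hs : (P, Q) ∈ mains V t) :
    (insert y P, Q.erase y) ∈ mains V t := by
  obtain ⟨h1, h2, h3, h4⟩ := mem_mains.1 hs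
  simp only at h1 h2 h3
  refine mem_mains.2 ⟨insert_subset (h2 hy) h1, (erase_subset _ _).trans h2, ?_, ?_⟩
  · simp only
    rw [disjoint_insert_left]
    exact ⟨notMem_erase _ _, h3.mono_right (erase_subset _ _)⟩
  · rw [ker_flip' hy]; exact h4

lemma cap_mono {K P P' : Finset ℕ} {x : ℕ} (h : Cap R K P x)
    (hs : insert x (K ∪ P) ⊆ insert x (K ∪ P')) : Cap R K P' x := by
  obtain ⟨A, hA, h1, h2⟩ := h
  exact ⟨A, hA, h1, h2.trans hs⟩

theorem flip_const (ht : 2 ≤ t) (h : Av V t R) {P Q : Finset ℕ} {y : ℕ} (hy : y ∈ P)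
    (hs : (P, Q) ∈ mains V t) (hr : ¬ NR V t R (P, Q))
    (hr' : ¬ NR V t R (P.erase y, insert y Q)) :
    Gs V R (P.erase y, insert y Q) = Gs V R (P, Q) := by
  have hs' := flip_mem_mains hy hs
  have hk : ker V (P.erase y, insert y Q) = ker V (P, Q) := ker_flip hy
  set K := ker V (P, Q) with hK
  have hun : ∀ x, (x ∈ P.erase y ∨ x ∈ insert y Q) ↔ (x ∈ P ∨ x ∈ Q) := by
    intro x
    simp only [mem_erase, mem_insert]
    by_cases hx : x = y
    · subst hx; simp [hy]
    · simp [hx]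
  apply Subset.antisymm
  · intro x hx
    obtain ⟨h1, h2⟩ := mem_Gs.1 hx
    rw [hk] at h2
    refine mem_Gs.2 ⟨(hun x).1 h1, ?_⟩
    exact cap_mono h2 (insert_subset_insert _ (union_subset_union_right (erase_subset _ _)))
  · intro x hx
    by_contra hx'
    obtain ⟨h1, h2⟩ := mem_Gs.1 hx
    simp only at h1 h2
    -- y on both sides
    have hyy : y ∈ Gs V R (P, Q) → y ∈ Gs V R (P.erase y, insert y Q) := by
      intro hyG
      obtain ⟨-, g2⟩ := mem_Gs.1 hyG
      refine mem_Gs.2 ⟨Or.inr (mem_insert_self _ _), ?_⟩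
      rw [hk]
      refine cap_mono g2 ?_
      intro w hw
      simp only [mem_insert, mem_union, mem_erase] at hw ⊢
      by_cases hwy : w = y
      · left; exact hwy
      · tauto
    have hxy : x ≠ y := by
      rintro rfl
      exact hx' (hyy hx)
    have hxG : x ∈ Gs V R (P.erase y, insert y Q).swap := by
      have := gs_union (by omega) h hs' hr'
      have hxm : x ∈ Gs V R (P.erase y, insert y Q) ∪ Gs V R (P.erase y, insert y Q).swap := by
        rw [this]
        simp only [mem_union]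
        exact (hun x).2 h1
      rcases mem_union.1 hxm with h' | h'
      · exact absurd h' hx'
      · exact h'
    obtain ⟨A, hA, hA1, hA2⟩ := h2
    have hyA : y ∈ A := by
      by_contra hyA
      apply hx'
      refine mem_Gs.2 ⟨(hun x).2 h1, A, hA, ?_, ?_⟩
      · rw [hk]; exact hA1
      · rw [hk]
        intro w hw
        have := hA2 hw
        simp only [mem_insert, mem_union, mem_erase] at this ⊢
        have hwy : w ≠ y := by rintro rfl; exact hyA hw
        tauto
    by_cases hyG : y ∈ Gs V R (P, Q).swap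
    · refine star_left ht h hs hr hx hyG hA ?_ ?_
      · intro w hw
        simp only [mem_insert] at hw
        rcases hw with rfl | rfl | hw
        · exact hA1 (mem_insert_self _ _)
        · exact hyA
        · exact hA1 (mem_insert_of_mem hw)
      · intro w hw
        have := hA2 hw
        simp only [mem_insert, mem_union] at this ⊢
        tauto
    · have hyG2 : y ∈ Gs V R (P, Q) := by
        have := gs_union (by omega) h hs hr
        have hxm : y ∈ Gs V R (P, Q) ∪ Gs V R (P, Q).swap := by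
          rw [this]
          exact mem_union_left _ hy
        rcases mem_union.1 hxm with h' | h'
        · exact h'
        · exact absurd h' hyG
      refine star_left ht h hs' hr' (hyy hyG2) hxG hA ?_ ?_
      · rw [hk]
        intro w hw
        simp only [mem_insert] at hw
        rcases hw with rfl | rfl | hw
        · exact hyA
        · exact hA1 (mem_insert_self _ _)
        · exact hA1 (mem_insert_of_mem hw)
      · rw [hk]
        intro w hw
        have := hA2 hw
        simp only [mem_insert, mem_union, mem_erase] at this ⊢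
        by_cases hwy : w = y
        · left; exact hwy
        · tauto

/-- The common step of `uniq_down` and `uniq_up`. -/
lemma meet_step (h : Av V t R) {K A B : Finset ℕ} {x z : ℕ} (hK : K.card + 1 = t) (hxK : x ∉ K)
    (hA : A ∈ R) (hB : B ∈ R) (hA1 : insert x K ⊆ A) (hB1 : insert x K ⊆ B)
    (hAB : A ∩ B ⊆ insert z (insert x K)) : z ∈ A ∧ z ∈ B ∧ z ≠ x := by
  by_contra hcon
  have heq : A ∩ B = insert x K := by
    apply Subset.antisymm
    · intro w hw
      have h1 := hAB hw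
      rcases mem_insert.1 h1 with rfl | h1
      · by_cases hzx : w = x
        · rw [hzx]; exact mem_insert_self _ _
        · exact absurd ⟨(mem_inter.1 hw).1, (mem_inter.1 hw).2, hzx⟩ hcon
      · exact h1
    · exact subset_inter hA1 hB1
  apply h.av A hA B hB
  rw [heq, card_insert_of_notMem hxK, hK]

lemma ker_disj (V : Finset ℕ) (s : Slot) {x : ℕ} (hx : x ∈ s.1 ∨ x ∈ s.2) : x ∉ ker V s := by
  intro hk
  have := (mem_sdiff.1 hk).2
  apply this
  exact mem_union.2 hx

lemma down_sub (ht : 2 ≤ t) (h : Av V t R) {P Q : Finset ℕ} {y z : ℕ} (hy : y ∈ Q) (hz : z ∈ Q)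
    (hs : (P, Q) ∈ mains V t) (hr : ¬ NR V t R (insert y P, Q.erase y))
    (hzG : z ∈ Gs V R (insert z P, Q.erase z)) :
    Gs V R (insert z P, Q.erase z) ⊆ Gs V R (insert y P, Q.erase y) := by
  rcases eq_or_ne y z with rfl | hyz
  · exact Subset.refl _
  intro x hx
  by_contra hx'
  have hs1 := flip_mem_mains' hy hs
  have hs2 := flip_mem_mains' hz hs
  obtain ⟨hP, hQ, hPQ, hKc⟩ := mem_mains.1 hs
  simp only at hP hQ hPQ
  have hk1 : ker V (insert y P, Q.erase y) = ker V (P, Q) := ker_flip' hy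
  have hk2 : ker V (insert z P, Q.erase z) = ker V (P, Q) := ker_flip' hz
  set K := ker V (P, Q) with hK
  have hun : ∀ y ∈ Q, ∀ x, (x ∈ insert y P ∨ x ∈ Q.erase y) ↔ (x ∈ P ∨ x ∈ Q) := by
    intro y hy x
    simp only [mem_erase, mem_insert]
    by_cases hx : x = y
    · subst hx; simp [hy]
    · simp [hx]
  obtain ⟨h1, A, hA, hA1, hA2⟩ := mem_Gs.1 hx
  simp only at h1
  rw [hun z hz] at h1
  rw [hk2] at hA1 hA2
  simp only at hA2
  have hxK : x ∉ K := ker_disj V (P, Q) h1
  have hxG : x ∈ Gs V R (insert y P, Q.erase y).swap := by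
    have := gs_union (by omega) h hs1 hr
    have hxm : x ∈ Gs V R (insert y P, Q.erase y) ∪ Gs V R (insert y P, Q.erase y).swap := by
      rw [this]
      simp only [mem_union]
      exact (hun y hy x).2 h1
    rcases mem_union.1 hxm with h' | h'
    · exact absurd h' hx'
    · exact h'
  obtain ⟨-, B, hB, hB1, hB2⟩ := mem_Gs.1 hxG
  rw [ker_swap, hk1] at hB1 hB2
  simp only [Prod.fst_swap] at hB2
  have hAB : A ∩ B ⊆ insert z (insert x K) := by
    intro w hw
    have e1 := hA2 (mem_inter.1 hw).1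
    have e2 := hB2 (mem_inter.1 hw).2
    simp only [mem_insert, mem_union, mem_erase] at e1 e2 ⊢
    have e3 : w ∈ P → w ∈ Q → False := fun p q => disjoint_left.1 hPQ p q
    tauto
  obtain ⟨hzA, hzB, hzx⟩ := meet_step h hKc hxK hA hB hA1 hB1 hAB
  have hzG1 : z ∈ Gs V R (insert y P, Q.erase y) := by
    obtain ⟨-, C, hC, hC1, hC2⟩ := mem_Gs.1 hzG
    rw [hk2] at hC1 hC2
    refine mem_Gs.2 ⟨(hun y hy z).2 (Or.inr hz), C, hC, ?_, ?_⟩
    · rw [hk1]; exact hC1
    · rw [hk1]
      intro w hw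
      have h5 := hC2 hw
      simp only [mem_insert, mem_union] at h5 ⊢
      rcases h5 with h5 | h5 | h5 | h5
      · exact Or.inl h5
      · exact Or.inr (Or.inl h5)
      · exact Or.inl h5
      · exact Or.inr (Or.inr (Or.inr h5))
  refine star_right ht h hs1 hr hzG1 hxG hB ?_ ?_
  · rw [hk1]
    intro w hw
    simp only [mem_insert] at hw
    rcases hw with rfl | rfl | hw
    · exact hzB
    · exact hB1 (mem_insert_self _ _)
    · exact hB1 (mem_insert_of_mem hw)
  · rw [hk1]
    exact hB2.trans (subset_insert _ _)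

theorem uniq_down (ht : 2 ≤ t) (h : Av V t R) {P Q : Finset ℕ} {y z : ℕ} (hy : y ∈ Q) (hz : z ∈ Q)
    (hs : (P, Q) ∈ mains V t) (hr : ¬ NR V t R (insert y P, Q.erase y))
    (hr' : ¬ NR V t R (insert z P, Q.erase z)) (hyG : y ∈ Gs V R (insert y P, Q.erase y))
    (hzG : z ∈ Gs V R (insert z P, Q.erase z)) :
    Gs V R (insert y P, Q.erase y) = Gs V R (insert z P, Q.erase z) :=
  Subset.antisymm (down_sub ht h hz hy hs hr' hyG) (down_sub ht h hy hz hs hr hzG)

lemma up_sub (ht : 2 ≤ t) (h : Av V t R) {P Q : Finset ℕ} {y z : ℕ} (hy : y ∈ P) (hz : z ∈ P)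
    (hs : (P, Q) ∈ mains V t)
    (hr' : ¬ NR V t R (P.erase z, insert z Q))
    (hzG : z ∈ Gs V R (P.erase z, insert z Q)) :
    Gs V R (P.erase y, insert y Q) ⊆ Gs V R (P.erase z, insert z Q) := by
  intro x hx
  by_contra hx'
  have hs2 := flip_mem_mains hz hs
  obtain ⟨hP, hQ, hPQ, hKc⟩ := mem_mains.1 hs
  simp only at hP hQ hPQ
  have hk1 : ker V (P.erase y, insert y Q) = ker V (P, Q) := ker_flip hy
  have hk2 : ker V (P.erase z, insert z Q) = ker V (P, Q) := ker_flip hz
  set K := ker V (P, Q) with hK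
  have hun : ∀ y ∈ P, ∀ x, (x ∈ P.erase y ∨ x ∈ insert y Q) ↔ (x ∈ P ∨ x ∈ Q) := by
    intro y hy x
    simp only [mem_erase, mem_insert]
    by_cases hx : x = y
    · subst hx; simp [hy]
    · simp [hx]
  obtain ⟨h1, A, hA, hA1, hA2⟩ := mem_Gs.1 hx
  simp only at h1
  rw [hun y hy] at h1
  rw [hk1] at hA1 hA2
  simp only at hA2
  have hxK : x ∉ K := ker_disj V (P, Q) h1
  have hxG : x ∈ Gs V R (P.erase z, insert z Q).swap := by
    have := gs_union (by omega) h hs2 hr'
    have hxm : x ∈ Gs V R (P.erase z, insert z Q) ∪ Gs V R (P.erase z, insert z Q).swap := by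
      rw [this]
      simp only [mem_union]
      exact (hun z hz x).2 h1
    rcases mem_union.1 hxm with h' | h'
    · exact absurd h' hx'
    · exact h'
  obtain ⟨-, B, hB, hB1, hB2⟩ := mem_Gs.1 hxG
  rw [ker_swap, hk2] at hB1 hB2
  simp only [Prod.fst_swap] at hB2
  have hAB : A ∩ B ⊆ insert z (insert x K) := by
    intro w hw
    have e1 := hA2 (mem_inter.1 hw).1
    have e2 := hB2 (mem_inter.1 hw).2
    simp only [mem_insert, mem_union, mem_erase] at e1 e2 ⊢
    have e3 : w ∈ P → w ∈ Q → False := fun p q => disjoint_left.1 hPQ p q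
    tauto
  obtain ⟨hzA, hzB, hzx⟩ := meet_step h hKc hxK hA hB hA1 hB1 hAB
  refine star_right ht h hs2 hr' hzG hxG hB ?_ ?_
  · rw [hk2]
    intro w hw
    simp only [mem_insert] at hw
    rcases hw with rfl | rfl | hw
    · exact hzB
    · exact hB1 (mem_insert_self _ _)
    · exact hB1 (mem_insert_of_mem hw)
  · rw [hk2]
    exact hB2.trans (subset_insert _ _)

theorem uniq_up (ht : 2 ≤ t) (h : Av V t R) {P Q : Finset ℕ} {y z : ℕ} (hy : y ∈ P) (hz : z ∈ P)
    (hs : (P, Q) ∈ mains V t) (hr : ¬ NR V t R (P.erase y, insert y Q))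
    (hr' : ¬ NR V t R (P.erase z, insert z Q)) (hyG : y ∈ Gs V R (P.erase y, insert y Q))
    (hzG : z ∈ Gs V R (P.erase z, insert z Q)) :
    Gs V R (P.erase y, insert y Q) = Gs V R (P.erase z, insert z Q) :=
  Subset.antisymm (up_sub ht h hy hz hs hr' hzG) (up_sub ht h hz hy hs hr hyG)

end Pool.Agent.H37.AV
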