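import Pool.Agent.H37.AV.SecOf

/-!
Module Glob.  Summing over all sections.

Let `sel G X` be a condition, and suppose that for every `Sec G t S D N` and every `κ` the number of
`X ∈ S` with `sel G X`, `|X| ≤ κ` is at most `cD |D_(≤κ)| + cN |N_(≤κ)|`.  Then the number of `s ∈ Th` with
`sel (Gs s) (s.1 ∩ Gs s)` and `|s.1| ≤ κ` is at most `cD |SQ_(≤κ)| + (cD + cN) |N2_(≤κ)|`.

Proof.  Key of `s ∈ Th`: `(Gs s, s.1 \ Gs s, s.2 \ Gs s)`; with `(G, P₀, Q₀)` the key, `s = mk G P₀ Q₀ X` for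
`X = s.1 ∩ G` (`Gs s ⊆ s.1 ∪ s.2`), `X ∈ fS G P₀ Q₀`, `|s.1| = |P₀| + |X|`.  For each key `k` in the image of `Th`
`sec_of` (`G` is disjoint from `P₀`, `Q₀`) and the hypothesis with `κ - |P₀|` (if `|P₀| ≤ κ`; otherwise there is
nothing with `|s.1| ≤ κ`) bound the number of such `s` with key `k` by
`cD #{X ∈ fD k : |P₀| + |X| ≤ κ} + cN #{X ∈ fN k : …}`.  Sum over the keys.  The map
`(k, X) ↦ mk G P₀ Q₀ X` is injective on the pairs with `X ∈ fD k`: if `τ = mk k X = (P, Q)` then `x ∈ G \ X ⊆ Q`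
with `X + x ∈ fS k` gives the slot `(P + x, Q - x)`, rigid, with `Gs = G ∋ x`; by `uniq_down` `G` is
determined by `τ`, hence `P₀ = P \ G`, `Q₀ = Q \ G`, `X = P ∩ G`.  (`τ` is a main slot, as an element of `SQ` or
`N2`.)  Its values are in `SQ ∪ N2`, so the sum of the first terms is at most
`cD (|SQ_(≤κ)| + |N2_(≤κ)|)`.  Similarly for `fN` with `uniq_up`, values in `N2`.
-/

open Finset

namespace Pool.Agent.H37.AV

private theorem glob_mk_insert {G P₀ Q₀ X : Finset ℕ} {x : ℕ} (hQ : Disjoint G Q₀) (hx : x ∈ G) :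
    mk G P₀ Q₀ (insert x X) = (insert x (P₀ ∪ X), (Q₀ ∪ (G \ X)).erase x) := by
  have hxQ : x ∉ Q₀ := Finset.disjoint_left.1 hQ hx
  unfold mk
  refine Prod.ext ?_ ?_
  · ext y
    simp only [mem_union, mem_insert]
    tauto
  · ext y
    simp only [mem_union, mem_sdiff, mem_insert, mem_erase]
    constructor
    · rintro (h | h)
      · exact ⟨fun e => hxQ (e ▸ h), Or.inl h⟩
      · exact ⟨fun e => h.2 (Or.inl e), Or.inr ⟨h.1, fun e => h.2 (Or.inr e)⟩⟩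
    · rintro ⟨h1, h | h⟩
      · exact Or.inl h
      · exact Or.inr ⟨h.1, fun e => e.elim h1 h.2⟩

private theorem glob_mk_erase {G P₀ Q₀ X : Finset ℕ} {x : ℕ} (hP : Disjoint G P₀) (hx : x ∈ G) :
    mk G P₀ Q₀ (X.erase x) = ((P₀ ∪ X).erase x, insert x (Q₀ ∪ (G \ X))) := by
  have hxP : x ∉ P₀ := Finset.disjoint_left.1 hP hx
  unfold mk
  refine Prod.ext ?_ ?_
  · ext y
    simp only [mem_union, mem_erase]
    constructor
    · rintro (h | h)
      · exact ⟨fun e => hxP (e ▸ h), Or.inl h⟩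
      · exact ⟨h.1, Or.inr h.2⟩
    · rintro ⟨h1, h | h⟩
      · exact Or.inl h
      · exact Or.inr ⟨h1, h⟩
  · ext y
    simp only [mem_union, mem_sdiff, mem_insert, mem_erase, not_and]
    constructor
    · rintro (h | h)
      · exact Or.inr (Or.inl h)
      · by_cases e : y = x
        · exact Or.inl e
        · exact Or.inr (Or.inr ⟨h.1, h.2 e⟩)
    · rintro (h | h | h)
      · exact Or.inr ⟨h ▸ hx, fun e => absurd h e⟩
      · exact Or.inl h
      · exact Or.inr ⟨h.1, fun _ => h.2⟩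

private theorem glob_rec1 {G P₀ X : Finset ℕ} (hP : Disjoint G P₀) (hX : X ⊆ G) :
    (P₀ ∪ X) \ G = P₀ := by
  ext y
  simp only [mem_sdiff, mem_union]
  constructor
  · rintro ⟨h | h, h2⟩
    · exact h
    · exact absurd (hX h) h2
  · intro h
    exact ⟨Or.inl h, Finset.disjoint_right.1 hP h⟩

private theorem glob_rec2 {G P₀ X : Finset ℕ} (hP : Disjoint G P₀) (hX : X ⊆ G) :
    (P₀ ∪ X) ∩ G = X := by
  ext y
  simp only [mem_inter, mem_union]
  constructor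
  · rintro ⟨h | h, h2⟩
    · exact absurd h2 (Finset.disjoint_right.1 hP h)
    · exact h
  · intro h
    exact ⟨Or.inr h, hX h⟩

private theorem glob_mem_fS {V : Finset ℕ} {t : ℕ} {R : Finset (Finset ℕ)} {G P₀ Q₀ X : Finset ℕ} :
    X ∈ fS V t R G P₀ Q₀ ↔ X ⊆ G ∧ mk G P₀ Q₀ X ∈ Th V t R ∧ Gs V R (mk G P₀ Q₀ X) = G := by
  classical
  simp only [fS, mem_filter, mem_powerset]

private theorem glob_mem_fD {V : Finset ℕ} {t : ℕ} {R : Finset (Finset ℕ)} {G P₀ Q₀ X : Finset ℕ} :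
    X ∈ fD V t R G P₀ Q₀ ↔ X ⊆ G ∧ (mk G P₀ Q₀ X ∈ SQ V t R ∨ mk G P₀ Q₀ X ∈ N2 V t R) ∧
      ∃ x ∈ G \ X, insert x X ∈ fS V t R G P₀ Q₀ := by
  classical
  simp only [fD, mem_filter, mem_powerset]

private theorem glob_mem_fN {V : Finset ℕ} {t : ℕ} {R : Finset (Finset ℕ)} {G P₀ Q₀ X : Finset ℕ} :
    X ∈ fN V t R G P₀ Q₀ ↔ X ⊆ G ∧ mk G P₀ Q₀ X ∈ N2 V t R ∧
      ∃ x ∈ X, X.erase x ∈ fS V t R G P₀ Q₀ := by
  classical
  simp only [fN, mem_filter, mem_powerset]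

private theorem glob_injD {V : Finset ℕ} {t : ℕ} {R : Finset (Finset ℕ)} (ht : 2 ≤ t)
    (h : Av V t R) {G P₀ Q₀ X G' P₀' Q₀' X' : Finset ℕ} (hP : Disjoint G P₀) (hQ : Disjoint G Q₀)
    (hP' : Disjoint G' P₀') (hQ' : Disjoint G' Q₀') (hX : X ∈ fD V t R G P₀ Q₀)
    (hX' : X' ∈ fD V t R G' P₀' Q₀') (he : mk G P₀ Q₀ X = mk G' P₀' Q₀' X') :
    G = G' ∧ P₀ = P₀' ∧ Q₀ = Q₀' ∧ X = X' := by
  obtain ⟨hXG, hXm, x, hx, hxS⟩ := glob_mem_fD.1 hX
  obtain ⟨hXG', hXm', x', hx', hxS'⟩ := glob_mem_fD.1 hX'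
  obtain ⟨-, h1, h2⟩ := glob_mem_fS.1 hxS
  obtain ⟨-, h1', h2'⟩ := glob_mem_fS.1 hxS'
  obtain ⟨hxG, hxX⟩ := mem_sdiff.1 hx
  obtain ⟨hxG', hxX'⟩ := mem_sdiff.1 hx'
  have hmain : mk G P₀ Q₀ X ∈ mains V t := by
    rcases hXm with h3 | h3
    · exact (mem_SQ.1 h3).1
    · exact (mem_N2.1 h3).1
  have hp : P₀ ∪ X = P₀' ∪ X' := congrArg Prod.fst he
  have hq : Q₀ ∪ (G \ X) = Q₀' ∪ (G' \ X') := congrArg Prod.snd he
  have hG : G = G' := by
    rw [glob_mk_insert hQ hxG] at h1 h2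
    rw [glob_mk_insert hQ' hxG', ← hp, ← hq] at h1' h2'
    have h5 := uniq_down (P := P₀ ∪ X) (Q := Q₀ ∪ (G \ X)) (y := x) (z := x') ht h
      (mem_union_right _ hx) (by rw [hq]; exact mem_union_right _ hx') hmain
      (mem_Th.1 h1).2.2.2 (mem_Th.1 h1').2.2.2 (by rw [h2]; exact hxG) (by rw [h2']; exact hxG')
    rw [h2, h2'] at h5
    exact h5
  subst hG
  refine ⟨rfl, ?_, ?_, ?_⟩
  · rw [← glob_rec1 hP hXG, hp, glob_rec1 hP' hXG']
  · rw [← glob_rec1 hQ (sdiff_subset (s := G) (t := X)), hq,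
      glob_rec1 hQ' (sdiff_subset (s := G) (t := X'))]
  · rw [← glob_rec2 hP hXG, hp, glob_rec2 hP' hXG']

private theorem glob_injN {V : Finset ℕ} {t : ℕ} {R : Finset (Finset ℕ)} (ht : 2 ≤ t)
    (h : Av V t R) {G P₀ Q₀ X G' P₀' Q₀' X' : Finset ℕ} (hP : Disjoint G P₀) (hQ : Disjoint G Q₀)
    (hP' : Disjoint G' P₀') (hQ' : Disjoint G' Q₀') (hX : X ∈ fN V t R G P₀ Q₀)
    (hX' : X' ∈ fN V t R G' P₀' Q₀') (he : mk G P₀ Q₀ X = mk G' P₀' Q₀' X') :
    G = G' ∧ P₀ = P₀' ∧ Q₀ = Q₀' ∧ X = X' := by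
  obtain ⟨hXG, hXm, x, hx, hxS⟩ := glob_mem_fN.1 hX
  obtain ⟨hXG', hXm', x', hx', hxS'⟩ := glob_mem_fN.1 hX'
  obtain ⟨-, h1, h2⟩ := glob_mem_fS.1 hxS
  obtain ⟨-, h1', h2'⟩ := glob_mem_fS.1 hxS'
  have hmain : mk G P₀ Q₀ X ∈ mains V t := (mem_N2.1 hXm).1
  have hp : P₀ ∪ X = P₀' ∪ X' := congrArg Prod.fst he
  have hq : Q₀ ∪ (G \ X) = Q₀' ∪ (G' \ X') := congrArg Prod.snd he
  have hG : G = G' := by
    rw [glob_mk_erase hP (hXG hx)] at h1 h2
    rw [glob_mk_erase hP' (hXG' hx'), ← hp, ← hq] at h1' h2'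
    have h5 := uniq_up (P := P₀ ∪ X) (Q := Q₀ ∪ (G \ X)) (y := x) (z := x') ht h
      (mem_union_right _ hx) (by rw [hp]; exact mem_union_right _ hx') hmain
      (mem_Th.1 h1).2.2.2 (mem_Th.1 h1').2.2.2 (by rw [h2]; exact hXG hx)
      (by rw [h2']; exact hXG' hx')
    rw [h2, h2'] at h5
    exact h5
  subst hG
  refine ⟨rfl, ?_, ?_, ?_⟩
  · rw [← glob_rec1 hP hXG, hp, glob_rec1 hP' hXG']
  · rw [← glob_rec1 hQ (sdiff_subset (s := G) (t := X)), hq,
      glob_rec1 hQ' (sdiff_subset (s := G) (t := X'))]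
  · rw [← glob_rec2 hP hXG, hp, glob_rec2 hP' hXG']

theorem glob {V : Finset ℕ} {t : ℕ} {R : Finset (Finset ℕ)} (ht : 2 ≤ t) (h : Av V t R)
    (sel : Finset ℕ → Finset ℕ → Prop) [∀ G X, Decidable (sel G X)] {cD cN : ℝ} (hcD : 0 ≤ cD)
    (hcN : 0 ≤ cN)
    (hsec : ∀ (G : Finset ℕ) (S D N : Finset (Finset ℕ)), Sec G t S D N → ∀ κ : ℕ,
      ((S.filter (fun X => sel G X ∧ X.card ≤ κ)).card : ℝ) ≤
        cD * (D.filter (fun X => X.card ≤ κ)).card + cN * (N.filter (fun X => X.card ≤ κ)).card)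
    (κ : ℕ) :
    (((Th V t R).filter (fun s => sel (Gs V R s) (s.1 ∩ Gs V R s) ∧ s.1.card ≤ κ)).card : ℝ) ≤
      cD * ((SQ V t R).filter (fun s => s.1.card ≤ κ)).card +
        (cD + cN) * ((N2 V t R).filter (fun s => s.1.card ≤ κ)).card := by
  classical
  set T := (Th V t R).filter (fun s => sel (Gs V R s) (s.1 ∩ Gs V R s) ∧ s.1.card ≤ κ) with hT
  let key : Slot → Finset ℕ × Finset ℕ × Finset ℕ := fun s =>
    (Gs V R s, s.1 \ Gs V R s, s.2 \ Gs V R s)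
  set Ks := T.image key with hKs
  -- facts about the keys
  have hkey : ∀ k ∈ Ks, Disjoint k.1 k.2.1 ∧ Disjoint k.1 k.2.2 ∧ k.2.1.card ≤ κ := by
    intro k hk
    obtain ⟨s, hs, rfl⟩ := mem_image.1 hk
    obtain ⟨-, -, h3⟩ := mem_filter.1 hs
    exact ⟨disjoint_sdiff, disjoint_sdiff, (card_le_card sdiff_subset).trans h3⟩
  -- the bound for one key
  have hfib : ∀ k ∈ Ks, ((T.filter (fun s => key s = k)).card : ℝ) ≤
      cD * ((fD V t R k.1 k.2.1 k.2.2).filter (fun X => X.card ≤ κ - k.2.1.card)).card +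
        cN * ((fN V t R k.1 k.2.1 k.2.2).filter (fun X => X.card ≤ κ - k.2.1.card)).card := by
    intro k hk
    obtain ⟨hd1, hd2, hd3⟩ := hkey k hk
    refine le_trans ?_ (hsec k.1 _ _ _ (sec_of ht h hd1 hd2) (κ - k.2.1.card))
    rw [Nat.cast_le]
    refine card_le_card_of_injOn (fun s => s.1 ∩ k.1) ?_ ?_
    · intro s hs
      obtain ⟨hs1, hs2⟩ := mem_filter.1 hs
      obtain ⟨hs3, hs4, hs5⟩ := mem_filter.1 hs1
      have e1 : Gs V R s = k.1 := congrArg Prod.fst hs2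
      have e2 : s.1 \ Gs V R s = k.2.1 := congrArg (fun q => q.2.1) hs2
      have e3 : s.2 \ Gs V R s = k.2.2 := congrArg (fun q => q.2.2) hs2
      rw [e1] at e2 e3 hs4
      obtain ⟨hm, -, -, -⟩ := mem_Th.1 hs3
      obtain ⟨-, -, hdis, -⟩ := mem_mains.1 hm
      have hmk : mk k.1 k.2.1 k.2.2 (s.1 ∩ k.1) = s := by
        unfold mk
        refine Prod.ext ?_ ?_
        · rw [← e2]
          exact Finset.sdiff_union_inter _ _
        · ext y
          rw [← e3]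
          simp only [mem_union, mem_sdiff, mem_inter, not_and]
          constructor
          · rintro (h1 | ⟨h1, h2⟩)
            · exact h1.1
            · rw [← e1] at h1
              rcases (mem_Gs.1 h1).1 with h3 | h3
              · rw [e1] at h1
                exact absurd h1 (h2 h3)
              · exact h3
          · intro h1
            by_cases h2 : y ∈ k.1
            · exact Or.inr ⟨h2, fun h3 => absurd h1 (Finset.disjoint_left.1 hdis h3)⟩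
            · exact Or.inl ⟨h1, h2⟩
      refine mem_coe.2 (mem_filter.2 ⟨glob_mem_fS.2 ⟨inter_subset_right, ?_, ?_⟩, hs4, ?_⟩)
      · rw [hmk]
        exact hs3
      · rw [hmk]
        exact e1
      · have h6 : s.1.card = k.2.1.card + (s.1 ∩ k.1).card := by
          rw [← e2]
          exact (Finset.card_sdiff_add_card_inter _ _).symm
        change (s.1 ∩ k.1).card ≤ κ - k.2.1.card
        omega
    · intro s hs s' hs' hss
      obtain ⟨hs1, hs2⟩ := mem_filter.1 (mem_coe.1 hs)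
      obtain ⟨hs1', hs2'⟩ := mem_filter.1 (mem_coe.1 hs')
      have hss' : s.1 ∩ k.1 = s'.1 ∩ k.1 := hss
      have hrec : ∀ s ∈ T, key s = k → s = mk k.1 k.2.1 k.2.2 (s.1 ∩ k.1) := by
        intro s hs1 hs2
        obtain ⟨hs3, hs4, hs5⟩ := mem_filter.1 hs1
        have e1 : Gs V R s = k.1 := congrArg Prod.fst hs2
        have e2 : s.1 \ Gs V R s = k.2.1 := congrArg (fun q => q.2.1) hs2
        have e3 : s.2 \ Gs V R s = k.2.2 := congrArg (fun q => q.2.2) hs2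
        rw [e1] at e2 e3
        obtain ⟨hm, -, -, -⟩ := mem_Th.1 hs3
        obtain ⟨-, -, hdis, -⟩ := mem_mains.1 hm
        unfold mk
        refine Prod.ext ?_ ?_
        · rw [← e2]
          exact (Finset.sdiff_union_inter _ _).symm
        · ext y
          rw [← e3]
          simp only [mem_union, mem_sdiff, mem_inter, not_and]
          constructor
          · intro h1
            by_cases h2 : y ∈ k.1
            · exact Or.inr ⟨h2, fun h3 => absurd h1 (Finset.disjoint_left.1 hdis h3)⟩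
            · exact Or.inl ⟨h1, h2⟩
          · rintro (h1 | ⟨h1, h2⟩)
            · exact h1.1
            · rw [← e1] at h1
              rcases (mem_Gs.1 h1).1 with h3 | h3
              · rw [e1] at h1
                exact absurd h1 (h2 h3)
              · exact h3
      rw [hrec s hs1 hs2, hrec s' hs1' hs2', hss']
  -- the sums over the keys
  have hD : (∑ k ∈ Ks, ((fD V t R k.1 k.2.1 k.2.2).filter
      (fun X => X.card ≤ κ - k.2.1.card)).card) ≤
      ((SQ V t R).filter (fun s => s.1.card ≤ κ)).card +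
        ((N2 V t R).filter (fun s => s.1.card ≤ κ)).card := by
    refine le_trans ?_ (card_union_le _ _)
    rw [← card_sigma]
    refine card_le_card_of_injOn (fun q => mk q.1.1 q.1.2.1 q.1.2.2 q.2) ?_ ?_
    · rintro ⟨k, X⟩ hq
      obtain ⟨hk, hX⟩ := mem_sigma.1 (mem_coe.1 hq)
      obtain ⟨hX1, hX2⟩ := mem_filter.1 hX
      obtain ⟨hd1, hd2, hd3⟩ := hkey k hk
      have hc : (mk k.1 k.2.1 k.2.2 X).1.card ≤ κ := by
        have h1 : (k.2.1 ∪ X).card ≤ k.2.1.card + X.card := card_union_le _ _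
        have h2 : X.card ≤ κ - k.2.1.card := hX2
        change (k.2.1 ∪ X).card ≤ κ
        omega
      refine mem_coe.2 (mem_union.2 ?_)
      rcases (glob_mem_fD.1 hX1).2.1 with h3 | h3
      · exact Or.inl (mem_filter.2 ⟨h3, hc⟩)
      · exact Or.inr (mem_filter.2 ⟨h3, hc⟩)
    · rintro ⟨k, X⟩ hq ⟨k', X'⟩ hq' he
      obtain ⟨hk, hX⟩ := mem_sigma.1 (mem_coe.1 hq)
      obtain ⟨hX1, hX2⟩ := mem_filter.1 hX
      obtain ⟨hk', hX'⟩ := mem_sigma.1 (mem_coe.1 hq')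
      obtain ⟨hX1', hX2'⟩ := mem_filter.1 hX'
      obtain ⟨hd1, hd2, hd3⟩ := hkey k hk
      obtain ⟨hd1', hd2', hd3'⟩ := hkey k' hk'
      obtain ⟨e1, e2, e3, e4⟩ := glob_injD ht h hd1 hd2 hd1' hd2' hX1 hX1' he
      obtain ⟨k1, k2, k3⟩ := k
      obtain ⟨k1', k2', k3'⟩ := k'
      simp only at e1 e2 e3 e4
      subst e1 e2 e3 e4
      rfl
  have hN : (∑ k ∈ Ks, ((fN V t R k.1 k.2.1 k.2.2).filter
      (fun X => X.card ≤ κ - k.2.1.card)).card) ≤
        ((N2 V t R).filter (fun s => s.1.card ≤ κ)).card := by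
    rw [← card_sigma]
    refine card_le_card_of_injOn (fun q => mk q.1.1 q.1.2.1 q.1.2.2 q.2) ?_ ?_
    · rintro ⟨k, X⟩ hq
      obtain ⟨hk, hX⟩ := mem_sigma.1 (mem_coe.1 hq)
      obtain ⟨hX1, hX2⟩ := mem_filter.1 hX
      obtain ⟨hd1, hd2, hd3⟩ := hkey k hk
      have hc : (mk k.1 k.2.1 k.2.2 X).1.card ≤ κ := by
        have h1 : (k.2.1 ∪ X).card ≤ k.2.1.card + X.card := card_union_le _ _
        have h2 : X.card ≤ κ - k.2.1.card := hX2
        change (k.2.1 ∪ X).card ≤ κ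
        omega
      exact mem_coe.2 (mem_filter.2 ⟨(glob_mem_fN.1 hX1).2.1, hc⟩)
    · rintro ⟨k, X⟩ hq ⟨k', X'⟩ hq' he
      obtain ⟨hk, hX⟩ := mem_sigma.1 (mem_coe.1 hq)
      obtain ⟨hX1, hX2⟩ := mem_filter.1 hX
      obtain ⟨hk', hX'⟩ := mem_sigma.1 (mem_coe.1 hq')
      obtain ⟨hX1', hX2'⟩ := mem_filter.1 hX'
      obtain ⟨hd1, hd2, hd3⟩ := hkey k hk
      obtain ⟨hd1', hd2', hd3'⟩ := hkey k' hk'
      obtain ⟨e1, e2, e3, e4⟩ := glob_injN ht h hd1 hd2 hd1' hd2' hX1 hX1' he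
      obtain ⟨k1, k2, k3⟩ := k
      obtain ⟨k1', k2', k3'⟩ := k'
      simp only at e1 e2 e3 e4
      subst e1 e2 e3 e4
      rfl
  have hsum : (T.card : ℝ) = ∑ k ∈ Ks, ((T.filter (fun s => key s = k)).card : ℝ) := by
    rw [← Nat.cast_sum, ← card_eq_sum_card_image key T]
  have hDR : (∑ k ∈ Ks, (((fD V t R k.1 k.2.1 k.2.2).filter
      (fun X => X.card ≤ κ - k.2.1.card)).card : ℝ)) ≤
      ((SQ V t R).filter (fun s => s.1.card ≤ κ)).card +
        ((N2 V t R).filter (fun s => s.1.card ≤ κ)).card := by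
    exact_mod_cast hD
  have hNR : (∑ k ∈ Ks, (((fN V t R k.1 k.2.1 k.2.2).filter
      (fun X => X.card ≤ κ - k.2.1.card)).card : ℝ)) ≤
        ((N2 V t R).filter (fun s => s.1.card ≤ κ)).card := by
    exact_mod_cast hN
  calc (T.card : ℝ) = ∑ k ∈ Ks, ((T.filter (fun s => key s = k)).card : ℝ) := hsum
    _ ≤ ∑ k ∈ Ks, (cD * ((fD V t R k.1 k.2.1 k.2.2).filter
          (fun X => X.card ≤ κ - k.2.1.card)).card +
        cN * ((fN V t R k.1 k.2.1 k.2.2).filter (fun X => X.card ≤ κ - k.2.1.card)).card) :=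
        sum_le_sum hfib
    _ = cD * (∑ k ∈ Ks, (((fD V t R k.1 k.2.1 k.2.2).filter
          (fun X => X.card ≤ κ - k.2.1.card)).card : ℝ)) +
        cN * (∑ k ∈ Ks, (((fN V t R k.1 k.2.1 k.2.2).filter
          (fun X => X.card ≤ κ - k.2.1.card)).card : ℝ)) := by
        rw [sum_add_distrib, mul_sum, mul_sum]
    _ ≤ cD * (((SQ V t R).filter (fun s => s.1.card ≤ κ)).card +
          ((N2 V t R).filter (fun s => s.1.card ≤ κ)).card) +
        cN * ((N2 V t R).filter (fun s => s.1.card ≤ κ)).card :=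
        add_le_add (mul_le_mul_of_nonneg_left hDR hcD) (mul_le_mul_of_nonneg_left hNR hcN)
    _ = _ := by ring

end Pool.Agent.H37.AV
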