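import Mathlib

/-!
Module ParY.  Choice of `y` with `y^100 ≤ n ≤ 2 y^100`, and a growth fact.

`par_y`: let `y` be the largest natural number with `y^100 ≤ n` (`Nat.nthRoot`, or
`Nat.findGreatest`); `n < (y+1)^100 ≤ 2 y^100` for `y ≥ 200` (`(1 + 1/y)^100 ≤ exp (100/y) ≤ 2`, or
`(y+1)^100 (1 - 100/(y+1)) ≤ y^100` by Bernoulli), and `y ≥ Y` if `n ≥ Y^100`.
`par_exp`: `(1 + y^51/y^100)^(y^51) ≥ ((1 + 1/y^49)^(y^49))^(y^2) ≥ 2^(y^2) ≥ 2^y ≥ C y^k` for large `y`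
(Bernoulli `one_add_mul_le_pow`; `y^51 = y^49 y^2`; `tendsto_pow_const_div_const_pow_of_one_lt`).
-/

open Finset Filter

namespace Pool.Agent.H37.AV

private theorem parY_bern (y N : ℕ) (h : 2 * N ≤ y + 1) : (y + 1) ^ N ≤ 2 * y ^ N := by
  have hpos : (0 : ℝ) < (y : ℝ) + 1 := by positivity
  have hyN : 2 * (N : ℝ) ≤ (y : ℝ) + 1 := by exact_mod_cast h
  have h8 : (1 : ℝ) + -(1 / ((y : ℝ) + 1)) = y / (y + 1) := by
    field_simp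
    ring
  have h9 : 1 / ((y : ℝ) + 1) ≤ 1 := by
    rw [div_le_one hpos]
    have : (0 : ℝ) ≤ y := Nat.cast_nonneg y
    linarith
  have h7 : 1 + (N : ℝ) * -(1 / ((y : ℝ) + 1)) ≤ (1 + -(1 / ((y : ℝ) + 1))) ^ N :=
    one_add_mul_le_pow (by linarith) N
  rw [h8, div_pow] at h7
  have h10 : (1 : ℝ) / 2 ≤ (y : ℝ) ^ N / ((y : ℝ) + 1) ^ N := by
    refine le_trans ?_ h7
    have h12 : (N : ℝ) * (1 / ((y : ℝ) + 1)) ≤ 1 / 2 := by
      rw [mul_one_div, div_le_iff₀ hpos]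
      linarith
    linarith
  rw [le_div_iff₀ (by positivity)] at h10
  have h11 : (((y + 1) ^ N : ℕ) : ℝ) ≤ ((2 * y ^ N : ℕ) : ℝ) := by
    push_cast
    linarith
  exact_mod_cast h11

private theorem parY_gen (Y N : ℕ) (hN : N ≠ 0) : ∃ n₀ : ℕ, ∀ n ≥ n₀, ∃ y ≥ Y,
    y ^ N ≤ n ∧ n ≤ 2 * y ^ N := by
  refine ⟨(max Y (2 * N)) ^ N, fun n hn => ?_⟩
  set Z := max Y (2 * N) with hZ
  have hZ2 : 2 * N ≤ Z := le_max_right _ _
  have hZn : Z ≤ n := (Nat.le_self_pow hN Z).trans hn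
  set y := Nat.findGreatest (fun y => y ^ N ≤ n) n with hy
  have h1 : Z ≤ y := Nat.le_findGreatest hZn hn
  have h2 : y ^ N ≤ n := Nat.findGreatest_spec (P := fun y => y ^ N ≤ n) hZn hn
  have h3 : n < (y + 1) ^ N := by
    by_contra hcon
    push Not at hcon
    have h4 : y + 1 ≤ n := (Nat.le_self_pow hN (y + 1)).trans hcon
    have h5 := Nat.le_findGreatest (P := fun y => y ^ N ≤ n) h4 hcon
    rw [← hy] at h5
    omega
  have h6 : (y + 1) ^ N ≤ 2 * y ^ N := parY_bern y N (by omega)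
  exact ⟨y, (le_max_left _ _).trans h1, h2, by omega⟩

theorem par_y (Y : ℕ) : ∃ n₀ : ℕ, ∀ n ≥ n₀, ∃ y ≥ Y, y ^ 100 ≤ n ∧ n ≤ 2 * y ^ 100 :=
  parY_gen Y 100 (by norm_num)

theorem par_exp (C : ℝ) (k : ℕ) : ∃ Y : ℕ, ∀ y ≥ Y,
    C * (y : ℝ) ^ k ≤ (1 + (y : ℝ) ^ 51 / (y : ℝ) ^ 100) ^ (y ^ 51) := by
  have h1 : Tendsto (fun n : ℕ => C * ((n : ℝ) ^ k / (2 : ℝ) ^ n)) atTop (nhds (C * 0)) :=
    (tendsto_pow_const_div_const_pow_of_one_lt k (by norm_num : (1 : ℝ) < 2)).const_mul C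
  rw [mul_zero] at h1
  have h2 : ∀ᶠ n : ℕ in atTop, C * ((n : ℝ) ^ k / (2 : ℝ) ^ n) ≤ 1 :=
    h1.eventually_le_const (by norm_num)
  obtain ⟨Y, hY⟩ := eventually_atTop.mp h2
  refine ⟨max Y 1, fun y hy => ?_⟩
  have hy1 : 1 ≤ y := (le_max_right _ _).trans hy
  have h3 := hY y ((le_max_left _ _).trans hy)
  have hp : (0 : ℝ) < (2 : ℝ) ^ y := by positivity
  have h4 : C * (y : ℝ) ^ k ≤ (2 : ℝ) ^ y := by
    rw [← mul_div_assoc, div_le_one hp] at h3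
    exact h3
  have hy0 : (0 : ℝ) < (y : ℝ) := by exact_mod_cast hy1
  have h5 : (y : ℝ) ^ 51 / (y : ℝ) ^ 100 = 1 / (y : ℝ) ^ 49 := by
    rw [div_eq_div_iff (by positivity) (by positivity)]
    ring
  have h6 : (2 : ℝ) ≤ (1 + 1 / (y : ℝ) ^ 49) ^ (y ^ 49) := by
    have h7 := one_add_mul_le_pow (a := 1 / (y : ℝ) ^ 49) (by
      have : (0 : ℝ) ≤ 1 / (y : ℝ) ^ 49 := by positivity
      linarith) (y ^ 49)
    refine le_trans (le_of_eq ?_) h7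
    push_cast
    field_simp
    norm_num
  have h8 : y ^ 51 = y ^ 49 * y ^ 2 := by ring
  rw [h5, h8, pow_mul]
  refine h4.trans ?_
  calc (2 : ℝ) ^ y ≤ (2 : ℝ) ^ (y ^ 2) :=
        pow_le_pow_right₀ (by norm_num) (Nat.le_self_pow (by norm_num) y)
    _ ≤ ((1 + 1 / (y : ℝ) ^ 49) ^ (y ^ 49)) ^ (y ^ 2) :=
        pow_le_pow_left₀ (by norm_num) h6 _

end Pool.Agent.H37.AV
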