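import Pool.Agent.H37.AV.Prm
import Pool.Agent.H37.AV.ParY

/-!
Module ParB.  The numerical conditions `e3`, `e4`, `e5` for `y^100 ≤ n ≤ 2 y^100`, `hh = 2 y^50`,
`θ = 1 / y^56`, `c1 = y^58`, `s = y^51`, `y` large.

`1/(2θ) = y^56/2`.  `e3`: `2^(t+3) (20^(t+1) y^56 / 2 + 240 κ (2 y^50 + t)) ≤ C(t) y^56 ≤ y^58 / 16`.
`e4`: `2^(t+5) (y^56/2 + 240 κ (2 y^50 + t)) ≤ C(t) y^56 ≤ y^100 / 16 ≤ n / 16`.
`e5`: the left side is at most `2 (3 y^100)^(t+2) ((4 y^100)^(t+1) y^56 + 240 κ · 3 y^50)`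
`≤ C(t) y^(200 t + 400)`; `2 s / n ≥ y^51 / y^100`, so `par_exp`.
-/

open Finset

namespace Pool.Agent.H37.AV

private theorem parB_div {a : ℝ} {y : ℝ} : a / (2 * (1 / y ^ 56)) = a / 2 * y ^ 56 := by
  rw [one_div, ← div_div, div_inv_eq_mul]

private theorem parB_lin {y : ℕ} (hy : 1 ≤ y) (t : ℕ) :
    (((2 * y ^ 50 : ℕ) : ℝ) + t) ≤ (2 + t) * (y : ℝ) ^ 56 := by
  have hy1 : (1 : ℝ) ≤ y := by exact_mod_cast hy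
  have h1 : (y : ℝ) ^ 50 ≤ (y : ℝ) ^ 56 := pow_le_pow_right₀ hy1 (by norm_num)
  have h2 : (1 : ℝ) ≤ (y : ℝ) ^ 56 := one_le_pow₀ hy1
  have h3 : (0 : ℝ) ≤ t := Nat.cast_nonneg t
  push_cast
  nlinarith

theorem par_b3 (t : ℕ) (ht : 2 ≤ t) : ∃ Y : ℕ, ∀ y ≥ Y,
    2 ^ (t + 3) * (20 ^ (t + 1) / (2 * (1 / (y : ℝ) ^ 56)) +
      240 * Bd t * (((2 * y ^ 50 : ℕ) : ℝ) + t)) ≤ ((y ^ 58 : ℕ) : ℝ) / 16 := by
  have hB := Bd_pos t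
  set C : ℝ := 2 ^ (t + 3) * (20 ^ (t + 1) / 2 + 240 * Bd t * (2 + t)) with hC
  refine ⟨max 1 ⌈16 * C⌉₊, fun y hy => ?_⟩
  have hy1 : 1 ≤ y := (le_max_left _ _).trans hy
  have hyR : (1 : ℝ) ≤ y := by exact_mod_cast hy1
  have hyC : 16 * C ≤ y := (Nat.le_ceil _).trans (by exact_mod_cast (le_max_right _ _).trans hy)
  have h1 := parB_lin hy1 t
  have h2 : 240 * Bd t * (((2 * y ^ 50 : ℕ) : ℝ) + t) ≤
      240 * Bd t * ((2 + t) * (y : ℝ) ^ 56) := mul_le_mul_of_nonneg_left h1 (by linarith)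
  have h3 : (0 : ℝ) ≤ (y : ℝ) ^ 56 := by positivity
  calc 2 ^ (t + 3) * (20 ^ (t + 1) / (2 * (1 / (y : ℝ) ^ 56)) +
      240 * Bd t * (((2 * y ^ 50 : ℕ) : ℝ) + t))
      ≤ 2 ^ (t + 3) * (20 ^ (t + 1) / 2 * (y : ℝ) ^ 56 +
        240 * Bd t * ((2 + t) * (y : ℝ) ^ 56)) := by
        rw [parB_div]
        exact mul_le_mul_of_nonneg_left (by linarith) (by positivity)
    _ = C * (y : ℝ) ^ 56 := by rw [hC]; ring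
    _ ≤ y / 16 * (y : ℝ) ^ 56 := mul_le_mul_of_nonneg_right (by linarith) h3
    _ = (y : ℝ) ^ 57 / 16 := by ring
    _ ≤ ((y ^ 58 : ℕ) : ℝ) / 16 := by
        push_cast
        have : (y : ℝ) ^ 57 ≤ (y : ℝ) ^ 58 := pow_le_pow_right₀ hyR (by norm_num)
        linarith

theorem par_b4 (t : ℕ) (ht : 2 ≤ t) : ∃ Y : ℕ, ∀ y ≥ Y, ∀ n : ℕ, y ^ 100 ≤ n →
    2 ^ (t + 5) * (1 / (2 * (1 / (y : ℝ) ^ 56)) +
      240 * Bd t * (((2 * y ^ 50 : ℕ) : ℝ) + t)) ≤ (n : ℝ) / 16 := by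
  have hB := Bd_pos t
  set C : ℝ := 2 ^ (t + 5) * (1 / 2 + 240 * Bd t * (2 + t)) with hC
  refine ⟨max 1 ⌈16 * C⌉₊, fun y hy n hn => ?_⟩
  have hy1 : 1 ≤ y := (le_max_left _ _).trans hy
  have hyR : (1 : ℝ) ≤ y := by exact_mod_cast hy1
  have hyC : 16 * C ≤ y := (Nat.le_ceil _).trans (by exact_mod_cast (le_max_right _ _).trans hy)
  have hnR : (y : ℝ) ^ 100 ≤ n := by exact_mod_cast hn
  have h1 := parB_lin hy1 t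
  have h2 : 240 * Bd t * (((2 * y ^ 50 : ℕ) : ℝ) + t) ≤
      240 * Bd t * ((2 + t) * (y : ℝ) ^ 56) := mul_le_mul_of_nonneg_left h1 (by linarith)
  have h3 : (0 : ℝ) ≤ (y : ℝ) ^ 56 := by positivity
  calc 2 ^ (t + 5) * (1 / (2 * (1 / (y : ℝ) ^ 56)) +
      240 * Bd t * (((2 * y ^ 50 : ℕ) : ℝ) + t))
      ≤ 2 ^ (t + 5) * (1 / 2 * (y : ℝ) ^ 56 +
        240 * Bd t * ((2 + t) * (y : ℝ) ^ 56)) := by
        rw [parB_div]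
        exact mul_le_mul_of_nonneg_left (by linarith) (by positivity)
    _ = C * (y : ℝ) ^ 56 := by rw [hC]; ring
    _ ≤ y / 16 * (y : ℝ) ^ 56 := mul_le_mul_of_nonneg_right (by linarith) h3
    _ = (y : ℝ) ^ 57 / 16 := by ring
    _ ≤ (n : ℝ) / 16 := by
        have : (y : ℝ) ^ 57 ≤ (y : ℝ) ^ 100 := pow_le_pow_right₀ hyR (by norm_num)
        linarith

theorem par_b5 (t : ℕ) (ht : 2 ≤ t) : ∃ Y : ℕ, ∀ y ≥ Y, ∀ n : ℕ, y ^ 100 ≤ n → n ≤ 2 * y ^ 100 →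
    2 * ((n : ℝ) + 1) ^ (t + 2) *
      ((2 * (n : ℝ) / ((y ^ 51 : ℕ) : ℝ)) ^ (t + 1) / (2 * (1 / (y : ℝ) ^ 56)) +
        240 * Bd t * (((2 * y ^ 50 : ℕ) : ℝ) + t)) ≤
      1 / 16 * (1 + 2 * ((y ^ 51 : ℕ) : ℝ) / n) ^ (y ^ 51) := by
  have hB := Bd_pos t
  set C : ℝ := 2 * 3 ^ (t + 2) * (4 ^ (t + 1) + 240 * Bd t * (2 + t)) with hC
  obtain ⟨Y, hY⟩ := par_exp (16 * C) (100 * (t + 2) + 100 * (t + 1) + 56)
  refine ⟨max 1 Y, fun y hy n hn hn2 => ?_⟩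
  have hy1 : 1 ≤ y := (le_max_left _ _).trans hy
  have hyR : (1 : ℝ) ≤ y := by exact_mod_cast hy1
  have hnR : (y : ℝ) ^ 100 ≤ n := by exact_mod_cast hn
  have hnR2 : (n : ℝ) ≤ 2 * (y : ℝ) ^ 100 := by exact_mod_cast hn2
  have hy100 : (1 : ℝ) ≤ (y : ℝ) ^ 100 := one_le_pow₀ hyR
  have hy51 : (1 : ℝ) ≤ (y : ℝ) ^ 51 := one_le_pow₀ hyR
  have hy56 : (1 : ℝ) ≤ (y : ℝ) ^ 56 := one_le_pow₀ hyR
  have hn0 : (0 : ℝ) < n := by linarith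
  have hE := hY y ((le_max_right _ _).trans hy)
  have h1 := parB_lin hy1 t
  have hq : (1 : ℝ) ≤ ((y : ℝ) ^ 100) ^ (t + 1) := one_le_pow₀ hy100
  have h2 : 240 * Bd t * (((2 * y ^ 50 : ℕ) : ℝ) + t) ≤
      240 * Bd t * (2 + t) * (y : ℝ) ^ 56 * ((y : ℝ) ^ 100) ^ (t + 1) := by
    have h3 : 240 * Bd t * (((2 * y ^ 50 : ℕ) : ℝ) + t) ≤
      240 * Bd t * ((2 + t) * (y : ℝ) ^ 56) := mul_le_mul_of_nonneg_left h1 (by linarith)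
    have h4 : (0 : ℝ) ≤ 240 * Bd t * ((2 + t) * (y : ℝ) ^ 56) := by positivity
    have h5 := mul_le_mul_of_nonneg_left hq h4
    linarith
  have h6 : (2 * (n : ℝ) / ((y ^ 51 : ℕ) : ℝ)) ^ (t + 1) ≤ (4 * (y : ℝ) ^ 100) ^ (t + 1) := by
    refine pow_le_pow_left₀ (by positivity) ?_ _
    push_cast
    rw [div_le_iff₀ (by positivity)]
    nlinarith
  have h7 : (2 * (n : ℝ) / ((y ^ 51 : ℕ) : ℝ)) ^ (t + 1) / (2 * (1 / (y : ℝ) ^ 56)) ≤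
      4 ^ (t + 1) * (y : ℝ) ^ 56 * ((y : ℝ) ^ 100) ^ (t + 1) := by
    rw [parB_div]
    have h8 : (2 * (n : ℝ) / ((y ^ 51 : ℕ) : ℝ)) ^ (t + 1) / 2 * (y : ℝ) ^ 56 ≤
        (4 * (y : ℝ) ^ 100) ^ (t + 1) * (y : ℝ) ^ 56 := by
      refine mul_le_mul_of_nonneg_right ?_ (by positivity)
      have h9 : (0 : ℝ) ≤ (2 * (n : ℝ) / ((y ^ 51 : ℕ) : ℝ)) ^ (t + 1) := by positivity
      linarith
    rw [mul_pow] at h8
    linarith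
  have h10 : ((n : ℝ) + 1) ^ (t + 2) ≤ (3 * (y : ℝ) ^ 100) ^ (t + 2) :=
    pow_le_pow_left₀ (by positivity) (by linarith) _
  have h11 : (1 + (y : ℝ) ^ 51 / (y : ℝ) ^ 100) ^ (y ^ 51) ≤
      (1 + 2 * ((y ^ 51 : ℕ) : ℝ) / n) ^ (y ^ 51) := by
    refine pow_le_pow_left₀ (by positivity) ?_ _
    have h12 : (y : ℝ) ^ 51 / (y : ℝ) ^ 100 ≤ 2 * ((y ^ 51 : ℕ) : ℝ) / n := by
      push_cast
      rw [div_le_div_iff₀ (by positivity) hn0]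
      nlinarith
    linarith
  calc 2 * ((n : ℝ) + 1) ^ (t + 2) *
      ((2 * (n : ℝ) / ((y ^ 51 : ℕ) : ℝ)) ^ (t + 1) / (2 * (1 / (y : ℝ) ^ 56)) +
        240 * Bd t * (((2 * y ^ 50 : ℕ) : ℝ) + t))
      ≤ 2 * (3 * (y : ℝ) ^ 100) ^ (t + 2) *
        (4 ^ (t + 1) * (y : ℝ) ^ 56 * ((y : ℝ) ^ 100) ^ (t + 1) +
          240 * Bd t * (2 + t) * (y : ℝ) ^ 56 * ((y : ℝ) ^ 100) ^ (t + 1)) := by
        refine mul_le_mul (by linarith) (by linarith) (by positivity) (by positivity)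
    _ = C * (y : ℝ) ^ (100 * (t + 2) + 100 * (t + 1) + 56) := by
        rw [hC, mul_pow, pow_add (y : ℝ) (100 * (t + 2) + 100 * (t + 1)) 56,
          pow_add (y : ℝ) (100 * (t + 2)) (100 * (t + 1)), pow_mul (y : ℝ) 100 (t + 2),
          pow_mul (y : ℝ) 100 (t + 1)]
        ring
    _ ≤ 1 / 16 * (1 + (y : ℝ) ^ 51 / (y : ℝ) ^ 100) ^ (y ^ 51) := by linarith
    _ ≤ 1 / 16 * (1 + 2 * ((y ^ 51 : ℕ) : ℝ) / n) ^ (y ^ 51) := by linarith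

end Pool.Agent.H37.AV
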