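import Pool.Agent.H37.AV.HypHalf

/-!
Module PrGe.  Sets of size at least `n/2 - 2 y^58` are captured with probability at least `1/4`.
Here `y^100 ≤ n ≤ 2 y^100`, `r = y^80` or `y^80 + 1`, `2 m = r + t + 1`, `y` large (depending on `t`).

`hyp_max`: for `n ≤ 2u ≤ n + 1`, `r ≤ 2j + 1`, `2 j ≤ r + y^39`: `hyp n r u j ≤ 2 / y^39`.  By `hyp_ratio` for
`j' = j + i`, `i < y^39`: `j' ≤ r/2 + 2 y^39`, so `(r-j')/(j'+1) ≥ 1 - 20 y^(-41)` and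
`(u-j')/(n-u-r+j'+1) ≥ 1 - 20 y^(-60)`; hence `hyp (j+i) ≥ (1 - 40 y^(-41))^(y^39) hyp j ≥ (1/2) hyp j`
(Bernoulli), and `y^39 (1/2) hyp j ≤ ∑_i hyp (j+i) ≤ 1`.

`pr_ge`: by `pr_mono` we may take `u = u₀` with `n - 4 y^58 ≤ 2 u₀`, `u₀ ≤ u₁ = (n+1)/2` (if `u ≥ u₁` use `u₁`
itself), `u₁ - u₀ ≤ 2 y^58 + 1`.  `pr_shift` with `L = 48 y^38`:
`pr m u₀ ≥ pr (m+L) u₁ - (y^80+1)(2y^58+1)/(y^100 (L+1)) ≥ pr (m+L) u₁ - 1/12`;
`pr (m+L) u₁ ≥ pr ((r+1)/2) u₁ - (L + m - (r+1)/2) · 2 / y^39 ≥ 1/2 - (48 y^38 + t + 1) 2 / y^39`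
`≥ 1/2 - 1/12` for large `y` (`hyp_half`, `hyp_max` for the `j` between `(r+1)/2` and `m + L`).
-/

open Finset

namespace Pool.Agent.H37.AV

private theorem pg_nat {y : ℕ} (hy : 5 ≤ y) : 25 * (y ^ 39 * y ^ 39) ≤ y ^ 80 ∧
    100 * y ^ 80 ≤ y ^ 100 ∧ 1 ≤ y ^ 39 := by
  have h1 : 1 ≤ y ^ 39 := Nat.one_le_pow _ _ (by omega)
  have h2 : y ^ 80 = (y ^ 39 * y ^ 39) * (y * y) := by ring
  have h3 : y ^ 100 = y ^ 80 * y ^ 20 := by ring
  have h4 : 25 ≤ y * y := by nlinarith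
  have h5 : 100 ≤ y ^ 20 := by
    calc 100 ≤ 5 ^ 20 := by norm_num
      _ ≤ y ^ 20 := Nat.pow_le_pow_left hy 20
  refine ⟨?_, ?_, h1⟩
  · rw [h2, mul_comm 25]
    exact Nat.mul_le_mul_left _ h4
  · rw [h3, mul_comm 100]
    exact Nat.mul_le_mul_left _ h5

private theorem pg_ratio {y n r u j : ℕ} (hy : 5 ≤ y) (h1 : y ^ 100 ≤ n) (h2 : y ^ 80 ≤ r)
    (h3 : r ≤ y ^ 80 + 1) (h4 : n ≤ 2 * u) (h5 : 2 * u ≤ n + 1) (h6 : r ≤ 2 * j + 1)
    (h7 : 2 * j + 1 ≤ r + 3 * y ^ 39) :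
    (1 - 1 / (2 * (y : ℝ) ^ 39)) * hyp n r u j ≤ hyp n r u (j + 1) := by
  obtain ⟨e1, e2, e3⟩ := pg_nat hy
  generalize hD : y ^ 39 = D at *
  generalize hE : y ^ 80 = E at *
  have hDD : D ≤ D * D := Nat.le_mul_of_pos_left _ (by omega)
  have hjr : j < r := by omega
  have hju : j ≤ u := by omega
  have hun : u ≤ n := by omega
  have hrj : r ≤ n - u + j := by omega
  have hr := hyp_ratio hjr hju hun hrj
  have hD' : (y : ℝ) ^ 39 = (D : ℝ) := by rw [← hD]; push_cast; ring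
  rw [hD']
  have hD1 : (1 : ℝ) ≤ D := by exact_mod_cast e3
  have e1' : 25 * ((D : ℝ) * D) ≤ E := by exact_mod_cast e1
  have h1' : (100 : ℝ) * E ≤ n := by exact_mod_cast e2.trans h1
  have h2' : (E : ℝ) ≤ r := by exact_mod_cast h2
  have h3' : (r : ℝ) ≤ E + 1 := by exact_mod_cast h3
  have h4' : (n : ℝ) ≤ 2 * u := by exact_mod_cast h4
  have h5' : 2 * (u : ℝ) ≤ n + 1 := by exact_mod_cast h5
  have h6' : (r : ℝ) ≤ 2 * j + 1 := by exact_mod_cast h6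
  have h7' : 2 * (j : ℝ) + 1 ≤ r + 3 * D := by exact_mod_cast h7
  have hDD' : (D : ℝ) ≤ D * D := by nlinarith
  set b : ℝ := (j : ℝ) + 1 with hb
  set e : ℝ := (n : ℝ) - u - r + j + 1 with he
  have hb1 : 12 * ((D : ℝ) * D) ≤ b := by rw [hb]; linarith
  have he1 : 12 * ((D : ℝ) * D) ≤ e := by rw [he]; nlinarith [(Nat.cast_nonneg j : (0 : ℝ) ≤ (j : ℝ))]
  have hb3 : 0 ≤ b - 3 * D := by nlinarith
  have he3 : 0 ≤ e - 3 * D := by nlinarith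
  have ha : b - 3 * D ≤ (r : ℝ) - j := by rw [hb]; linarith
  have hc : e - 3 * D ≤ (u : ℝ) - j := by rw [he]; linarith
  have hac : (e - 3 * D) * (b - 3 * D) ≤ ((u : ℝ) - j) * ((r : ℝ) - j) :=
    mul_le_mul hc ha hb3 (he3.trans hc)
  have hbe : 0 < b * e := by
    have hb0 : 0 < b := by nlinarith
    have he0 : 0 < e := by nlinarith
    exact mul_pos hb0 he0
  have hk1 : 12 * ((D : ℝ) * D) * e ≤ b * e := mul_le_mul_of_nonneg_right hb1 (by nlinarith)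
  have hk2 : b * (12 * ((D : ℝ) * D)) ≤ b * e := mul_le_mul_of_nonneg_left he1 (by nlinarith)
  have hk : (1 - 1 / (2 * (D : ℝ))) * (b * e) ≤ (e - 3 * D) * (b - 3 * D) := by
    have h8 : 6 * ((D : ℝ) * D) * (b + e) ≤ b * e := by nlinarith
    have h9 : 3 * (D : ℝ) * (b + e) ≤ 1 / (2 * (D : ℝ)) * (b * e) := by
      rw [div_mul_eq_mul_div, one_mul, le_div_iff₀ (by positivity)]
      nlinarith
    nlinarith [sq_nonneg (D : ℝ)]
  have h0 := hyp_nonneg n r u j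
  have h8 : (1 - 1 / (2 * (D : ℝ))) * hyp n r u j * (b * e) ≤ hyp n r u (j + 1) * (b * e) := by
    rw [hr]
    calc (1 - 1 / (2 * (D : ℝ))) * hyp n r u j * (b * e)
        = hyp n r u j * ((1 - 1 / (2 * (D : ℝ))) * (b * e)) := by ring
      _ ≤ hyp n r u j * (((u : ℝ) - j) * ((r : ℝ) - j)) :=
          mul_le_mul_of_nonneg_left (hk.trans hac) h0
  exact le_of_mul_le_mul_right h8 hbe

theorem hyp_max : ∃ Y : ℕ, ∀ y ≥ Y, ∀ n r u j : ℕ, y ^ 100 ≤ n → n ≤ 2 * y ^ 100 → y ^ 80 ≤ r →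
    r ≤ y ^ 80 + 1 → n ≤ 2 * u → 2 * u ≤ n + 1 → r ≤ 2 * j + 1 → 2 * j ≤ r + y ^ 39 →
    hyp n r u j ≤ 2 / (y : ℝ) ^ 39 := by
  refine ⟨5, fun y hy n r u j h1 _ h2 h3 h4 h5 h6 h7 => ?_⟩
  obtain ⟨e1, e2, e3⟩ := pg_nat hy
  have hD0 : (0 : ℝ) < (y : ℝ) ^ 39 := by
    have : (0 : ℝ) < y := by exact_mod_cast (by omega : 0 < y)
    positivity
  have hpos := hyp_nonneg n r u j
  have key : ∀ i : ℕ, i < y ^ 39 →
      (1 - (i : ℝ) / (2 * (y : ℝ) ^ 39)) * hyp n r u j ≤ hyp n r u (j + i) := by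
    intro i
    induction i with
    | zero =>
      intro _
      simp
    | succ i ih =>
      intro hi
      have h8 := ih (by omega)
      have h9 := pg_ratio hy h1 h2 h3 h4 h5 (j := j + i) (by omega) (by omega)
      rw [← add_assoc]
      refine le_trans ?_ h9
      have hd : (0 : ℝ) ≤ 1 - 1 / (2 * (y : ℝ) ^ 39) := by
        rw [sub_nonneg, div_le_one (by positivity)]
        have : (1 : ℝ) ≤ (y : ℝ) ^ 39 := by exact_mod_cast e3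
        linarith
      have h10 := mul_le_mul_of_nonneg_left h8 hd
      refine le_trans ?_ h10
      rw [← mul_assoc]
      refine mul_le_mul_of_nonneg_right ?_ hpos
      push_cast
      have h11 : (0 : ℝ) ≤ 1 / (2 * (y : ℝ) ^ 39) * ((i : ℝ) / (2 * (y : ℝ) ^ 39)) := by
        positivity
      have h12 : ((i : ℝ) + 1) / (2 * (y : ℝ) ^ 39) =
          (i : ℝ) / (2 * (y : ℝ) ^ 39) + 1 / (2 * (y : ℝ) ^ 39) := by ring
      rw [h12]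
      nlinarith
  have hhalf : ∀ i ∈ range (y ^ 39), hyp n r u j / 2 ≤ hyp n r u (j + i) := by
    intro i hi
    have hi' := mem_range.1 hi
    refine le_trans ?_ (key i hi')
    have h8 : (i : ℝ) / (2 * (y : ℝ) ^ 39) ≤ 1 / 2 := by
      rw [div_le_iff₀ (by positivity)]
      have : (i : ℝ) ≤ (y : ℝ) ^ 39 := by exact_mod_cast hi'.le
      linarith
    nlinarith
  have hun : u ≤ n := by omega
  have hrn : r ≤ n := by
    have : 1 ≤ y ^ 80 := Nat.one_le_pow _ _ (by omega)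
    omega
  have hsum := hyp_sum hrn hun
  have hDD : y ^ 39 ≤ y ^ 39 * y ^ 39 := Nat.le_mul_of_pos_left _ (by omega)
  have h8 : ∑ i ∈ range (y ^ 39), hyp n r u (j + i) ≤ 1 := by
    rw [← hsum, ← Finset.sum_image (f := fun x => hyp n r u x) (g := fun i => j + i)
      (s := range (y ^ 39)) (fun a _ b _ hab => by simpa using hab)]
    refine Finset.sum_le_sum_of_subset_of_nonneg ?_ (fun x _ _ => hyp_nonneg _ _ _ _)
    intro x hx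
    obtain ⟨i, hi, rfl⟩ := mem_image.1 hx
    have hi' := mem_range.1 hi
    rw [mem_range]
    omega
  have h9 := Finset.sum_le_sum hhalf
  rw [Finset.sum_const, card_range, nsmul_eq_mul] at h9
  have h10 := h9.trans h8
  push_cast at h10
  rw [le_div_iff₀ hD0]
  nlinarith

theorem pr_ge (t : ℕ) : ∃ Y : ℕ, ∀ y ≥ Y, ∀ n r m u : ℕ, y ^ 100 ≤ n → n ≤ 2 * y ^ 100 →
    y ^ 80 ≤ r → r ≤ y ^ 80 + 1 → 2 * m = r + t + 1 → u ≤ n → n ≤ 2 * u + 4 * y ^ 58 →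
    1 / 4 ≤ pr n r m u := by
  obtain ⟨Y0, hY0⟩ := hyp_max
  refine ⟨max Y0 (5000 * (t + 1)), fun y hy n r m u h1 h2 h3 h4 hm hu h5 => ?_⟩
  have hyY : Y0 ≤ y := (le_max_left _ _).trans hy
  have hy5 : 5000 * (t + 1) ≤ y := (le_max_right _ _).trans hy
  have hy0 : 5 ≤ y := by omega
  obtain ⟨e1, e2, e3⟩ := pg_nat hy0
  have hDD : y ^ 39 ≤ y ^ 39 * y ^ 39 := Nat.le_mul_of_pos_left _ (by omega)
  have hyr : (5000 : ℝ) * ((t : ℝ) + 1) ≤ y := by exact_mod_cast hy5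
  have ht0 : (0 : ℝ) ≤ t := Nat.cast_nonneg t
  have hyp0 : (0 : ℝ) < y := by nlinarith
  obtain ⟨u₁, hu₁a, hu₁b⟩ : ∃ u₁ : ℕ, n ≤ 2 * u₁ ∧ 2 * u₁ ≤ n + 1 := ⟨(n + 1) / 2, by omega, by omega⟩
  have hE1 : 1 ≤ y ^ 80 := Nat.one_le_pow _ _ (by omega)
  have hu₁n : u₁ ≤ n := by omega
  have hrn : r ≤ n := by omega
  have h38 : y ^ 39 = y ^ 38 * y := by ring
  have h38' : 1 ≤ y ^ 38 := Nat.one_le_pow _ _ (by omega)
  have hLt : 2 * (48 * y ^ 38) + (t + 1) ≤ y ^ 39 := by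
    rw [h38]
    have h6 : y ^ 38 * (5000 * (t + 1)) ≤ y ^ 38 * y := Nat.mul_le_mul_left _ hy5
    have h7 : y ^ 38 * (5000 * (t + 1)) = 5000 * (y ^ 38 * (t + 1)) := by ring
    have h8 : t + 1 ≤ y ^ 38 * (t + 1) := Nat.le_mul_of_pos_left _ (by omega)
    have h9 : y ^ 38 ≤ y ^ 38 * (t + 1) := Nat.le_mul_of_pos_right _ (by omega)
    omega
  -- step 1: `pr` at `u₁` from `(r+1)/2` on
  have hhalf := hyp_half hrn hu₁n hu₁a
  set L : ℕ := 48 * y ^ 38 with hL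
  obtain ⟨q, hq, hq1, hq2⟩ : ∃ q : ℕ, q = (r + 1) / 2 ∧ r ≤ 2 * q ∧ 2 * q ≤ r + 1 :=
    ⟨(r + 1) / 2, rfl, by omega, by omega⟩
  rw [← hq] at hhalf
  have hqm : q ≤ m + L := by omega
  have hmr : m + L ≤ r + 1 := by omega
  have hsplit : pr n r q u₁ = ∑ j ∈ Ico q (m + L), hyp n r u₁ j + pr n r (m + L) u₁ := by
    unfold pr
    exact (Finset.sum_Ico_consecutive _ hqm hmr).symm
  have hbound : ∑ j ∈ Ico q (m + L), hyp n r u₁ j ≤ 1 / 12 := by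
    have h6 : ∀ j ∈ Ico q (m + L), hyp n r u₁ j ≤ 2 / (y : ℝ) ^ 39 := by
      intro j hj
      obtain ⟨hj1, hj2⟩ := mem_Ico.1 hj
      exact hY0 y hyY n r u₁ j h1 h2 h3 h4 hu₁a hu₁b (by omega) (by omega)
    have h7 := Finset.sum_le_card_nsmul _ _ _ h6
    rw [Nat.card_Ico, nsmul_eq_mul] at h7
    refine h7.trans ?_
    have h8 : ((m + L - q : ℕ) : ℝ) ≤ 48 * (y : ℝ) ^ 38 + (t + 1) := by
      have h9 : m + L - q ≤ 48 * y ^ 38 + (t + 1) := by omega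
      exact_mod_cast h9
    have h38r : (1 : ℝ) ≤ (y : ℝ) ^ 38 := by exact_mod_cast h38'
    have h39 : (y : ℝ) ^ 39 = (y : ℝ) ^ 38 * y := by ring
    rw [mul_div_assoc', div_le_div_iff₀ (by positivity) (by norm_num), h39]
    have h10 : (y : ℝ) ^ 38 * (5000 * ((t : ℝ) + 1)) ≤ (y : ℝ) ^ 38 * y :=
      mul_le_mul_of_nonneg_left hyr (by positivity)
    have h11 : (t : ℝ) + 1 ≤ (y : ℝ) ^ 38 * (t + 1) := by nlinarith
    have h12 : (y : ℝ) ^ 38 ≤ (y : ℝ) ^ 38 * (t + 1) := by nlinarith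
    nlinarith
  -- step 2: shift to the smaller set
  have hcase : ∃ u₀ : ℕ, u₀ ≤ u ∧ u₀ ≤ u₁ ∧ n ≤ 2 * u₀ + 4 * y ^ 58 := by
    rcases le_total u u₁ with h6 | h6
    · exact ⟨u, le_rfl, h6, h5⟩
    · exact ⟨u₁, h6, le_rfl, by omega⟩
  obtain ⟨u₀, h6, h7, h8⟩ := hcase
  have hmono := pr_mono (n := n) (r := r) (m := m) h6 hu
  have hn1 : 1 ≤ n := by omega
  have hshift := pr_shift (m := m) (L := L) hrn hn1 h7 hu₁n
  have herr : (r : ℝ) * ((u₁ : ℝ) - u₀) / (n * (L + 1)) ≤ 1 / 12 := by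
    have hnr : (y : ℝ) ^ 100 ≤ n := by exact_mod_cast h1
    have hn0 : (0 : ℝ) < n := by exact_mod_cast hn1
    have hLr : (L : ℝ) = 48 * (y : ℝ) ^ 38 := by rw [hL]; push_cast; ring
    have hp : ∀ k : ℕ, 1 ≤ k → (5 : ℝ) ≤ (y : ℝ) ^ k := by
      intro k hk
      have h10 : 5 ≤ y ^ k := hy0.trans (Nat.le_self_pow (by omega) y)
      exact_mod_cast h10
    have h9 : (r : ℝ) ≤ 6 / 5 * (y : ℝ) ^ 80 := by
      have h10 : (r : ℝ) ≤ (y : ℝ) ^ 80 + 1 := by exact_mod_cast h4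
      have h11 := hp 80 (by norm_num)
      linarith
    have h12 : (u₁ : ℝ) - u₀ ≤ 21 / 10 * (y : ℝ) ^ 58 := by
      have h10 : 2 * (u₁ : ℝ) ≤ 2 * u₀ + 4 * (y : ℝ) ^ 58 + 1 := by
        have h13 : 2 * u₁ ≤ 2 * u₀ + 4 * y ^ 58 + 1 := by omega
        exact_mod_cast h13
      have h11 := hp 58 (by norm_num)
      linarith
    have h13 : (0 : ℝ) ≤ (u₁ : ℝ) - u₀ := by
      have : (u₀ : ℝ) ≤ u₁ := by exact_mod_cast h7
      linarith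
    have hr0 : (0 : ℝ) ≤ r := Nat.cast_nonneg r
    rw [div_le_div_iff₀ (by positivity) (by norm_num), hLr]
    have h14 : (r : ℝ) * ((u₁ : ℝ) - u₀) ≤ (6 / 5 * (y : ℝ) ^ 80) * (21 / 10 * (y : ℝ) ^ 58) :=
      mul_le_mul h9 h12 h13 (by positivity)
    have h15 : (y : ℝ) ^ 100 * (48 * (y : ℝ) ^ 38) ≤ n * (48 * (y : ℝ) ^ 38 + 1) := by
      refine mul_le_mul hnr (by linarith) (by positivity) hn0.le
    have h16 : (y : ℝ) ^ 100 * (48 * (y : ℝ) ^ 38) = 48 * (y : ℝ) ^ 138 := by ring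
    have h17 : (6 / 5 * (y : ℝ) ^ 80) * (21 / 10 * (y : ℝ) ^ 58) = 63 / 25 * (y : ℝ) ^ 138 := by
      ring
    rw [h16] at h15
    rw [h17] at h14
    have h18 : (0 : ℝ) ≤ (y : ℝ) ^ 138 := by positivity
    linarith
  linarith

end Pool.Agent.H37.AV
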