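import Pool.Agent.H37.AV.HypHalf

/-!
Module WinA.  The window probabilities for nearly balanced sets, `n/2 - y^61 ≤ u ≤ n/2`.
Setting of PrGe: `y^100 ≤ n ≤ 2 y^100`, `y^80 ≤ r ≤ y^80 + 1`, `2 m = r + t + 1`, `y ≥ Y(t)`.

For `m - 2t ≤ j < m + y^37` `hyp_ratio` gives `hyp (j+1) ≥ (1 - y^(-38)) hyp j`, as
`(r - j)/(j + 1) ≥ 1 - (2 y^37 + 2 t + 4)/(r/2) ≥ 1 - 5 y^(-43)` and
`(u - j)/(n - u - r + j + 1) ≥ 1 - (2 y^61 + 2 y^37 + 8t + 8)/(n/2 - r) ≥ 1 - 5 y^(-39)`.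
So for `m - 2t < j < m` and `0 ≤ i < y^37`: `hyp j ≤ (1 - y^(-38))^(-(i + 2t)) hyp (m+i) ≤ 2 hyp (m+i)`
(Bernoulli: `(i + 2t) y^(-38) ≤ 1/2`); sum over `i`: `y^37 hyp j ≤ 2 pr`.  Sum over the (at most `2t`) `j`.
-/

open Finset

namespace Pool.Agent.H37.AV

/-- facts about powers of `y` -/
private lemma winA_facts {t y : ℕ} (hy : 100 + 12 * t ≤ y) :
    (100 : ℝ) ≤ y ∧ (12 * t : ℝ) ≤ y ∧ (y : ℝ) ≤ (y : ℝ) ^ 37 ∧ (y : ℝ) ^ 37 * 100 ≤ (y : ℝ) ^ 61 ∧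
    (y : ℝ) ^ 61 * 100 ≤ (y : ℝ) ^ 80 ∧ (y : ℝ) ^ 80 * 100 ≤ (y : ℝ) ^ 100 := by
  have h1 : (100 : ℝ) + 12 * t ≤ y := by exact_mod_cast hy
  have h0 : (0 : ℝ) ≤ t := Nat.cast_nonneg t
  have h2 : (100 : ℝ) ≤ y := by linarith
  have hp : (0 : ℝ) ≤ (y : ℝ) := by linarith
  have h3 : (1 : ℝ) ≤ y := by linarith
  have key : ∀ a b : ℕ, a < b → (y : ℝ) ^ a * 100 ≤ (y : ℝ) ^ b := by
    intro a b hab
    obtain ⟨c, rfl⟩ := Nat.exists_eq_add_of_lt hab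
    rw [pow_add, pow_add, pow_one, mul_assoc]
    apply mul_le_mul_of_nonneg_left _ (pow_nonneg hp a)
    have h4 : (1 : ℝ) ≤ (y : ℝ) ^ c := one_le_pow₀ h3
    calc (100 : ℝ) ≤ 1 * y := by linarith
      _ ≤ (y : ℝ) ^ c * y := mul_le_mul_of_nonneg_right h4 hp
  refine ⟨h2, by linarith, ?_, key 37 61 (by norm_num), key 61 80 (by norm_num),
    key 80 100 (by norm_num)⟩
  calc (y : ℝ) = (y : ℝ) ^ 1 := (pow_one _).symm
    _ ≤ (y : ℝ) ^ 37 := pow_le_pow_right₀ h3 (by norm_num)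

private lemma winA_step {t y n r m u j : ℕ} (hy : 100 + 12 * t ≤ y) (hn1 : y ^ 100 ≤ n)
    (hn2 : n ≤ 2 * y ^ 100) (hr1 : y ^ 80 ≤ r) (hr2 : r ≤ y ^ 80 + 1) (hm : 2 * m = r + t + 1)
    (hu1 : 2 * u ≤ n) (hu2 : n ≤ 2 * u + 2 * y ^ 61) (hj1 : m ≤ j + 2 * t) (hj2 : j < m + y ^ 37) :
    (1 - 1 / (y : ℝ) ^ 38) * hyp n r u j ≤ hyp n r u (j + 1) := by
  obtain ⟨f1, f2, f3, f4, f5, f6⟩ := winA_facts hy
  have g1 : (y : ℝ) ^ 100 ≤ n := by exact_mod_cast hn1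
  have g3 : (y : ℝ) ^ 80 ≤ r := by exact_mod_cast hr1
  have g4 : (r : ℝ) ≤ (y : ℝ) ^ 80 + 1 := by exact_mod_cast hr2
  have g5 : (2 : ℝ) * m = r + t + 1 := by exact_mod_cast hm
  have g6 : (2 : ℝ) * u ≤ n := by exact_mod_cast hu1
  have g7 : (n : ℝ) ≤ 2 * u + 2 * (y : ℝ) ^ 61 := by exact_mod_cast hu2
  have g8 : (m : ℝ) ≤ j + 2 * t := by exact_mod_cast hj1
  have g9 : (j : ℝ) + 1 ≤ m + (y : ℝ) ^ 37 := by exact_mod_cast hj2
  have t0 : (0 : ℝ) ≤ t := Nat.cast_nonneg t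
  have y0 : (0 : ℝ) < y := by linarith
  -- natural number side conditions
  have c1 : j < r := by
    have : (j : ℝ) < r := by linarith
    exact_mod_cast this
  have c2 : j ≤ u := by
    have : (j : ℝ) ≤ u := by linarith
    exact_mod_cast this
  have c3 : u ≤ n := by omega
  have c4 : r ≤ n - u + j := by
    have : (r : ℝ) ≤ n - u := by linarith
    have : r + u ≤ n := by
      have : (r : ℝ) + u ≤ n := by linarith
      exact_mod_cast this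
    omega
  have hrat := hyp_ratio c1 c2 c3 c4
  set a : ℝ := (r : ℝ) - j with ha
  set b : ℝ := (j : ℝ) + 1 with hb
  set c : ℝ := (u : ℝ) - j with hc
  set d : ℝ := (n : ℝ) - u - r + j + 1 with hd
  have hb0 : (y : ℝ) ^ 80 / 3 ≤ b := by linarith
  have hd0 : (y : ℝ) ^ 100 / 3 ≤ d := by linarith
  have hba : b - a ≤ 3 * (y : ℝ) ^ 37 := by linarith
  have hdc : d - c ≤ 3 * (y : ℝ) ^ 61 := by linarith
  have p80 : (y : ℝ) ^ 80 = (y : ℝ) ^ 37 * (y : ℝ) ^ 43 := by rw [← pow_add]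
  have p100 : (y : ℝ) ^ 100 = (y : ℝ) ^ 61 * (y : ℝ) ^ 39 := by rw [← pow_add]
  have q43 : (0 : ℝ) < (y : ℝ) ^ 43 := by positivity
  have q39 : (0 : ℝ) < (y : ℝ) ^ 39 := by positivity
  have q38 : (0 : ℝ) < (y : ℝ) ^ 38 := by positivity
  have q80 : (0 : ℝ) < (y : ℝ) ^ 80 := by positivity
  have q100 : (0 : ℝ) < (y : ℝ) ^ 100 := by positivity
  have hbpos : 0 < b := by linarith
  have hdpos : 0 < d := by linarith
  have e1 : b - a ≤ 9 / (y : ℝ) ^ 43 * b := by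
    have h1 : 3 * (y : ℝ) ^ 37 = 9 / (y : ℝ) ^ 43 * ((y : ℝ) ^ 80 / 3) := by
      rw [p80]; field_simp; norm_num
    have h2 : 9 / (y : ℝ) ^ 43 * ((y : ℝ) ^ 80 / 3) ≤ 9 / (y : ℝ) ^ 43 * b :=
      mul_le_mul_of_nonneg_left hb0 (by positivity)
    linarith
  have e2 : d - c ≤ 9 / (y : ℝ) ^ 39 * d := by
    have h1 : 3 * (y : ℝ) ^ 61 = 9 / (y : ℝ) ^ 39 * ((y : ℝ) ^ 100 / 3) := by
      rw [p100]; field_simp; norm_num
    have h2 : 9 / (y : ℝ) ^ 39 * ((y : ℝ) ^ 100 / 3) ≤ 9 / (y : ℝ) ^ 39 * d :=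
      mul_le_mul_of_nonneg_left hd0 (by positivity)
    linarith
  set ε1 : ℝ := 9 / (y : ℝ) ^ 43 with hε1
  set ε2 : ℝ := 9 / (y : ℝ) ^ 39 with hε2
  have hs1 : 0 ≤ ε1 := by positivity
  have hs2 : 0 ≤ ε2 := by positivity
  have hsum : ε1 + ε2 ≤ 1 / (y : ℝ) ^ 38 := by
    have r1 : (y : ℝ) ^ 39 = (y : ℝ) ^ 38 * y := by rw [← pow_succ]
    have r2 : (y : ℝ) ^ 43 = (y : ℝ) ^ 38 * (y : ℝ) ^ 5 := by rw [← pow_add]
    have y5 : (y : ℝ) ≤ (y : ℝ) ^ 5 := by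
      calc (y : ℝ) = (y : ℝ) ^ 1 := (pow_one _).symm
        _ ≤ (y : ℝ) ^ 5 := pow_le_pow_right₀ (by linarith) (by norm_num)
    have s1 : ε1 ≤ (1 / (y : ℝ) ^ 38) * (9 / 100) := by
      rw [hε1, r2, div_mul_div_comm, one_mul]
      apply div_le_div_of_nonneg_left (by norm_num) (by positivity)
      apply mul_le_mul_of_nonneg_left _ q38.le
      linarith
    have s2 : ε2 ≤ (1 / (y : ℝ) ^ 38) * (9 / 100) := by
      rw [hε2, r1, div_mul_div_comm, one_mul]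
      apply div_le_div_of_nonneg_left (by norm_num) (by positivity)
      exact mul_le_mul_of_nonneg_left f1 q38.le
    have s3 : 0 < 1 / (y : ℝ) ^ 38 := by positivity
    linarith
  have hle1 : 1 / (y : ℝ) ^ 38 ≤ 1 := by
    rw [div_le_one q38]
    exact one_le_pow₀ (by linarith)
  have ka : (1 - ε1) * b ≤ a := by linarith
  have kc : (1 - ε2) * d ≤ c := by linarith
  have kk : (1 - 1 / (y : ℝ) ^ 38) * (b * d) ≤ c * a := by
    have h1 : (1 - ε1) * b * ((1 - ε2) * d) ≤ a * c := by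
      apply mul_le_mul ka kc
      · apply mul_nonneg _ hdpos.le
        linarith
      · apply le_trans _ ka
        apply mul_nonneg _ hbpos.le
        linarith
    have h2 : (1 - 1 / (y : ℝ) ^ 38) * (b * d) ≤ (1 - ε1) * b * ((1 - ε2) * d) := by
      have h3 : (1 - ε1) * b * ((1 - ε2) * d) = (1 - ε1 - ε2 + ε1 * ε2) * (b * d) := by ring
      rw [h3]
      apply mul_le_mul_of_nonneg_right _ (mul_pos hbpos hdpos).le
      have := mul_nonneg hs1 hs2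
      linarith
    calc _ ≤ _ := h2
      _ ≤ _ := h1
      _ = c * a := mul_comm _ _
  have hbd : 0 < b * d := mul_pos hbpos hdpos
  rw [← mul_le_mul_iff_left₀ hbd, hrat]
  calc (1 - 1 / (y : ℝ) ^ 38) * hyp n r u j * (b * d)
      = hyp n r u j * ((1 - 1 / (y : ℝ) ^ 38) * (b * d)) := by ring
    _ ≤ hyp n r u j * (c * a) := mul_le_mul_of_nonneg_left kk (hyp_nonneg _ _ _ _)

private lemma winA_chain {t y n r m u j : ℕ} (hy : 100 + 12 * t ≤ y) (hn1 : y ^ 100 ≤ n)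
    (hn2 : n ≤ 2 * y ^ 100) (hr1 : y ^ 80 ≤ r) (hr2 : r ≤ y ^ 80 + 1) (hm : 2 * m = r + t + 1)
    (hu1 : 2 * u ≤ n) (hu2 : n ≤ 2 * u + 2 * y ^ 61) (hj1 : m ≤ j + 2 * t) (k : ℕ)
    (hk : j + k ≤ m + y ^ 37) :
    (1 - 1 / (y : ℝ) ^ 38) ^ k * hyp n r u j ≤ hyp n r u (j + k) := by
  induction k with
  | zero => simp
  | succ k ih =>
    have h1 := ih (by omega)
    have h2 := winA_step (j := j + k) hy hn1 hn2 hr1 hr2 hm hu1 hu2 (by omega) (by omega)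
    have f1 := (winA_facts hy).1
    have hq : 0 ≤ 1 - 1 / (y : ℝ) ^ 38 := by
      have q38 : (0 : ℝ) < (y : ℝ) ^ 38 := by positivity
      have : 1 / (y : ℝ) ^ 38 ≤ 1 := by
        rw [div_le_one q38]
        exact one_le_pow₀ (by linarith)
      linarith
    calc (1 - 1 / (y : ℝ) ^ 38) ^ (k + 1) * hyp n r u j
        = (1 - 1 / (y : ℝ) ^ 38) * ((1 - 1 / (y : ℝ) ^ 38) ^ k * hyp n r u j) := by ring
      _ ≤ (1 - 1 / (y : ℝ) ^ 38) * hyp n r u (j + k) := mul_le_mul_of_nonneg_left h1 hq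
      _ ≤ hyp n r u (j + k + 1) := h2

theorem win_a (t : ℕ) (ht : 1 ≤ t) : ∃ Y : ℕ, ∀ y ≥ Y, ∀ n r m u : ℕ, y ^ 100 ≤ n →
    n ≤ 2 * y ^ 100 → y ^ 80 ≤ r → r ≤ y ^ 80 + 1 → 2 * m = r + t + 1 → 2 * u ≤ n →
    n ≤ 2 * u + 2 * y ^ 61 →
    ∑ j ∈ Ico (m + 1 - 2 * t) m, hyp n r u j ≤ 4 * t / (y : ℝ) ^ 37 * pr n r m u := by
  refine ⟨100 + 12 * t, ?_⟩
  intro y hy n r m u hn1 hn2 hr1 hr2 hm hu1 hu2
  obtain ⟨f1, f2, f3, f4, f5, f6⟩ := winA_facts hy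
  have t0 : (0 : ℝ) ≤ t := Nat.cast_nonneg t
  have y0 : (0 : ℝ) < y := by linarith
  have g3 : (y : ℝ) ^ 80 ≤ r := by exact_mod_cast hr1
  have g5 : (2 : ℝ) * m = r + t + 1 := by exact_mod_cast hm
  have q37 : (0 : ℝ) < (y : ℝ) ^ 37 := by positivity
  have hmt : 2 * t ≤ m := by
    have : (2 : ℝ) * t ≤ m := by linarith
    exact_mod_cast this
  have hmr : m + y ^ 37 ≤ r + 1 := by
    have : (m : ℝ) + (y : ℝ) ^ 37 ≤ r + 1 := by linarith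
    exact_mod_cast this
  have key : ∀ j ∈ Ico (m + 1 - 2 * t) m, hyp n r u j ≤ 2 / (y : ℝ) ^ 37 * pr n r m u := by
    intro j hj
    rw [mem_Ico] at hj
    have hterm : ∀ i ∈ range (y ^ 37), hyp n r u j ≤ 2 * hyp n r u (m + i) := by
      intro i hi
      rw [mem_range] at hi
      obtain ⟨k, hk⟩ : ∃ k, m + i = j + k := ⟨m + i - j, by omega⟩
      have h1 := winA_chain (j := j) hy hn1 hn2 hr1 hr2 hm hu1 hu2 (by omega) k (by omega)
      rw [← hk] at h1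
      have q38 : (0 : ℝ) < (y : ℝ) ^ 38 := by positivity
      have hkb : (k : ℝ) ≤ (y : ℝ) ^ 37 + 2 * t := by
        have : k ≤ y ^ 37 + 2 * t := by omega
        exact_mod_cast this
      have hber : 1 + (k : ℝ) * (-(1 / (y : ℝ) ^ 38)) ≤ (1 + -(1 / (y : ℝ) ^ 38)) ^ k := by
        apply one_add_mul_le_pow
        have : 1 / (y : ℝ) ^ 38 ≤ 1 := by
          rw [div_le_one q38]
          exact one_le_pow₀ (by linarith)
        linarith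
      have hhalf : (1 : ℝ) / 2 ≤ (1 - 1 / (y : ℝ) ^ 38) ^ k := by
        have h2 : (k : ℝ) * (1 / (y : ℝ) ^ 38) ≤ 1 / 2 := by
          rw [mul_one_div, div_le_iff₀ q38]
          have h3 : (y : ℝ) ^ 38 = (y : ℝ) ^ 37 * y := by rw [← pow_succ]
          rw [h3]
          have h4 : (y : ℝ) ^ 37 * 100 ≤ (y : ℝ) ^ 37 * y := mul_le_mul_of_nonneg_left f1 q37.le
          linarith
        have h5 : (1 - 1 / (y : ℝ) ^ 38) = 1 + -(1 / (y : ℝ) ^ 38) := by ring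
        rw [h5]
        linarith
      have h6 : 1 / 2 * hyp n r u j ≤ (1 - 1 / (y : ℝ) ^ 38) ^ k * hyp n r u j :=
        mul_le_mul_of_nonneg_right hhalf (hyp_nonneg _ _ _ _)
      linarith
    have h7 : ∑ i ∈ range (y ^ 37), hyp n r u (m + i) ≤ pr n r m u := by
      unfold pr
      have h8 : ∑ i ∈ range (y ^ 37), hyp n r u (m + i) = ∑ i ∈ Ico m (m + y ^ 37), hyp n r u i := by
        rw [Finset.sum_Ico_eq_sum_range]
        simp
      rw [h8]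
      apply Finset.sum_le_sum_of_subset_of_nonneg
      · intro i hi
        rw [mem_Ico] at hi ⊢
        omega
      · intro i _ _
        exact hyp_nonneg _ _ _ _
    have h9 := Finset.sum_le_sum hterm
    rw [Finset.sum_const, card_range, nsmul_eq_mul, ← Finset.mul_sum] at h9
    push_cast at h9
    rw [div_mul_eq_mul_div, le_div_iff₀ q37]
    linarith
  calc ∑ j ∈ Ico (m + 1 - 2 * t) m, hyp n r u j
      ≤ ∑ j ∈ Ico (m + 1 - 2 * t) m, 2 / (y : ℝ) ^ 37 * pr n r m u := Finset.sum_le_sum key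
    _ = ((m - (m + 1 - 2 * t) : ℕ) : ℝ) * (2 / (y : ℝ) ^ 37 * pr n r m u) := by
        rw [Finset.sum_const, Nat.card_Ico, nsmul_eq_mul]
    _ ≤ (2 * t : ℝ) * (2 / (y : ℝ) ^ 37 * pr n r m u) := by
        apply mul_le_mul_of_nonneg_right
        · have : m - (m + 1 - 2 * t) ≤ 2 * t := by omega
          exact_mod_cast this
        · exact mul_nonneg (by positivity) (pr_nonneg _ _ _ _)
    _ = 4 * t / (y : ℝ) ^ 37 * pr n r m u := by ring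

end Pool.Agent.H37.AV
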