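import Pool.Agent.H37.AV.HypHalf

/-!
Module WinB.  The window probabilities for sets with `u < n/2 - y^61`.
Setting of PrGe: `y^100 ≤ n ≤ 2 y^100`, `y^80 ≤ r ≤ y^80 + 1`, `2 m = r + t + 1`, `y ≥ Y(t)`.

Let `m - 2t < j < m`.  If `j > u` then `hyp n r u j = 0`.  Let `j ≤ u`.  For `j - y^40 ≤ j' < j`
`hyp_ratio` gives `hyp (j'+1) ≤ (1 - y^(-39)/4) hyp j'`, as
`(u - j')/(n - u - r + j' + 1) = 1 - (n - 2u - r + 2j' + 1)/(n - u - r + j' + 1)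
 ≤ 1 - (2 y^61 - 2 y^40 - 4t)/(2 y^100) ≤ 1 - y^(-39)/2` and
`(r - j')/(j' + 1) ≤ 1 + (2 y^40 + 4t + 2)/(r/3) ≤ 1 + 7 y^(-40)`; the product is
`≤ 1 - y^(-39)/4` for large `y`.  So `hyp j ≤ (1 - y^(-39)/4)^(y^40) ≤ exp (- y/4)`
(all probabilities are `≤ 1` by `hyp_sum`), and `2t exp (-y/4) ≤ y^(-60)` for large `y`.
-/

open Finset

namespace Pool.Agent.H37.AV

/-- facts about powers of `y` -/
private lemma winB_facts {t y : ℕ} (hy : 100 + 12 * t ≤ y) :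
    (100 : ℝ) ≤ y ∧ (12 * t : ℝ) ≤ y ∧ (y : ℝ) ≤ (y : ℝ) ^ 40 ∧ (y : ℝ) ^ 40 * 100 ≤ (y : ℝ) ^ 61 ∧
    (y : ℝ) ^ 61 * 100 ≤ (y : ℝ) ^ 80 ∧ (y : ℝ) ^ 80 * 100 ≤ (y : ℝ) ^ 100 := by
  have h1 : (100 : ℝ) + 12 * t ≤ y := by exact_mod_cast hy
  have h0 : (0 : ℝ) ≤ t := Nat.cast_nonneg t
  have h2 : (100 : ℝ) ≤ y := by linarith
  have hp : (0 : ℝ) ≤ (y : ℝ) := by linarith
  have h3 : (1 : ℝ) ≤ y := by linarith
  have key : ∀ a b : ℕ, a < b → (y : ℝ) ^ a * 100 ≤ (y : ℝ) ^ b := by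
    intro a b hab
    obtain ⟨c, rfl⟩ := Nat.exists_eq_add_of_lt hab
    rw [pow_add, pow_add, pow_one, mul_assoc]
    apply mul_le_mul_of_nonneg_left _ (pow_nonneg hp a)
    have h4 : (1 : ℝ) ≤ (y : ℝ) ^ c := one_le_pow₀ h3
    calc (100 : ℝ) ≤ 1 * y := by linarith
      _ ≤ (y : ℝ) ^ c * y := mul_le_mul_of_nonneg_right h4 hp
  refine ⟨h2, by linarith, ?_, key 40 61 (by norm_num), key 61 80 (by norm_num),
    key 80 100 (by norm_num)⟩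
  calc (y : ℝ) = (y : ℝ) ^ 1 := (pow_one _).symm
    _ ≤ (y : ℝ) ^ 40 := pow_le_pow_right₀ h3 (by norm_num)

private lemma winB_step {t y n r m u j j' : ℕ} (hy : 100 + 12 * t ≤ y) (hn1 : y ^ 100 ≤ n)
    (hn2 : n ≤ 2 * y ^ 100) (hr1 : y ^ 80 ≤ r) (hr2 : r ≤ y ^ 80 + 1) (hm : 2 * m = r + t + 1)
    (hu : 2 * u + 2 * y ^ 61 < n) (hj1 : m < j + 2 * t) (hj2 : j < m) (hju : j ≤ u)
    (h1 : j ≤ j' + y ^ 40) (h2 : j' < j) :
    hyp n r u (j' + 1) ≤ (1 - 1 / (4 * (y : ℝ) ^ 39)) * hyp n r u j' := by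
  obtain ⟨f1, f2, f3, f4, f5, f6⟩ := winB_facts hy
  have g1 : (y : ℝ) ^ 100 ≤ n := by exact_mod_cast hn1
  have g2 : (n : ℝ) ≤ 2 * (y : ℝ) ^ 100 := by exact_mod_cast hn2
  have g3 : (y : ℝ) ^ 80 ≤ r := by exact_mod_cast hr1
  have g4 : (r : ℝ) ≤ (y : ℝ) ^ 80 + 1 := by exact_mod_cast hr2
  have g5 : (2 : ℝ) * m = r + t + 1 := by exact_mod_cast hm
  have g6 : (2 : ℝ) * u + 2 * (y : ℝ) ^ 61 ≤ n := by exact_mod_cast hu.le
  have g7 : (m : ℝ) ≤ j + 2 * t := by exact_mod_cast hj1.le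
  have g8 : (j : ℝ) ≤ m := by exact_mod_cast hj2.le
  have g9 : (j : ℝ) ≤ j' + (y : ℝ) ^ 40 := by exact_mod_cast h1
  have g10 : (j' : ℝ) + 1 ≤ j := by exact_mod_cast h2
  have t0 : (0 : ℝ) ≤ t := Nat.cast_nonneg t
  have u0 : (0 : ℝ) ≤ u := Nat.cast_nonneg u
  have y0 : (0 : ℝ) < y := by linarith
  have c1 : j' < r := by
    have : (j' : ℝ) < r := by linarith
    exact_mod_cast this
  have c2 : j' ≤ u := by omega
  have c3 : u ≤ n := by omega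
  have c4 : r ≤ n - u + j' := by
    have : r + u ≤ n := by
      have : (r : ℝ) + u ≤ n := by linarith
      exact_mod_cast this
    omega
  have hrat := hyp_ratio c1 c2 c3 c4
  have k2 : (j' : ℝ) ≤ u := by exact_mod_cast c2
  set a : ℝ := (r : ℝ) - j' with ha
  set b : ℝ := (j' : ℝ) + 1 with hb
  set c : ℝ := (u : ℝ) - j' with hc
  set d : ℝ := (n : ℝ) - u - r + j' + 1 with hd
  have ha0 : 0 ≤ a := by linarith
  have hc0 : 0 ≤ c := by linarith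
  have hb0 : (y : ℝ) ^ 80 / 3 ≤ b := by linarith
  have hd1 : d ≤ 2 * (y : ℝ) ^ 100 := by linarith
  have hd0 : 0 < d := by linarith
  have hba : a - b ≤ 3 * (y : ℝ) ^ 40 := by linarith
  have hdc : (y : ℝ) ^ 61 ≤ d - c := by linarith
  have p80 : (y : ℝ) ^ 80 = (y : ℝ) ^ 40 * (y : ℝ) ^ 40 := by rw [← pow_add]
  have p100 : (y : ℝ) ^ 100 = (y : ℝ) ^ 61 * (y : ℝ) ^ 39 := by rw [← pow_add]
  have q40 : (0 : ℝ) < (y : ℝ) ^ 40 := by positivity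
  have q39 : (0 : ℝ) < (y : ℝ) ^ 39 := by positivity
  have q61 : (0 : ℝ) < (y : ℝ) ^ 61 := by positivity
  have hbpos : 0 < b := by
    have : (0 : ℝ) < (y : ℝ) ^ 80 := by positivity
    linarith
  have e1 : a ≤ (1 + 9 / (y : ℝ) ^ 40) * b := by
    have h1 : 3 * (y : ℝ) ^ 40 = 9 / (y : ℝ) ^ 40 * ((y : ℝ) ^ 80 / 3) := by
      rw [p80]; field_simp; norm_num
    have h2 : 9 / (y : ℝ) ^ 40 * ((y : ℝ) ^ 80 / 3) ≤ 9 / (y : ℝ) ^ 40 * b :=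
      mul_le_mul_of_nonneg_left hb0 (by positivity)
    linarith
  have e2 : c ≤ (1 - 1 / (2 * (y : ℝ) ^ 39)) * d := by
    have h1 : (y : ℝ) ^ 61 = 1 / (2 * (y : ℝ) ^ 39) * (2 * (y : ℝ) ^ 100) := by
      rw [p100]; field_simp
    have h2 : 1 / (2 * (y : ℝ) ^ 39) * d ≤ 1 / (2 * (y : ℝ) ^ 39) * (2 * (y : ℝ) ^ 100) :=
      mul_le_mul_of_nonneg_left hd1 (by positivity)
    linarith
  have r1 : (y : ℝ) ^ 40 = (y : ℝ) ^ 39 * y := by rw [← pow_succ]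
  have hx : (1 + 9 / (y : ℝ) ^ 40) * (1 - 1 / (2 * (y : ℝ) ^ 39)) ≤ 1 - 1 / (4 * (y : ℝ) ^ 39) := by
    have s1 : 9 / (y : ℝ) ^ 40 ≤ 1 / (4 * (y : ℝ) ^ 39) := by
      rw [r1, div_le_div_iff₀ (by positivity) (by positivity)]
      have : (y : ℝ) ^ 39 * 100 ≤ (y : ℝ) ^ 39 * y := mul_le_mul_of_nonneg_left f1 q39.le
      linarith
    have s2 : 0 ≤ 9 / (y : ℝ) ^ 40 := by positivity
    have s3 : 0 ≤ 1 / (2 * (y : ℝ) ^ 39) := by positivity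
    have s4 : 1 / (2 * (y : ℝ) ^ 39) = 2 * (1 / (4 * (y : ℝ) ^ 39)) := by field_simp; norm_num
    have s5 := mul_nonneg s2 s3
    have s6 : (1 + 9 / (y : ℝ) ^ 40) * (1 - 1 / (2 * (y : ℝ) ^ 39)) =
      1 + 9 / (y : ℝ) ^ 40 - 1 / (2 * (y : ℝ) ^ 39) -
        9 / (y : ℝ) ^ 40 * (1 / (2 * (y : ℝ) ^ 39)) := by ring
    rw [s6]
    linarith
  have kk : c * a ≤ (1 - 1 / (4 * (y : ℝ) ^ 39)) * (b * d) := by
    have h1 : c * a ≤ ((1 - 1 / (2 * (y : ℝ) ^ 39)) * d) * ((1 + 9 / (y : ℝ) ^ 40) * b) := by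
      apply mul_le_mul e2 e1 ha0
      linarith
    calc c * a ≤ _ := h1
      _ = ((1 + 9 / (y : ℝ) ^ 40) * (1 - 1 / (2 * (y : ℝ) ^ 39))) * (b * d) := by ring
      _ ≤ _ := mul_le_mul_of_nonneg_right hx (mul_pos hbpos hd0).le
  have hbd : 0 < b * d := mul_pos hbpos hd0
  rw [← mul_le_mul_iff_left₀ hbd, hrat]
  calc hyp n r u j' * (c * a)
      ≤ hyp n r u j' * ((1 - 1 / (4 * (y : ℝ) ^ 39)) * (b * d)) :=
        mul_le_mul_of_nonneg_left kk (hyp_nonneg _ _ _ _)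
    _ = (1 - 1 / (4 * (y : ℝ) ^ 39)) * hyp n r u j' * (b * d) := by ring

private lemma winB_le_one {n r u j : ℕ} (hr : r ≤ n) (hu : u ≤ n) (hj : j ≤ r) :
    hyp n r u j ≤ 1 := by
  rw [← hyp_sum hr hu]
  exact Finset.single_le_sum (f := fun j => hyp n r u j) (fun i _ => hyp_nonneg n r u i)
    (mem_range.2 (by omega))

theorem win_b (t : ℕ) (ht : 1 ≤ t) : ∃ Y : ℕ, ∀ y ≥ Y, ∀ n r m u : ℕ, y ^ 100 ≤ n →
    n ≤ 2 * y ^ 100 → y ^ 80 ≤ r → r ≤ y ^ 80 + 1 → 2 * m = r + t + 1 →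
    2 * u + 2 * y ^ 61 < n →
    ∑ j ∈ Ico (m + 1 - 2 * t) m, hyp n r u j ≤ 1 / (y : ℝ) ^ 60 := by
  obtain ⟨F, hF⟩ : ∃ F : ℕ, F = Nat.factorial 61 := ⟨_, rfl⟩
  refine ⟨100 + 12 * t + 2 * t * (F * 4 ^ 61), ?_⟩
  intro y hy n r m u hn1 hn2 hr1 hr2 hm hu
  have hy0 : 100 + 12 * t ≤ y := le_trans (Nat.le_add_right _ _) hy
  have hyF : 2 * t * (F * 4 ^ 61) ≤ y := le_trans (Nat.le_add_left _ _) hy
  obtain ⟨f1, f2, f3, f4, f5, f6⟩ := winB_facts hy0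
  have t0 : (0 : ℝ) ≤ t := Nat.cast_nonneg t
  have y0 : (0 : ℝ) < y := by linarith
  have g1 : (y : ℝ) ^ 100 ≤ n := by exact_mod_cast hn1
  have g3 : (y : ℝ) ^ 80 ≤ r := by exact_mod_cast hr1
  have g4 : (r : ℝ) ≤ (y : ℝ) ^ 80 + 1 := by exact_mod_cast hr2
  have g5 : (2 : ℝ) * m = r + t + 1 := by exact_mod_cast hm
  have hmt : 2 * t + y ^ 40 ≤ m := by
    have : (2 : ℝ) * t + (y : ℝ) ^ 40 ≤ m := by linarith
    exact_mod_cast this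
  have hrn : r ≤ n := by
    have : (r : ℝ) ≤ n := by linarith
    exact_mod_cast this
  have hun : u ≤ n := by omega
  have hmr : m ≤ r := by
    have : (m : ℝ) ≤ r := by linarith
    exact_mod_cast this
  have hq0 : 0 ≤ 1 - 1 / (4 * (y : ℝ) ^ 39) := by
    have h1 : 1 / (4 * (y : ℝ) ^ 39) ≤ 1 := by
      rw [div_le_one (by positivity)]
      have : (1 : ℝ) ≤ (y : ℝ) ^ 39 := one_le_pow₀ (by linarith)
      linarith
    linarith
  have key : ∀ j ∈ Ico (m + 1 - 2 * t) m, hyp n r u j ≤ Real.exp (-((y : ℝ) / 4)) := by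
    intro j hj
    rw [mem_Ico] at hj
    by_cases hju : j ≤ u
    · obtain ⟨j0, hj0⟩ : ∃ j0, j = j0 + y ^ 40 := ⟨j - y ^ 40, by omega⟩
      have hch : ∀ k : ℕ, k ≤ y ^ 40 →
          hyp n r u (j0 + k) ≤ (1 - 1 / (4 * (y : ℝ) ^ 39)) ^ k := by
        intro k
        induction k with
        | zero =>
          intro _
          rw [pow_zero]
          exact winB_le_one hrn hun (by omega)
        | succ k ih =>
          intro hk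
          have h1 := ih (by omega)
          have h2 := winB_step (j := j) (j' := j0 + k) hy0 hn1 hn2 hr1 hr2 hm hu (by omega)
            (by omega) hju (by omega) (by omega)
          calc hyp n r u (j0 + k + 1) ≤ (1 - 1 / (4 * (y : ℝ) ^ 39)) * hyp n r u (j0 + k) := h2
            _ ≤ (1 - 1 / (4 * (y : ℝ) ^ 39)) * (1 - 1 / (4 * (y : ℝ) ^ 39)) ^ k :=
              mul_le_mul_of_nonneg_left h1 hq0
            _ = (1 - 1 / (4 * (y : ℝ) ^ 39)) ^ (k + 1) := by ring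
      have h3 := hch (y ^ 40) le_rfl
      rw [← hj0] at h3
      have h4 : 1 - 1 / (4 * (y : ℝ) ^ 39) ≤ Real.exp (-(1 / (4 * (y : ℝ) ^ 39))) := by
        have := Real.add_one_le_exp (-(1 / (4 * (y : ℝ) ^ 39)))
        linarith
      have h5 : (1 - 1 / (4 * (y : ℝ) ^ 39)) ^ (y ^ 40) ≤
          Real.exp (-(1 / (4 * (y : ℝ) ^ 39))) ^ (y ^ 40) := pow_le_pow_left₀ hq0 h4 _
      have h6 : Real.exp (-(1 / (4 * (y : ℝ) ^ 39))) ^ (y ^ 40) = Real.exp (-((y : ℝ) / 4)) := by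
        rw [← Real.exp_nat_mul]
        congr 1
        push_cast
        have r1 : (y : ℝ) ^ 40 = (y : ℝ) ^ 39 * y := by rw [← pow_succ]
        rw [r1]
        field_simp
      rw [h6] at h5
      exact h3.trans h5
    · have : hyp n r u j = 0 := by
        unfold hyp
        rw [Nat.choose_eq_zero_of_lt (by omega)]
        simp
      rw [this]
      exact (Real.exp_pos _).le
  have hexp : Real.exp (-((y : ℝ) / 4)) ≤ (F * 4 ^ 61 : ℕ) / (y : ℝ) ^ 61 := by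
    have h1 := Real.pow_div_factorial_le_exp ((y : ℝ) / 4) (by positivity) 61
    rw [← hF] at h1
    have hFpos : (0 : ℝ) < F := by
      rw [hF]
      exact_mod_cast Nat.factorial_pos 61
    rw [Real.exp_neg, inv_le_comm₀ (Real.exp_pos _) (by positivity)]
    calc (((F * 4 ^ 61 : ℕ) : ℝ) / (y : ℝ) ^ 61)⁻¹ = ((y : ℝ) / 4) ^ 61 / F := by
          rw [inv_div, div_pow, div_div, Nat.cast_mul, Nat.cast_pow, Nat.cast_ofNat,
            mul_comm (F : ℝ)]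
      _ ≤ _ := h1
  have hyF' : (2 * t * (F * 4 ^ 61 : ℕ) : ℝ) ≤ y := by exact_mod_cast hyF
  calc ∑ j ∈ Ico (m + 1 - 2 * t) m, hyp n r u j
      ≤ ∑ j ∈ Ico (m + 1 - 2 * t) m, Real.exp (-((y : ℝ) / 4)) := Finset.sum_le_sum key
    _ = ((m - (m + 1 - 2 * t) : ℕ) : ℝ) * Real.exp (-((y : ℝ) / 4)) := by
        rw [Finset.sum_const, Nat.card_Ico, nsmul_eq_mul]
    _ ≤ (2 * t : ℝ) * Real.exp (-((y : ℝ) / 4)) := by
        apply mul_le_mul_of_nonneg_right _ (Real.exp_pos _).le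
        have : m - (m + 1 - 2 * t) ≤ 2 * t := by omega
        exact_mod_cast this
    _ ≤ (2 * t : ℝ) * ((F * 4 ^ 61 : ℕ) / (y : ℝ) ^ 61) :=
        mul_le_mul_of_nonneg_left hexp (by positivity)
    _ = (2 * t * (F * 4 ^ 61 : ℕ) : ℝ) / (y : ℝ) ^ 61 := by rw [mul_div_assoc]
    _ ≤ y / (y : ℝ) ^ 61 := div_le_div_of_nonneg_right hyF' (by positivity)
    _ = 1 / (y : ℝ) ^ 60 := by
        rw [pow_succ (y : ℝ) 60]
        field_simp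

end Pool.Agent.H37.AV
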