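import Pool.Agent.H37.AV.ParA
import Pool.Agent.H37.AV.ParB
import Pool.Agent.H37.AV.PrGe
import Pool.Agent.H37.AV.WinA
import Pool.Agent.H37.AV.WinB

/-!
Module Params.  The choice of the parameters: `w = w(t)` a natural number with
`8 t² ≤ w` and `2^(t+2) · 70 t κ ≤ w / 16`; `y` with `y^100 ≤ n ≤ 2 y^100` larger than all thresholds
(`par_y`); `r = y^80` if `y^80 + t + 1` is even, otherwise `y^80 + 1`; `m = (r + t + 1) / 2`; `h1 = y^32`,
`hh = 2 y^50`, `M = y^64 / 8`, `s = y^51`, `c1 = y^58`, `α = 4 t / y^37`, `β = 1 / y^60`, `θ = 1 / y^56`.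
`j1`: `pr_ge`.  `j2`: `win_a` if `n ≤ 2 u + 2 y^61`, otherwise `win_b`.  `e1`: `par_a`; `e3, e4, e5`: `par_b3`,
`par_b4`, `par_b5`.  The other conditions: `y ≥ 1000 t³`, say.
-/

open Finset

namespace Pool.Agent.H37.AV

theorem params (t : ℕ) (ht : 2 ≤ t) : ∃ w n₀ : ℕ, ∀ n ≥ n₀,
    ∃ (r m h1 hh M s c1 : ℕ) (α β θ : ℝ), Prm n t w r m h1 hh M s c1 α β θ := by
  obtain ⟨w0, hw0⟩ := exists_nat_ge (16 * (2 ^ (t + 2) * (70 * t * Bd t)) : ℝ)
  obtain ⟨Ya, hYa⟩ := par_a t ht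
  obtain ⟨Y3, hY3⟩ := par_b3 t ht
  obtain ⟨Y4, hY4⟩ := par_b4 t ht
  obtain ⟨Y5, hY5⟩ := par_b5 t ht
  obtain ⟨Yp, hYp⟩ := pr_ge t
  obtain ⟨Yu, hYu⟩ := win_a t (by omega)
  obtain ⟨Yv, hYv⟩ := win_b t (by omega)
  obtain ⟨n₀, hn₀⟩ := par_y (Ya + Y3 + Y4 + Y5 + Yp + Yu + Yv + 1000 * t ^ 3)
  refine ⟨8 * t ^ 2 + w0, n₀, fun n hn => ?_⟩
  obtain ⟨y, hy, hn1, hn2⟩ := hn₀ n hn
  have hyt : 1000 * t ^ 3 ≤ y := le_trans (by omega) hy
  have ht3 : t ^ 2 ≤ t ^ 3 := Nat.pow_le_pow_right (by omega) (by norm_num)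
  have ht2 : t ≤ t ^ 2 := Nat.le_self_pow (by norm_num) t
  have hy1000 : 1000 ≤ y := by
    have : 1 ≤ t := by omega
    omega
  have hself : ∀ k : ℕ, k ≠ 0 → y ≤ y ^ k := fun k hk => Nat.le_self_pow hk y
  have h7 : ∀ a b : ℕ, a < b → y ^ a * 1000 ≤ y ^ b := by
    intro a b hab
    obtain ⟨c, rfl⟩ := Nat.exists_eq_add_of_lt hab
    rw [pow_succ, pow_add]
    have h1 : 1 ≤ y ^ c := Nat.one_le_pow _ _ (by omega)
    calc y ^ a * 1000 ≤ y ^ a * (1 * y) := Nat.mul_le_mul_left _ (by omega)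
      _ ≤ y ^ a * (y ^ c * y) := Nat.mul_le_mul_left _ (Nat.mul_le_mul_right _ h1)
      _ = y ^ a * y ^ c * y := by ring
  obtain ⟨r, m, hr1, hr2, hrm⟩ : ∃ r m : ℕ, y ^ 80 ≤ r ∧ r ≤ y ^ 80 + 1 ∧ 2 * m = r + t + 1 := by
    rcases Nat.even_or_odd' (y ^ 80 + t + 1) with ⟨m, hm | hm⟩
    · exact ⟨y ^ 80, m, le_rfl, by omega, hm.symm⟩
    · exact ⟨y ^ 80 + 1, m + 1, by omega, le_rfl, by omega⟩
  have h80 := h7 80 100 (by norm_num)
  have h51 := h7 51 58 (by norm_num)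
  have h51' := h7 51 100 (by norm_num)
  have hyR : (1000 : ℝ) ≤ y := by exact_mod_cast hy1000
  have hy0 : (0 : ℝ) < y := by linarith
  refine ⟨r, m, y ^ 32, 2 * y ^ 50, y ^ 64 / 8, y ^ 51, y ^ 58, 4 * t / (y : ℝ) ^ 37,
    1 / (y : ℝ) ^ 60, 1 / (y : ℝ) ^ 56, ?_⟩
  have hBd := Bd_pos t
  constructor
  · exact ht
  · have := hself 100 (by norm_num)
    omega
  · omega
  · have := Nat.one_le_pow 80 y (by omega)
    omega
  · exact hrm
  · positivity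
  · positivity
  · positivity
  · rw [div_le_div_iff₀ (by positivity) (by norm_num)]
    have h1 : y ≤ y ^ 56 := hself 56 (by norm_num)
    have h2 : (y : ℝ) ≤ (y : ℝ) ^ 56 := by exact_mod_cast h1
    linarith
  · exact Nat.one_le_pow _ _ (by omega)
  · have := Nat.one_le_pow 50 y (by omega)
    omega
  · calc n ≤ 2 * y ^ 100 := hn2
      _ ≤ (2 * y ^ 50) ^ 2 := by
        have : (2 * y ^ 50) ^ 2 = 4 * y ^ 100 := by ring
        omega
  · have h1 := hself 64 (by norm_num)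
    have h2 : 8 * (t + 1) ≤ y ^ 64 := by omega
    have h3 : t + 1 ≤ y ^ 64 / 8 := (Nat.le_div_iff_mul_le (by norm_num)).mpr (by omega)
    omega
  · calc 8 * (y ^ 64 / 8) ≤ y ^ 64 := Nat.mul_div_le _ _
      _ = (y ^ 32) ^ 2 := by ring
  · have := hself 58 (by norm_num)
    omega
  · have := hself 51 (by norm_num)
    omega
  · omega
  · omega
  · have := hself 58 (by norm_num)
    omega
  · intro u hu hnu
    exact hYp y (by omega) n r m u hn1 hn2 hr1 hr2 hrm hu hnu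
  · intro u hu
    by_cases hc : n ≤ 2 * u + 2 * y ^ 61
    · have h1 := hYu y (by omega) n r m u hn1 hn2 hr1 hr2 hrm hu hc
      have h2 : (0 : ℝ) ≤ 1 / (y : ℝ) ^ 60 := by positivity
      linarith
    · have h1 := hYv y (by omega) n r m u hn1 hn2 hr1 hr2 hrm (by omega)
      have h2 : (0 : ℝ) ≤ 4 * t / (y : ℝ) ^ 37 * pr n r m u :=
        mul_nonneg (by positivity) (pr_nonneg _ _ _ _)
      linarith
  · exact hYa y (by omega) n hn1 hn2
  · rw [le_div_iff₀ (by norm_num)]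
    have h1 : ((8 * t ^ 2 + w0 : ℕ) : ℝ) = 8 * (t : ℝ) ^ 2 + w0 := by push_cast; ring
    rw [h1]
    have h2 : (0 : ℝ) ≤ 8 * (t : ℝ) ^ 2 := by positivity
    linarith
  · exact hY3 y (by omega)
  · exact hY4 y (by omega) n hn1
  · exact hY5 y (by omega) n hn1 hn2

end Pool.Agent.H37.AV
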