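import Pool.Agent.H37.AV.SmallFiber

/-!
Module SmallCount.  Sum of `small_fiber` over all `K ⊆ V \ C` with `t - 1` elements
(`C(|V| - |C|, t-1)` sets; `|V \ K| = |V| - (t-1)`).
-/

open Finset

namespace Pool.Agent.H37.AV

theorem small_count {V : Finset ℕ} {t : ℕ} {R : Finset (Finset ℕ)} (ht : 2 ≤ t) (h : Av V t R)
    {C : Finset ℕ} (hC : C ∈ R) :
    (V.card - C.card).choose (t - 1) * 2 ^ (V.card - (t - 1)) ≤
      8 ^ C.card * ((slots V t).filter (NR V t R)).card := by
  classical
  have hCV : C ⊆ V := h.sub C hC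
  have hcard : (V \ C).card = V.card - C.card := card_sdiff_of_subset hCV
  have h1 : ∀ K ∈ (V \ C).powersetCard (t - 1), 2 ^ (V.card - (t - 1)) ≤
      8 ^ C.card * ((mains V t).filter (fun s => ker V s = K ∧ NR V t R s)).card := by
    intro K hK
    rw [mem_powersetCard] at hK
    have h2 := small_fiber ht h hC hK.1 (by omega)
    have h3 : (V \ K).card = V.card - (t - 1) := by
      rw [card_sdiff_of_subset (hK.1.trans sdiff_subset), hK.2]
    rwa [h3] at h2
  have h4 := sum_le_sum h1
  rw [sum_const, card_powersetCard, hcard, smul_eq_mul, ← mul_sum] at h4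
  refine h4.trans (Nat.mul_le_mul_left _ ?_)
  rw [← card_biUnion]
  · refine card_le_card ?_
    intro s hs
    simp only [mem_biUnion, mem_filter] at hs ⊢
    obtain ⟨K, -, hs1, -, hs3⟩ := hs
    exact ⟨mains_sub hs1, hs3⟩
  · intro K _ K' _ hKK'
    refine disjoint_left.2 fun s hs hs' => hKK' ?_
    simp only [mem_filter] at hs hs'
    exact hs.2.1.symm.trans hs'.2.1

end Pool.Agent.H37.AV
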