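import Pool.Agent.H37.AV.Acc
import Pool.Agent.H37.AV.SmallCount
import Pool.Agent.H37.AV.BaseLower

/-!
Module SmallCase.  The bound for families with a member of size `≤ w`, `n ≥ n₀(t, w)`.

The number of slots is `∑_{k<t} C(n,k) 2^(n-k) ≤ t C(n,t-1) 2^(n-t+1)` for `n ≥ 3 t`
(`C(n,k+1)/2 ≥ C(n,k)` for `n - k ≥ 2 (k+1)`), and `C(n - |C|, t-1) ≥ 2^(-t) C(n, t-1)` for
`n ≥ n₀(t, w)` (`(n - w - t)/n ≥ 1/2` factor by factor).  So by `small_count` the number of non-rigid
slots is at least `c` times the number of slots with `c = c(t, w) = 1 / (8^w 2^t t) > 0`, and `acc_all` gives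
`|rows| ≤ (1 - c / Bd t) |slots| ≤ 2 W(base)` by `base_lower` with `δ = c / Bd t`.
-/

open Finset

namespace Pool.Agent.H37.AV

private theorem sc_fiber (V K : Finset ℕ) (t : ℕ) (hK : K ⊆ V) :
    ((slots V t).filter (fun s => ker V s = K)).card ≤ 2 ^ (V.card - K.card) := by
  have h1 : ((slots V t).filter (fun s => ker V s = K)).card ≤ ((V \ K).powerset).card := by
    refine Finset.card_le_card_of_injOn (fun s => s.1) ?_ ?_
    · intro s hs
      rw [mem_coe, mem_filter] at hs
      obtain ⟨hs1, hs2⟩ := hs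
      obtain ⟨ha, hb, hc, hd⟩ := mem_slots.1 hs1
      rw [mem_coe, mem_powerset]
      intro x hx
      rw [mem_sdiff]
      refine ⟨ha hx, fun hxK => ?_⟩
      rw [← hs2, ker, mem_sdiff] at hxK
      exact hxK.2 (mem_union_left _ hx)
    · intro s hs s' hs' he
      rw [mem_coe, mem_filter] at hs hs'
      have key : ∀ u : Slot, u ∈ slots V t → ker V u = K → u.2 = (V \ K) \ u.1 := by
        intro u hu1 hu2
        obtain ⟨ha, hb, hc, hd⟩ := mem_slots.1 hu1
        ext x
        constructor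
        · intro hx
          rw [mem_sdiff, mem_sdiff]
          refine ⟨⟨hb hx, fun hxK => ?_⟩, fun hx1 => ?_⟩
          · rw [← hu2, ker, mem_sdiff] at hxK
            exact hxK.2 (mem_union_right _ hx)
          · exact Finset.disjoint_left.1 hc hx1 hx
        · intro hx
          rw [mem_sdiff, mem_sdiff] at hx
          by_contra hx2
          apply hx.1.2
          rw [← hu2, ker, mem_sdiff]
          refine ⟨hx.1.1, fun hx3 => ?_⟩
          rcases mem_union.1 hx3 with hx4 | hx4
          · exact hx.2 hx4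
          · exact hx2 hx4
      have e1 : s.1 = s'.1 := he
      refine Prod.ext e1 ?_
      rw [key s hs.1 hs.2, key s' hs'.1 hs'.2, e1]
  rw [card_powerset, card_sdiff_of_subset hK] at h1
  exact h1

private theorem sc_slots (V : Finset ℕ) (t : ℕ) :
    (slots V t).card ≤ ∑ k ∈ range t, V.card.choose k * 2 ^ (V.card - k) := by
  have h1 : (slots V t).card =
      ∑ k ∈ range t, ((slots V t).filter (fun s => (ker V s).card = k)).card := by
    refine Finset.card_eq_sum_card_fiberwise ?_
    intro s hs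
    obtain ⟨_, _, _, hd⟩ := mem_slots.1 (mem_coe.1 hs)
    rw [mem_coe, mem_range]
    exact hd
  rw [h1]
  refine Finset.sum_le_sum fun k _ => ?_
  have h2 : ((slots V t).filter (fun s => (ker V s).card = k)).card =
      ∑ K ∈ powersetCard k V, (((slots V t).filter (fun s => (ker V s).card = k)).filter
        (fun s => ker V s = K)).card := by
    refine Finset.card_eq_sum_card_fiberwise ?_
    intro s hs
    rw [mem_coe, mem_filter] at hs
    rw [mem_coe, mem_powersetCard]
    exact ⟨sdiff_subset, hs.2⟩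
  rw [h2]
  have h3 : ∀ K ∈ powersetCard k V, (((slots V t).filter (fun s => (ker V s).card = k)).filter
        (fun s => ker V s = K)).card ≤ 2 ^ (V.card - k) := by
    intro K hK
    rw [mem_powersetCard] at hK
    rw [← hK.2]
    refine le_trans (Finset.card_le_card ?_) (sc_fiber V K t hK.1)
    intro s hs
    rw [mem_filter, mem_filter] at hs
    exact mem_filter.2 ⟨hs.1.1, hs.2⟩
  refine le_trans (Finset.sum_le_sum h3) ?_
  rw [sum_const, card_powersetCard, smul_eq_mul]

private theorem sc_step (n k : ℕ) (h : 3 * k + 2 ≤ n) : 2 * n.choose k ≤ n.choose (k + 1) := by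
  have h1 := Nat.choose_succ_right_eq n k
  have h2 : 2 * (k + 1) ≤ n - k := by omega
  have h3 : n.choose k * (2 * (k + 1)) ≤ n.choose (k + 1) * (k + 1) := by
    rw [h1]
    exact Nat.mul_le_mul_left _ h2
  have h4 : (2 * n.choose k) * (k + 1) ≤ n.choose (k + 1) * (k + 1) := by
    calc (2 * n.choose k) * (k + 1) = n.choose k * (2 * (k + 1)) := by ring
      _ ≤ _ := h3
  exact Nat.le_of_mul_le_mul_right h4 (Nat.succ_pos k)

private theorem sc_mono (n : ℕ) (m : ℕ) (h : 3 * m ≤ n) : ∀ k ≤ m,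
    n.choose k * 2 ^ (n - k) ≤ n.choose m * 2 ^ (n - m) := by
  induction m with
  | zero =>
    intro k hk
    have : k = 0 := by omega
    rw [this]
  | succ m ih =>
    intro k hk
    rcases Nat.lt_or_ge k (m + 1) with hlt | hge
    · refine le_trans (ih (by omega) k (by omega)) ?_
      have h1 := sc_step n m (by omega)
      have h2 : n - m = (n - (m + 1)) + 1 := by omega
      rw [h2, pow_succ]
      calc n.choose m * (2 ^ (n - (m + 1)) * 2) = (2 * n.choose m) * 2 ^ (n - (m + 1)) := by ring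
        _ ≤ _ := Nat.mul_le_mul_right _ h1
    · have : k = m + 1 := by omega
      rw [this]

private theorem sc_choose (n w j : ℕ) (h : 2 * w + 2 * j ≤ n) :
    n.choose j ≤ 2 ^ j * (n - w).choose j := by
  have h1 : j.factorial * n.choose j = n.descFactorial j := (Nat.descFactorial_eq_factorial_mul_choose n j).symm
  have h2 : j.factorial * (n - w).choose j = (n - w).descFactorial j :=
    (Nat.descFactorial_eq_factorial_mul_choose (n - w) j).symm
  have h3 := Nat.descFactorial_le_pow n j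
  have h4 := Nat.pow_sub_le_descFactorial (n - w) j
  have h5 : n ≤ 2 * (n - w + 1 - j) := by omega
  have h6 : j.factorial * n.choose j ≤ j.factorial * (2 ^ j * (n - w).choose j) := by
    calc j.factorial * n.choose j = n.descFactorial j := h1
      _ ≤ n ^ j := h3
      _ ≤ (2 * (n - w + 1 - j)) ^ j := Nat.pow_le_pow_left h5 j
      _ = 2 ^ j * (n - w + 1 - j) ^ j := mul_pow _ _ _
      _ ≤ 2 ^ j * (n - w).descFactorial j := Nat.mul_le_mul_left _ h4
      _ = j.factorial * (2 ^ j * (n - w).choose j) := by rw [← h2]; ring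
  exact Nat.le_of_mul_le_mul_left h6 (Nat.factorial_pos j)

theorem small_case (t w : ℕ) (ht : 2 ≤ t) : ∃ n₀ : ℕ, ∀ n ≥ n₀, ∀ R : Finset (Finset ℕ),
    Av (Icc 1 n) t R → (∃ C ∈ R, C.card ≤ w) →
      (rows (Icc 1 n) t R).card ≤ 2 * WK.W n t (WK.base n t) := by
  have hB := Bd_pos t
  have hBpos : (0 : ℝ) < Bd t := lt_of_lt_of_le one_pos hB
  have htpos : (0 : ℝ) < t := by exact_mod_cast (by omega : 0 < t)
  obtain ⟨n₁, hn₁⟩ := base_lower t (by omega)
    (δ := 1 / ((t : ℝ) * 2 ^ t * 8 ^ w * Bd t)) (by positivity)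
  refine ⟨n₁ + 3 * t + 2 * w, fun n hn R hR hC => ?_⟩
  obtain ⟨C, hCR, hCw⟩ := hC
  have hcard : (Icc 1 n).card = n := by simp
  have hsc := small_count ht hR hCR
  rw [hcard] at hsc
  have hs1 := sc_slots (Icc 1 n) t
  rw [hcard] at hs1
  set a := ((slots (Icc 1 n) t).filter (NR (Icc 1 n) t R)).card with ha
  have hs2 : ∑ k ∈ range t, n.choose k * 2 ^ (n - k) ≤
      t * (n.choose (t - 1) * 2 ^ (n - (t - 1))) := by
    have h1 : ∀ k ∈ range t, n.choose k * 2 ^ (n - k) ≤
        n.choose (t - 1) * 2 ^ (n - (t - 1)) := by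
      intro k hk
      rw [mem_range] at hk
      exact sc_mono n (t - 1) (by omega) k (by omega)
    have h2 := Finset.sum_le_card_nsmul _ _ _ h1
    rw [card_range, smul_eq_mul] at h2
    exact h2
  have hs3 : n.choose (t - 1) ≤ 2 ^ t * (n - C.card).choose (t - 1) := by
    have h1 := sc_choose n w (t - 1) (by omega)
    have h2 : (n - w).choose (t - 1) ≤ (n - C.card).choose (t - 1) :=
      Nat.choose_le_choose _ (by omega)
    have h3 : (2 : ℕ) ^ (t - 1) ≤ 2 ^ t := Nat.pow_le_pow_right (by norm_num) (by omega)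
    exact le_trans h1 (Nat.mul_le_mul h3 h2)
  have hs4 : (slots (Icc 1 n) t).card ≤ t * 2 ^ t * 8 ^ w * a := by
    calc (slots (Icc 1 n) t).card ≤ t * (n.choose (t - 1) * 2 ^ (n - (t - 1))) :=
          le_trans hs1 hs2
      _ ≤ t * ((2 ^ t * (n - C.card).choose (t - 1)) * 2 ^ (n - (t - 1))) :=
          Nat.mul_le_mul_left _ (Nat.mul_le_mul_right _ hs3)
      _ = t * 2 ^ t * ((n - C.card).choose (t - 1) * 2 ^ (n - (t - 1))) := by ring
      _ ≤ t * 2 ^ t * (8 ^ C.card * a) := Nat.mul_le_mul_left _ hsc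
      _ ≤ t * 2 ^ t * (8 ^ w * a) :=
          Nat.mul_le_mul_left _ (Nat.mul_le_mul_right _ (Nat.pow_le_pow_right (by norm_num) hCw))
      _ = t * 2 ^ t * 8 ^ w * a := by ring
  have hacc := acc_all hR
  have hbase := hn₁ n (by omega)
  have hs5 : ((slots (Icc 1 n) t).card : ℝ) ≤ (t : ℝ) * 2 ^ t * 8 ^ w * a := by
    exact_mod_cast hs4
  have hk : (0 : ℝ) < (t : ℝ) * 2 ^ t * 8 ^ w := by positivity
  have h6 : ((slots (Icc 1 n) t).card : ℝ) * (1 / ((t : ℝ) * 2 ^ t * 8 ^ w * Bd t)) ≤
      (a : ℝ) / Bd t := by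
    rw [mul_one_div, div_le_div_iff₀ (by positivity) hBpos]
    calc ((slots (Icc 1 n) t).card : ℝ) * Bd t ≤ ((t : ℝ) * 2 ^ t * 8 ^ w * a) * Bd t :=
          mul_le_mul_of_nonneg_right hs5 hBpos.le
      _ = (a : ℝ) * ((t : ℝ) * 2 ^ t * 8 ^ w * Bd t) := by ring
  have h7 : ((rows (Icc 1 n) t R).card : ℝ) ≤ 2 * (WK.W n t (WK.base n t) : ℝ) := by
    rw [← ha] at hacc
    linarith
  exact_mod_cast h7

end Pool.Agent.H37.AV
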