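import Pool.Agent.H37.AV.CoreA
import Pool.Agent.H37.AV.Params
import Pool.Agent.H37.AV.SmallCase
import Pool.Agent.H37.WK.Trans

/-!
The main theorem in the weighted form, and for disjoint pairs.
-/

open Finset

namespace Pool.Agent.H37.AV

theorem half_a (t : ℕ) (ht : 2 ≤ t) : ∃ n₀ : ℕ, ∀ n ≥ n₀, ∀ R : Finset (Finset ℕ),
    Av (Icc 1 n) t R → (rows (Icc 1 n) t R).card ≤ 2 * WK.W n t (WK.base n t) := by
  obtain ⟨w, n₁, h1⟩ := params t ht
  obtain ⟨n₂, h2⟩ := small_case t w ht
  refine ⟨max n₁ n₂, fun n hn R hR => ?_⟩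
  by_cases hs : ∃ C ∈ R, C.card ≤ w
  · exact h2 n (le_trans (le_max_right _ _) hn) R hR hs
  · push Not at hs
    obtain ⟨r, m, h1', hh, M, s, c1, α, β, θ, P⟩ := h1 n (le_trans (le_max_left _ _) hn)
    exact core P hR (fun A hA => (hs A hA).le)

/-- Any family without two members, equal or not, meeting in exactly `t` elements. -/
theorem pairs_bound (t : ℕ) (ht : 2 ≤ t) : ∃ n₀ : ℕ, ∀ n ≥ n₀, ∀ F : Finset (Finset ℕ),
    (∀ A ∈ F, A ⊆ Icc 1 n) → WK.IsStronglyAvoiding t F →
      WK.disjPairs F ≤ WK.disjPairs (WK.starFamily n t) := by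
  classical
  obtain ⟨n₀, h0⟩ := half_a t ht
  refine ⟨max n₀ (t + 1), fun n hn F hV hF => ?_⟩
  have htn : t + 1 ≤ n := le_trans (le_max_right _ _) hn
  have h1 := WK.pairs_le (n := n) (t := t) hV hF
  have h2 := WK.pairs_ge (n := n) (t := t) htn
  set R := F.filter (fun A => t < A.card) with hR
  have hAv : Av (Icc 1 n) t R := by
    constructor
    · intro A hA
      exact hV A (mem_filter.1 hA).1
    · intro A hA
      exact (mem_filter.1 hA).2
    · intro A hA B hB
      exact hF A (mem_filter.1 hA).1 B (mem_filter.1 hB).1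
  have h3 := h0 n (le_trans (le_max_left _ _) hn) R hAv
  have h4 := rows_card (by omega) hAv
  omega

end Pool.Agent.H37.AV
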