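import Pool.Agent.H37.AV.HypDefs
import Pool.Agent.H37.AV.Defs

/-!
Module HypCount.  Counting the `r`-subsets `F` of `V` by `|P ∩ F|`.

`count_eq`: `F = (F ∩ P) ∪ (F \ P)`, a bijection onto pairs of a `j`-subset of `P` and an `(r-j)`-subset
of `V \ P`.  `pr_eq`: sum over `j` from `m` to `r`.  `hyp_sum`: `∑_{j ≤ r} hyp = 1` (Vandermonde, or
`count_eq`).  `pr_le_one`.  `pr_mono`: take `P ⊆ P'` with `u` and `u'` elements (for `r > n` everything is `0`).
`st_eq`, `st_mono` are similar and easy.
`pr_window`: for a slot `(P, Q)` of `V` with `2 m = r + t + 1`: every `F` has `|P ∩ F| ≥ m`, or `|Q ∩ F| ≥ m`, or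
`m - 2t + 1 ≤ |P ∩ F| ≤ m - 1`: if `|P ∩ F| ≤ m - 2t` then `|Q ∩ F| ≥ r - |P ∩ F| - (t-1) ≥
r - m + t + 1 = m`.  (Natural subtraction: for `m + 1 < 2 t` the interval starts at `0`.)
-/

open Finset

namespace Pool.Agent.H37.AV

theorem count_eq {V P : Finset ℕ} (hP : P ⊆ V) {r j : ℕ} (hj : j ≤ r) :
    ((V.powersetCard r).filter (fun F => (P ∩ F).card = j)).card =
      P.card.choose j * (V.card - P.card).choose (r - j) := by
  rw [← card_sdiff_of_subset hP, ← card_powersetCard, ← card_powersetCard, ← card_product]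
  symm
  refine Finset.card_bij' (fun a _ => a.1 ∪ a.2) (fun F _ => (P ∩ F, F \ P)) ?_ ?_ ?_ ?_
  · rintro ⟨A, B⟩ hab
    simp only [mem_product, mem_powersetCard] at hab
    obtain ⟨⟨hA, hAj⟩, hB, hBj⟩ := hab
    have hAB : Disjoint A B := by
      rw [Finset.disjoint_left]
      intro x hx hx'
      exact (mem_sdiff.1 (hB hx')).2 (hA hx)
    simp only [mem_filter, mem_powersetCard]
    refine ⟨⟨?_, ?_⟩, ?_⟩
    · intro x hx
      rcases mem_union.1 hx with h | h
      · exact hP (hA h)
      · exact (mem_sdiff.1 (hB h)).1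
    · rw [card_union_of_disjoint hAB, hAj, hBj]
      omega
    · have : P ∩ (A ∪ B) = A := by
        ext x
        simp only [mem_inter, mem_union]
        constructor
        · rintro ⟨h1, h2 | h2⟩
          · exact h2
          · exact absurd h1 (mem_sdiff.1 (hB h2)).2
        · intro h
          exact ⟨hA h, Or.inl h⟩
      rw [this, hAj]
  · intro F hF
    simp only [mem_filter, mem_powersetCard] at hF
    obtain ⟨⟨hF, hFr⟩, hFj⟩ := hF
    simp only [mem_product, mem_powersetCard]
    refine ⟨⟨inter_subset_left, hFj⟩, sdiff_subset_sdiff hF subset_rfl, ?_⟩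
    have := Finset.card_sdiff_add_card_inter F P
    rw [inter_comm] at this
    omega
  · rintro ⟨A, B⟩ hab
    simp only [mem_product, mem_powersetCard] at hab
    obtain ⟨⟨hA, hAj⟩, hB, hBj⟩ := hab
    ext x
    · simp only [mem_inter, mem_union]
      constructor
      · rintro ⟨h1, h2 | h2⟩
        · exact h2
        · exact absurd h1 (mem_sdiff.1 (hB h2)).2
      · intro h
        exact ⟨hA h, Or.inl h⟩
    · simp only [mem_sdiff, mem_union]
      constructor
      · rintro ⟨h1 | h1, h2⟩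
        · exact absurd (hA h1) h2
        · exact h1
      · intro h
        exact ⟨Or.inr h, (mem_sdiff.1 (hB h)).2⟩
  · intro F hF
    ext x
    simp only [mem_union, mem_inter, mem_sdiff]
    constructor
    · rintro (⟨-, h⟩ | ⟨h, -⟩) <;> exact h
    · intro h
      by_cases hx : x ∈ P
      · exact Or.inl ⟨hx, h⟩
      · exact Or.inr ⟨h, hx⟩

private lemma hypc_hyp {V P : Finset ℕ} (hP : P ⊆ V) {r j : ℕ} (hr : r ≤ V.card) (hj : j ≤ r) :
    (((V.powersetCard r).filter (fun F => (P ∩ F).card = j)).card : ℝ) =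
      hyp V.card r P.card j * (V.card.choose r : ℕ) := by
  have h0 : ((V.card.choose r : ℕ) : ℝ) ≠ 0 := by
    have := Nat.choose_pos hr
    positivity
  rw [count_eq hP hj, hyp, div_mul_cancel₀ _ h0]

theorem pr_eq {V P : Finset ℕ} (hP : P ⊆ V) {r : ℕ} (hr : r ≤ V.card) (m : ℕ) :
    (((V.powersetCard r).filter (fun F => m ≤ (P ∩ F).card)).card : ℝ) =
      pr V.card r m P.card * (V.card.choose r : ℕ) := by
  have hmaps : ∀ F ∈ (V.powersetCard r).filter (fun F => m ≤ (P ∩ F).card),
      (P ∩ F).card ∈ Ico m (r + 1) := by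
    intro F hF
    simp only [mem_filter, mem_powersetCard] at hF
    have : (P ∩ F).card ≤ F.card := card_le_card inter_subset_right
    rw [mem_Ico]
    omega
  rw [Finset.card_eq_sum_card_fiberwise hmaps, pr, Finset.sum_mul, Nat.cast_sum]
  refine Finset.sum_congr rfl fun j hj => ?_
  rw [mem_Ico] at hj
  rw [← hypc_hyp hP hr (by omega), Finset.filter_filter]
  congr 2
  ext F
  simp only [mem_filter]
  constructor
  · rintro ⟨h1, h2, h3⟩
    exact ⟨h1, h3⟩
  · rintro ⟨h1, h3⟩
    exact ⟨h1, by omega, h3⟩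

theorem hyp_sum {n r u : ℕ} (hr : r ≤ n) (hu : u ≤ n) : ∑ j ∈ range (r + 1), hyp n r u j = 1 := by
  have hP : range u ⊆ range n := range_subset_range.2 hu
  have h := pr_eq hP (r := r) (by rw [card_range]; exact hr) 0
  have h0 : ((n.choose r : ℕ) : ℝ) ≠ 0 := by
    have := Nat.choose_pos hr
    positivity
  simp only [zero_le, filter_true, card_powersetCard, card_range] at h
  have h1 : pr n r 0 u = 1 := by
    have : (1 : ℝ) * (n.choose r : ℕ) = pr n r 0 u * (n.choose r : ℕ) := by rw [one_mul]; exact h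
    exact (mul_right_cancel₀ h0 this).symm
  rw [← h1, pr, Nat.Ico_zero_eq_range]

private lemma hypc_zero {n r m u : ℕ} (h : n < r) : pr n r m u = 0 := by
  unfold pr hyp
  rw [Nat.choose_eq_zero_of_lt h]
  simp

theorem pr_le_one {n r m u : ℕ} (hu : u ≤ n) : pr n r m u ≤ 1 := by
  rcases lt_or_ge n r with h | hr
  · rw [hypc_zero h]
    exact zero_le_one
  · rw [← hyp_sum hr hu, pr]
    refine Finset.sum_le_sum_of_subset_of_nonneg ?_ fun _ _ _ => hyp_nonneg _ _ _ _
    intro j hj
    rw [mem_Ico] at hj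
    rw [mem_range]
    omega

theorem pr_mono {n r m u u' : ℕ} (h : u ≤ u') (hu' : u' ≤ n) : pr n r m u ≤ pr n r m u' := by
  rcases lt_or_ge n r with hr | hr
  · rw [hypc_zero hr, hypc_zero hr]
  · have hP : range u ⊆ range n := range_subset_range.2 (h.trans hu')
    have hP' : range u' ⊆ range n := range_subset_range.2 hu'
    have e1 := pr_eq hP (r := r) (by rw [card_range]; exact hr) m
    have e2 := pr_eq hP' (r := r) (by rw [card_range]; exact hr) m
    simp only [card_range] at e1 e2
    have h0 : (0 : ℝ) < ((n.choose r : ℕ) : ℝ) := by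
      have := Nat.choose_pos hr
      positivity
    refine le_of_mul_le_mul_right ?_ h0
    rw [← e1, ← e2, Nat.cast_le]
    refine card_le_card ?_
    intro F hF
    simp only [mem_filter] at hF ⊢
    refine ⟨hF.1, hF.2.trans (card_le_card ?_)⟩
    exact inter_subset_inter_right (range_subset_range.2 h)

theorem st_eq {V P : Finset ℕ} (hP : P ⊆ V) {t : ℕ} (ht : t + 1 ≤ V.card) :
    (((V.powersetCard (t + 1)).filter (fun F => F ⊆ P)).card : ℝ) =
      st V.card t P.card * (V.card.choose (t + 1) : ℕ) := by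
  have h0 : ((V.card.choose (t + 1) : ℕ) : ℝ) ≠ 0 := by
    have := Nat.choose_pos ht
    positivity
  rw [st, div_mul_cancel₀ _ h0, ← card_powersetCard]
  congr 2
  ext F
  simp only [mem_filter, mem_powersetCard]
  constructor
  · rintro ⟨⟨h1, h2⟩, h3⟩
    exact ⟨h3, h2⟩
  · rintro ⟨h1, h2⟩
    exact ⟨⟨h1.trans hP, h2⟩, h1⟩

theorem st_mono {n t u u' : ℕ} (h : u ≤ u') : st n t u ≤ st n t u' := by
  unfold st
  refine div_le_div_of_nonneg_right ?_ (Nat.cast_nonneg _)
  exact_mod_cast Nat.choose_le_choose _ h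

private lemma hypc_ind {n t u a b : ℕ} (hab : ∀ k, k ≤ t → a * (n - k) ≤ b * (u - k)) :
    ∀ k, k ≤ t + 1 → a ^ k * n.choose k ≤ b ^ k * u.choose k := by
  intro k
  induction k with
  | zero => intro _; simp
  | succ k ih =>
    intro hk
    have ih' := ih (by omega)
    have e1 : n.choose (k + 1) * (k + 1) = n.choose k * (n - k) := Nat.choose_succ_right_eq n k
    have e2 : u.choose (k + 1) * (k + 1) = u.choose k * (u - k) := Nat.choose_succ_right_eq u k
    have h1 : (a ^ (k + 1) * n.choose (k + 1)) * (k + 1) ≤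
        (b ^ (k + 1) * u.choose (k + 1)) * (k + 1) := by
      calc (a ^ (k + 1) * n.choose (k + 1)) * (k + 1)
          = a ^ (k + 1) * (n.choose (k + 1) * (k + 1)) := by ring
        _ = (a ^ k * n.choose k) * (a * (n - k)) := by rw [e1, pow_succ]; ring
        _ ≤ (b ^ k * u.choose k) * (b * (u - k)) := Nat.mul_le_mul ih' (hab k (by omega))
        _ = b ^ (k + 1) * (u.choose (k + 1) * (k + 1)) := by rw [e2, pow_succ]; ring
        _ = (b ^ (k + 1) * u.choose (k + 1)) * (k + 1) := by ring
    exact Nat.le_of_mul_le_mul_right h1 (Nat.succ_pos k)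

/-- `st` for sets of proportional size: each factor `(u - i) / (n - i)`, `i ≤ t`, is `≥ 1/20`. -/
theorem st_ge {n t u : ℕ} (h1 : n ≤ 10 * u) (h2 : 20 * t ≤ n) (hu : u ≤ n) (hn : 1 ≤ n) :
    (1 / 20 : ℝ) ^ (t + 1) ≤ st n t u := by
  have h := hypc_ind (n := n) (t := t) (u := u) (a := 1) (b := 20) (fun k hk => by omega) (t + 1)
    le_rfl
  rw [one_pow, one_mul] at h
  have h0 : (0 : ℝ) < ((n.choose (t + 1) : ℕ) : ℝ) := by
    have := Nat.choose_pos (n := n) (k := t + 1) (by omega)
    positivity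
  unfold st
  rw [le_div_iff₀ h0, one_div, inv_pow, inv_mul_le_iff₀ (by positivity)]
  exact_mod_cast h

/-- `st` in general: each factor is at least `(u - t) / n ≥ u / (2 n)`. -/
theorem st_ge' {n t u : ℕ} (h1 : 2 * t ≤ u) (hu : u ≤ n) (hn : t + 1 ≤ n) :
    ((u : ℝ) / (2 * n)) ^ (t + 1) ≤ st n t u := by
  have hk : ∀ k, k ≤ t → u * (n - k) ≤ (2 * n) * (u - k) := by
    intro k hk
    obtain ⟨c, hc⟩ : ∃ c, u = 2 * k + c := ⟨u - 2 * k, by omega⟩
    obtain ⟨d, hd⟩ : ∃ d, n = u + d := ⟨n - u, by omega⟩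
    have e1 : n - k = k + c + d := by omega
    have e2 : u - k = k + c := by omega
    rw [e1, e2, hd, hc]
    nlinarith [Nat.zero_le (k * c), Nat.zero_le (k * d), Nat.zero_le (c * d), Nat.zero_le (c * c),
      Nat.zero_le (k * k)]
  have h := hypc_ind (n := n) (t := t) (u := u) (a := u) (b := 2 * n) hk (t + 1) le_rfl
  have h0 : (0 : ℝ) < ((n.choose (t + 1) : ℕ) : ℝ) := by
    have := Nat.choose_pos (n := n) (k := t + 1) (by omega)
    positivity
  have hn0 : (0 : ℝ) < n := by
    have : 0 < n := by omega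
    exact_mod_cast this
  unfold st
  rw [le_div_iff₀ h0, div_pow, div_mul_eq_mul_div, div_le_iff₀ (by positivity)]
  have h' : ((u ^ (t + 1) * n.choose (t + 1) : ℕ) : ℝ) ≤
      (((2 * n) ^ (t + 1) * u.choose (t + 1) : ℕ) : ℝ) := by exact_mod_cast h
  push_cast at h'
  linarith

theorem pr_window {V : Finset ℕ} {t r m : ℕ} (hrm : 2 * m = r + t + 1) (hr : r ≤ V.card)
    {s : Slot} (hs : s ∈ slots V t) :
    1 ≤ pr V.card r m s.1.card + pr V.card r m s.2.card +
      ∑ j ∈ Ico (m + 1 - 2 * t) m, hyp V.card r s.1.card j := by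
  obtain ⟨hP, hQ, hPQ, hker⟩ := mem_slots.1 hs
  have h0 : (0 : ℝ) < ((V.card.choose r : ℕ) : ℝ) := by
    have := Nat.choose_pos hr
    positivity
  refine le_of_mul_le_mul_right ?_ h0
  rw [one_mul, add_mul, add_mul, ← pr_eq hP hr, ← pr_eq hQ hr, Finset.sum_mul]
  have hw : ∀ j ∈ Ico (m + 1 - 2 * t) m,
      (((V.powersetCard r).filter (fun F => (s.1 ∩ F).card = j)).card : ℝ) ≤
        hyp V.card r s.1.card j * (V.card.choose r : ℕ) := by
    intro j _
    rcases le_or_gt j r with hj | hj
    · exact (hypc_hyp hP hr hj).le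
    · have : (V.powersetCard r).filter (fun F => (s.1 ∩ F).card = j) = ∅ := by
        apply Finset.filter_eq_empty_iff.2
        intro F hF hFj
        have h1 := (mem_powersetCard.1 hF).2
        have h2 : (s.1 ∩ F).card ≤ F.card := card_le_card inter_subset_right
        omega
      rw [this]
      simp only [card_empty, Nat.cast_zero]
      exact mul_nonneg (hyp_nonneg _ _ _ _) h0.le
  have hsum := Finset.sum_le_sum hw
  refine le_trans ?_ (add_le_add_right hsum _)
  rw [← Nat.cast_sum, ← Nat.cast_add, ← Nat.cast_add, Nat.cast_le, ← card_powersetCard r V]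
  have hsub : V.powersetCard r ⊆
      ((V.powersetCard r).filter (fun F => m ≤ (s.1 ∩ F).card) ∪
        (V.powersetCard r).filter (fun F => m ≤ (s.2 ∩ F).card)) ∪
        (Ico (m + 1 - 2 * t) m).biUnion
          (fun j => (V.powersetCard r).filter (fun F => (s.1 ∩ F).card = j)) := by
    intro F hF
    simp only [mem_union, mem_filter, mem_biUnion, mem_Ico]
    by_contra hcon
    push Not at hcon
    obtain ⟨⟨c1, c2⟩, c3⟩ := hcon
    have d1 := c1 hF
    have d2 := c2 hF
    have d3 : ¬ (m + 1 - 2 * t ≤ (s.1 ∩ F).card) := fun hh => c3 _ ⟨hh, d1⟩ hF rfl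
    obtain ⟨hFV, hFr⟩ := mem_powersetCard.1 hF
    have d4 : F.card ≤ (s.1 ∩ F).card + (s.2 ∩ F).card + (ker V s).card := by
      rw [← card_union_of_disjoint (hPQ.mono inter_subset_left inter_subset_left)]
      refine le_trans (card_le_card ?_) (card_union_le _ _)
      intro x hx
      simp only [mem_union, mem_inter, ker, mem_sdiff]
      have := hFV hx
      tauto
    omega
  refine le_trans (card_le_card hsub) (le_trans (card_union_le _ _) ?_)
  exact add_le_add (card_union_le _ _) card_biUnion_le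

end Pool.Agent.H37.AV
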