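import Mathlib

/-!
Hypergeometric probabilities.  `hyp n r u j` is the probability that a random `r`-subset of an `n`-set meets
a given `u`-subset in exactly `j` elements; `pr n r m u` is the probability that it meets it in at least `m`
elements; `st n t u` is the probability that a random `(t+1)`-subset is contained in it.
-/

open Finset

namespace Pool.Agent.H37.AV

/-- See the header. -/
noncomputable def hyp (n r u j : ℕ) : ℝ :=
  ((u.choose j * (n - u).choose (r - j) : ℕ) : ℝ) / ((n.choose r : ℕ) : ℝ)

/-- See the header. -/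
noncomputable def pr (n r m u : ℕ) : ℝ := ∑ j ∈ Ico m (r + 1), hyp n r u j

/-- See the header. -/
noncomputable def st (n t u : ℕ) : ℝ :=
  ((u.choose (t + 1) : ℕ) : ℝ) / ((n.choose (t + 1) : ℕ) : ℝ)

lemma hyp_nonneg (n r u j : ℕ) : 0 ≤ hyp n r u j := by unfold hyp; positivity

lemma pr_nonneg (n r m u : ℕ) : 0 ≤ pr n r m u := Finset.sum_nonneg fun _ _ => hyp_nonneg _ _ _ _

lemma st_nonneg (n t u : ℕ) : 0 ≤ st n t u := by unfold st; positivity

end Pool.Agent.H37.AV
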