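import Pool.Agent.H37.AV.HypRatio
import Pool.Agent.H37.AV.HypCount

/-!
Module HypHalf.

`hyp_half`: a set of size `u ≥ n/2` is met in at least half of `F` with probability `≥ 1/2`: with
`q = (r+1)/2` (natural division, `2 j ≥ r` iff `j ≥ q`), `1 - ∑_{j ≥ q} hyp n r u j = ∑_{j < q} hyp n r u j
= ∑_{i > r - q} hyp n r (n-u) i` (`hyp_symm`, `i = r - j`) `≤ ∑_{i ≥ q} hyp n r (n-u) i = pr n r q (n-u)`
(`r - q + 1 ≥ q`... in fact `i ≥ r - q + 1 ≥ q`) `≤ pr n r q u` by `pr_mono` (`n - u ≤ u`).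

`pr_shift`: `P₀ ⊆ P₁` of sizes `u₀ ≤ u₁`.  If `|P₁ ∩ F| ≥ m + L` then `|P₀ ∩ F| ≥ m` or
`|(P₁ \ P₀) ∩ F| ≥ L + 1`; the latter has probability at most `E |(P₁ \ P₀) ∩ F| / (L+1)
= r (u₁ - u₀) / (n (L+1))` (Markov; the expectation by double counting).
-/

open Finset

namespace Pool.Agent.H37.AV

theorem hyp_half {n r u : ℕ} (hr : r ≤ n) (hu : u ≤ n) (hnu : n ≤ 2 * u) :
    1 ≤ 2 * pr n r ((r + 1) / 2) u := by
  set q := (r + 1) / 2 with hq
  have h1 := hyp_sum hr hu
  have h2 := Finset.sum_range_add_sum_Ico (hyp n r u) (show q ≤ r + 1 by omega)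
  have h3 : ∑ j ∈ range q, hyp n r u j ≤ pr n r q (n - u) := by
    have e1 : ∑ j ∈ range q, hyp n r u j = ∑ j ∈ range q, hyp n r (n - u) (r - j) := by
      refine Finset.sum_congr rfl fun j hj => ?_
      rw [Finset.mem_range] at hj
      exact (hyp_symm (by omega) hu).symm
    have e2 : ∑ j ∈ range q, hyp n r (n - u) (r - j)
        = ∑ i ∈ (range q).image (fun j => r - j), hyp n r (n - u) i := by
      rw [Finset.sum_image]
      intro a ha b hb hab
      simp only [Finset.coe_range, Set.mem_Iio] at ha hb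
      simp only at hab
      omega
    rw [e1, e2]
    refine Finset.sum_le_sum_of_subset_of_nonneg ?_ fun i _ _ => hyp_nonneg _ _ _ _
    intro i hi
    rw [Finset.mem_image] at hi
    obtain ⟨j, hj, rfl⟩ := hi
    rw [Finset.mem_range] at hj
    rw [Finset.mem_Ico]
    omega
  have h4 : pr n r q (n - u) ≤ pr n r q u := pr_mono (by omega) hu
  have h5 : pr n r q u = ∑ j ∈ Ico q (r + 1), hyp n r u j := rfl
  rw [h5] at h4 ⊢
  linarith

private lemma hh_markov {V D : Finset ℕ} (hD : D ⊆ V) (r L : ℕ) :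
    ((V.powersetCard r).filter (fun F => L + 1 ≤ (D ∩ F).card)).card * (L + 1) * V.card ≤
      D.card * (r * V.card.choose r) := by
  classical
  have h1 : ((V.powersetCard r).filter (fun F => L + 1 ≤ (D ∩ F).card)).card * (L + 1) ≤
      ∑ F ∈ V.powersetCard r, (D ∩ F).card := by
    calc ((V.powersetCard r).filter (fun F => L + 1 ≤ (D ∩ F).card)).card * (L + 1)
        = ∑ _F ∈ (V.powersetCard r).filter (fun F => L + 1 ≤ (D ∩ F).card), (L + 1) := by
          rw [Finset.sum_const, smul_eq_mul]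
      _ ≤ ∑ F ∈ (V.powersetCard r).filter (fun F => L + 1 ≤ (D ∩ F).card), (D ∩ F).card :=
          Finset.sum_le_sum fun F hF => (Finset.mem_filter.mp hF).2
      _ ≤ _ := Finset.sum_le_sum_of_subset (Finset.filter_subset _ _)
  have h2 : ∑ F ∈ V.powersetCard r, (D ∩ F).card
      = ∑ d ∈ D, ((V.powersetCard r).filter (fun F => d ∈ F)).card := by
    simp only [Finset.card_filter]
    rw [Finset.sum_comm]
    refine Finset.sum_congr rfl fun F _ => ?_
    rw [← Finset.card_filter]
    congr 1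
  have h3 : ∀ d ∈ D, ((V.powersetCard r).filter (fun F => d ∈ F)).card * V.card
      = r * V.card.choose r := by
    intro d hd
    have hdV := hD hd
    rcases Nat.eq_zero_or_pos r with hr | hr
    · subst hr
      rw [zero_mul, Finset.powersetCard_zero]
      have : ({∅} : Finset (Finset ℕ)).filter (fun F => d ∈ F) = ∅ := by
        ext F
        simp only [Finset.mem_filter, Finset.mem_singleton, Finset.notMem_empty, iff_false]
        rintro ⟨rfl, h⟩
        exact absurd h (Finset.notMem_empty d)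
      rw [this, Finset.card_empty, zero_mul]
    · have h4 := count_eq (V := V) (P := {d}) (Finset.singleton_subset_iff.mpr hdV) (r := r)
        (j := 1) hr
      have h5 : (V.powersetCard r).filter (fun F => (({d} : Finset ℕ) ∩ F).card = 1)
          = (V.powersetCard r).filter (fun F => d ∈ F) := by
        refine Finset.filter_congr fun F _ => ?_
        by_cases h : d ∈ F
        · simp [h, Finset.singleton_inter_of_mem h]
        · simp [h, Finset.singleton_inter_of_notMem h]
      rw [h5] at h4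
      rw [h4, Finset.card_singleton, Nat.choose_self, one_mul]
      obtain ⟨k, rfl⟩ : ∃ k, r = k + 1 := ⟨r - 1, by omega⟩
      have hV : 0 < V.card := Finset.card_pos.mpr ⟨d, hdV⟩
      obtain ⟨N, hN⟩ : ∃ N, V.card = N + 1 := ⟨V.card - 1, by omega⟩
      rw [hN]
      have h6 := Nat.add_one_mul_choose_eq N k
      simp only [Nat.add_sub_cancel]
      linarith
  calc ((V.powersetCard r).filter (fun F => L + 1 ≤ (D ∩ F).card)).card * (L + 1) * V.card
      ≤ (∑ F ∈ V.powersetCard r, (D ∩ F).card) * V.card := Nat.mul_le_mul_right _ h1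
    _ = ∑ d ∈ D, ((V.powersetCard r).filter (fun F => d ∈ F)).card * V.card := by
        rw [h2, Finset.sum_mul]
    _ = ∑ _d ∈ D, r * V.card.choose r := Finset.sum_congr rfl h3
    _ = D.card * (r * V.card.choose r) := by rw [Finset.sum_const, smul_eq_mul]

theorem pr_shift {n r m L u₀ u₁ : ℕ} (hr : r ≤ n) (hn : 1 ≤ n) (h01 : u₀ ≤ u₁) (h1 : u₁ ≤ n) :
    pr n r (m + L) u₁ ≤ pr n r m u₀ + (r : ℝ) * ((u₁ : ℝ) - u₀) / (n * (L + 1)) := by
  classical
  have hV : (range n).card = n := Finset.card_range n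
  have hP0 : range u₀ ⊆ range n := Finset.range_subset_range.mpr (h01.trans h1)
  have hP1 : range u₁ ⊆ range n := Finset.range_subset_range.mpr h1
  have hD : Ico u₀ u₁ ⊆ range n := by
    intro x hx
    rw [Finset.mem_Ico] at hx
    rw [Finset.mem_range]
    omega
  have e1 := pr_eq hP1 (r := r) (by rw [hV]; exact hr) (m + L)
  have e0 := pr_eq hP0 (r := r) (by rw [hV]; exact hr) m
  have eM := hh_markov hD r L
  rw [hV, Finset.card_range] at e1 e0
  rw [hV, Nat.card_Ico] at eM
  have hsub : ((range n).powersetCard r).filter (fun F => m + L ≤ (range u₁ ∩ F).card) ⊆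
      ((range n).powersetCard r).filter (fun F => m ≤ (range u₀ ∩ F).card) ∪
      ((range n).powersetCard r).filter (fun F => L + 1 ≤ (Ico u₀ u₁ ∩ F).card) := by
    intro F hF
    rw [Finset.mem_filter] at hF
    rw [Finset.mem_union, Finset.mem_filter, Finset.mem_filter]
    by_contra hcon
    push Not at hcon
    have h2 := hcon.1 hF.1
    have h3 := hcon.2 hF.1
    have h4 : range u₁ ∩ F ⊆ (range u₀ ∩ F) ∪ (Ico u₀ u₁ ∩ F) := by
      intro x hx
      simp only [Finset.mem_inter, Finset.mem_range, Finset.mem_union, Finset.mem_Ico] at hx ⊢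
      by_cases h : x < u₀
      · exact Or.inl ⟨h, hx.2⟩
      · exact Or.inr ⟨⟨by omega, hx.1⟩, hx.2⟩
    have h5 := (Finset.card_le_card h4).trans (Finset.card_union_le _ _)
    have h6 := hF.2
    omega
  have hcard := (Finset.card_le_card hsub).trans (Finset.card_union_le _ _)
  have hcR : (((((range n).powersetCard r).filter
      (fun F => m + L ≤ (range u₁ ∩ F).card)).card : ℕ) : ℝ) ≤
      ((((range n).powersetCard r).filter (fun F => m ≤ (range u₀ ∩ F).card)).card : ℝ) +
      ((((range n).powersetCard r).filter (fun F => L + 1 ≤ (Ico u₀ u₁ ∩ F).card)).card : ℝ) := by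
    exact_mod_cast hcard
  rw [e1, e0] at hcR
  set M := (((range n).powersetCard r).filter (fun F => L + 1 ≤ (Ico u₀ u₁ ∩ F).card)).card
    with hM
  have hMR : (M : ℝ) * ((L : ℝ) + 1) * n ≤ ((u₁ : ℝ) - u₀) * (r * ((n.choose r : ℕ) : ℝ)) := by
    have h7 : ((M * (L + 1) * n : ℕ) : ℝ) ≤ (((u₁ - u₀) * (r * n.choose r) : ℕ) : ℝ) := by
      exact_mod_cast eM
    rw [Nat.cast_mul, Nat.cast_mul, Nat.cast_mul, Nat.cast_mul, Nat.cast_sub h01] at h7
    push_cast at h7
    exact h7
  have hC : (0 : ℝ) < ((n.choose r : ℕ) : ℝ) := by exact_mod_cast Nat.choose_pos hr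
  have hnR : (0 : ℝ) < n := by exact_mod_cast hn
  have hLR : (0 : ℝ) < (L : ℝ) + 1 := by positivity
  have hM2 : (M : ℝ) ≤ (r : ℝ) * ((u₁ : ℝ) - u₀) / (n * (L + 1)) * ((n.choose r : ℕ) : ℝ) := by
    rw [div_mul_eq_mul_div, le_div_iff₀ (by positivity)]
    linarith
  have h8 : pr n r (m + L) u₁ * ((n.choose r : ℕ) : ℝ) ≤
      (pr n r m u₀ + (r : ℝ) * ((u₁ : ℝ) - u₀) / (n * (L + 1))) * ((n.choose r : ℕ) : ℝ) := by
    rw [add_mul]
    linarith
  exact le_of_mul_le_mul_right h8 hC

end Pool.Agent.H37.AV
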