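import Pool.Agent.H37.AV.HypDefs

/-!
Module HypRatio.  The ratio of consecutive hypergeometric probabilities:
`C(u,j+1) (j+1) = C(u,j) (u-j)` and `C(N,r-j-1) (N-(r-j-1)) = C(N,r-j) (r-j)` with `N = n - u`.
-/

open Finset

namespace Pool.Agent.H37.AV

theorem hyp_ratio {n r u j : ℕ} (hj : j < r) (hju : j ≤ u) (hun : u ≤ n) (hrj : r ≤ n - u + j) :
    hyp n r u (j + 1) * (((j : ℝ) + 1) * ((n : ℝ) - u - r + j + 1)) =
      hyp n r u j * (((u : ℝ) - j) * ((r : ℝ) - j)) := by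
  obtain ⟨m, rfl⟩ : ∃ m, r = j + 1 + m := ⟨r - (j + 1), by omega⟩
  obtain ⟨N, rfl⟩ : ∃ N, n = u + N := ⟨n - u, by omega⟩
  have hmN : m ≤ N := by omega
  have e1 : (((u.choose (j + 1) : ℕ) : ℝ)) * ((j : ℝ) + 1) =
      ((u.choose j : ℕ) : ℝ) * ((u : ℝ) - j) := by
    have h := Nat.choose_succ_right_eq u j
    have h' := congrArg (Nat.cast : ℕ → ℝ) h
    rw [Nat.cast_mul, Nat.cast_mul, Nat.cast_sub hju] at h'
    push_cast at h'
    exact h'
  have e2 : (((N.choose (m + 1) : ℕ) : ℝ)) * ((m : ℝ) + 1) =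
      ((N.choose m : ℕ) : ℝ) * ((N : ℝ) - m) := by
    have h := Nat.choose_succ_right_eq N m
    have h' := congrArg (Nat.cast : ℕ → ℝ) h
    rw [Nat.cast_mul, Nat.cast_mul, Nat.cast_sub hmN] at h'
    push_cast at h'
    exact h'
  have a1 : u + N - u = N := by omega
  have a2 : j + 1 + m - (j + 1) = m := by omega
  have a3 : j + 1 + m - j = m + 1 := by omega
  unfold hyp
  rw [a1, a2, a3]
  push_cast
  rw [div_mul_eq_mul_div, div_mul_eq_mul_div]
  congr 1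
  have b1 : ((u : ℝ) + N - u - (j + 1 + m) + j + 1) = (N : ℝ) - m := by ring
  have b2 : ((j : ℝ) + 1 + m - j) = (m : ℝ) + 1 := by ring
  rw [b1, b2]
  calc ((u.choose (j + 1) : ℕ) : ℝ) * ((N.choose m : ℕ) : ℝ) * (((j : ℝ) + 1) * ((N : ℝ) - m))
      = (((u.choose (j + 1) : ℕ) : ℝ) * ((j : ℝ) + 1)) * (((N.choose m : ℕ) : ℝ) * ((N : ℝ) - m)) := by
        ring
    _ = (((u.choose j : ℕ) : ℝ) * ((u : ℝ) - j)) * ((((N.choose (m + 1) : ℕ) : ℝ)) * ((m : ℝ) + 1)) := by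
        rw [e1, e2]
    _ = _ := by ring

/-- Reflection: a set and its complement. -/
theorem hyp_symm {n r u j : ℕ} (hj : j ≤ r) (hu : u ≤ n) : hyp n r (n - u) (r - j) = hyp n r u j := by
  unfold hyp
  have a1 : n - (n - u) = u := by omega
  have a2 : r - (r - j) = j := by omega
  rw [a1, a2, Nat.mul_comm]

end Pool.Agent.H37.AV
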