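import Pool.Agent.H37.AV.Defs

/-!
Module Indep.  The rows are linearly independent.

`indep_aux`: for all `t`, `V` (finite set) and `l : Slot → ℝ` such that
 (a) `l r ≠ 0` only for `r.1, r.2 ⊆ V` disjoint,
 (b) `l r ≠ 0`, `l r' ≠ 0` imply `|r.1 ∩ r'.2| ≠ t`  (also for `r = r'`),
 (c) `∑ l r = 0` over `r.1 ⊆ P`, `r.2 ⊆ Q` for every slot `(P, Q)` of `V` (complement `< t`),
one has `l = 0`.  Induction on `V` (for all `t`).
 * `t = 0`: `|r.1 ∩ r.2| = 0 = t` for every `r` with `l r ≠ 0` by (a), against (b).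
 * `V = ∅`, `t ≥ 1`: `(∅, ∅)` is a slot and (c) says `l (∅, ∅) = 0`; (a) gives the rest.
 * `V = insert v V'`, `t ≥ 1`.  For `(A, B)` subsets of `V'` put `l⁰ (A,B) = l (A,B)`,
   `l⁺ (A,B) = l (A+v, B)`, `l⁻ (A,B) = l (A, B+v)` (and `0` if `A, B` are not subsets of `V'`).
   `l⁰ + l⁺` satisfies (a), (c) for `V'`, `t` [slots `(P+v, Q)` of `V`], and (b): if
   `(l⁰+l⁺)(A₁,B₁) ≠ 0` and `(l⁰+l⁺)(A₂,B₂) ≠ 0` then `l (A₁ or A₁+v, B₁) ≠ 0`,
   `l (A₂ or A₂+v, B₂) ≠ 0` and `v ∉ B₂`, so `|A₁ ∩ B₂| ≠ t`.  Hence `l⁰ + l⁺ = 0`; symmetrically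
   `l⁰ + l⁻ = 0`.  Now `l⁰` satisfies the hypotheses for `V'` and `t - 1`: (c) from the slots `(P, Q)` of
   `V` with `v` outside both; (b): if `l⁰ (A₁,B₁) ≠ 0 ≠ l⁰ (A₂,B₂)` then `l (A₁+v, B₁) = -l⁰ (A₁,B₁) ≠ 0`
   and `l (A₂, B₂+v) ≠ 0`, so `|(A₁+v) ∩ (B₂+v)| = |A₁ ∩ B₂| + 1 ≠ t`.  Hence `l⁰ = 0`, `l = 0`.

`rows_indep`: apply it to `l` cut off outside `rows`.  (b): `r.1`, `r'.2` are in `R` or have `< t`
elements; both in `R`: `h.av`; else the intersection has `< t` elements.
-/

open Finset

namespace Pool.Agent.H37.AV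

private lemma Indep_sum {V' : Finset ℕ} {f g : Slot → ℝ} {P Q : Finset ℕ}
    (hP : P ⊆ V') (hQ : Q ⊆ V')
    (h : ∀ A B, A ⊆ V' → B ⊆ V' → f (A, B) = g (A, B)) :
    ∑ A ∈ P.powerset, ∑ B ∈ Q.powerset, f (A, B) =
      ∑ A ∈ P.powerset, ∑ B ∈ Q.powerset, g (A, B) := by
  refine sum_congr rfl fun A hA => sum_congr rfl fun B hB => ?_
  exact h A B ((mem_powerset.1 hA).trans hP) ((mem_powerset.1 hB).trans hQ)

theorem Indep_aux (V : Finset ℕ) : ∀ (t : ℕ) (l : Slot → ℝ),
    (∀ r, l r ≠ 0 → r.1 ⊆ V ∧ r.2 ⊆ V ∧ Disjoint r.1 r.2) →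
    (∀ r r', l r ≠ 0 → l r' ≠ 0 → (r.1 ∩ r'.2).card ≠ t) →
    (∀ P Q, P ⊆ V → Q ⊆ V → Disjoint P Q → (V \ (P ∪ Q)).card < t →
      ∑ A ∈ P.powerset, ∑ B ∈ Q.powerset, l (A, B) = 0) →
    ∀ r, l r = 0 := by
  induction V using Finset.induction_on with
  | empty =>
    intro t l ha hb hc r
    by_contra hr
    have h1 := ha r hr
    have h2 : r = (∅, ∅) := by
      apply Prod.ext
      · exact subset_empty.1 h1.1
      · exact subset_empty.1 h1.2.1
    have h3 := hb r r hr hr
    rw [disjoint_iff_inter_eq_empty.1 h1.2.2, card_empty] at h3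
    have h4 := hc ∅ ∅ (empty_subset _) (empty_subset _) (disjoint_empty_left _)
      (by simp only [union_self, sdiff_self, bot_eq_empty, card_empty]; omega)
    simp only [powerset_empty, sum_singleton] at h4
    rw [h2] at hr
    exact hr h4
  | insert v V' hv ih =>
    intro t l ha hb hc
    rcases Nat.eq_zero_or_pos t with ht | ht
    · subst ht
      intro r
      by_contra hr
      have h1 := ha r hr
      have h3 := hb r r hr hr
      rw [disjoint_iff_inter_eq_empty.1 h1.2.2, card_empty] at h3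
      exact h3 rfl
    obtain ⟨t', rfl⟩ : ∃ t', t = t' + 1 := ⟨t - 1, by omega⟩
    set a0 : Slot → ℝ := fun r => if r.1 ⊆ V' ∧ r.2 ⊆ V' then l r else 0 with ha0
    set ap : Slot → ℝ := fun r => if r.1 ⊆ V' ∧ r.2 ⊆ V' then l (insert v r.1, r.2) else 0
      with hap
    set am : Slot → ℝ := fun r => if r.1 ⊆ V' ∧ r.2 ⊆ V' then l (r.1, insert v r.2) else 0
      with ham
    have e0 : ∀ r : Slot, r.1 ⊆ V' → r.2 ⊆ V' → a0 r = l r := fun r h1 h2 => if_pos ⟨h1, h2⟩
    have ep : ∀ r : Slot, r.1 ⊆ V' → r.2 ⊆ V' → ap r = l (insert v r.1, r.2) :=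
      fun r h1 h2 => if_pos ⟨h1, h2⟩
    have em : ∀ r : Slot, r.1 ⊆ V' → r.2 ⊆ V' → am r = l (r.1, insert v r.2) :=
      fun r h1 h2 => if_pos ⟨h1, h2⟩
    have n0 : ∀ r : Slot, ¬ (r.1 ⊆ V' ∧ r.2 ⊆ V') → a0 r = 0 := fun r h => if_neg h
    have np : ∀ r : Slot, ¬ (r.1 ⊆ V' ∧ r.2 ⊆ V') → ap r = 0 := fun r h => if_neg h
    have nm : ∀ r : Slot, ¬ (r.1 ⊆ V' ∧ r.2 ⊆ V') → am r = 0 := fun r h => if_neg h
    clear_value a0 ap am
    have claim1 : ∀ r, a0 r + ap r = 0 := by
      have key : ∀ r : Slot, a0 r + ap r ≠ 0 → (r.1 ⊆ V' ∧ r.2 ⊆ V') ∧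
          ∃ A, (A = r.1 ∨ A = insert v r.1) ∧ l (A, r.2) ≠ 0 := by
        intro r hr
        have hin : r.1 ⊆ V' ∧ r.2 ⊆ V' := by
          by_contra hcon
          rw [n0 r hcon, np r hcon, add_zero] at hr
          exact hr rfl
        refine ⟨hin, ?_⟩
        rw [e0 r hin.1 hin.2, ep r hin.1 hin.2] at hr
        by_cases h1 : l r = 0
        · rw [h1, zero_add] at hr
          exact ⟨_, Or.inr rfl, hr⟩
        · exact ⟨r.1, Or.inl rfl, h1⟩
      refine ih (t' + 1) (fun r => a0 r + ap r) ?_ ?_ ?_
      · intro r hr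
        obtain ⟨hin, A, hA, hlA⟩ := key r hr
        refine ⟨hin.1, hin.2, ?_⟩
        have h1 := (ha _ hlA).2.2
        rcases hA with hA | hA
        · rw [hA] at h1; exact h1
        · rw [hA] at h1
          exact h1.mono_left (subset_insert _ _)
      · intro r r' hr hr'
        obtain ⟨hin, A, hA, hlA⟩ := key r hr
        obtain ⟨hin', A', hA', hlA'⟩ := key r' hr'
        have h1 := hb _ _ hlA hlA'
        have hv2 : v ∉ r'.2 := fun hh => hv (hin'.2 hh)
        rcases hA with hA | hA
        · rw [hA] at h1; exact h1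
        · rw [hA] at h1
          have h2 : insert v r.1 ∩ r'.2 = r.1 ∩ r'.2 := insert_inter_of_notMem hv2
          simp only [h2] at h1
          exact h1
      · intro P Q hP hQ hPQ hcard
        have hvP : v ∉ P := fun hh => hv (hP hh)
        have hvQ : v ∉ Q := fun hh => hv (hQ hh)
        have h1 := hc (insert v P) Q (insert_subset_insert _ hP) (hQ.trans (subset_insert _ _))
          (by rw [disjoint_insert_left]; exact ⟨hvQ, hPQ⟩)
          (by
            have h2 : insert v V' \ (insert v P ∪ Q) = V' \ (P ∪ Q) := by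
              ext x
              simp only [mem_sdiff, mem_insert, mem_union]
              constructor
              · rintro ⟨h3 | h3, h4⟩
                · exact absurd (Or.inl (Or.inl h3)) h4
                · exact ⟨h3, fun h5 => h4 (h5.elim (fun h => Or.inl (Or.inr h)) Or.inr)⟩
              · rintro ⟨h3, h4⟩
                refine ⟨Or.inr h3, ?_⟩
                rintro ((h5 | h5) | h5)
                · exact hv (h5 ▸ h3)
                · exact h4 (Or.inl h5)
                · exact h4 (Or.inr h5)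
            rw [h2]
            exact hcard)
        rw [sum_powerset_insert hvP] at h1
        rw [← h1, ← sum_add_distrib]
        refine sum_congr rfl fun A hA => ?_
        rw [← sum_add_distrib]
        refine sum_congr rfl fun B hB => ?_
        have hA' := (mem_powerset.1 hA).trans hP
        have hB' := (mem_powerset.1 hB).trans hQ
        rw [e0 (A, B) hA' hB', ep (A, B) hA' hB']
    have claim2 : ∀ r, a0 r + am r = 0 := by
      have key : ∀ r : Slot, a0 r + am r ≠ 0 → (r.1 ⊆ V' ∧ r.2 ⊆ V') ∧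
          ∃ B, (B = r.2 ∨ B = insert v r.2) ∧ l (r.1, B) ≠ 0 := by
        intro r hr
        have hin : r.1 ⊆ V' ∧ r.2 ⊆ V' := by
          by_contra hcon
          rw [n0 r hcon, nm r hcon, add_zero] at hr
          exact hr rfl
        refine ⟨hin, ?_⟩
        rw [e0 r hin.1 hin.2, em r hin.1 hin.2] at hr
        by_cases h1 : l r = 0
        · rw [h1, zero_add] at hr
          exact ⟨_, Or.inr rfl, hr⟩
        · exact ⟨r.2, Or.inl rfl, h1⟩
      refine ih (t' + 1) (fun r => a0 r + am r) ?_ ?_ ?_
      · intro r hr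
        obtain ⟨hin, A, hA, hlA⟩ := key r hr
        refine ⟨hin.1, hin.2, ?_⟩
        have h1 := (ha _ hlA).2.2
        rcases hA with hA | hA
        · rw [hA] at h1; exact h1
        · rw [hA] at h1
          exact h1.mono_right (subset_insert _ _)
      · intro r r' hr hr'
        obtain ⟨hin, A, hA, hlA⟩ := key r hr
        obtain ⟨hin', A', hA', hlA'⟩ := key r' hr'
        have h1 := hb _ _ hlA hlA'
        have hv2 : v ∉ r.1 := fun hh => hv (hin.1 hh)
        rcases hA' with hA' | hA'
        · rw [hA'] at h1; exact h1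
        · rw [hA'] at h1
          have h2 : r.1 ∩ insert v r'.2 = r.1 ∩ r'.2 := inter_insert_of_notMem hv2
          simp only [h2] at h1
          exact h1
      · intro P Q hP hQ hPQ hcard
        have hvP : v ∉ P := fun hh => hv (hP hh)
        have hvQ : v ∉ Q := fun hh => hv (hQ hh)
        have h1 := hc P (insert v Q) (hP.trans (subset_insert _ _)) (insert_subset_insert _ hQ)
          (by rw [disjoint_insert_right]; exact ⟨hvP, hPQ⟩)
          (by
            have h2 : insert v V' \ (P ∪ insert v Q) = V' \ (P ∪ Q) := by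
              ext x
              simp only [mem_sdiff, mem_insert, mem_union]
              constructor
              · rintro ⟨h3 | h3, h4⟩
                · exact absurd (Or.inr (Or.inl h3)) h4
                · exact ⟨h3, fun h5 => h4 (h5.elim Or.inl (fun h => Or.inr (Or.inr h)))⟩
              · rintro ⟨h3, h4⟩
                refine ⟨Or.inr h3, ?_⟩
                rintro (h5 | (h5 | h5))
                · exact h4 (Or.inl h5)
                · exact hv (h5 ▸ h3)
                · exact h4 (Or.inr h5)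
            rw [h2]
            exact hcard)
        rw [← h1]
        refine sum_congr rfl fun A hA => ?_
        rw [sum_powerset_insert hvQ, ← sum_add_distrib]
        refine sum_congr rfl fun B hB => ?_
        have hA' := (mem_powerset.1 hA).trans hP
        have hB' := (mem_powerset.1 hB).trans hQ
        rw [e0 (A, B) hA' hB', em (A, B) hA' hB']
    have claim3 : ∀ r, a0 r = 0 := by
      have key : ∀ r : Slot, a0 r ≠ 0 → (r.1 ⊆ V' ∧ r.2 ⊆ V') := by
        intro r hr
        by_contra hcon
        exact hr (n0 r hcon)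
      refine ih t' a0 ?_ ?_ ?_
      · intro r hr
        have hin := key r hr
        rw [e0 r hin.1 hin.2] at hr
        exact ⟨hin.1, hin.2, (ha r hr).2.2⟩
      · intro r r' hr hr'
        have hin := key r hr
        have hin' := key r' hr'
        have h1 : ap r ≠ 0 := by
          intro h2
          have := claim1 r
          rw [h2, add_zero] at this
          exact hr this
        have h2 : am r' ≠ 0 := by
          intro h2
          have := claim2 r'
          rw [h2, add_zero] at this
          exact hr' this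
        rw [ep r hin.1 hin.2] at h1
        rw [em r' hin'.1 hin'.2] at h2
        have h3 := hb _ _ h1 h2
        have h4 : insert v r.1 ∩ insert v r'.2 = insert v (r.1 ∩ r'.2) :=
          (insert_inter_distrib _ _ _).symm
        simp only [h4] at h3
        rw [card_insert_of_notMem (fun hh => hv (hin.1 (mem_inter.1 hh).1))] at h3
        omega
      · intro P Q hP hQ hPQ hcard
        have h1 := hc P Q (hP.trans (subset_insert _ _)) (hQ.trans (subset_insert _ _)) hPQ
          (by
            have h2 : insert v V' \ (P ∪ Q) = insert v (V' \ (P ∪ Q)) :=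
              insert_sdiff_of_notMem _ (by
                rw [mem_union]
                rintro (h | h)
                · exact hv (hP h)
                · exact hv (hQ h))
            rw [h2]
            have := card_insert_le v (V' \ (P ∪ Q))
            omega)
        rw [← h1]
        exact Indep_sum hP hQ (fun A B hA hB => e0 (A, B) hA hB)
    intro r
    by_contra hr
    obtain ⟨h1, h2, h3⟩ := ha r hr
    have hsub : ∀ {A : Finset ℕ}, A ⊆ insert v V' → A.erase v ⊆ V' := by
      intro A hA x hx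
      rw [mem_erase] at hx
      exact (mem_insert.1 (hA hx.2)).resolve_left hx.1
    have hsub' : ∀ {A : Finset ℕ}, A ⊆ insert v V' → v ∉ A → A ⊆ V' := by
      intro A hA hvA x hx
      refine (mem_insert.1 (hA hx)).resolve_left ?_
      rintro rfl
      exact hvA hx
    by_cases hv1 : v ∈ r.1
    · have hv2 : v ∉ r.2 := disjoint_left.1 h3 hv1
      have h4 := claim1 (r.1.erase v, r.2)
      rw [claim3 (r.1.erase v, r.2), zero_add,
        ep (r.1.erase v, r.2) (hsub h1) (hsub' h2 hv2)] at h4
      simp only [insert_erase hv1] at h4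
      exact hr h4
    · by_cases hv2 : v ∈ r.2
      · have h4 := claim2 (r.1, r.2.erase v)
        rw [claim3 (r.1, r.2.erase v), zero_add,
          em (r.1, r.2.erase v) (hsub' h1 hv1) (hsub h2)] at h4
        simp only [insert_erase hv2] at h4
        exact hr h4
      · have h4 := claim3 r
        rw [e0 r (hsub' h1 hv1) (hsub' h2 hv2)] at h4
        exact hr h4

theorem rows_indep {V : Finset ℕ} {t : ℕ} {R : Finset (Finset ℕ)} (h : Av V t R) (l : Slot → ℝ)
    (hl : ∀ s ∈ slots V t,
      ∑ r ∈ (rows V t R).filter (fun r => r.1 ⊆ s.1 ∧ r.2 ⊆ s.2), l r = 0) :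
    ∀ r ∈ rows V t R, l r = 0 := by
  classical
  have main := Indep_aux V t (fun r => if r ∈ rows V t R then l r else 0) ?_ ?_ ?_
  · intro r hr
    have := main r
    simpa only [if_pos hr] using this
  · intro r hr
    have hr' : r ∈ rows V t R := by
      by_contra hcon
      exact hr (if_neg hcon)
    obtain ⟨h1, h2, h3, -⟩ := mem_rows.1 hr'
    exact ⟨h1, h2, h3⟩
  · intro r r' hr hr'
    have h1 : r ∈ rows V t R := by
      by_contra hcon
      exact hr (if_neg hcon)
    have h2 : r' ∈ rows V t R := by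
      by_contra hcon
      exact hr' (if_neg hcon)
    obtain ⟨-, -, -, h3, -, -⟩ := mem_rows.1 h1
    obtain ⟨-, -, -, -, h4, -⟩ := mem_rows.1 h2
    rcases h3 with h3 | h3
    · rcases h4 with h4 | h4
      · exact h.av _ h3 _ h4
      · have := card_le_card (inter_subset_right (s₁ := r.1) (s₂ := r'.2))
        omega
    · have := card_le_card (inter_subset_left (s₁ := r.1) (s₂ := r'.2))
      omega
  · intro P Q hP hQ hPQ hcard
    have h1 := hl (P, Q) (mem_slots.2 ⟨hP, hQ, hPQ, hcard⟩)
    refine Eq.trans ?_ h1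
    rw [← sum_product', ← sum_filter]
    refine sum_congr ?_ fun _ _ => rfl
    ext r
    simp only [mem_filter, mem_product, mem_powerset]
    exact ⟨fun h => ⟨h.2, h.1⟩, fun h => ⟨h.2, h.1⟩⟩

end Pool.Agent.H37.AV
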