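import Pool.Agent.H37.AV.Defs

/-!
Module Loc.  Local relations.

`V = N ⊔ T ⊔ T'`.  For disjoint `L.1, L.2 ⊆ N` let `e_L` be the vector whose value at
`(T ∪ L₁, T' ∪ L₂)`, `L₁ ⊆ L.1`, `L₂ ⊆ L.2`, is `(-1)^(|L.1 \ L₁| + |L.2 \ L₂|)`, and `0` at all other
pairs.  `kap I L a L₁ L₂` is the value at `(T ∪ L₁, T' ∪ L₂)` of `∑ i ∈ I, a i • e_{L i}`.

For a row `(A, B)` the sum of `e_L` over the pairs above `(A, B)` is `1` if `A ⊆ T ∪ N`, `B ⊆ T' ∪ N`,
`A ∩ N = L.1`, `B ∩ N = L.2`, and `0` otherwise [`∑ (-1)^|L.1 \ L₁|` over `A ∩ N ⊆ L₁ ⊆ L.1` is `1` if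
`A ∩ N = L.1` and `0` otherwise; note that `A ⊆ T ∪ L₁` iff `A ⊆ T ∪ N` and `A ∩ N ⊆ L₁`].

So let `c (P, Q) = kap (P ∩ N) (Q ∩ N) / kap L₁ L₂` if `P \ N = T` and `Q \ N = T'`, else `0`.  Its value at
`(T ∪ L₁, T' ∪ L₂)` is `1`.  At pairs `(T ∪ L₁, T' ∪ L₂)` which are not slots it is `0` by `hill` (their
complement is `N \ (L₁ ∪ L₂)`), so its sum over the slots above a row is its sum over all disjoint pairs
above the row, which is `0` by `hun`.  Squared norm: at most `3^|N| ≤ 4^(2t)` pairs (pairs of subsets of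
`N`), each value at most `4 t + 4` in absolute value (as `|kap L₁ L₂| ≥ 1`):
`16^t (4t+4)² ≤ Bd t`.
-/

open Finset

namespace Pool.Agent.H37.AV

/-- The coefficient at `(T ∪ L₁, T' ∪ L₂)` of a combination of the vectors `e_{L i}`. -/
noncomputable def kap {ι : Type*} (I : Finset ι) (L : ι → Slot) (a : ι → ℝ) (L₁ L₂ : Finset ℕ) : ℝ :=
  ∑ i ∈ I, if L₁ ⊆ (L i).1 ∧ L₂ ⊆ (L i).2 then
    a i * (-1) ^ (((L i).1 \ L₁).card + ((L i).2 \ L₂).card) else 0

/-- Alternating sum over an interval of sets. -/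
private lemma loc_alt {N T L r : Finset ℕ} (hNT : Disjoint N T) (hL : L ⊆ N)
    (h : ¬ (r ⊆ N ∪ T ∧ r ∩ N = L)) :
    ∑ A ∈ N.powerset, (if A ⊆ L ∧ r ⊆ T ∪ A then (-1 : ℝ) ^ (L \ A).card else 0) = 0 := by
  classical
  by_cases h1 : r ⊆ N ∪ T
  · by_cases h2 : r ∩ N ⊆ L
    · have h3 : r ∩ N ≠ L := fun h3 => h ⟨h1, h3⟩
      obtain ⟨x, hxL, hxr⟩ : ∃ x ∈ L, x ∉ r ∩ N := by
        by_contra hcon
        push Not at hcon
        exact h3 (subset_antisymm h2 hcon)
      have hxN : x ∈ N := hL hxL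
      have hxr' : x ∉ r := fun hx => hxr (mem_inter.2 ⟨hx, hxN⟩)
      refine Finset.sum_involution (fun A _ => if x ∈ A then A.erase x else insert x A) ?_ ?_ ?_ ?_
      · intro A hA
        have hAN := mem_powerset.1 hA
        by_cases hx : x ∈ A
        · have e1 : A.erase x ⊆ L ↔ A ⊆ L := by
            constructor
            · intro h4 y hy
              by_cases hyx : y = x
              · rw [hyx]; exact hxL
              · exact h4 (mem_erase.2 ⟨hyx, hy⟩)
            · exact fun h4 => (erase_subset x A).trans h4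
          have e2 : r ⊆ T ∪ A.erase x ↔ r ⊆ T ∪ A := by
            constructor
            · intro h4
              exact h4.trans (union_subset_union_right (erase_subset x A))
            · intro h4 y hy
              have := h4 hy
              rw [mem_union] at this ⊢
              rcases this with h5 | h5
              · exact Or.inl h5
              · exact Or.inr (mem_erase.2 ⟨fun h6 => hxr' (h6 ▸ hy), h5⟩)
          simp only [hx, if_true, e1, e2]
          by_cases h5 : A ⊆ L ∧ r ⊆ T ∪ A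
          · rw [if_pos h5, if_pos h5]
            have e3 : L \ A.erase x = insert x (L \ A) := by
              ext y
              simp only [mem_sdiff, mem_erase, mem_insert]
              constructor
              · rintro ⟨hy1, hy2⟩
                by_cases hyx : y = x
                · exact Or.inl hyx
                · exact Or.inr ⟨hy1, fun h6 => hy2 ⟨hyx, h6⟩⟩
              · rintro (rfl | ⟨hy1, hy2⟩)
                · exact ⟨hxL, fun h6 => h6.1 rfl⟩
                · exact ⟨hy1, fun h6 => hy2 h6.2⟩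
            rw [e3, card_insert_of_notMem (by simp [hx]), pow_succ]
            ring
          · rw [if_neg h5, if_neg h5, add_zero]
        · have e1 : insert x A ⊆ L ↔ A ⊆ L := by
            rw [insert_subset_iff]
            exact ⟨fun h4 => h4.2, fun h4 => ⟨hxL, h4⟩⟩
          have e2 : r ⊆ T ∪ insert x A ↔ r ⊆ T ∪ A := by
            constructor
            · intro h4 y hy
              have := h4 hy
              rw [mem_union, mem_insert] at this
              rw [mem_union]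
              rcases this with h5 | h5 | h5
              · exact Or.inl h5
              · exact absurd (h5 ▸ hy) hxr'
              · exact Or.inr h5
            · exact fun h4 => h4.trans (union_subset_union_right (subset_insert x A))
          simp only [hx, if_false, e1, e2]
          by_cases h5 : A ⊆ L ∧ r ⊆ T ∪ A
          · rw [if_pos h5, if_pos h5]
            have e3 : L \ A = insert x (L \ insert x A) := by
              ext y
              simp only [mem_sdiff, mem_insert]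
              constructor
              · rintro ⟨hy1, hy2⟩
                by_cases hyx : y = x
                · exact Or.inl hyx
                · exact Or.inr ⟨hy1, fun h6 => h6.elim hyx hy2⟩
              · rintro (rfl | ⟨hy1, hy2⟩)
                · exact ⟨hxL, hx⟩
                · exact ⟨hy1, fun h6 => hy2 (Or.inr h6)⟩
            have e4 : (L \ A).card = (L \ insert x A).card + 1 := by
              conv_lhs => rw [e3]
              rw [card_insert_of_notMem (by simp)]
            rw [e4, pow_succ]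
            ring
          · rw [if_neg h5, if_neg h5, add_zero]
      · intro A hA _
        by_cases hx : x ∈ A
        · simp only [hx, if_true]
          intro h4
          have h5 : x ∈ A.erase x := by rw [h4]; exact hx
          exact (mem_erase.1 h5).1 rfl
        · simp only [hx, if_false]
          intro h4
          exact hx (h4 ▸ mem_insert_self x A)
      · intro A hA
        by_cases hx : x ∈ A
        · simp only [hx, if_true]
          exact mem_powerset.2 ((erase_subset x A).trans (mem_powerset.1 hA))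
        · simp only [hx, if_false]
          exact mem_powerset.2 (insert_subset hxN (mem_powerset.1 hA))
      · intro A hA
        by_cases hx : x ∈ A
        · simp [hx]
        · simp [hx]
    · refine Finset.sum_eq_zero fun A hA => if_neg ?_
      rintro ⟨h4, h5⟩
      refine h2 fun y hy => ?_
      obtain ⟨hy1, hy2⟩ := mem_inter.1 hy
      rcases mem_union.1 (h5 hy1) with h6 | h6
      · exact absurd h6 (Finset.disjoint_left.1 hNT hy2)
      · exact h4 h6
  · refine Finset.sum_eq_zero fun A hA => if_neg ?_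
    rintro ⟨_, h5⟩
    refine h1 (h5.trans ?_)
    rw [union_comm]
    exact union_subset_union_left (mem_powerset.1 hA)

/-- The sum of `kap` over all pairs above a row vanishes. -/
private lemma loc_sum {V : Finset ℕ} {t : ℕ} {R : Finset (Finset ℕ)} {N T T' : Finset ℕ}
    (hNT : Disjoint N T) (hNT' : Disjoint N T') {ι : Type*} (I : Finset ι) (L : ι → Slot)
    (a : ι → ℝ) (hL : ∀ i ∈ I, (L i).1 ⊆ N ∧ (L i).2 ⊆ N ∧ Disjoint (L i).1 (L i).2)
    (hun : ∀ i ∈ I, ∀ r ∈ rows V t R, r.1 ⊆ N ∪ T → r.2 ⊆ N ∪ T' → r.1 ∩ N = (L i).1 →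
      r.2 ∩ N = (L i).2 → False) {r : Slot} (hr : r ∈ rows V t R) :
    ∑ p ∈ N.powerset ×ˢ N.powerset, (if r.1 ⊆ T ∪ p.1 ∧ r.2 ⊆ T' ∪ p.2 then
      kap I L a p.1 p.2 else 0) = 0 := by
  classical
  have h1 : ∀ p ∈ N.powerset ×ˢ N.powerset, (if r.1 ⊆ T ∪ p.1 ∧ r.2 ⊆ T' ∪ p.2 then
      kap I L a p.1 p.2 else 0) = ∑ i ∈ I, a i *
        ((if p.1 ⊆ (L i).1 ∧ r.1 ⊆ T ∪ p.1 then (-1 : ℝ) ^ ((L i).1 \ p.1).card else 0) *
        (if p.2 ⊆ (L i).2 ∧ r.2 ⊆ T' ∪ p.2 then (-1 : ℝ) ^ ((L i).2 \ p.2).card else 0)) := by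
    intro p _
    unfold kap
    by_cases h : r.1 ⊆ T ∪ p.1 ∧ r.2 ⊆ T' ∪ p.2
    · rw [if_pos h]
      refine Finset.sum_congr rfl fun i _ => ?_
      by_cases h3 : p.1 ⊆ (L i).1
      · by_cases h4 : p.2 ⊆ (L i).2
        · rw [if_pos ⟨h3, h4⟩, if_pos ⟨h3, h.1⟩, if_pos ⟨h4, h.2⟩, pow_add]
        · rw [if_neg (fun h5 => h4 h5.2), if_neg (c := p.2 ⊆ (L i).2 ∧ _) (fun h5 => h4 h5.1),
            mul_zero, mul_zero]
      · rw [if_neg (fun h5 => h3 h5.1), if_neg (c := p.1 ⊆ (L i).1 ∧ _) (fun h5 => h3 h5.1),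
          zero_mul, mul_zero]
    · rw [if_neg h]
      symm
      refine Finset.sum_eq_zero fun i _ => ?_
      by_cases h3 : r.1 ⊆ T ∪ p.1
      · have h4 : ¬ r.2 ⊆ T' ∪ p.2 := fun h5 => h ⟨h3, h5⟩
        rw [if_neg (c := p.2 ⊆ (L i).2 ∧ _) (fun h5 => h4 h5.2), mul_zero, mul_zero]
      · rw [if_neg (c := p.1 ⊆ (L i).1 ∧ _) (fun h5 => h3 h5.2), zero_mul, mul_zero]
  rw [Finset.sum_congr rfl h1, Finset.sum_comm]
  refine Finset.sum_eq_zero fun i hi => ?_
  rw [← Finset.mul_sum]
  obtain ⟨hL1, hL2, _⟩ := hL i hi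
  have h2 : ∑ p ∈ N.powerset ×ˢ N.powerset,
      ((if p.1 ⊆ (L i).1 ∧ r.1 ⊆ T ∪ p.1 then (-1 : ℝ) ^ ((L i).1 \ p.1).card else 0) *
        (if p.2 ⊆ (L i).2 ∧ r.2 ⊆ T' ∪ p.2 then (-1 : ℝ) ^ ((L i).2 \ p.2).card else 0)) =
      (∑ A ∈ N.powerset, (if A ⊆ (L i).1 ∧ r.1 ⊆ T ∪ A then
        (-1 : ℝ) ^ ((L i).1 \ A).card else 0)) *
      (∑ B ∈ N.powerset, (if B ⊆ (L i).2 ∧ r.2 ⊆ T' ∪ B then
        (-1 : ℝ) ^ ((L i).2 \ B).card else 0)) := by
    rw [Finset.sum_mul_sum, Finset.sum_product]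
  rw [h2]
  by_cases h3 : r.1 ⊆ N ∪ T ∧ r.1 ∩ N = (L i).1
  · have h4 : ¬ (r.2 ⊆ N ∪ T' ∧ r.2 ∩ N = (L i).2) := fun h5 =>
      hun i hi r hr h3.1 h5.1 h3.2 h5.2
    rw [loc_alt hNT' hL2 h4, mul_zero, mul_zero]
  · rw [loc_alt hNT hL1 h3, zero_mul, mul_zero]

theorem loc {V : Finset ℕ} {t : ℕ} {R : Finset (Finset ℕ)} {N T T' : Finset ℕ}
    (hNT : Disjoint N T) (hNT' : Disjoint N T') (hTT' : Disjoint T T') (hV : N ∪ (T ∪ T') = V)
    (hN : N.card ≤ 2 * t) {ι : Type*} (I : Finset ι) (L : ι → Slot) (a : ι → ℝ)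
    (hL : ∀ i ∈ I, (L i).1 ⊆ N ∧ (L i).2 ⊆ N ∧ Disjoint (L i).1 (L i).2)
    (hun : ∀ i ∈ I, ∀ r ∈ rows V t R, r.1 ⊆ N ∪ T → r.2 ⊆ N ∪ T' → r.1 ∩ N = (L i).1 →
      r.2 ∩ N = (L i).2 → False)
    (hill : ∀ L₁ L₂ : Finset ℕ, L₁ ⊆ N → L₂ ⊆ N → Disjoint L₁ L₂ → t ≤ (N \ (L₁ ∪ L₂)).card →
      kap I L a L₁ L₂ = 0)
    (hbd : ∀ L₁ L₂ : Finset ℕ, |kap I L a L₁ L₂| ≤ 4 * t + 4)
    {L₁ L₂ : Finset ℕ} (h1 : L₁ ⊆ N) (h2 : L₂ ⊆ N) (h12 : Disjoint L₁ L₂)
    (hone : 1 ≤ |kap I L a L₁ L₂|) :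
    NR V t R (T ∪ L₁, T' ∪ L₂) := by
  classical
  set κ : ℝ := kap I L a L₁ L₂ with hκ
  have hκ0 : κ ≠ 0 := by
    intro h
    rw [h, abs_zero] at hone
    linarith
  -- elementary facts on the sets `T ∪ A`
  have hT1 : ∀ A : Finset ℕ, A ⊆ N → (T ∪ A) \ N = T := by
    intro A hA
    ext y
    simp only [mem_sdiff, mem_union]
    constructor
    · rintro ⟨h3 | h3, h4⟩
      · exact h3
      · exact absurd (hA h3) h4
    · intro h3
      exact ⟨Or.inl h3, fun h4 => Finset.disjoint_left.1 hNT h4 h3⟩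
  have hT2 : ∀ A : Finset ℕ, A ⊆ N → (T ∪ A) ∩ N = A := by
    intro A hA
    ext y
    simp only [mem_inter, mem_union]
    constructor
    · rintro ⟨h3 | h3, h4⟩
      · exact absurd h3 (Finset.disjoint_left.1 hNT h4)
      · exact h3
    · intro h3
      exact ⟨Or.inr h3, hA h3⟩
  have hT1' : ∀ A : Finset ℕ, A ⊆ N → (T' ∪ A) \ N = T' := by
    intro A hA
    ext y
    simp only [mem_sdiff, mem_union]
    constructor
    · rintro ⟨h3 | h3, h4⟩
      · exact h3
      · exact absurd (hA h3) h4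
    · intro h3
      exact ⟨Or.inl h3, fun h4 => Finset.disjoint_left.1 hNT' h4 h3⟩
  have hT2' : ∀ A : Finset ℕ, A ⊆ N → (T' ∪ A) ∩ N = A := by
    intro A hA
    ext y
    simp only [mem_inter, mem_union]
    constructor
    · rintro ⟨h3 | h3, h4⟩
      · exact absurd h3 (Finset.disjoint_left.1 hNT' h4)
      · exact h3
    · intro h3
      exact ⟨Or.inr h3, hA h3⟩
  set c : Slot → ℝ := fun s => if s.1 \ N = T ∧ s.2 \ N = T' then
    kap I L a (s.1 ∩ N) (s.2 ∩ N) / κ else 0 with hc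
  have hcval : ∀ A B : Finset ℕ, A ⊆ N → B ⊆ N → c (T ∪ A, T' ∪ B) = kap I L a A B / κ := by
    intro A B hA hB
    simp only [hc]
    rw [if_pos ⟨hT1 A hA, hT1' B hB⟩, hT2 A hA, hT2' B hB]
  -- `kap` vanishes at pairs that are not disjoint
  have hdis : ∀ A B : Finset ℕ, ¬ Disjoint A B → kap I L a A B = 0 := by
    intro A B hAB
    unfold kap
    refine Finset.sum_eq_zero fun i hi => if_neg ?_
    rintro ⟨h3, h4⟩
    exact hAB (((hL i hi).2.2.mono h3 h4))
  -- the map from pairs of subsets of `N`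
  set φ : Finset ℕ × Finset ℕ → Slot := fun p => (T ∪ p.1, T' ∪ p.2) with hφ
  have hinj : Set.InjOn φ (N.powerset ×ˢ N.powerset : Finset (Finset ℕ × Finset ℕ)) := by
    intro p hp q hq hpq
    rw [mem_coe, mem_product, mem_powerset, mem_powerset] at hp hq
    simp only [hφ, Prod.mk.injEq] at hpq
    have e1 : p.1 = q.1 := by rw [← hT2 p.1 hp.1, ← hT2 q.1 hq.1, hpq.1]
    have e2 : p.2 = q.2 := by rw [← hT2' p.2 hp.2, ← hT2' q.2 hq.2, hpq.2]
    exact Prod.ext e1 e2
  -- a pair with nonzero value is in the image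
  have himg : ∀ s : Slot, c s ≠ 0 → ∃ p ∈ N.powerset ×ˢ N.powerset, φ p = s := by
    intro s hs
    have h3 : s.1 \ N = T ∧ s.2 \ N = T' := by
      by_contra h3
      exact hs (by simp only [hc]; rw [if_neg h3])
    refine ⟨(s.1 ∩ N, s.2 ∩ N), mem_product.2 ⟨mem_powerset.2 inter_subset_right,
      mem_powerset.2 inter_subset_right⟩, ?_⟩
    simp only [hφ]
    refine Prod.ext ?_ ?_
    · change T ∪ s.1 ∩ N = s.1
      rw [← h3.1, sdiff_union_inter]
    · change T' ∪ s.2 ∩ N = s.2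
      rw [← h3.2, sdiff_union_inter]
  -- a pair of disjoint subsets gives a slot or a zero value
  have hslot : ∀ p ∈ N.powerset ×ˢ N.powerset, φ p ∉ slots V t → kap I L a p.1 p.2 = 0 := by
    intro p hp hns
    rw [mem_product, mem_powerset, mem_powerset] at hp
    by_cases hd : Disjoint p.1 p.2
    · refine hill p.1 p.2 hp.1 hp.2 hd ?_
      by_contra hlt
      push Not at hlt
      refine hns (mem_slots.2 ⟨?_, ?_, ?_, ?_⟩)
      · rw [← hV]
        intro y hy
        simp only [hφ, mem_union] at hy ⊢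
        rcases hy with h3 | h3
        · exact Or.inr (Or.inl h3)
        · exact Or.inl (hp.1 h3)
      · rw [← hV]
        intro y hy
        simp only [hφ, mem_union] at hy ⊢
        rcases hy with h3 | h3
        · exact Or.inr (Or.inr h3)
        · exact Or.inl (hp.2 h3)
      · simp only [hφ]
        rw [disjoint_union_left, disjoint_union_right, disjoint_union_right]
        exact ⟨⟨hTT', (hNT.symm).mono_right hp.2⟩, ⟨hNT'.mono_left hp.1, hd⟩⟩
      · have e1 : ker V (φ p) = N \ (p.1 ∪ p.2) := by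
          unfold ker
          ext y
          simp only [hφ, mem_sdiff, mem_union, ← hV]
          constructor
          · rintro ⟨h3, h4⟩
            push Not at h4
            refine ⟨?_, fun h5 => ?_⟩
            · rcases h3 with h3 | h3 | h3
              · exact h3
              · exact absurd h3 h4.1.1
              · exact absurd h3 h4.2.1
            · rcases h5 with h5 | h5
              · exact h4.1.2 h5
              · exact h4.2.2 h5
          · rintro ⟨h3, h4⟩
            refine ⟨Or.inl h3, ?_⟩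
            rintro ((h5 | h5) | (h5 | h5))
            · exact Finset.disjoint_left.1 hNT h3 h5
            · exact h4 (Or.inl h5)
            · exact Finset.disjoint_left.1 hNT' h3 h5
            · exact h4 (Or.inr h5)
        rw [e1]
        exact hlt
    · exact hdis _ _ hd
  refine ⟨c, ?_, ?_, ?_⟩
  · rw [hcval L₁ L₂ h1 h2]
    exact div_self hκ0
  · -- the squared norm
    have h3 : ∑ x ∈ slots V t, c x ^ 2 ≤ ∑ x ∈ (N.powerset ×ˢ N.powerset).image φ, c x ^ 2 := by
      have e1 := Finset.sum_subset (inter_subset_left :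
        slots V t ∩ (N.powerset ×ˢ N.powerset).image φ ⊆ slots V t) (f := fun s => c s ^ 2)
        (fun s hs hs2 => by
          have h5 : c s = 0 := by
            by_contra h6
            obtain ⟨p, hp, hps⟩ := himg s h6
            exact hs2 (mem_inter.2 ⟨hs, mem_image.2 ⟨p, hp, hps⟩⟩)
          simp only [h5]
          norm_num)
      rw [← e1]
      exact Finset.sum_le_sum_of_subset_of_nonneg inter_subset_right fun s _ _ => sq_nonneg _
    have h4 : ∑ x ∈ (N.powerset ×ˢ N.powerset).image φ, c x ^ 2 =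
        ∑ p ∈ N.powerset ×ˢ N.powerset, c (φ p) ^ 2 :=
      Finset.sum_image fun p hp q hq h => hinj hp hq h
    have h5 : ∀ p ∈ N.powerset ×ˢ N.powerset, c (φ p) ^ 2 ≤ (4 * t + 4 : ℝ) ^ 2 := by
      intro p hp
      rw [mem_product, mem_powerset, mem_powerset] at hp
      have e1 : c (φ p) = kap I L a p.1 p.2 / κ := hcval p.1 p.2 hp.1 hp.2
      rw [e1, ← sq_abs]
      have h6 : |kap I L a p.1 p.2 / κ| ≤ 4 * t + 4 := by
        rw [abs_div]
        have h7 := hbd p.1 p.2
        have h8 : (0 : ℝ) ≤ 4 * t + 4 := (abs_nonneg _).trans h7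
        rw [div_le_iff₀ (by linarith)]
        nlinarith
      exact pow_le_pow_left₀ (abs_nonneg _) h6 2
    have h6 : ∑ p ∈ N.powerset ×ˢ N.powerset, c (φ p) ^ 2 ≤
        ((N.powerset ×ˢ N.powerset).card : ℝ) * (4 * t + 4 : ℝ) ^ 2 := by
      have := Finset.sum_le_card_nsmul _ _ _ h5
      rwa [nsmul_eq_mul] at this
    have h7 : ((N.powerset ×ˢ N.powerset).card : ℝ) ≤ 64 ^ t := by
      have e1 : (N.powerset ×ˢ N.powerset).card = 4 ^ N.card := by
        rw [card_product, card_powerset, ← mul_pow]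
        norm_num
      have e2 : 4 ^ N.card ≤ 4 ^ (2 * t) := Nat.pow_le_pow_right (by norm_num) hN
      have e3 : 4 ^ (2 * t) = 16 ^ t := by rw [pow_mul]; norm_num
      have e4 : 16 ^ t ≤ 64 ^ t := Nat.pow_le_pow_left (by norm_num) t
      have e5 : (N.powerset ×ˢ N.powerset).card ≤ 64 ^ t := by
        rw [e1]
        exact (e2.trans e3.le).trans e4
      exact_mod_cast e5
    calc ∑ x ∈ slots V t, c x ^ 2 ≤ ∑ p ∈ N.powerset ×ˢ N.powerset, c (φ p) ^ 2 := by
          rw [← h4]; exact h3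
      _ ≤ ((N.powerset ×ˢ N.powerset).card : ℝ) * (4 * t + 4 : ℝ) ^ 2 := h6
      _ ≤ 64 ^ t * (4 * t + 4 : ℝ) ^ 2 := mul_le_mul_of_nonneg_right h7 (sq_nonneg _)
      _ = Bd t := by unfold Bd; ring
  · -- orthogonality
    intro r hr
    have h3 : ∑ s ∈ (slots V t).filter (fun s => r.1 ⊆ s.1 ∧ r.2 ⊆ s.2), c s =
        ∑ s ∈ (N.powerset ×ˢ N.powerset).image φ,
          (if r.1 ⊆ s.1 ∧ r.2 ⊆ s.2 then c s else 0) := by
      rw [Finset.sum_filter]
      have h4 : ∀ s ∈ slots V t, s ∉ (N.powerset ×ˢ N.powerset).image φ →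
          (if r.1 ⊆ s.1 ∧ r.2 ⊆ s.2 then c s else 0) = 0 := by
        intro s _ hs
        have h5 : c s = 0 := by
          by_contra h6
          obtain ⟨p, hp, hps⟩ := himg s h6
          exact hs (mem_image.2 ⟨p, hp, hps⟩)
        rw [h5, ite_self]
      have h5 : ∀ s ∈ (N.powerset ×ˢ N.powerset).image φ, s ∉ slots V t →
          (if r.1 ⊆ s.1 ∧ r.2 ⊆ s.2 then c s else 0) = 0 := by
        intro s hs hns
        obtain ⟨p, hp, rfl⟩ := mem_image.1 hs
        have h6 : c (φ p) = 0 := by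
          have hp' := mem_product.1 hp
          rw [mem_powerset, mem_powerset] at hp'
          have e1 : c (φ p) = kap I L a p.1 p.2 / κ := hcval p.1 p.2 hp'.1 hp'.2
          rw [e1, hslot p hp hns, zero_div]
        rw [h6, ite_self]
      have e1 := Finset.sum_subset (inter_subset_left :
        slots V t ∩ (N.powerset ×ˢ N.powerset).image φ ⊆ slots V t)
        (f := fun s => if r.1 ⊆ s.1 ∧ r.2 ⊆ s.2 then c s else 0)
        (fun s hs hs2 => h4 s hs fun h => hs2 (mem_inter.2 ⟨hs, h⟩))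
      have e2 := Finset.sum_subset (inter_subset_right :
        slots V t ∩ (N.powerset ×ˢ N.powerset).image φ ⊆ (N.powerset ×ˢ N.powerset).image φ)
        (f := fun s => if r.1 ⊆ s.1 ∧ r.2 ⊆ s.2 then c s else 0)
        (fun s hs hs2 => h5 s hs fun h => hs2 (mem_inter.2 ⟨h, hs⟩))
      rw [← e1, ← e2]
    rw [h3, Finset.sum_image fun p hp q hq h => hinj hp hq h]
    have h4 : ∀ p ∈ N.powerset ×ˢ N.powerset,
        (if r.1 ⊆ (φ p).1 ∧ r.2 ⊆ (φ p).2 then c (φ p) else 0) =
        (if r.1 ⊆ T ∪ p.1 ∧ r.2 ⊆ T' ∪ p.2 then kap I L a p.1 p.2 else 0) * κ⁻¹ := by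
      intro p hp
      rw [mem_product, mem_powerset, mem_powerset] at hp
      have e1 : c (φ p) = kap I L a p.1 p.2 / κ := hcval p.1 p.2 hp.1 hp.2
      rw [e1]
      simp only [hφ]
      by_cases h5 : r.1 ⊆ T ∪ p.1 ∧ r.2 ⊆ T' ∪ p.2
      · rw [if_pos h5, if_pos h5, div_eq_mul_inv]
      · rw [if_neg h5, if_neg h5, zero_mul]
    rw [Finset.sum_congr rfl h4, ← Finset.sum_mul, loc_sum hNT hNT' I L a hL hun hr, zero_mul]

end Pool.Agent.H37.AV
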