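import Pool.Agent.H37.AV.Defs

/-!
Module Neg.  Members `A` with a member `B`, `|A ∩ B| < t`, `2 |A| + |B| < n - 4 s` are few (`n = |V|`).

For `b, k ≤ n` let `y(b, k)` be the number of `P ⊆ V` with `|P| = k`, `Up P`, and `|P ∩ B| ≤ t` for some `B ∈ R` with
`|B| = b`.  Adding to such a `P` an element of `V \ (P ∪ B)` (at least `n - k - b` elements) keeps the
property, and a set of size `k + 1` arises from at most `k + 1` sets: `(n - k - b) y(b,k) ≤ (k+1) y(b,k+1)`.
Let `k_b = ⌊(n - b)/2⌋ - s`.  For `k < k_b`: `n - b ≥ 2 k_b + 2 s ≥ 2 (k + 1) + 2 s`, so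
`n - k - b ≥ k + 2 + 2 s ≥ (k + 1)(1 + 2 s / n)`, and `(1 + 2s/n) y(b,k) ≤ y(b,k+1)`.
If `2 |A| + |B| + 4 s < n`, `a = |A|`, `b = |B|` then `a ≤ k_b - s`, so
`#{A ∈ Ng : |A| = a, |B| = b} ≤ y(b,a) ≤ (1 + 2s/n)^(-s) y(b, k_b)`, and `k_b ≥ s`, so
`y(b, k_b) ≤ #{P : InY P, |P| ≥ s}`.  Sum over `a, b ≤ n`.
-/

open Finset

namespace Pool.Agent.H37.AV

/-- Members with a small partner. -/
noncomputable def Ng (V : Finset ℕ) (t : ℕ) (R : Finset (Finset ℕ)) (s : ℕ) : Finset (Finset ℕ) := by
  classical exact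
    R.filter (fun A => ∃ B ∈ R, (A ∩ B).card < t ∧ 2 * A.card + B.card + 4 * s < V.card)

theorem mem_Ng {V : Finset ℕ} {t : ℕ} {R : Finset (Finset ℕ)} {s : ℕ} {A : Finset ℕ} :
    A ∈ Ng V t R s ↔
      A ∈ R ∧ ∃ B ∈ R, (A ∩ B).card < t ∧ 2 * A.card + B.card + 4 * s < V.card := by
  classical
  simp only [Ng, mem_filter]

/-- Supersets of members of size `k` with small intersection with a member of size `b`. -/
private noncomputable def negY (V : Finset ℕ) (t : ℕ) (R : Finset (Finset ℕ)) (b k : ℕ) :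
    Finset (Finset ℕ) := by
  classical
  exact V.powerset.filter
    (fun P => P.card = k ∧ Up R P ∧ ∃ B ∈ R, B.card = b ∧ (P ∩ B).card ≤ t)

private theorem mem_negY {V : Finset ℕ} {t : ℕ} {R : Finset (Finset ℕ)} {b k : ℕ} {P : Finset ℕ} :
    P ∈ negY V t R b k ↔
      P ⊆ V ∧ P.card = k ∧ Up R P ∧ ∃ B ∈ R, B.card = b ∧ (P ∩ B).card ≤ t := by
  classical
  simp only [negY, mem_filter, mem_powerset]

private theorem neg_double {V : Finset ℕ} {t : ℕ} {R : Finset (Finset ℕ)} (b k : ℕ) :
    (negY V t R b k).card * (V.card - k - b) ≤ (negY V t R b (k + 1)).card * (k + 1) := by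
  classical
  refine Finset.card_mul_le_card_mul (fun P P' : Finset ℕ => P ⊆ P') ?_ ?_
  · intro P hP
    obtain ⟨hPV, hPk, hup, B, hB, hBb, hPB⟩ := mem_negY.1 hP
    have hsub : (V \ (P ∪ B)).image (fun x => insert x P) ⊆
        Finset.bipartiteAbove (fun P P' : Finset ℕ => P ⊆ P') (negY V t R b (k + 1)) P := by
      intro P' hP'
      obtain ⟨x, hx, rfl⟩ := mem_image.1 hP'
      rw [mem_sdiff, mem_union, not_or] at hx
      rw [Finset.mem_bipartiteAbove]
      refine ⟨mem_negY.2 ⟨insert_subset hx.1 hPV, ?_, hup.mono (subset_insert _ _), B, hB, hBb, ?_⟩,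
        subset_insert _ _⟩
      · rw [card_insert_of_notMem hx.2.1, hPk]
      · rw [insert_inter_of_notMem hx.2.2]
        exact hPB
    refine le_trans ?_ (card_le_card hsub)
    rw [card_image_of_injOn]
    · have h1 : (P ∪ B).card ≤ k + b := by
        rw [← hPk, ← hBb]; exact card_union_le _ _
      have h2 := le_card_sdiff (P ∪ B) V
      omega
    · intro x hx y hy hxy
      simp only [coe_sdiff, coe_union, Set.mem_sdiff, Set.mem_union, not_or, mem_coe] at hx hy
      have h1 : x ∈ insert y P := by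
        have : insert x P = insert y P := hxy
        rw [← this]; exact mem_insert_self _ _
      exact (mem_insert.1 h1).resolve_right hx.2.1
  · intro P' hP'
    obtain ⟨hPV, hPk, -⟩ := mem_negY.1 hP'
    have hsub : Finset.bipartiteBelow (fun P P' : Finset ℕ => P ⊆ P') (negY V t R b k) P' ⊆
        P'.image (fun x => P'.erase x) := by
      intro P hP
      rw [Finset.mem_bipartiteBelow] at hP
      obtain ⟨hP1, hP2⟩ := hP
      obtain ⟨-, hk, -⟩ := mem_negY.1 hP1
      have h1 : (P' \ P).card = 1 := by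
        rw [card_sdiff_of_subset hP2]; omega
      obtain ⟨x, hx⟩ := card_eq_one.1 h1
      have hxP' : x ∈ P' \ P := by rw [hx]; exact mem_singleton_self x
      refine mem_image.2 ⟨x, (mem_sdiff.1 hxP').1, ?_⟩
      ext z
      rw [mem_erase]
      constructor
      · rintro ⟨hzx, hz⟩
        by_contra hzP
        have : z ∈ P' \ P := mem_sdiff.2 ⟨hz, hzP⟩
        rw [hx, mem_singleton] at this
        exact hzx this
      · intro hz
        refine ⟨?_, hP2 hz⟩
        rintro rfl
        exact (mem_sdiff.1 hxP').2 hz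
    refine (card_le_card hsub).trans ?_
    rw [← hPk]
    exact card_image_le

private theorem neg_step {V : Finset ℕ} {t : ℕ} {R : Finset (Finset ℕ)} {b k s : ℕ}
    (h : 2 * (k + 1) + b + 2 * s ≤ V.card) :
    ((negY V t R b k).card : ℝ) * (1 + 2 * s / V.card) ≤ (negY V t R b (k + 1)).card := by
  have h1 := neg_double (V := V) (t := t) (R := R) b k
  have hn : (0 : ℝ) < V.card := by
    have : 0 < V.card := by omega
    exact_mod_cast this
  have h2 : ((negY V t R b k).card : ℝ) * (k + 2 + 2 * s) ≤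
      (negY V t R b (k + 1)).card * (k + 1) := by
    have h3 : (negY V t R b k).card * (k + 2 + 2 * s) ≤ (negY V t R b (k + 1)).card * (k + 1) :=
      (Nat.mul_le_mul_left _ (by omega)).trans h1
    exact_mod_cast h3
  have hk : (0 : ℝ) < k + 1 := by positivity
  have h4 : ((k : ℝ) + 1) * (1 + 2 * s / V.card) ≤ k + 2 + 2 * s := by
    have h5 : ((k : ℝ) + 1) / V.card ≤ 1 := by
      rw [div_le_one hn]
      have : k + 1 ≤ V.card := by omega
      exact_mod_cast this
    have h6 : ((k : ℝ) + 1) * (1 + 2 * s / V.card) = (k + 1) + 2 * s * ((k + 1) / V.card) := by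
      field_simp
    rw [h6]
    have h7 : (2 * s : ℝ) * ((k + 1) / V.card) ≤ 2 * s * 1 :=
      mul_le_mul_of_nonneg_left h5 (by positivity)
    linarith
  have h8 : (((negY V t R b k).card : ℝ) * (1 + 2 * s / V.card)) * (k + 1) ≤
      (negY V t R b (k + 1)).card * (k + 1) := by
    calc (((negY V t R b k).card : ℝ) * (1 + 2 * s / V.card)) * (k + 1)
        = (negY V t R b k).card * ((k + 1) * (1 + 2 * s / V.card)) := by ring
      _ ≤ (negY V t R b k).card * (k + 2 + 2 * s) :=
          mul_le_mul_of_nonneg_left h4 (Nat.cast_nonneg _)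
      _ ≤ _ := h2
  exact le_of_mul_le_mul_right h8 hk

private theorem neg_iter {V : Finset ℕ} {t : ℕ} {R : Finset (Finset ℕ)} {a b s : ℕ} (m : ℕ)
    (h : 2 * (a + m) + b + 2 * s ≤ V.card) :
    ((negY V t R b a).card : ℝ) * (1 + 2 * s / V.card) ^ m ≤ (negY V t R b (a + m)).card := by
  induction m with
  | zero => simp
  | succ m ih =>
    have h1 := ih (by omega)
    have h2 := neg_step (V := V) (t := t) (R := R) (b := b) (k := a + m) (s := s) (by omega)
    have h3 : (0 : ℝ) ≤ 1 + 2 * s / V.card := by positivity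
    calc ((negY V t R b a).card : ℝ) * (1 + 2 * s / V.card) ^ (m + 1)
        = ((negY V t R b a).card : ℝ) * (1 + 2 * s / V.card) ^ m * (1 + 2 * s / V.card) := by
          rw [pow_succ]; ring
      _ ≤ (negY V t R b (a + m)).card * (1 + 2 * s / V.card) :=
          mul_le_mul_of_nonneg_right h1 h3
      _ ≤ _ := h2

theorem neg_bound {V : Finset ℕ} {t : ℕ} {R : Finset (Finset ℕ)} (h : Av V t R) {s : ℕ}
    (hs : 1 ≤ s) :
    ((Ng V t R s).card : ℝ) * (1 + 2 * s / V.card) ^ s ≤
      ((V.card : ℝ) + 1) ^ 2 * (V.powerset.filter (fun P => InY t R P ∧ s ≤ P.card)).card := by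
  classical
  set F := V.powerset.filter (fun P => InY t R P ∧ s ≤ P.card) with hF
  set N : ℕ → ℕ → Finset (Finset ℕ) := fun a b => (Ng V t R s).filter
    (fun A => A.card = a ∧ ∃ B ∈ R, B.card = b ∧ (A ∩ B).card < t ∧
      2 * A.card + B.card + 4 * s < V.card) with hN
  have hcov : Ng V t R s ⊆ (range (V.card + 1) ×ˢ range (V.card + 1)).biUnion
      (fun p => N p.1 p.2) := by
    intro A hA
    obtain ⟨hAR, B, hB, hAB, hlt⟩ := mem_Ng.1 hA
    rw [mem_biUnion]
    refine ⟨(A.card, B.card), ?_, ?_⟩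
    · rw [mem_product, mem_range, mem_range]
      constructor
      · show A.card < V.card + 1
        omega
      · show B.card < V.card + 1
        omega
    · rw [hN, mem_filter]
      exact ⟨hA, rfl, B, hB, rfl, hAB, hlt⟩
  have hq : (0 : ℝ) ≤ (1 + 2 * s / V.card) ^ s := by positivity
  have hab : ∀ a b, ((N a b).card : ℝ) * (1 + 2 * s / V.card) ^ s ≤ F.card := by
    intro a b
    by_cases hne : (N a b).Nonempty
    · obtain ⟨A0, hA0⟩ := hne
      rw [hN, mem_filter] at hA0
      obtain ⟨-, hA0a, B0, -, hB0b, -, hlt0⟩ := hA0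
      have h1 : (N a b) ⊆ negY V t R b a := by
        intro A hA
        rw [hN, mem_filter] at hA
        obtain ⟨hA1, hAa, B, hB, hBb, hAB, -⟩ := hA
        obtain ⟨hAR, -⟩ := mem_Ng.1 hA1
        exact mem_negY.2 ⟨h.sub A hAR, hAa, ⟨A, hAR, Subset.rfl⟩, B, hB, hBb, hAB.le⟩
      have h2 := neg_iter (V := V) (t := t) (R := R) (a := a) (b := b) (s := s) s (by omega)
      have h3 : negY V t R b (a + s) ⊆ F := by
        intro P hP
        obtain ⟨hPV, hPk, hup, B, hB, -, hPB⟩ := mem_negY.1 hP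
        rw [hF, mem_filter, mem_powerset]
        exact ⟨hPV, ⟨hup, B, hB, hPB⟩, by omega⟩
      calc ((N a b).card : ℝ) * (1 + 2 * s / V.card) ^ s
          ≤ ((negY V t R b a).card : ℝ) * (1 + 2 * s / V.card) ^ s :=
            mul_le_mul_of_nonneg_right (by exact_mod_cast card_le_card h1) hq
        _ ≤ (negY V t R b (a + s)).card := h2
        _ ≤ F.card := by exact_mod_cast card_le_card h3
    · rw [not_nonempty_iff_eq_empty.1 hne]
      simp
  have hcard : ((Ng V t R s).card : ℝ) ≤
      ∑ p ∈ range (V.card + 1) ×ˢ range (V.card + 1), ((N p.1 p.2).card : ℝ) := by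
    have h1 := (card_le_card hcov).trans card_biUnion_le
    exact_mod_cast h1
  calc ((Ng V t R s).card : ℝ) * (1 + 2 * s / V.card) ^ s
      ≤ (∑ p ∈ range (V.card + 1) ×ˢ range (V.card + 1), ((N p.1 p.2).card : ℝ)) *
        (1 + 2 * s / V.card) ^ s := mul_le_mul_of_nonneg_right hcard hq
    _ = ∑ p ∈ range (V.card + 1) ×ˢ range (V.card + 1),
        ((N p.1 p.2).card : ℝ) * (1 + 2 * s / V.card) ^ s := by rw [sum_mul]
    _ ≤ ∑ _p ∈ range (V.card + 1) ×ˢ range (V.card + 1), (F.card : ℝ) :=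
        sum_le_sum fun p _ => hab p.1 p.2
    _ = _ := by
        rw [sum_const, card_product, card_range, nsmul_eq_mul]
        push_cast
        ring

end Pool.Agent.H37.AV
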