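import Pool.Agent.H37.AV.Sym

/-!
Module Nonmain.  Reduction of sums over `S2` to main slots.

Let all members have at least `2 t` elements, `g ≥ 0`, and `g s ≤ g (s.1, s.2 - x)` for `x ∈ s.2`.  For
`k < t - 1` let `A k`, `B k` be the sums of `g` over the slots of `S2`, `S1` with `|ker| = k`.  For `s ∈ S2` with
`|ker V s| = k` and `x ∈ s.2` the pair `(s.1, s.2 - x)` is a slot with `|ker| = k + 1 < t`; it is in `S2` or in
`S1` (`InY s.1` by `inY_of_up`).  `|s.2| ≥ 2 t`, and every slot with `|ker| = k + 1` is obtained from at most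
`k + 1 ≤ t` pairs `(s, x)` (`x` is in its kernel).  So `2 t A k ≤ t (A (k+1) + B (k+1))`,
`A k ≤ (A (k+1) + B (k+1)) / 2`, and `∑_{k ≤ t-1} A k ≤ 2 A (t-1) + ∑ B k` by induction.

`sum_S2_mains`: the main slots of `S2` are the disjoint union of `N2` and `Th`.
-/

open Finset

namespace Pool.Agent.H37.AV

theorem sum_S2_mains {V : Finset ℕ} {t : ℕ} {R : Finset (Finset ℕ)} (g : Slot → ℝ) :
    ∑ s ∈ (S2 V t R).filter (fun s => s ∈ mains V t), g s =
      ∑ s ∈ N2 V t R, g s + ∑ s ∈ Th V t R, g s := by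
  classical
  rw [← Finset.sum_filter_add_sum_filter_not ((S2 V t R).filter (fun s => s ∈ mains V t))
    (fun s => NR V t R s)]
  congr 1
  · refine Finset.sum_congr ?_ fun _ _ => rfl
    ext s
    simp only [mem_filter, mem_S2, mem_N2]
    constructor
    · rintro ⟨⟨⟨_, h1, h2⟩, h3⟩, h4⟩
      exact ⟨h3, h1, h2, h4⟩
    · rintro ⟨h3, h1, h2, h4⟩
      exact ⟨⟨⟨mains_sub h3, h1, h2⟩, h3⟩, h4⟩
  · refine Finset.sum_congr ?_ fun _ _ => rfl
    ext s
    simp only [mem_filter, mem_S2, mem_Th]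
    constructor
    · rintro ⟨⟨⟨_, h1, h2⟩, h3⟩, h4⟩
      exact ⟨h3, h1, h2, h4⟩
    · rintro ⟨h3, h1, h2, h4⟩
      exact ⟨⟨⟨mains_sub h3, h1, h2⟩, h3⟩, h4⟩

private theorem Nonmain_ker {V : Finset ℕ} {s : Slot} {x : ℕ} (h2 : s.2 ⊆ V)
    (hd : Disjoint s.1 s.2) (hx : x ∈ s.2) :
    ker V (s.1, s.2.erase x) = insert x (ker V s) := by
  ext y
  simp only [ker, mem_sdiff, mem_union, mem_erase, mem_insert]
  have hx1 : x ∉ s.1 := fun h => (Finset.disjoint_left.mp hd h) hx
  constructor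
  · rintro ⟨hy, hn⟩
    by_cases e : y = x
    · exact Or.inl e
    · refine Or.inr ⟨hy, fun h => hn ?_⟩
      rcases h with h | h
      · exact Or.inl h
      · exact Or.inr ⟨e, h⟩
  · rintro (rfl | ⟨hy, hn⟩)
    · refine ⟨h2 hx, ?_⟩
      rintro (h | h)
      · exact hx1 h
      · exact h.1 rfl
    · refine ⟨hy, fun h => hn ?_⟩
      rcases h with h | h
      · exact Or.inl h
      · exact Or.inr h.2

private theorem Nonmain_step {V : Finset ℕ} {t : ℕ} {R : Finset (Finset ℕ)}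
    (hw : ∀ A ∈ R, 2 * t ≤ A.card) (g : Slot → ℝ) (hg : ∀ s, 0 ≤ g s)
    (hmono : ∀ s : Slot, ∀ x ∈ s.2, g s ≤ g (s.1, s.2.erase x)) {k : ℕ} (hk : k + 1 < t) :
    2 * ∑ s ∈ (S2 V t R).filter (fun s => (ker V s).card = k), g s ≤
      ∑ s ∈ (S2 V t R).filter (fun s => (ker V s).card = k + 1), g s +
      ∑ s ∈ (S1 V t R).filter (fun s => (ker V s).card = k + 1), g s := by
  classical
  have ht : (0 : ℝ) < t := by
    have : 0 < t := by omega
    exact_mod_cast this
  set Ak := (S2 V t R).filter (fun s => (ker V s).card = k) with hAk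
  set Bk := (S2 V t R).filter (fun s => (ker V s).card = k + 1) with hBk
  set Ck := (S1 V t R).filter (fun s => (ker V s).card = k + 1) with hCk
  have hdis : Disjoint Bk Ck := by
    rw [Finset.disjoint_left]
    intro s h1 h2
    rw [hBk, mem_filter, mem_S2] at h1
    rw [hCk, mem_filter, mem_S1] at h2
    exact h2.1.2.2 h1.1.2.2
  have c1 : (2 * (t : ℝ)) * ∑ s ∈ Ak, g s ≤ ∑ s ∈ Ak, ∑ x ∈ s.2, g (s.1, s.2.erase x) := by
    rw [Finset.mul_sum]
    refine Finset.sum_le_sum fun s hs => ?_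
    rw [hAk, mem_filter, mem_S2] at hs
    obtain ⟨⟨_, _, A, hA, hAs⟩, _⟩ := hs
    have hc : 2 * t ≤ s.2.card := (hw A hA).trans (card_le_card hAs)
    have hc' : (2 * (t : ℝ)) ≤ (s.2.card : ℝ) := by exact_mod_cast hc
    calc 2 * (t : ℝ) * g s ≤ (s.2.card : ℝ) * g s := mul_le_mul_of_nonneg_right hc' (hg s)
      _ = ∑ x ∈ s.2, g s := by rw [Finset.sum_const, nsmul_eq_mul]
      _ ≤ ∑ x ∈ s.2, g (s.1, s.2.erase x) := Finset.sum_le_sum fun x hx => hmono s x hx
  have c2 : ∑ s ∈ Ak, ∑ x ∈ s.2, g (s.1, s.2.erase x) ≤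
      ∑ s ∈ Bk ∪ Ck, ∑ x ∈ ker V s, g s := by
    rw [Finset.sum_sigma', Finset.sum_sigma']
    have hinj : Set.InjOn (fun p : (_ : Slot) × ℕ =>
        (⟨(p.1.1, p.1.2.erase p.2), p.2⟩ : (_ : Slot) × ℕ)) (Ak.sigma fun s => s.2) := by
      rintro ⟨⟨a, b⟩, x⟩ hp ⟨⟨a', b'⟩, x'⟩ hp' he
      rw [mem_coe, mem_sigma] at hp hp'
      simp only [Sigma.mk.injEq, Prod.mk.injEq, heq_eq_eq] at he
      obtain ⟨⟨h1, h2⟩, h3⟩ := he
      subst h1
      subst h3
      have q1 : x ∈ b := hp.2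
      have q2 : x ∈ b' := hp'.2
      have : b = b' := by
        rw [← insert_erase q1, ← insert_erase q2, h2]
      subst this
      rfl
    calc ∑ p ∈ Ak.sigma (fun s => s.2), g (p.1.1, p.1.2.erase p.2)
        = ∑ q ∈ (Ak.sigma (fun s => s.2)).image (fun p : (_ : Slot) × ℕ =>
            (⟨(p.1.1, p.1.2.erase p.2), p.2⟩ : (_ : Slot) × ℕ)), g q.1 := by
          rw [Finset.sum_image hinj]
      _ ≤ ∑ q ∈ (Bk ∪ Ck).sigma (fun s => ker V s), g q.1 := by
          refine Finset.sum_le_sum_of_subset_of_nonneg ?_ fun q _ _ => hg _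
          intro q hq
          rw [mem_image] at hq
          obtain ⟨⟨s, x⟩, hp, rfl⟩ := hq
          rw [mem_sigma] at hp
          obtain ⟨hs, hx⟩ := hp
          change x ∈ s.2 at hx
          change s ∈ Ak at hs
          rw [hAk, mem_filter, mem_S2, mem_slots] at hs
          obtain ⟨⟨⟨v1, v2, vd, vk⟩, u1, u2⟩, hcard⟩ := hs
          have hker := Nonmain_ker v2 vd hx
          have hxk : x ∉ ker V s := by
            simp only [ker, mem_sdiff, mem_union, not_and, not_not]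
            intro _
            exact Or.inr hx
          have hkc : (ker V (s.1, s.2.erase x)).card = k + 1 := by
            rw [hker, card_insert_of_notMem hxk, hcard]
          have hsl : (s.1, s.2.erase x) ∈ slots V t := by
            rw [mem_slots]
            refine ⟨v1, (erase_subset _ _).trans v2, vd.mono_right (erase_subset _ _), ?_⟩
            rw [hkc]
            exact hk
          rw [mem_sigma]
          refine ⟨?_, ?_⟩
          · change (s.1, s.2.erase x) ∈ Bk ∪ Ck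
            rw [mem_union]
            by_cases hup : Up R (s.2.erase x)
            · left
              rw [hBk, mem_filter, mem_S2]
              exact ⟨⟨hsl, u1, hup⟩, hkc⟩
            · right
              rw [hCk, mem_filter, mem_S1]
              exact ⟨⟨hsl, inY_of_up vd u1 u2, hup⟩, hkc⟩
          · change x ∈ ker V (s.1, s.2.erase x)
            rw [hker]
            exact mem_insert_self _ _
  have c3 : ∑ s ∈ Bk ∪ Ck, ∑ x ∈ ker V s, g s = ((k : ℝ) + 1) * ∑ s ∈ Bk ∪ Ck, g s := by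
    rw [Finset.mul_sum]
    refine Finset.sum_congr rfl fun s hs => ?_
    have hkc : (ker V s).card = k + 1 := by
      rw [mem_union, hBk, hCk, mem_filter, mem_filter] at hs
      rcases hs with hs | hs
      · exact hs.2
      · exact hs.2
    rw [Finset.sum_const, hkc, nsmul_eq_mul]
    push_cast
    ring
  have c4 : 0 ≤ ∑ s ∈ Bk ∪ Ck, g s := Finset.sum_nonneg fun s _ => hg s
  have c5 : ((k : ℝ) + 1) ≤ t := by
    have : k + 1 ≤ t := by omega
    exact_mod_cast this
  rw [← Finset.sum_union hdis]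
  have c6 : (2 * (t : ℝ)) * ∑ s ∈ Ak, g s ≤ t * ∑ s ∈ Bk ∪ Ck, g s := by
    calc (2 * (t : ℝ)) * ∑ s ∈ Ak, g s ≤ ((k : ℝ) + 1) * ∑ s ∈ Bk ∪ Ck, g s := by
          rw [← c3]
          exact c1.trans c2
      _ ≤ t * ∑ s ∈ Bk ∪ Ck, g s := mul_le_mul_of_nonneg_right c5 c4
  have c7 : (t : ℝ) * (2 * ∑ s ∈ Ak, g s) ≤ t * ∑ s ∈ Bk ∪ Ck, g s := by
    calc (t : ℝ) * (2 * ∑ s ∈ Ak, g s) = (2 * (t : ℝ)) * ∑ s ∈ Ak, g s := by ring
      _ ≤ _ := c6
  exact le_of_mul_le_mul_left c7 ht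

theorem nonmain {V : Finset ℕ} {t : ℕ} {R : Finset (Finset ℕ)} (ht : 1 ≤ t) (h : Av V t R)
    (hw : ∀ A ∈ R, 2 * t ≤ A.card) (g : Slot → ℝ) (hg : ∀ s, 0 ≤ g s)
    (hmono : ∀ s : Slot, ∀ x ∈ s.2, g s ≤ g (s.1, s.2.erase x)) :
    ∑ s ∈ S2 V t R, g s ≤
      2 * (∑ s ∈ N2 V t R, g s + ∑ s ∈ Th V t R, g s) + 2 * ∑ s ∈ S1 V t R, g s := by
  classical
  have _ := h
  have hA0 : ∀ k, 0 ≤ ∑ s ∈ (S2 V t R).filter (fun s => (ker V s).card = k), g s :=
    fun k => Finset.sum_nonneg fun s _ => hg s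
  have hB0 : ∀ k, 0 ≤ ∑ s ∈ (S1 V t R).filter (fun s => (ker V s).card = k), g s :=
    fun k => Finset.sum_nonneg fun s _ => hg s
  have key : ∀ m, m < t →
      ∑ k ∈ range (m + 1), ∑ s ∈ (S2 V t R).filter (fun s => (ker V s).card = k), g s ≤
      2 * ∑ s ∈ (S2 V t R).filter (fun s => (ker V s).card = m), g s +
      ∑ k ∈ range (m + 1), ∑ s ∈ (S1 V t R).filter (fun s => (ker V s).card = k), g s := by
    intro m
    induction m with
    | zero =>
      intro _
      simp only [zero_add, sum_range_one]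
      linarith [hA0 0, hB0 0]
    | succ m ih =>
      intro hm
      have h1 := ih (by omega)
      have h2 := Nonmain_step hw g hg hmono (V := V) (R := R) hm
      rw [sum_range_succ, sum_range_succ (fun k => ∑ s ∈ (S1 V t R).filter
        (fun s => (ker V s).card = k), g s) (m + 1)]
      linarith
  have hk := key (t - 1) (by omega)
  have ht1 : t - 1 + 1 = t := by omega
  rw [ht1] at hk
  have p2 : ∑ k ∈ range t, ∑ s ∈ (S2 V t R).filter (fun s => (ker V s).card = k), g s =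
      ∑ s ∈ S2 V t R, g s := by
    refine Finset.sum_fiberwise_of_maps_to (fun s hs => ?_) g
    rw [mem_range]
    exact (mem_slots.1 (mem_S2.1 hs).1).2.2.2
  have p1 : ∑ k ∈ range t, ∑ s ∈ (S1 V t R).filter (fun s => (ker V s).card = k), g s =
      ∑ s ∈ S1 V t R, g s := by
    refine Finset.sum_fiberwise_of_maps_to (fun s hs => ?_) g
    rw [mem_range]
    exact (mem_slots.1 (mem_S1.1 hs).1).2.2.2
  have p3 : ∑ s ∈ (S2 V t R).filter (fun s => (ker V s).card = t - 1), g s =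
      ∑ s ∈ N2 V t R, g s + ∑ s ∈ Th V t R, g s := by
    rw [← sum_S2_mains]
    refine Finset.sum_congr ?_ fun _ _ => rfl
    ext s
    simp only [mem_filter, and_congr_right_iff]
    intro hs
    obtain ⟨h1, h2, h3, h4⟩ := mem_slots.1 (mem_S2.1 hs).1
    rw [mem_mains]
    constructor
    · intro h5
      exact ⟨h1, h2, h3, by omega⟩
    · rintro ⟨_, _, _, h5⟩
      omega
  have hS1 : 0 ≤ ∑ s ∈ S1 V t R, g s := Finset.sum_nonneg fun s _ => hg s
  rw [p2, p1, p3] at hk
  linarith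

end Pool.Agent.H37.AV
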