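import Pool.Agent.H45.TA.Transfer
import Pool.Agent.H37.WK.Trans

/-!
The case `t = 1` (from the hand-in CaseOne of helper45), for the definitions of `WK.Trans`.
-/

open Finset

namespace Pool.Agent.H37.AV.One

open Pool.Agent.H45.TA

/-- `IsStronglyAvoiding t F`: no two members of `F`, distinct or equal, meet in exactly `t`
elements (so `F` has no member of size `t` either). -/
def IsStronglyAvoiding (t : ℕ) (F : Finset (Finset ℕ)) : Prop :=
  ∀ A ∈ F, ∀ B ∈ F, (A ∩ B).card ≠ t

/-- The number `d(F)` of unordered pairs `{A, B}` of distinct members of `F` with `A ∩ B = ∅`: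
the number of two-element subfamilies of `F` whose two members are disjoint. -/
def disjPairs (F : Finset (Finset ℕ)) : ℕ :=
  ((F.powersetCard 2).filter (fun P => ∀ A ∈ P, ∀ B ∈ P, A ≠ B → A ∩ B = ∅)).card

/-- The family `F(n,t)` of subsets of `[n] = {1,…,n}`. -/
def baseFamily (n t : ℕ) : Finset (Finset ℕ) :=
  if Odd (n + t) then (Icc 1 n).powerset.filter (fun A => n + t + 1 ≤ 2 * A.card)
  else (Icc 1 n).powerset.filter (fun A => n + t ≤ 2 * (A ∩ (Icc 1 n \ {1})).card)

/-- The family `F*(n,t) = F(n,t) ∪ [n]^(≤ t-1)`. -/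
def starFamily (n t : ℕ) : Finset (Finset ℕ) :=
  baseFamily n t ∪ (Icc 1 n).powerset.filter (fun A => A.card + 1 ≤ t)

/-- The ordered disjoint pairs of members. -/
def opairs (F : Finset (Finset ℕ)) : Finset (Finset ℕ × Finset ℕ) :=
  (F ×ˢ F).filter (fun p => Disjoint p.1 p.2)

lemma two_mul_disjPairs (F : Finset (Finset ℕ)) :
    2 * disjPairs F + (if ∅ ∈ F then 1 else 0) = (opairs F).card := by
  classical
  have h1 : (opairs F).card = ((opairs F).filter (fun p => p.1 ≠ p.2)).card
      + ((opairs F).filter (fun p => ¬ p.1 ≠ p.2)).card :=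
    (Finset.card_filter_add_card_filter_not _).symm
  have h2 : ((opairs F).filter (fun p => ¬ p.1 ≠ p.2)).card = if ∅ ∈ F then 1 else 0 := by
    split_ifs with h
    · rw [Finset.card_eq_one]
      refine ⟨(∅, ∅), ?_⟩
      ext p
      unfold opairs
      rw [Finset.mem_filter, Finset.mem_filter, Finset.mem_product, Finset.mem_singleton,
        Classical.not_not]
      constructor
      · rintro ⟨⟨-, hd⟩, he⟩
        rw [← he, disjoint_self] at hd
        exact Prod.ext hd (he ▸ hd)
      · rintro rfl
        exact ⟨⟨⟨h, h⟩, Finset.disjoint_empty_left _⟩, rfl⟩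
    · rw [Finset.card_eq_zero, Finset.eq_empty_iff_forall_notMem]
      intro p hp
      unfold opairs at hp
      rw [Finset.mem_filter, Finset.mem_filter, Finset.mem_product, Classical.not_not] at hp
      obtain ⟨⟨⟨h3, -⟩, hd⟩, he⟩ := hp
      rw [← he, disjoint_self] at hd
      rw [hd] at h3
      exact h h3
  have h3 : ((opairs F).filter (fun p => p.1 ≠ p.2)).card = 2 * disjPairs F := by
    unfold disjPairs
    rw [Finset.card_eq_sum_card_fiberwise (f := fun p => ({p.1, p.2} : Finset (Finset ℕ)))
      (t := (F.powersetCard 2).filter (fun P => ∀ A ∈ P, ∀ B ∈ P, A ≠ B → A ∩ B = ∅))]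
    · rw [Finset.sum_const_nat (m := 2), Nat.mul_comm]
      intro P hP
      rw [Finset.mem_filter, Finset.mem_powersetCard] at hP
      obtain ⟨⟨hPF, hP2⟩, hPd⟩ := hP
      obtain ⟨A, B, hAB, rfl⟩ := Finset.card_eq_two.mp hP2
      have hA : A ∈ F := hPF (by simp)
      have hB : B ∈ F := hPF (by simp)
      have hd : Disjoint A B := by
        rw [Finset.disjoint_iff_inter_eq_empty]
        exact hPd A (by simp) B (by simp) hAB
      rw [Finset.card_eq_two]
      refine ⟨(A, B), (B, A), ?_, ?_⟩
      · intro h
        exact hAB (Prod.ext_iff.mp h).1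
      · ext p
        unfold opairs
        simp only [Finset.mem_filter, Finset.mem_product, Finset.mem_insert,
          Finset.mem_singleton]
        constructor
        · rintro ⟨⟨⟨-, hd'⟩, hne⟩, heq⟩
          have e1 : p.1 = A ∨ p.1 = B := by
            have : p.1 ∈ ({p.1, p.2} : Finset (Finset ℕ)) := by simp
            rw [heq] at this
            simpa using this
          have e2 : p.2 = A ∨ p.2 = B := by
            have : p.2 ∈ ({p.1, p.2} : Finset (Finset ℕ)) := by simp
            rw [heq] at this
            simpa using this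
          rcases e1 with e1 | e1 <;> rcases e2 with e2 | e2
          · exact absurd (e1.trans e2.symm) hne
          · left
            exact Prod.ext e1 e2
          · right
            exact Prod.ext e1 e2
          · exact absurd (e1.trans e2.symm) hne
        · rintro (rfl | rfl)
          · exact ⟨⟨⟨⟨hA, hB⟩, hd⟩, hAB⟩, rfl⟩
          · exact ⟨⟨⟨⟨hB, hA⟩, hd.symm⟩, hAB.symm⟩, Finset.pair_comm _ _⟩
    · intro p hp
      rw [Finset.mem_coe, Finset.mem_filter] at hp
      obtain ⟨hp, hne⟩ := hp
      unfold opairs at hp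
      rw [Finset.mem_filter, Finset.mem_product] at hp
      rw [Finset.mem_coe, Finset.mem_filter, Finset.mem_powersetCard]
      refine ⟨⟨?_, Finset.card_pair hne⟩, ?_⟩
      · intro A hA
        rw [Finset.mem_insert, Finset.mem_singleton] at hA
        rcases hA with rfl | rfl
        · exact hp.1.1
        · exact hp.1.2
      · intro A hA B hB hAB
        rw [Finset.mem_insert, Finset.mem_singleton] at hA hB
        rw [← Finset.disjoint_iff_inter_eq_empty]
        rcases hA with rfl | rfl <;> rcases hB with rfl | rfl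
        · exact absurd rfl hAB
        · exact hp.2
        · exact hp.2.symm
        · exact absurd rfl hAB
  rw [h1, h2, h3]

/-- The bound for strongly avoiding families on a set `V`. -/
lemma strong_bound (V : Finset ℕ) (F : Finset (Finset ℕ)) (hV : ∀ A ∈ F, A ⊆ V)
    (hF : IsStronglyAvoiding 1 F) : (opairs F).card ≤ 2 * kk V.card + 1 :=
  pairs_le V F hV hF

lemma strong_disjPairs (V : Finset ℕ) (F : Finset (Finset ℕ)) (hV : ∀ A ∈ F, A ⊆ V)
    (hF : IsStronglyAvoiding 1 F) : disjPairs F ≤ kk V.card := by
  have h1 := strong_bound V F hV hF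
  have h2 := two_mul_disjPairs F
  omega

/-- The base family has at least `kk n` members. -/
lemma kk_le_base (n : ℕ) : kk n ≤ (baseFamily n 1).card := by
  classical
  rcases Nat.even_or_odd n with he | ho
  · obtain ⟨m, rfl⟩ := he.two_dvd
    have h1 := upper_card (Icc 1 (2 * m)) m (by simp)
    unfold kk baseFamily
    rw [if_pos (by simp), if_pos (by simp), Nat.mul_div_cancel_left m (by norm_num), ← h1]
    apply Finset.card_le_card
    intro A hA
    rw [Finset.mem_filter] at hA ⊢
    refine ⟨hA.1, ?_⟩
    omega
  · obtain ⟨m, rfl⟩ := ho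
    have h1 := upper_card (Icc 2 (2 * m + 1)) m (by simp)
    unfold kk baseFamily
    rw [if_neg (by simp), if_neg (by rw [Nat.not_odd_iff_even]; exact ⟨m + 1, by ring⟩),
      Nat.add_sub_cancel, Nat.mul_div_cancel_left m (by norm_num), ← h1]
    set 𝒲 := (Icc 2 (2 * m + 1)).powerset.filter (fun A => m + 1 ≤ A.card) with h𝒲
    have hmem : ∀ A ∈ 𝒲, A ⊆ Icc 2 (2 * m + 1) ∧ m + 1 ≤ A.card := by
      intro A hA
      rw [h𝒲, Finset.mem_filter, Finset.mem_powerset] at hA
      exact hA
    have h1A : ∀ A ∈ 𝒲, (1 : ℕ) ∉ A := by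
      intro A hA h
      have := (hmem A hA).1 h
      rw [Finset.mem_Icc] at this
      omega
    have hinter : ∀ A ∈ 𝒲, ∀ B : Finset ℕ, A ⊆ B →
        m + 1 ≤ (B ∩ (Icc 1 (2 * m + 1) \ {1})).card := by
      intro A hA B hAB
      apply (hmem A hA).2.trans
      apply Finset.card_le_card
      intro x hx
      rw [Finset.mem_inter, Finset.mem_sdiff, Finset.mem_singleton, Finset.mem_Icc]
      have h2 := (hmem A hA).1 hx
      rw [Finset.mem_Icc] at h2
      exact ⟨hAB hx, by omega, by omega⟩
    have hinj : Set.InjOn (fun A : Finset ℕ => insert 1 A) (𝒲 : Set (Finset ℕ)) := by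
      intro A hA B hB h
      have h2 := congrArg (fun Z : Finset ℕ => Z.erase 1) h
      simp only [Finset.erase_insert (h1A A hA), Finset.erase_insert (h1A B hB)] at h2
      exact h2
    have hdis : Disjoint 𝒲 (𝒲.image (fun A => insert 1 A)) := by
      rw [Finset.disjoint_left]
      intro A hA hA'
      rw [Finset.mem_image] at hA'
      obtain ⟨B, -, rfl⟩ := hA'
      exact h1A _ hA (Finset.mem_insert_self 1 B)
    have h3 : 2 * 𝒲.card = (𝒲 ∪ 𝒲.image (fun A => insert 1 A)).card := by
      rw [Finset.card_union_of_disjoint hdis, Finset.card_image_of_injOn hinj]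
      ring
    rw [h3]
    apply Finset.card_le_card
    intro A hA
    rw [Finset.mem_union, Finset.mem_image] at hA
    rw [Finset.mem_filter, Finset.mem_powerset]
    rcases hA with hA | ⟨B, hB, rfl⟩
    · refine ⟨?_, ?_⟩
      · intro x hx
        have := (hmem A hA).1 hx
        rw [Finset.mem_Icc] at this ⊢
        omega
      · have := hinter A hA A (Finset.Subset.refl A)
        omega
    · refine ⟨?_, ?_⟩
      · intro x hx
        rw [Finset.mem_insert] at hx
        rcases hx with rfl | hx
        · rw [Finset.mem_Icc]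
          omega
        · have := (hmem B hB).1 hx
          rw [Finset.mem_Icc] at this ⊢
          omega
      · have := hinter B hB (insert 1 B) (Finset.subset_insert 1 B)
        omega

lemma empty_notMem_base (n : ℕ) : ∅ ∉ baseFamily n 1 := by
  unfold baseFamily
  split_ifs with h
  · rw [Finset.mem_filter]
    simp
  · rw [Finset.mem_filter]
    simp

/-- The family `F*(n,1)` has at least `kk n` disjoint pairs. -/
lemma kk_le_star (n : ℕ) : kk n ≤ disjPairs (starFamily n 1) := by
  classical
  apply (kk_le_base n).trans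
  unfold disjPairs
  have hinj : Set.InjOn (fun A : Finset ℕ => ({∅, A} : Finset (Finset ℕ)))
      (baseFamily n 1 : Set (Finset ℕ)) := by
    intro A hA B hB h
    have hAe : A ≠ ∅ := fun h' => empty_notMem_base n (h' ▸ hA)
    have h1 : A ∈ ({∅, B} : Finset (Finset ℕ)) := by
      have : ({∅, A} : Finset (Finset ℕ)) = {∅, B} := h
      rw [← this]
      simp
    rw [Finset.mem_insert, Finset.mem_singleton] at h1
    rcases h1 with h1 | h1
    · exact absurd h1 hAe
    · exact h1
  rw [← Finset.card_image_of_injOn hinj]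
  apply Finset.card_le_card
  intro P hP
  rw [Finset.mem_image] at hP
  obtain ⟨A, hA, rfl⟩ := hP
  have hAe : ∅ ≠ A := fun h' => empty_notMem_base n (h' ▸ hA)
  rw [Finset.mem_filter, Finset.mem_powersetCard]
  refine ⟨⟨?_, Finset.card_pair hAe⟩, ?_⟩
  · intro B hB
    rw [Finset.mem_insert, Finset.mem_singleton] at hB
    unfold starFamily
    rw [Finset.mem_union]
    rcases hB with rfl | rfl
    · right
      rw [Finset.mem_filter]
      simp
    · left
      exact hA
  · intro B hB C hC hBC
    rw [Finset.mem_insert, Finset.mem_singleton] at hB hC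
    rcases hB with rfl | rfl <;> rcases hC with rfl | rfl
    · exact absurd rfl hBC
    · simp
    · simp
    · exact absurd rfl hBC


/-- **The case `t = 1`.** -/
theorem one_bound (n : ℕ) (F : Finset (Finset ℕ)) (hV : ∀ A ∈ F, A ⊆ Icc 1 n)
    (hF : WK.IsStronglyAvoiding 1 F) : WK.disjPairs F ≤ WK.disjPairs (WK.starFamily n 1) := by
  have h1 := strong_disjPairs (Icc 1 n) F hV hF
  rw [Nat.card_Icc, Nat.add_sub_cancel] at h1
  have h2 : disjPairs F ≤ disjPairs (starFamily n 1) := h1.trans (kk_le_star n)
  exact h2

end Pool.Agent.H37.AV.One
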