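import Pool.Agent.H37.AV.Prm

/-!
Module ParA.  The numerical condition `e1` for `y^100 ≤ n ≤ 2 y^100`, `h1 = y^32`, `hh = 2 y^50`,
`M = y^64 / 8` (natural division), `α = 4 t / y^37`, `β = 1 / y^60`, `θ = 1 / y^56`, `y` large.

`M - t ≥ y^64/8 - 1 - t ≥ y^64 / 16`, so `4 t n / (M - t) ≤ 4 t · 2 y^100 · 16 / y^64 = 128 t y^36`;
`250 (y^32 + t) ≤ 500 y^36`; so the first term is at most `2 · 4t/y^37 · κ (500 + 128 t) y^36 = C₁(t) / y`.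
The second: `(1/y^60 + 2/y^56) · 240 κ (2 y^50 + t) ≤ 3/y^56 · 240 κ · 3 y^50 = C₂(t) / y^6`.
-/

open Finset

namespace Pool.Agent.H37.AV

theorem par_a (t : ℕ) (ht : 2 ≤ t) : ∃ Y : ℕ, ∀ y ≥ Y, ∀ n : ℕ, y ^ 100 ≤ n → n ≤ 2 * y ^ 100 →
    2 * (4 * t / (y : ℝ) ^ 37) *
        (Bd t * (250 * (((y ^ 32 : ℕ) : ℝ) + t) + 4 * t * n / (((y ^ 64 / 8 : ℕ) : ℝ) - t))) +
      (1 / (y : ℝ) ^ 60 + 2 * (1 / (y : ℝ) ^ 56)) *
        (240 * Bd t * (((2 * y ^ 50 : ℕ) : ℝ) + t)) ≤ 1 / 4 := by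
  obtain ⟨Y, hY⟩ := exists_nat_ge (max (64 * t * Bd t * (500 + 128 * t))
    (max (17280 * Bd t) (16 * (t + 1))) : ℝ)
  refine ⟨max Y 1, fun y hy n _ hn2 => ?_⟩
  have hy1 : 1 ≤ y := (le_max_right _ _).trans hy
  have hyY : (Y : ℝ) ≤ y := by exact_mod_cast (le_max_left _ _).trans hy
  have hyr : (1 : ℝ) ≤ y := by exact_mod_cast hy1
  have hy0 : (0 : ℝ) < y := by linarith
  have c1 : 64 * t * Bd t * (500 + 128 * t) ≤ (y : ℝ) := (le_max_left _ _).trans (hY.trans hyY)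
  have c2 : 17280 * Bd t ≤ (y : ℝ) :=
    (le_max_left _ _).trans ((le_max_right _ _).trans (hY.trans hyY))
  have c3 : 16 * ((t : ℝ) + 1) ≤ (y : ℝ) :=
    (le_max_right _ _).trans ((le_max_right _ _).trans (hY.trans hyY))
  have ht0 : (0 : ℝ) ≤ t := Nat.cast_nonneg t
  have hB : 1 ≤ Bd t := Bd_pos t
  have hB0 : 0 ≤ Bd t := by linarith
  have p36 : (y : ℝ) ≤ (y : ℝ) ^ 36 := le_self_pow₀ hyr (by norm_num)
  have p50 : (y : ℝ) ≤ (y : ℝ) ^ 50 := le_self_pow₀ hyr (by norm_num)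
  have p64 : (y : ℝ) ≤ (y : ℝ) ^ 64 := le_self_pow₀ hyr (by norm_num)
  have p32 : (y : ℝ) ^ 32 ≤ (y : ℝ) ^ 36 := pow_le_pow_right₀ hyr (by norm_num)
  have p60 : (y : ℝ) ^ 56 ≤ (y : ℝ) ^ 60 := pow_le_pow_right₀ hyr (by norm_num)
  have hM : (y : ℝ) ^ 64 / 16 ≤ ((y ^ 64 / 8 : ℕ) : ℝ) - t := by
    have h1 : (y ^ 64 : ℕ) < 8 * (y ^ 64 / 8) + 8 := by omega
    have h2 : (y : ℝ) ^ 64 < 8 * ((y ^ 64 / 8 : ℕ) : ℝ) + 8 := by exact_mod_cast h1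
    linarith
  have hpos64 : (0 : ℝ) < (y : ℝ) ^ 64 / 16 := by positivity
  have h4 : 4 * t * n / (((y ^ 64 / 8 : ℕ) : ℝ) - t) ≤ 128 * t * (y : ℝ) ^ 36 := by
    rw [div_le_iff₀ (lt_of_lt_of_le hpos64 hM)]
    have h5 : (n : ℝ) ≤ 2 * (y : ℝ) ^ 100 := by exact_mod_cast hn2
    have h6 : 128 * t * (y : ℝ) ^ 36 * ((y : ℝ) ^ 64 / 16) ≤
        128 * t * (y : ℝ) ^ 36 * (((y ^ 64 / 8 : ℕ) : ℝ) - t) :=
      mul_le_mul_of_nonneg_left hM (by positivity)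
    refine le_trans ?_ h6
    have h7 : 4 * (t : ℝ) * n ≤ 4 * t * (2 * (y : ℝ) ^ 100) :=
      mul_le_mul_of_nonneg_left h5 (by positivity)
    refine h7.trans (le_of_eq ?_)
    ring
  have h8 : 250 * (((y ^ 32 : ℕ) : ℝ) + t) + 4 * t * n / (((y ^ 64 / 8 : ℕ) : ℝ) - t) ≤
      (500 + 128 * t) * (y : ℝ) ^ 36 := by
    push_cast at h4 ⊢
    linarith
  have h9 : 2 * (4 * t / (y : ℝ) ^ 37) *
      (Bd t * (250 * (((y ^ 32 : ℕ) : ℝ) + t) + 4 * t * n / (((y ^ 64 / 8 : ℕ) : ℝ) - t))) ≤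
        1 / 8 := by
    calc _ ≤ 2 * (4 * t / (y : ℝ) ^ 37) * (Bd t * ((500 + 128 * t) * (y : ℝ) ^ 36)) := by
          apply mul_le_mul_of_nonneg_left _ (by positivity)
          exact mul_le_mul_of_nonneg_left h8 hB0
      _ = (8 * t * Bd t * (500 + 128 * t)) / y := by
          field_simp
          ring
      _ ≤ 1 / 8 := by
          rw [div_le_iff₀ hy0]
          linarith
  have h10 : (1 / (y : ℝ) ^ 60 + 2 * (1 / (y : ℝ) ^ 56)) *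
        (240 * Bd t * (((2 * y ^ 50 : ℕ) : ℝ) + t)) ≤ 1 / 8 := by
    have h11 : 1 / (y : ℝ) ^ 60 ≤ 1 / (y : ℝ) ^ 56 :=
      one_div_le_one_div_of_le (by positivity) p60
    have h12 : ((2 * y ^ 50 : ℕ) : ℝ) + t ≤ 3 * (y : ℝ) ^ 50 := by
      push_cast
      linarith
    calc _ ≤ (3 * (1 / (y : ℝ) ^ 56)) * (240 * Bd t * (3 * (y : ℝ) ^ 50)) := by
          apply mul_le_mul
          · linarith
          · exact mul_le_mul_of_nonneg_left h12 (by positivity)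
          · positivity
          · positivity
      _ = 2160 * Bd t / (y : ℝ) ^ 6 := by
          field_simp
          ring
      _ ≤ 2160 * Bd t / (y : ℝ) :=
          div_le_div_of_nonneg_left (by positivity) hy0 (le_self_pow₀ hyr (by norm_num))
      _ ≤ 1 / 8 := by
          rw [div_le_iff₀ hy0]
          linarith
  linarith

end Pool.Agent.H37.AV
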