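import Pool.Agent.H37.AV.FThree

/-!
Module Rate.  Rigid slots with `Gs` large on the second side and `Gs swap` large on the first side.

Let `𝒳` be the set of such `s`.  Fix for each `s` an `i ∈ ker V s` (`t ≥ 2`).  By `f_three` one of two cases
holds.  (1) for all `a ∈ Gs s` the slot `(insert i (s.1.erase a), s.2.erase a)` is not rigid: take
`a ∈ s.2 ∩ Gs s` outside a fixed member `B ⊆ s.2`; by `few` `|B ∩ Gs s| < t`, so there are at least
`M - (t - 1)` such `a`, and the slot `(insert i s.1, s.2.erase a)` (main; both sides contain members) is in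
`N2`.  (2) for all `b ∈ Gs s.swap` the slot is not rigid: take `b ∈ s.1 ∩ Gs s.swap` outside a fixed member
`A ⊆ s.1`; `|A ∩ Gs s.swap| < t` by `few'`; the slot `(insert i (s.1.erase b), s.2)` is in `N2`.
So at least `M - t` pairs `(s, v)` for each `s`, mapped to `N2`; a `τ = (P, Q) ∈ N2` with kernel `K` is hit by at
most `2 t |V|` pairs: `v ∈ K` (fewer than `t` choices), `i ∈ P ⊆ V` (at most `|V|` choices), and the side of
`v` (2 choices) determine `s`.
-/

open Finset

namespace Pool.Agent.H37.AV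

/-- Moving `i` of the kernel into the first side and `v` of the sides into the kernel keeps a slot main. -/
private lemma rate_mains {V : Finset ℕ} {t : ℕ} {s : Slot} (hs : s ∈ mains V t) {i v : ℕ}
    (hi : i ∈ ker V s) (hv : v ∈ s.1 ∨ v ∈ s.2) :
    (insert i (s.1.erase v), s.2.erase v) ∈ mains V t := by
  obtain ⟨h1, h2, h3, h4⟩ := mem_mains.1 hs
  have hi' := hi
  simp only [ker, mem_sdiff, mem_union, not_or] at hi'
  obtain ⟨hiV, hi1, hi2⟩ := hi'
  have hvV : v ∈ V := hv.elim (fun h => h1 h) (fun h => h2 h)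
  have hvk : v ∉ (ker V s).erase i := by
    simp only [ker, mem_erase, mem_sdiff, mem_union, not_and, not_not]
    intro _ _; exact hv
  have hker : ker V (insert i (s.1.erase v), s.2.erase v) = insert v ((ker V s).erase i) := by
    ext x
    simp only [ker, mem_sdiff, mem_union, mem_insert, mem_erase]
    by_cases hxv : x = v
    · subst hxv
      have hxi : x ≠ i := by
        rintro rfl
        exact hv.elim hi1 hi2
      simp [hxi, hvV]
    · by_cases hxi : x = i
      · subst hxi; simp [hxv]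
      · simp only [hxv, hxi, false_or, not_false_eq_true, true_and, ne_eq]
  refine mem_mains.2 ⟨?_, ?_, ?_, ?_⟩
  · intro x hx
    rcases mem_insert.1 hx with rfl | hx
    · exact hiV
    · exact h1 (mem_erase.1 hx).2
  · exact fun x hx => h2 (mem_erase.1 hx).2
  · rw [Finset.disjoint_left]
    intro x hx hx2
    have hx2' := (mem_erase.1 hx2).2
    rcases mem_insert.1 hx with rfl | hx
    · exact hi2 hx2'
    · exact (Finset.disjoint_left.1 h3) (mem_erase.1 hx).2 hx2'
  · rw [hker, card_insert_of_notMem hvk, card_erase_of_mem hi]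
    have : 0 < (ker V s).card := card_pos.2 ⟨i, hi⟩
    omega

private lemma rate_key {V : Finset ℕ} {t : ℕ} {R : Finset (Finset ℕ)} (ht : 2 ≤ t) (h : Av V t R)
    (M : ℕ) {s : Slot} (hs : s ∈ Th V t R) (hM1 : M ≤ (s.2 ∩ Gs V R s).card)
    (hM2 : M ≤ (s.1 ∩ Gs V R s.swap).card) {i : ℕ} (hi : i ∈ ker V s) :
    ∃ U : Finset ℕ, M - t ≤ U.card ∧ ∀ v ∈ U, (v ∈ s.1 ∨ v ∈ s.2) ∧
      (insert i (s.1.erase v), s.2.erase v) ∈ N2 V t R := by
  obtain ⟨hm, hu1, hu2, hr⟩ := mem_Th.1 hs
  obtain ⟨h1, h2, h3, h4⟩ := mem_mains.1 hm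
  rcases f_three ht h hm hr hi with hc | hc
  · obtain ⟨B, hB, hBs⟩ := hu2
    refine ⟨(s.2 ∩ Gs V R s) \ B, ?_, ?_⟩
    · have hf := few (by omega) h hm hr hB hBs
      have e : ((s.2 ∩ Gs V R s) \ B).card + (B ∩ (s.2 ∩ Gs V R s)).card =
          (s.2 ∩ Gs V R s).card := by
        rw [inter_comm B]; exact card_sdiff_add_card_inter _ _
      have e2 : (B ∩ (s.2 ∩ Gs V R s)).card ≤ (B ∩ Gs V R s).card := by
        apply card_le_card
        intro x hx
        simp only [mem_inter] at hx ⊢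
        exact ⟨hx.1, hx.2.2⟩
      omega
    · intro v hv
      simp only [mem_sdiff, mem_inter] at hv
      obtain ⟨⟨hv2, hvG⟩, hvB⟩ := hv
      have hv1 : v ∉ s.1 := fun hv1 => (Finset.disjoint_left.1 h3) hv1 hv2
      refine ⟨Or.inr hv2, mem_N2.2 ⟨rate_mains hm hi (Or.inr hv2), ?_, ?_, hc v hvG⟩⟩
      · refine hu1.mono ?_
        show s.1 ⊆ insert i (s.1.erase v)
        rw [erase_eq_of_notMem hv1]
        exact subset_insert _ _
      · exact ⟨B, hB, fun x hx => mem_erase.2 ⟨fun he => hvB (he ▸ hx), hBs hx⟩⟩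
  · obtain ⟨A, hA, hAs⟩ := hu1
    refine ⟨(s.1 ∩ Gs V R s.swap) \ A, ?_, ?_⟩
    · have hf := few' (by omega) h hm hr hA hAs
      have e : ((s.1 ∩ Gs V R s.swap) \ A).card + (A ∩ (s.1 ∩ Gs V R s.swap)).card =
          (s.1 ∩ Gs V R s.swap).card := by
        rw [inter_comm A]; exact card_sdiff_add_card_inter _ _
      have e2 : (A ∩ (s.1 ∩ Gs V R s.swap)).card ≤ (A ∩ Gs V R s.swap).card := by
        apply card_le_card
        intro x hx
        simp only [mem_inter] at hx ⊢
        exact ⟨hx.1, hx.2.2⟩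
      omega
    · intro v hv
      simp only [mem_sdiff, mem_inter] at hv
      obtain ⟨⟨hv1, hvG⟩, hvA⟩ := hv
      have hv2 : v ∉ s.2 := fun hv2 => (Finset.disjoint_left.1 h3) hv1 hv2
      refine ⟨Or.inl hv1, mem_N2.2 ⟨rate_mains hm hi (Or.inl hv1), ?_, ?_, hc v hvG⟩⟩
      · exact ⟨A, hA, fun x hx => mem_insert_of_mem
          (mem_erase.2 ⟨fun he => hvA (he ▸ hx), hAs hx⟩)⟩
      · refine hu2.mono ?_
        show s.2 ⊆ s.2.erase v
        rw [erase_eq_of_notMem hv2]

theorem rate {V : Finset ℕ} {t : ℕ} {R : Finset (Finset ℕ)} (ht : 2 ≤ t) (h : Av V t R) (M : ℕ) :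
    (M - t) * ((Th V t R).filter (fun s => M ≤ (s.2 ∩ Gs V R s).card ∧
      M ≤ (s.1 ∩ Gs V R s.swap).card)).card ≤ 2 * t * V.card * (N2 V t R).card := by
  classical
  set X := (Th V t R).filter (fun s => M ≤ (s.2 ∩ Gs V R s).card ∧
      M ≤ (s.1 ∩ Gs V R s.swap).card) with hX
  have hne : ∀ s ∈ X, ∃ i, i ∈ ker V s := by
    intro s hs
    have hm := (mem_Th.1 (mem_filter.1 hs).1).1
    have := (mem_mains.1 hm).2.2.2
    have hp : 0 < (ker V s).card := by omega
    exact card_pos.1 hp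
  choose! f hf using hne
  have hU : ∀ s ∈ X, ∃ U : Finset ℕ, M - t ≤ U.card ∧ ∀ v ∈ U, (v ∈ s.1 ∨ v ∈ s.2) ∧
      (insert (f s) (s.1.erase v), s.2.erase v) ∈ N2 V t R := by
    intro s hs
    obtain ⟨hs1, hs2, hs3⟩ := mem_filter.1 hs
    exact rate_key ht h M hs1 hs2 hs3 (hf s hs)
  choose! U hU using hU
  have e1 : (M - t) * X.card ≤ (X.sigma U).card := by
    rw [card_sigma, mul_comm, ← smul_eq_mul, ← sum_const]
    exact sum_le_sum fun s hs => (hU s hs).1
  let T : Finset (Σ _ : Slot, ℕ × ℕ × Bool) :=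
    (N2 V t R).sigma (fun τ => ker V τ ×ˢ (V ×ˢ (univ : Finset Bool)))
  have e2 : T.card ≤ 2 * t * V.card * (N2 V t R).card := by
    show ((N2 V t R).sigma (fun τ => ker V τ ×ˢ (V ×ˢ (univ : Finset Bool)))).card ≤ _
    rw [card_sigma, mul_comm (2 * t * V.card), ← smul_eq_mul (N2 V t R).card, ← sum_const]
    refine sum_le_sum fun τ hτ => ?_
    rw [card_product, card_product]
    have hk := (mem_mains.1 (mem_N2.1 hτ).1).2.2.2
    have : (univ : Finset Bool).card = 2 := rfl
    rw [this]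
    calc (ker V τ).card * (V.card * 2) ≤ t * (V.card * 2) := Nat.mul_le_mul_right _ (by omega)
      _ = 2 * t * V.card := by ring
  have e3 : (X.sigma U).card ≤ T.card := by
    refine card_le_card_of_injOn (fun p => ⟨(insert (f p.1) (p.1.1.erase p.2), p.1.2.erase p.2),
      (p.2, f p.1, decide (p.2 ∈ p.1.2))⟩) ?_ ?_
    · rintro ⟨s, v⟩ hp
      simp only [coe_sigma, Set.mem_sigma_iff, mem_coe] at hp
      obtain ⟨hs, hv⟩ := hp
      obtain ⟨hv1, hv2⟩ := (hU s hs).2 v hv
      have hm := (mem_Th.1 (mem_filter.1 hs).1).1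
      obtain ⟨h1, h2, h3, h4⟩ := mem_mains.1 hm
      have hi := hf s hs
      have hi' := hi
      simp only [ker, mem_sdiff, mem_union, not_or] at hi'
      simp only [T, mem_coe, mem_sigma, mem_product, mem_univ, and_true]
      refine ⟨hv2, ?_, hi'.1⟩
      simp only [ker, mem_sdiff, mem_union, mem_insert, mem_erase, ne_eq, not_true_eq_false,
        false_and, or_false]
      refine ⟨hv1.elim (fun h => h1 h) (fun h => h2 h), ?_⟩
      rintro rfl
      exact hv1.elim hi'.2.1 hi'.2.2
    · rintro ⟨s, v⟩ hp ⟨s', v'⟩ hp' heq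
      simp only [coe_sigma, Set.mem_sigma_iff, mem_coe] at hp hp'
      obtain ⟨hs, hv⟩ := hp
      obtain ⟨hs', hv'⟩ := hp'
      simp only [Sigma.mk.injEq, heq_eq_eq, Prod.mk.injEq, decide_eq_decide] at heq
      obtain ⟨⟨q1, q2⟩, q3, q4, q5⟩ := heq
      subst q3
      obtain ⟨hv1, -⟩ := (hU s hs).2 v hv
      obtain ⟨hv1', -⟩ := (hU s' hs').2 v hv'
      have hi := hf s hs
      have hi' := hf s' hs'
      have d1 := (mem_mains.1 (mem_Th.1 (mem_filter.1 hs).1).1).2.2.1
      have d2 := (mem_mains.1 (mem_Th.1 (mem_filter.1 hs').1).1).2.2.1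
      simp only [ker, mem_sdiff, mem_union, not_or] at hi hi'
      rw [← q4] at hi' q1
      have r2 : s.2 = s'.2 := by
        ext x
        by_cases hx : x = v
        · subst hx; exact q5
        · have := Finset.ext_iff.1 q2 x
          simpa [hx] using this
      have r1 : s.1 = s'.1 := by
        ext x
        by_cases hx : x = v
        · subst hx
          have a1 : x ∈ s.1 ↔ x ∉ s.2 :=
            ⟨fun hh h2 => (Finset.disjoint_left.1 d1) hh h2, fun hh => hv1.resolve_right hh⟩
          have a2 : x ∈ s'.1 ↔ x ∉ s'.2 :=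
            ⟨fun hh h2 => (Finset.disjoint_left.1 d2) hh h2, fun hh => hv1'.resolve_right hh⟩
          rw [a1, a2, q5]
        · by_cases hxi : x = f s
          · subst hxi
            exact ⟨fun hh => absurd hh hi.2.1, fun hh => absurd hh hi'.2.1⟩
          · have := Finset.ext_iff.1 q1 x
            simpa [hx, hxi] using this
      have : s = s' := Prod.ext r1 r2
      subst this
      rfl
  exact e1.trans (e3.trans e2)

end Pool.Agent.H37.AV
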