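import Pool.Agent.H37.AV.HypCount
import Pool.Agent.H37.AV.RowsCard
import Pool.Agent.H37.WK.Final

/-!
Module UFam.  Intersecting families built from `R`.

`uj`: let `J` be a property of subsets of `[n]` such that any two (equal or not) with `J` meet in more than
`t` elements.  `U = {P ⊆ [n] : InH P, or Up P and J P}`.  Any two members of `U` meet in more than `t` elements:
both with `J`: hypothesis; `P ∈ H` and `P' ⊇ B ∈ R`: `|P ∩ P'| ≥ |P ∩ B| > t`.  So `W(U) ≤ W(base)` by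
`WK.weighted`.  By `w_eq_slots` `W(U) = #{slots, s.1 ∈ U}`, and these slots are: those with `InH s.1` (`HL`);
those with `Up s.1`, not `InH s.1`, so `InY s.1` (`inY_or_inH`), and `J s.1`: if `Up s.2` in `S2`, otherwise in
`S1`.  Conversely slots in `S2` or `S1` have `InY s.1` (`inY_of_up`), so are not in `HL`.

`u_main`: for every `r`-subset `F` of `[n]` take `J P = (m ≤ |P ∩ F|)`: `|P ∩ P'| ≥ |P ∩ P' ∩ F| ≥ 2m - r = t+1`.
Sum over `F` and divide by `C(n, r)`, with `pr_eq`.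
`u_star`: for every `(t+1)`-subset `F` take `J P = (F ⊆ P)`; `st_eq`; drop the `S2` term.
`u_fam`: `J P = (∃ A ∈ L, A ⊆ P)`; drop the `S2` term.
-/

open Finset

namespace Pool.Agent.H37.AV

theorem uj {n t : ℕ} {R : Finset (Finset ℕ)} (ht : 1 ≤ t) (hn : 4 * t ^ 3 ≤ n)
    (h : Av (Icc 1 n) t R) (J : Finset ℕ → Prop) [DecidablePred J]
    (hJ : ∀ P ⊆ Icc 1 n, ∀ P' ⊆ Icc 1 n, J P → J P' → t < (P ∩ P').card) :
    (HL (Icc 1 n) t R).card + ((S2 (Icc 1 n) t R).filter (fun s => J s.1)).card +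
      ((S1 (Icc 1 n) t R).filter (fun s => J s.1)).card ≤ WK.W n t (WK.base n t) := by
  classical
  set U : Finset (Finset ℕ) :=
    (Icc 1 n).powerset.filter (fun P => InH t R P ∨ (Up R P ∧ J P)) with hU
  have hmem : ∀ P, P ∈ U ↔ P ⊆ Icc 1 n ∧ (InH t R P ∨ (Up R P ∧ J P)) := by
    intro P
    rw [hU, mem_filter, mem_powerset]
  have hup : ∀ P, (InH t R P ∨ (Up R P ∧ J P)) → Up R P := by
    rintro P (h1 | h1)
    · exact h1.1
    · exact h1.1
  have key : ∀ P P' : Finset ℕ, InH t R P → Up R P' → t < (P ∩ P').card := by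
    rintro P P' h1 ⟨B, hB, hBP⟩
    exact lt_of_lt_of_le (h1.2 B hB) (card_le_card (inter_subset_inter_left hBP))
  have hFam : WK.Fam (Icc 1 n) (t + 1) U := by
    refine ⟨fun A hA => ((hmem A).mp hA).1, fun A hA B hB => ?_⟩
    obtain ⟨hA1, hA2⟩ := (hmem A).mp hA
    obtain ⟨hB1, hB2⟩ := (hmem B).mp hB
    rw [Nat.succ_le_iff]
    rcases hA2 with hA3 | hA3
    · exact key A B hA3 (hup B hB2)
    · rcases hB2 with hB3 | hB3
      · rw [inter_comm]
        exact key B A hB3 hA3.1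
      · exact hJ A hA1 B hB1 hA3.2 hB3.2
  have hW := WK.weighted ht hn hFam
  refine le_trans ?_ hW
  have hw := w_eq_slots (V := Icc 1 n) (t := t) (U := U) (fun A hA => ((hmem A).mp hA).1)
  rw [Nat.card_Icc, Nat.add_sub_cancel] at hw
  rw [hw]
  have hd1 : Disjoint (HL (Icc 1 n) t R) ((S2 (Icc 1 n) t R).filter (fun s => J s.1)) := by
    rw [Finset.disjoint_left]
    intro s hs hs'
    rw [mem_HL] at hs
    rw [mem_filter, mem_S2] at hs'
    exact not_inH_of_inY (inY_of_up (mem_slots.mp hs.1).2.2.1 hs'.1.2.1 hs'.1.2.2) hs.2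
  have hd2 : Disjoint (HL (Icc 1 n) t R ∪ (S2 (Icc 1 n) t R).filter (fun s => J s.1))
      ((S1 (Icc 1 n) t R).filter (fun s => J s.1)) := by
    rw [Finset.disjoint_left]
    intro s hs hs'
    rw [mem_filter, mem_S1] at hs'
    rw [mem_union, mem_HL, mem_filter, mem_S2] at hs
    rcases hs with hs | hs
    · exact not_inH_of_inY hs'.1.2.1 hs.2
    · exact hs'.1.2.2 hs.1.2.2
  rw [← card_union_of_disjoint hd1, ← card_union_of_disjoint hd2]
  apply card_le_card
  intro s hs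
  rw [mem_union, mem_union, mem_HL, mem_filter, mem_S2, mem_filter, mem_S1] at hs
  rw [mem_filter, hmem]
  rcases hs with (hs | hs) | hs
  · exact ⟨hs.1, (mem_slots.mp hs.1).1, Or.inl hs.2⟩
  · exact ⟨hs.1.1, (mem_slots.mp hs.1.1).1, Or.inr ⟨hs.1.2.1, hs.2⟩⟩
  · exact ⟨hs.1.1, (mem_slots.mp hs.1.1).1, Or.inr ⟨hs.1.2.1.1, hs.2⟩⟩

/-- Exchange of a sum over sets with a sum over slots. -/
private theorem uFam_swap (T : Finset Slot) (K : Finset (Finset ℕ))
    (q : Finset ℕ → Finset ℕ → Prop) [∀ P F, Decidable (q P F)] :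
    ∑ F ∈ K, (T.filter (fun s => q s.1 F)).card = ∑ s ∈ T, (K.filter (fun F => q s.1 F)).card := by
  simp only [card_filter]
  exact sum_comm

theorem u_main {n t : ℕ} {R : Finset (Finset ℕ)} (ht : 1 ≤ t) (hn : 4 * t ^ 3 ≤ n)
    (h : Av (Icc 1 n) t R) {r m : ℕ} (hrm : 2 * m = r + t + 1) (hr : r ≤ n) :
    ((HL (Icc 1 n) t R).card : ℝ) + ∑ s ∈ S2 (Icc 1 n) t R, pr n r m s.1.card +
      ∑ s ∈ S1 (Icc 1 n) t R, pr n r m s.1.card ≤ (WK.W n t (WK.base n t) : ℝ) := by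
  classical
  have hcardV : (Icc 1 n).card = n := by rw [Nat.card_Icc, Nat.add_sub_cancel]
  have h1 : ∀ F ∈ (Icc 1 n).powersetCard r,
      (HL (Icc 1 n) t R).card + ((S2 (Icc 1 n) t R).filter (fun s => m ≤ (s.1 ∩ F).card)).card +
      ((S1 (Icc 1 n) t R).filter (fun s => m ≤ (s.1 ∩ F).card)).card ≤
        WK.W n t (WK.base n t) := by
    intro F hF
    rw [mem_powersetCard] at hF
    apply uj ht hn h (fun P => m ≤ (P ∩ F).card)
    intro P _ P' _ hP hP'
    have e1 : (P ∩ F ∩ (P' ∩ F)).card ≤ (P ∩ P').card :=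
      card_le_card (inter_subset_inter inter_subset_left inter_subset_left)
    have e2 : (P ∩ F ∪ (P' ∩ F)).card ≤ F.card :=
      card_le_card (union_subset inter_subset_right inter_subset_right)
    have e3 := card_union_add_card_inter (P ∩ F) (P' ∩ F)
    rw [hF.2] at e2
    omega
  have h2 := sum_le_sum h1
  rw [sum_add_distrib, sum_add_distrib, sum_const, sum_const, card_powersetCard, hcardV,
    uFam_swap _ _ (fun P F => m ≤ (P ∩ F).card), uFam_swap _ _ (fun P F => m ≤ (P ∩ F).card),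
    smul_eq_mul, smul_eq_mul] at h2
  have h3 : ((n.choose r * (HL (Icc 1 n) t R).card +
      ∑ s ∈ S2 (Icc 1 n) t R, (((Icc 1 n).powersetCard r).filter
        (fun F => m ≤ (s.1 ∩ F).card)).card +
      ∑ s ∈ S1 (Icc 1 n) t R, (((Icc 1 n).powersetCard r).filter
        (fun F => m ≤ (s.1 ∩ F).card)).card : ℕ) : ℝ) ≤
      ((n.choose r * WK.W n t (WK.base n t) : ℕ) : ℝ) := by exact_mod_cast h2
  push_cast at h3
  have h4 : ∀ s ∈ slots (Icc 1 n) t, ((((Icc 1 n).powersetCard r).filter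
      (fun F => m ≤ (s.1 ∩ F).card)).card : ℝ) = pr n r m s.1.card * (n.choose r : ℕ) := by
    intro s hs
    have := pr_eq (mem_slots.mp hs).1 (r := r) (by rw [hcardV]; exact hr) m
    rwa [hcardV] at this
  rw [sum_congr rfl (fun s hs => h4 s (mem_S2.mp hs).1),
    sum_congr rfl (fun s hs => h4 s (mem_S1.mp hs).1), ← sum_mul, ← sum_mul] at h3
  have hpos : (0 : ℝ) < (n.choose r : ℕ) := by exact_mod_cast Nat.choose_pos hr
  have h5 : (n.choose r : ℝ) * (((HL (Icc 1 n) t R).card : ℝ) +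
      ∑ s ∈ S2 (Icc 1 n) t R, pr n r m s.1.card +
      ∑ s ∈ S1 (Icc 1 n) t R, pr n r m s.1.card) ≤
      (n.choose r : ℝ) * (WK.W n t (WK.base n t) : ℝ) := by
    nlinarith [h3]
  exact le_of_mul_le_mul_left h5 hpos

theorem u_star {n t : ℕ} {R : Finset (Finset ℕ)} (ht : 1 ≤ t) (hn : 4 * t ^ 3 ≤ n)
    (h : Av (Icc 1 n) t R) :
    ((HL (Icc 1 n) t R).card : ℝ) + ∑ s ∈ S1 (Icc 1 n) t R, st n t s.1.card ≤
      (WK.W n t (WK.base n t) : ℝ) := by
  classical
  have hcardV : (Icc 1 n).card = n := by rw [Nat.card_Icc, Nat.add_sub_cancel]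
  have htn : t + 1 ≤ n := by
    have : t ≤ t ^ 3 := Nat.le_self_pow (by norm_num) t
    omega
  have h1 : ∀ F ∈ (Icc 1 n).powersetCard (t + 1),
      (HL (Icc 1 n) t R).card + ((S1 (Icc 1 n) t R).filter (fun s => F ⊆ s.1)).card ≤
        WK.W n t (WK.base n t) := by
    intro F hF
    rw [mem_powersetCard] at hF
    have := uj ht hn h (fun P => F ⊆ P) (by
      intro P _ P' _ hP hP'
      have e1 : F.card ≤ (P ∩ P').card := card_le_card (subset_inter hP hP')
      rw [hF.2] at e1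
      omega)
    omega
  have h2 := sum_le_sum h1
  rw [sum_add_distrib, sum_const, sum_const, card_powersetCard, hcardV,
    uFam_swap _ _ (fun P F => F ⊆ P), smul_eq_mul, smul_eq_mul] at h2
  have h3 : ((n.choose (t + 1) * (HL (Icc 1 n) t R).card +
      ∑ s ∈ S1 (Icc 1 n) t R, (((Icc 1 n).powersetCard (t + 1)).filter
        (fun F => F ⊆ s.1)).card : ℕ) : ℝ) ≤
      ((n.choose (t + 1) * WK.W n t (WK.base n t) : ℕ) : ℝ) := by exact_mod_cast h2
  push_cast at h3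
  have h4 : ∀ s ∈ slots (Icc 1 n) t, ((((Icc 1 n).powersetCard (t + 1)).filter
      (fun F => F ⊆ s.1)).card : ℝ) = st n t s.1.card * (n.choose (t + 1) : ℕ) := by
    intro s hs
    have := st_eq (mem_slots.mp hs).1 (t := t) (by rw [hcardV]; exact htn)
    rwa [hcardV] at this
  rw [sum_congr rfl (fun s hs => h4 s (mem_S1.mp hs).1), ← sum_mul] at h3
  have hpos : (0 : ℝ) < (n.choose (t + 1) : ℕ) := by exact_mod_cast Nat.choose_pos htn
  have h5 : (n.choose (t + 1) : ℝ) * (((HL (Icc 1 n) t R).card : ℝ) +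
      ∑ s ∈ S1 (Icc 1 n) t R, st n t s.1.card) ≤
      (n.choose (t + 1) : ℝ) * (WK.W n t (WK.base n t) : ℝ) := by
    nlinarith [h3]
  exact le_of_mul_le_mul_left h5 hpos

theorem u_fam {n t : ℕ} {R : Finset (Finset ℕ)} (ht : 1 ≤ t) (hn : 4 * t ^ 3 ≤ n)
    (h : Av (Icc 1 n) t R) (L : Finset (Finset ℕ)) (hL : ∀ A ∈ L, ∀ B ∈ L, t < (A ∩ B).card) :
    ((HL (Icc 1 n) t R).card : ℝ) +
      ∑ s ∈ S1 (Icc 1 n) t R, (if ∃ A ∈ L, A ⊆ s.1 then (1 : ℝ) else 0) ≤
      (WK.W n t (WK.base n t) : ℝ) := by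
  have h1 := uj ht hn h (fun P => ∃ A ∈ L, A ⊆ P) (by
    rintro P _ P' _ ⟨A, hA, hAP⟩ ⟨B, hB, hBP⟩
    exact lt_of_lt_of_le (hL A hA B hB) (card_le_card (inter_subset_inter hAP hBP)))
  have h2 : (HL (Icc 1 n) t R).card +
      ((S1 (Icc 1 n) t R).filter (fun s => ∃ A ∈ L, A ⊆ s.1)).card ≤
        WK.W n t (WK.base n t) := by omega
  rw [sum_boole]
  exact_mod_cast h2

end Pool.Agent.H37.AV
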