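import Pool.Agent.H37.AV.Defs

/-!
Module Walls.

`pt t R A` is a member `B` with `|A ∩ B| < t` and `|A ∩ B|` as large as possible (for `A ∈ Rm`).
`wl t R A` = the sets `A ∪ T`, `T ⊆ pt A \ A`, `|T| = t - |A ∩ pt A|` (the walls of `A`).

`wl_spec`: `Z = A ∪ T` has `|Z ∩ pt A| = t`, so `Z ∈ Y`; `|Z \ A| ≤ t`.
`wl_card`: `|wl A| = C(m, j)`, `m = |pt A \ A| = |pt A| - i`, `j = t - i ≥ 1`, `i = |A ∩ pt A|` (`A ∪ T`
determines `T`), and `C(m, j) ≥ m - j + 1` for `1 ≤ j ≤ m`; `m - j + 1 = |pt A| + 1 - t`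
(`m > t - i` as `|pt A| > t`).
`wl_mult`: `Z` is a wall of at most `2^t` members: let `A, A'` be members of `𝒜` with the same
`j = t - |A ∩ pt A| = t - |A' ∩ pt A'|` and `Z ∈ wl A`, `Z ∈ wl A'`.  Then `Z \ A ⊆ Z ∩ pt A'`: `A ⊆ Z` and
`|Z ∩ pt A'| = t`, so `|A ∩ pt A'| ≤ t`, `≠ t`, hence `< t` and `≤ |A ∩ pt A| = t - j` by maximality; so
`|(Z \ A) ∩ pt A'| ≥ t - (t - j) = j = |Z \ A|`.  Fixing one `A'` for each `j` (`1 ≤ j ≤ t`), the sets `Z \ A` are
`j`-subsets of a `t`-set: at most `∑_j C(t, j) ≤ 2^t` of them.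
`sb_le`: `sb t x ≤ 2 sb t (x - j)` for `j ≤ t`, `x ≥ 2 t² + 2 t`, as
`C(x, i) ≤ (1 + t/(x-2t))^t C(x-j, i) ≤ 2 C(x-j, i)` for `i < t` (`(1 + 1/(2t))^t ≤ 2`).
`wall_bound`: for `A ∈ 𝒜` and `Z ∈ wl A`: `sb t (|V| - |A|) ≤ 2 sb t (|V| - |Z|)` by `sb_le`
(`|V| - |A| ≥ |pt A \ A| ≥ b - t ≥ 2t² + 2t`; `|Z| - |A| = j ≤ t`).  So `(b/2) w(A) ≤ |wl A| w(A) ≤
2 ∑_{Z ∈ wl A} w(Z)` (`|wl A| ≥ b + 1 - t ≥ b/2`); sum over `A ∈ 𝒜` and use `wl_mult`.
-/

open Finset

namespace Pool.Agent.H37.AV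

variable {V : Finset ℕ} {t : ℕ} {R : Finset (Finset ℕ)}

/-- A member meeting `A` in fewer than `t` elements, and in as many elements as possible. -/
noncomputable def pt (t : ℕ) (R : Finset (Finset ℕ)) (A : Finset ℕ) : Finset ℕ := by
  classical exact
    if h : ∃ B ∈ R, (A ∩ B).card < t ∧ ∀ B' ∈ R, (A ∩ B').card < t → (A ∩ B').card ≤ (A ∩ B).card
    then h.choose else ∅

/-- The walls of `A`. -/
noncomputable def wl (t : ℕ) (R : Finset (Finset ℕ)) (A : Finset ℕ) : Finset (Finset ℕ) :=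
  ((pt t R A \ A).powersetCard (t - (A ∩ pt t R A).card)).image (fun T => A ∪ T)

theorem pt_spec {A : Finset ℕ} (hA : A ∈ Rm t R) :
    pt t R A ∈ R ∧ (A ∩ pt t R A).card < t ∧
      ∀ B ∈ R, (A ∩ B).card < t → (A ∩ B).card ≤ (A ∩ pt t R A).card := by
  classical
  obtain ⟨-, B0, hB0, hB0t⟩ := mem_Rm.1 hA
  have hne : (R.filter (fun B => (A ∩ B).card < t)).Nonempty := ⟨B0, by simp [hB0, hB0t]⟩
  obtain ⟨B, hB, hmax⟩ := Finset.exists_max_image _ (fun B => (A ∩ B).card) hne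
  rw [mem_filter] at hB
  have h : ∃ B ∈ R, (A ∩ B).card < t ∧
      ∀ B' ∈ R, (A ∩ B').card < t → (A ∩ B').card ≤ (A ∩ B).card :=
    ⟨B, hB.1, hB.2, fun B' hB' hlt => hmax B' (by simp [hB', hlt])⟩
  have e : pt t R A = h.choose := by
    unfold pt
    rw [dif_pos h]
  have := h.choose_spec
  rw [← e] at this
  exact this

private lemma walls_mem {A Z : Finset ℕ} (hZ : Z ∈ wl t R A) :
    ∃ T, T ⊆ pt t R A ∧ Disjoint A T ∧ T.card = t - (A ∩ pt t R A).card ∧ Z = A ∪ T := by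
  unfold wl at hZ
  rw [mem_image] at hZ
  obtain ⟨T, hT, rfl⟩ := hZ
  rw [mem_powersetCard] at hT
  refine ⟨T, fun x hx => (mem_sdiff.1 (hT.1 hx)).1, ?_, hT.2, rfl⟩
  rw [Finset.disjoint_left]
  intro x hx hxT
  exact (mem_sdiff.1 (hT.1 hxT)).2 hx

private lemma walls_facts {A Z : Finset ℕ} (hA : A ∈ Rm t R) (hZ : Z ∈ wl t R A) :
    A ⊆ Z ∧ (Z \ A).card = t - (A ∩ pt t R A).card ∧ (Z ∩ pt t R A).card = t ∧
      Z \ A ⊆ pt t R A := by
  obtain ⟨h1, h2, h3⟩ := pt_spec hA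
  obtain ⟨T, hT, hd, hc, rfl⟩ := walls_mem hZ
  have e : (A ∪ T) \ A = T := by
    ext x
    simp only [mem_sdiff, mem_union]
    constructor
    · rintro ⟨h | h, h'⟩
      · exact absurd h h'
      · exact h
    · intro hx
      exact ⟨Or.inr hx, fun hxA => Finset.disjoint_left.1 hd hxA hx⟩
  refine ⟨subset_union_left, by rw [e, hc], ?_, by rw [e]; exact hT⟩
  have e2 : (A ∪ T) ∩ pt t R A = (A ∩ pt t R A) ∪ T := by
    rw [union_inter_distrib_right, inter_eq_left.2 hT]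
  rw [e2, card_union_of_disjoint (hd.mono_left inter_subset_left), hc]
  omega

theorem wl_spec (h : Av V t R) {A Z : Finset ℕ} (hA : A ∈ Rm t R) (hZ : Z ∈ wl t R A) :
    Z ⊆ V ∧ A ⊆ Z ∧ (Z \ A).card ≤ t ∧ InY t R Z := by
  obtain ⟨f1, f2, f3, f4⟩ := walls_facts hA hZ
  obtain ⟨h1, h2, h3⟩ := pt_spec hA
  refine ⟨?_, f1, by rw [f2]; omega, ⟨A, (mem_Rm.1 hA).1, f1⟩, _, h1, f3.le⟩
  intro x hx
  by_cases hxA : x ∈ A
  · exact h.sub A (mem_Rm.1 hA).1 hxA
  · exact h.sub _ h1 (f4 (mem_sdiff.2 ⟨hx, hxA⟩))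

private lemma walls_choose {j : ℕ} (hj : 1 ≤ j) (d : ℕ) : d + 1 ≤ (j + d).choose j := by
  obtain ⟨k, rfl⟩ := Nat.exists_eq_add_of_le' hj
  induction d with
  | zero => simp
  | succ d ih =>
    have e : k + 1 + (d + 1) = (k + 1 + d) + 1 := by ring
    rw [e, Nat.choose_succ_succ]
    have : 0 < (k + 1 + d).choose k := Nat.choose_pos (by omega)
    simp only [Nat.succ_eq_add_one] at *
    omega

theorem wl_card (h : Av V t R) {A : Finset ℕ} (hA : A ∈ Rm t R) :
    (pt t R A).card + 1 ≤ (wl t R A).card + t := by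
  obtain ⟨h1, h2, h3⟩ := pt_spec hA
  have hinj : Set.InjOn (fun T => A ∪ T)
      ((pt t R A \ A).powersetCard (t - (A ∩ pt t R A).card) : Set (Finset ℕ)) := by
    intro T hT T' hT' hTT
    have hT := (mem_powersetCard.1 (mem_coe.1 hT)).1
    have hT' := (mem_powersetCard.1 (mem_coe.1 hT')).1
    have hTT : A ∪ T = A ∪ T' := hTT
    ext x
    constructor
    · intro hx
      have : x ∈ A ∪ T' := hTT ▸ mem_union_right _ hx
      rcases mem_union.1 this with hxA | hx'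
      · exact absurd hxA (mem_sdiff.1 (hT hx)).2
      · exact hx'
    · intro hx
      have : x ∈ A ∪ T := hTT ▸ mem_union_right _ hx
      rcases mem_union.1 this with hxA | hx'
      · exact absurd hxA (mem_sdiff.1 (hT' hx)).2
      · exact hx'
  have hcard : (wl t R A).card = (pt t R A \ A).card.choose (t - (A ∩ pt t R A).card) := by
    unfold wl
    rw [Finset.card_image_of_injOn hinj, card_powersetCard]
  have hbig := h.big _ h1
  have hm : (pt t R A \ A).card + (A ∩ pt t R A).card = (pt t R A).card := by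
    rw [inter_comm]
    exact Finset.card_sdiff_add_card_inter _ _
  obtain ⟨d, hd⟩ : ∃ d, (pt t R A \ A).card = (t - (A ∩ pt t R A).card) + d :=
    ⟨(pt t R A \ A).card - (t - (A ∩ pt t R A).card), by omega⟩
  have := walls_choose (j := t - (A ∩ pt t R A).card) (by omega) d
  rw [hcard, hd]
  omega

theorem wl_mult (h : Av V t R) {𝒜 : Finset (Finset ℕ)} (h𝒜 : 𝒜 ⊆ Rm t R) (Z : Finset ℕ) :
    (𝒜.filter (fun A => Z ∈ wl t R A)).card ≤ 2 ^ t := by
  classical
  have hmaps : ∀ A ∈ 𝒜.filter (fun A => Z ∈ wl t R A), (Z \ A).card ∈ range (t + 1) := by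
    intro A hA
    rw [mem_filter] at hA
    have := (walls_facts (h𝒜 hA.1) hA.2).2.1
    rw [mem_range, this]
    omega
  rw [Finset.card_eq_sum_card_fiberwise hmaps, ← Nat.sum_range_choose]
  refine Finset.sum_le_sum fun j _ => ?_
  rcases ((𝒜.filter (fun A => Z ∈ wl t R A)).filter (fun A => (Z \ A).card = j)).eq_empty_or_nonempty
    with he | ⟨A', hA'⟩
  · rw [he]
    simp
  · simp only [mem_filter] at hA'
    obtain ⟨⟨hA'1, hA'2⟩, hA'3⟩ := hA'
    have hA'R := h𝒜 hA'1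
    obtain ⟨g1, g2, g3, g4⟩ := walls_facts hA'R hA'2
    obtain ⟨q1, q2, q3⟩ := pt_spec hA'R
    have hcj : ((Z ∩ pt t R A').powersetCard j).card = t.choose j := by
      rw [card_powersetCard, g3]
    rw [← hcj]
    refine Finset.card_le_card_of_injOn (fun A => Z \ A) ?_ ?_
    · intro A hA
      simp only [coe_filter, mem_filter, Set.mem_setOf_eq] at hA
      obtain ⟨⟨hA1, hA2⟩, hA3⟩ := hA
      have hAR := h𝒜 hA1
      obtain ⟨f1, f2, f3, f4⟩ := walls_facts hAR hA2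
      obtain ⟨p1, p2, p3⟩ := pt_spec hAR
      rw [mem_coe, mem_powersetCard]
      refine ⟨?_, hA3⟩
      have c1 : (A ∩ pt t R A').card ≤ t :=
        (card_le_card (inter_subset_inter_right f1)).trans g3.le
      have c2 : (A ∩ pt t R A').card ≠ t := h.av A (mem_Rm.1 hAR).1 _ q1
      have c3 := p3 _ q1 (lt_of_le_of_ne c1 c2)
      have c4 : (Z ∩ pt t R A').card = (A ∩ pt t R A').card + ((Z \ A) ∩ pt t R A').card := by
        rw [← card_union_of_disjoint]
        · congr 1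
          ext x
          simp only [mem_inter, mem_union, mem_sdiff]
          constructor
          · rintro ⟨hx1, hx2⟩
            by_cases hxA : x ∈ A
            · exact Or.inl ⟨hxA, hx2⟩
            · exact Or.inr ⟨⟨hx1, hxA⟩, hx2⟩
          · rintro (⟨hx1, hx2⟩ | ⟨⟨hx1, -⟩, hx2⟩)
            · exact ⟨f1 hx1, hx2⟩
            · exact ⟨hx1, hx2⟩
        · rw [Finset.disjoint_left]
          intro x hx hx'
          exact (mem_sdiff.1 (mem_inter.1 hx').1).2 (mem_inter.1 hx).1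
      have c5 : (Z \ A).card ≤ ((Z \ A) ∩ pt t R A').card := by
        rw [g3] at c4
        omega
      have c6 : (Z \ A) ∩ pt t R A' = Z \ A :=
        Finset.eq_of_subset_of_card_le inter_subset_left c5
      intro x hx
      have hx : x ∈ Z \ A := hx
      rw [mem_inter]
      refine ⟨(mem_sdiff.1 hx).1, ?_⟩
      rw [← c6] at hx
      exact (mem_inter.1 hx).2
    · intro A hA B hB hAB
      simp only [coe_filter, mem_filter, Set.mem_setOf_eq] at hA hB
      have f1 := (walls_facts (h𝒜 hA.1.1) hA.1.2).1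
      have f2 := (walls_facts (h𝒜 hB.1.1) hB.1.2).1
      have hAB : Z \ A = Z \ B := hAB
      rw [← Finset.sdiff_sdiff_eq_self f1, ← Finset.sdiff_sdiff_eq_self f2, hAB]

private lemma walls_step {i t x : ℕ} (hx : t ≤ x) :
    ∀ j, j ≤ t → (x - t) * x.choose i ≤ (x - t) * (x - j).choose i + j * i * x.choose i := by
  intro j
  induction j with
  | zero => intro _; simp
  | succ j ih =>
    intro hj
    have ih' := ih (by omega)
    obtain ⟨y, hy⟩ : ∃ y, x - j = y + 1 := ⟨x - j - 1, by omega⟩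
    have hy' : x - (j + 1) = y := by omega
    rw [hy] at ih'
    rw [hy']
    rcases i with _ | i
    · simp
    · rw [Nat.choose_succ_succ y i] at ih'
      have e1 : (y + 1) * y.choose i = (y + 1).choose (i + 1) * (i + 1) := Nat.add_one_mul_choose_eq y i
      have e2 : (y + 1).choose (i + 1) ≤ x.choose (i + 1) := Nat.choose_le_choose _ (by omega)
      have e3 : (x - t) * y.choose i ≤ (i + 1) * x.choose (i + 1) := by
        calc (x - t) * y.choose i ≤ (y + 1) * y.choose i := Nat.mul_le_mul_right _ (by omega)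
          _ = (y + 1).choose (i + 1) * (i + 1) := e1
          _ ≤ x.choose (i + 1) * (i + 1) := Nat.mul_le_mul_right _ e2
          _ = (i + 1) * x.choose (i + 1) := mul_comm _ _
      nlinarith [ih', e3]

theorem sb_le {x j : ℕ} (ht : 1 ≤ t) (hj : j ≤ t) (hx : 2 * t ^ 2 + 2 * t ≤ x) :
    WK.sb t x ≤ 2 * WK.sb t (x - j) := by
  unfold WK.sb
  rw [Finset.mul_sum]
  refine Finset.sum_le_sum fun i hi => ?_
  rw [mem_range] at hi
  have h1 := walls_step (i := i) (t := t) (x := x) (by omega) j hj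
  obtain ⟨y, hy⟩ : ∃ y, x = y + t := ⟨x - t, by omega⟩
  have hxy : x - t = y := by omega
  rw [hxy] at h1
  have h2 : j * i ≤ t ^ 2 := by
    rw [pow_two]
    exact Nat.mul_le_mul hj hi.le
  have h3 : 2 * t ^ 2 ≤ y := by omega
  have hy0 : 0 < y := by
    have : 0 < t ^ 2 := by positivity
    omega
  have h4 : j * i * x.choose i ≤ t ^ 2 * x.choose i := Nat.mul_le_mul_right _ h2
  have h5 : 2 * t ^ 2 * x.choose i ≤ y * x.choose i := Nat.mul_le_mul_right _ h3
  have h6 : y * x.choose i ≤ y * (2 * (x - j).choose i) := by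
    have : y * (2 * (x - j).choose i) = 2 * (y * (x - j).choose i) := by ring
    rw [this]
    have h7 : 2 * t ^ 2 * x.choose i = 2 * (t ^ 2 * x.choose i) := by ring
    rw [h7] at h5
    omega
  exact Nat.le_of_mul_le_mul_left h6 hy0

theorem wall_bound (ht : 1 ≤ t) (h : Av V t R) {𝒜 : Finset (Finset ℕ)} (h𝒜 : 𝒜 ⊆ Rm t R) {b : ℕ}
    (hb : 8 * t ^ 2 ≤ b) (hbig : ∀ A ∈ 𝒜, b ≤ (pt t R A).card) :
    b * WK.W V.card t 𝒜 ≤ 2 ^ (t + 2) * WK.W V.card t (𝒜.biUnion (wl t R)) := by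
  classical
  have htt : t ≤ t ^ 2 := by nlinarith
  have hA : ∀ A ∈ 𝒜, b * WK.sb t (V.card - A.card) ≤
      4 * ∑ Z ∈ wl t R A, WK.sb t (V.card - Z.card) := by
    intro A hA
    have hAR := h𝒜 hA
    obtain ⟨p1, p2, p3⟩ := pt_spec hAR
    have hc := wl_card h hAR
    have hbA := hbig A hA
    have hAV := h.sub A (mem_Rm.1 hAR).1
    have hPV := h.sub _ p1
    have hx : 2 * t ^ 2 + 2 * t ≤ V.card - A.card := by
      have e1 : (pt t R A \ A).card + (pt t R A ∩ A).card = (pt t R A).card :=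
        Finset.card_sdiff_add_card_inter _ _
      rw [inter_comm] at e1
      have e2 : (pt t R A \ A).card ≤ (V \ A).card := card_le_card (sdiff_subset_sdiff hPV subset_rfl)
      have e3 : (V \ A).card = V.card - A.card := card_sdiff_of_subset hAV
      omega
    have hZ : ∀ Z ∈ wl t R A, WK.sb t (V.card - A.card) ≤ 2 * WK.sb t (V.card - Z.card) := by
      intro Z hZ
      obtain ⟨w1, w2, w3, w4⟩ := wl_spec h hAR hZ
      have e1 : (Z \ A).card = Z.card - A.card := card_sdiff_of_subset w2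
      have e2 := card_le_card w2
      have e3 := card_le_card w1
      have e4 : V.card - Z.card = V.card - A.card - (Z \ A).card := by omega
      rw [e4]
      exact sb_le ht w3 hx
    have hsum : (wl t R A).card * WK.sb t (V.card - A.card) ≤
        2 * ∑ Z ∈ wl t R A, WK.sb t (V.card - Z.card) := by
      rw [Finset.mul_sum, ← smul_eq_mul, ← Finset.sum_const]
      exact Finset.sum_le_sum hZ
    have h2 : b ≤ 2 * (wl t R A).card := by omega
    calc b * WK.sb t (V.card - A.card) ≤ (2 * (wl t R A).card) * WK.sb t (V.card - A.card) :=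
          Nat.mul_le_mul_right _ h2
      _ = 2 * ((wl t R A).card * WK.sb t (V.card - A.card)) := by ring
      _ ≤ 2 * (2 * ∑ Z ∈ wl t R A, WK.sb t (V.card - Z.card)) := Nat.mul_le_mul_left _ hsum
      _ = 4 * ∑ Z ∈ wl t R A, WK.sb t (V.card - Z.card) := by ring
  have hdouble : ∑ A ∈ 𝒜, ∑ Z ∈ wl t R A, WK.sb t (V.card - Z.card) =
      ∑ Z ∈ 𝒜.biUnion (wl t R), ∑ A ∈ 𝒜.filter (fun A => Z ∈ wl t R A), WK.sb t (V.card - Z.card) := by
    apply Finset.sum_comm'
    intro A Z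
    simp only [mem_biUnion, mem_filter]
    constructor
    · rintro ⟨h1, h2⟩
      exact ⟨⟨h1, h2⟩, A, h1, h2⟩
    · rintro ⟨⟨h1, h2⟩, -⟩
      exact ⟨h1, h2⟩
  unfold WK.W
  calc b * ∑ A ∈ 𝒜, WK.sb t (V.card - A.card) = ∑ A ∈ 𝒜, b * WK.sb t (V.card - A.card) :=
        Finset.mul_sum _ _ _
    _ ≤ ∑ A ∈ 𝒜, 4 * ∑ Z ∈ wl t R A, WK.sb t (V.card - Z.card) := Finset.sum_le_sum hA
    _ = 4 * ∑ A ∈ 𝒜, ∑ Z ∈ wl t R A, WK.sb t (V.card - Z.card) := (Finset.mul_sum _ _ _).symm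
    _ = 4 * ∑ Z ∈ 𝒜.biUnion (wl t R),
          ∑ A ∈ 𝒜.filter (fun A => Z ∈ wl t R A), WK.sb t (V.card - Z.card) := by rw [hdouble]
    _ ≤ 4 * ∑ Z ∈ 𝒜.biUnion (wl t R), 2 ^ t * WK.sb t (V.card - Z.card) := by
        refine Nat.mul_le_mul_left _ (Finset.sum_le_sum fun Z _ => ?_)
        rw [Finset.sum_const, smul_eq_mul]
        exact Nat.mul_le_mul_right _ (wl_mult h h𝒜 Z)
    _ = 2 ^ (t + 2) * ∑ Z ∈ 𝒜.biUnion (wl t R), WK.sb t (V.card - Z.card) := by
        rw [← Finset.mul_sum, pow_add]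
        ring

end Pool.Agent.H37.AV
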