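import Pool.Agent.H37.AV.Acc
import Pool.Agent.H37.AV.UFam
import Pool.Agent.H37.AV.Nonmain
import Pool.Agent.H37.AV.Walls
import Pool.Agent.H37.AV.Neg
import Pool.Agent.H37.AV.Exits
import Pool.Agent.H37.AV.Rate

/-!
The numerical hypotheses `Prm` of the final count, the reward `rew`, and its first properties.

`V = [n]`.  Classes of members `A ∈ Rm` not in `Ng`, by `c = |pt A|`: `cl1`: `c ≤ c1`; `cl2`: `c1 < c`, `4 c ≤ 3 n`;
`cl3`: `3 n < 4 c`.  `rho` is the reward of a set `Z` (as first side of a slot of `S1`), `rew` the total reward.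
-/

open Finset

namespace Pool.Agent.H37.AV

/-- The numerical hypotheses. -/
structure Prm (n t w r m h1 hh M s c1 : ℕ) (α β θ : ℝ) : Prop where
  ht : 2 ≤ t
  hn : 4 * t ^ 3 ≤ n
  hw : 8 * t ^ 2 ≤ w
  hrn : r ≤ n
  hrm : 2 * m = r + t + 1
  hα : 0 ≤ α
  hβ : 0 ≤ β
  hθ : 0 < θ
  hθ1 : θ ≤ 1 / 4
  h1p : 1 ≤ h1
  hhp : 1 ≤ hh
  hhn : n ≤ hh ^ 2
  hM : t < M
  hM8 : 8 * M ≤ h1 ^ 2
  htc : t ≤ c1
  hts : 2 * t ≤ s
  hsc : 4 * s ≤ 3 * c1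
  hsn : 80 * s ≤ n
  hcw : 8 * t ^ 2 ≤ c1
  j1 : ∀ u, u ≤ n → n ≤ 2 * u + 4 * c1 → 1 / 4 ≤ pr n r m u
  j2 : ∀ u, 2 * u ≤ n → ∑ j ∈ Ico (m + 1 - 2 * t) m, hyp n r u j ≤ α * pr n r m u + β
  e1 : 2 * α * (Bd t * (250 * (h1 + t) + 4 * t * n / (M - t))) +
    (β + 2 * θ) * (240 * Bd t * (hh + t)) ≤ 1 / 4
  e2 : 2 ^ (t + 2) * (70 * t * Bd t) ≤ (w : ℝ) / 16
  e3 : 2 ^ (t + 3) * (20 ^ (t + 1) / (2 * θ) + 240 * Bd t * (hh + t)) ≤ (c1 : ℝ) / 16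
  e4 : 2 ^ (t + 5) * (1 / (2 * θ) + 240 * Bd t * (hh + t)) ≤ (n : ℝ) / 16
  e5 : 2 * ((n : ℝ) + 1) ^ (t + 2) *
    ((2 * (n : ℝ) / s) ^ (t + 1) / (2 * θ) + 240 * Bd t * (hh + t)) ≤ 1 / 16 * (1 + 2 * s / n) ^ s

/-- First class. -/
noncomputable def cl1 (n t s c1 : ℕ) (R : Finset (Finset ℕ)) : Finset (Finset ℕ) := by
  classical exact
    (Rm t R).filter (fun A => A ∉ Ng (Icc 1 n) t R s ∧ (pt t R A).card ≤ c1)

/-- Second class. -/
noncomputable def cl2 (n t s c1 : ℕ) (R : Finset (Finset ℕ)) : Finset (Finset ℕ) := by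
  classical exact
    (Rm t R).filter (fun A => A ∉ Ng (Icc 1 n) t R s ∧ c1 < (pt t R A).card ∧
      4 * (pt t R A).card ≤ 3 * n)

/-- Third class. -/
noncomputable def cl3 (n t s : ℕ) (R : Finset (Finset ℕ)) : Finset (Finset ℕ) := by
  classical exact
    (Rm t R).filter (fun A => A ∉ Ng (Icc 1 n) t R s ∧ 3 * n < 4 * (pt t R A).card)

/-- The reward of a set. -/
noncomputable def rho (n t r m : ℕ) (θ : ℝ) (L : Finset (Finset ℕ)) (Z : Finset ℕ) : ℝ :=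
  (1 - 2 * θ) * pr n r m Z.card + θ * st n t Z.card + θ * (if ∃ A ∈ L, A ⊆ Z then 1 else 0)

/-- The total reward. -/
noncomputable def rew (n t r m s : ℕ) (θ : ℝ) (R : Finset (Finset ℕ)) : ℝ :=
  (N2 (Icc 1 n) t R).card / Bd t +
    2 * ∑ σ ∈ S1 (Icc 1 n) t R, rho n t r m θ (cl3 n t s R) σ.1

variable {n t w r m h1 hh M s c1 : ℕ} {α β θ : ℝ} {R : Finset (Finset ℕ)}

lemma rho_nonneg (hθ : 0 ≤ θ) (hθ1 : θ ≤ 1 / 4) (L : Finset (Finset ℕ)) (Z : Finset ℕ) :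
    0 ≤ rho n t r m θ L Z := by
  unfold rho
  have h1 := pr_nonneg n r m Z.card
  have h2 := st_nonneg n t Z.card
  have h3 : (0 : ℝ) ≤ if ∃ A ∈ L, A ⊆ Z then (1 : ℝ) else 0 := by split_ifs <;> norm_num
  have h4 : 0 ≤ 1 - 2 * θ := by linarith
  positivity

lemma rew_nonneg (P : Prm n t w r m h1 hh M s c1 α β θ) : 0 ≤ rew n t r m s θ R := by
  unfold rew
  have h1 : 0 ≤ ((N2 (Icc 1 n) t R).card : ℝ) / Bd t := by
    have := Bd_pos t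
    positivity
  have h2 : 0 ≤ ∑ σ ∈ S1 (Icc 1 n) t R, rho n t r m θ (cl3 n t s R) σ.1 :=
    Finset.sum_nonneg fun σ _ => rho_nonneg P.hθ.le P.hθ1 _ _
  linarith

lemma n2_le (P : Prm n t w r m h1 hh M s c1 α β θ) :
    ((N2 (Icc 1 n) t R).card : ℝ) ≤ Bd t * rew n t r m s θ R := by
  unfold rew
  have hB := Bd_pos t
  have h2 : 0 ≤ ∑ σ ∈ S1 (Icc 1 n) t R, rho n t r m θ (cl3 n t s R) σ.1 :=
    Finset.sum_nonneg fun σ _ => rho_nonneg P.hθ.le P.hθ1 _ _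
  have h3 : Bd t * ((N2 (Icc 1 n) t R).card / Bd t) = (N2 (Icc 1 n) t R).card := by
    field_simp
  nlinarith

/-- `∑ rho` over `S1` is at most half of the reward. -/
lemma rho_sum_le (P : Prm n t w r m h1 hh M s c1 α β θ) :
    2 * ∑ σ ∈ S1 (Icc 1 n) t R, rho n t r m θ (cl3 n t s R) σ.1 ≤ rew n t r m s θ R := by
  unfold rew
  have h1 : 0 ≤ ((N2 (Icc 1 n) t R).card : ℝ) / Bd t := by
    have := Bd_pos t
    positivity
  linarith

lemma s1_pr_le (P : Prm n t w r m h1 hh M s c1 α β θ) :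
    ∑ σ ∈ S1 (Icc 1 n) t R, pr n r m σ.1.card ≤ rew n t r m s θ R := by
  refine le_trans ?_ (rho_sum_le P)
  rw [Finset.mul_sum]
  refine Finset.sum_le_sum fun σ _ => ?_
  unfold rho
  have h1 := pr_nonneg n r m σ.1.card
  have h2 := st_nonneg n t σ.1.card
  have h3 : (0 : ℝ) ≤ if ∃ A ∈ cl3 n t s R, A ⊆ σ.1 then (1 : ℝ) else 0 := by
    split_ifs <;> norm_num
  have hθ := P.hθ
  have hθ1 := P.hθ1
  nlinarith [mul_nonneg hθ.le h2, mul_nonneg hθ.le h3]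

/-- Slots of `S1` with a first side of size at least `n/2 - 2 c1`. -/
lemma s1_count_le (P : Prm n t w r m h1 hh M s c1 α β θ) {X : Finset Slot}
    (hX : X ⊆ S1 (Icc 1 n) t R) (hc : ∀ σ ∈ X, n ≤ 2 * σ.1.card + 4 * c1) :
    (X.card : ℝ) ≤ 4 * rew n t r m s θ R := by
  have h1 : (X.card : ℝ) ≤ 4 * ∑ σ ∈ X, pr n r m σ.1.card := by
    rw [Finset.mul_sum, Finset.card_eq_sum_ones, Nat.cast_sum]
    refine Finset.sum_le_sum fun σ hσ => ?_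
    have hσ1 := (mem_slots.1 (mem_S1.1 (hX hσ)).1).1
    have hle : σ.1.card ≤ n := by
      have := Finset.card_le_card hσ1
      simpa using this
    have := P.j1 _ hle (hc σ hσ)
    push_cast
    linarith
  have h2 : ∑ σ ∈ X, pr n r m σ.1.card ≤ ∑ σ ∈ S1 (Icc 1 n) t R, pr n r m σ.1.card :=
    Finset.sum_le_sum_of_subset_of_nonneg hX fun σ _ _ => pr_nonneg _ _ _ _
  have h3 := s1_pr_le (R := R) P
  linarith

lemma s1_st_le (P : Prm n t w r m h1 hh M s c1 α β θ) :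
    ∑ σ ∈ S1 (Icc 1 n) t R, st n t σ.1.card ≤ rew n t r m s θ R / (2 * θ) := by
  have hθ := P.hθ
  have hθ1 := P.hθ1
  rw [le_div_iff₀ (by linarith)]
  refine le_trans ?_ (rho_sum_le P)
  rw [mul_comm, mul_assoc, Finset.mul_sum]
  refine mul_le_mul_of_nonneg_left (Finset.sum_le_sum fun σ _ => ?_) (by norm_num)
  unfold rho
  have h1 := pr_nonneg n r m σ.1.card
  have h3 : (0 : ℝ) ≤ if ∃ A ∈ cl3 n t s R, A ⊆ σ.1 then (1 : ℝ) else 0 := by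
    split_ifs <;> norm_num
  have h4 : 0 ≤ (1 - 2 * θ) * pr n r m σ.1.card := mul_nonneg (by linarith) h1
  have h5 := mul_nonneg hθ.le h3
  linarith

lemma s1_fam_le (P : Prm n t w r m h1 hh M s c1 α β θ) {X : Finset Slot}
    (hX : X ⊆ S1 (Icc 1 n) t R) (hc : ∀ σ ∈ X, ∃ A ∈ cl3 n t s R, A ⊆ σ.1) :
    (X.card : ℝ) ≤ rew n t r m s θ R / (2 * θ) := by
  have hθ := P.hθ
  have hθ1 := P.hθ1
  rw [le_div_iff₀ (by linarith)]
  refine le_trans ?_ (rho_sum_le P)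
  have h0 : ∑ σ ∈ X, rho n t r m θ (cl3 n t s R) σ.1 ≤
      ∑ σ ∈ S1 (Icc 1 n) t R, rho n t r m θ (cl3 n t s R) σ.1 :=
    Finset.sum_le_sum_of_subset_of_nonneg hX fun σ _ _ => rho_nonneg hθ.le hθ1 _ _
  have h1 : (X.card : ℝ) * θ ≤ ∑ σ ∈ X, rho n t r m θ (cl3 n t s R) σ.1 := by
    rw [← nsmul_eq_mul, ← Finset.sum_const]
    refine Finset.sum_le_sum fun σ hσ => ?_
    unfold rho
    rw [if_pos (hc σ hσ)]
    have h1 := pr_nonneg n r m σ.1.card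
    have h2 := st_nonneg n t σ.1.card
    have h4 : 0 ≤ (1 - 2 * θ) * pr n r m σ.1.card := mul_nonneg (by linarith) h1
    have h5 := mul_nonneg hθ.le h2
    linarith
  linarith

end Pool.Agent.H37.AV
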