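import Pool.Agent.H37.AV.Defs

/-!
Module Sym.  Symmetry under exchange of the two sides.

`Prod.swap` maps `slots`, `mains`, `rows`, `S2`, `Th`, `N2` onto themselves, and `SQ` into `S1`.
`nr_swap`: if `c` is the vector for `s` then `fun x => c x.swap` is a vector for `s.swap` (reindex the sums
by `Prod.swap`, a bijection of `slots`, and use that the rows are symmetric).
-/

open Finset

namespace Pool.Agent.H37.AV

private lemma swap_mem_slots_iff {V : Finset ℕ} {t : ℕ} {s : Slot} :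
    s.swap ∈ slots V t ↔ s ∈ slots V t :=
  ⟨fun h => by simpa using swap_mem_slots h, swap_mem_slots⟩

private lemma swap_mem_mains_iff {V : Finset ℕ} {t : ℕ} {s : Slot} :
    s.swap ∈ mains V t ↔ s ∈ mains V t :=
  ⟨fun h => by simpa using swap_mem_mains h, swap_mem_mains⟩

private lemma swap_mem_rows {V : Finset ℕ} {t : ℕ} {R : Finset (Finset ℕ)} {r : Slot}
    (h : r ∈ rows V t R) : r.swap ∈ rows V t R := by
  obtain ⟨h1, h2, h3, h4, h5, h6⟩ := mem_rows.1 h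
  exact mem_rows.2 ⟨h2, h1, h3.symm, h5, h4, h6.symm⟩

/-- A sum over a set stable under `Prod.swap`. -/
private lemma sum_swap_of {T : Finset Slot} (hT : ∀ s ∈ T, s.swap ∈ T) (f : Slot → ℝ) :
    ∑ s ∈ T, f s.swap = ∑ s ∈ T, f s :=
  sum_nbij' (fun s => s.swap) (fun s => s.swap) hT hT (fun s _ => Prod.swap_swap s)
    (fun s _ => Prod.swap_swap s) (fun _ _ => rfl)

private lemma nr_of_swap {V : Finset ℕ} {t : ℕ} {R : Finset (Finset ℕ)} {s : Slot}
    (h : NR V t R s) : NR V t R s.swap := by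
  obtain ⟨c, h1, h2, h3⟩ := h
  refine ⟨fun x => c x.swap, ?_, ?_, ?_⟩
  · show c s.swap.swap = 1
    rw [Prod.swap_swap, h1]
  · rw [sum_swap_of (fun s hs => swap_mem_slots hs) (fun x => c x ^ 2)]
    exact h2
  · intro r hr
    have h4 := h3 r.swap (swap_mem_rows hr)
    rw [← h4]
    refine sum_nbij' (fun s => s.swap) (fun s => s.swap) ?_ ?_ (fun s _ => Prod.swap_swap s)
      (fun s _ => Prod.swap_swap s) (fun _ _ => rfl)
    · intro x hx
      rw [mem_filter] at hx ⊢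
      exact ⟨swap_mem_slots hx.1, hx.2.2, hx.2.1⟩
    · intro x hx
      rw [mem_filter] at hx ⊢
      exact ⟨swap_mem_slots hx.1, hx.2.2, hx.2.1⟩

theorem nr_swap {V : Finset ℕ} {t : ℕ} {R : Finset (Finset ℕ)} {s : Slot} :
    NR V t R s.swap ↔ NR V t R s :=
  ⟨fun h => by simpa using nr_of_swap h, nr_of_swap⟩

theorem swap_mem_S2 {V : Finset ℕ} {t : ℕ} {R : Finset (Finset ℕ)} {s : Slot} :
    s.swap ∈ S2 V t R ↔ s ∈ S2 V t R := by
  rw [mem_S2, mem_S2, swap_mem_slots_iff, Prod.fst_swap, Prod.snd_swap]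
  tauto

theorem swap_mem_Th {V : Finset ℕ} {t : ℕ} {R : Finset (Finset ℕ)} {s : Slot} :
    s.swap ∈ Th V t R ↔ s ∈ Th V t R := by
  rw [mem_Th, mem_Th, swap_mem_mains_iff, Prod.fst_swap, Prod.snd_swap, nr_swap]
  tauto

theorem swap_mem_N2 {V : Finset ℕ} {t : ℕ} {R : Finset (Finset ℕ)} {s : Slot} :
    s.swap ∈ N2 V t R ↔ s ∈ N2 V t R := by
  rw [mem_N2, mem_N2, swap_mem_mains_iff, Prod.fst_swap, Prod.snd_swap, nr_swap]
  tauto

theorem swap_mem_S1 {V : Finset ℕ} {t : ℕ} {R : Finset (Finset ℕ)} {s : Slot}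
    (h : s ∈ SQ V t R) : s.swap ∈ S1 V t R := by
  rw [mem_SQ] at h
  rw [mem_S1, Prod.fst_swap, Prod.snd_swap]
  exact ⟨swap_mem_slots (mains_sub h.1), h.2.1, h.2.2⟩

theorem sum_S2_swap {V : Finset ℕ} {t : ℕ} {R : Finset (Finset ℕ)} (f : Slot → ℝ) :
    ∑ s ∈ S2 V t R, f s.swap = ∑ s ∈ S2 V t R, f s :=
  sum_swap_of (fun _ hs => swap_mem_S2.2 hs) f

theorem sum_Th_swap {V : Finset ℕ} {t : ℕ} {R : Finset (Finset ℕ)} (f : Slot → ℝ) :
    ∑ s ∈ Th V t R, f s.swap = ∑ s ∈ Th V t R, f s :=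
  sum_swap_of (fun _ hs => swap_mem_Th.2 hs) f

theorem sum_N2_swap {V : Finset ℕ} {t : ℕ} {R : Finset (Finset ℕ)} (f : Slot → ℝ) :
    ∑ s ∈ N2 V t R, f s.swap = ∑ s ∈ N2 V t R, f s :=
  sum_swap_of (fun _ hs => swap_mem_N2.2 hs) f

/-- A nonnegative sum over `SQ` is at most the mirrored sum over `S1`. -/
theorem sum_SQ_le {V : Finset ℕ} {t : ℕ} {R : Finset (Finset ℕ)} (f : Slot → ℝ)
    (hf : ∀ s, 0 ≤ f s) : ∑ s ∈ SQ V t R, f s.swap ≤ ∑ s ∈ S1 V t R, f s := by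
  have h1 : ∑ s ∈ SQ V t R, f s.swap = ∑ s ∈ (SQ V t R).image Prod.swap, f s := by
    rw [sum_image]
    intro x _ y _ h
    exact Prod.swap_injective h
  rw [h1]
  refine sum_le_sum_of_subset_of_nonneg ?_ (fun s _ _ => hf s)
  intro s hs
  rw [mem_image] at hs
  obtain ⟨x, hx, rfl⟩ := hs
  exact swap_mem_S1 hx

end Pool.Agent.H37.AV
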