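import Pool.Agent.H37.AV.Loc

/-!
Module TypeThree.  A member `B` inside the second side, `E ⊆ B` with `t` elements, each `K + b`, `b ∈ E`,
captured by the first side (`K = ker V s`): `s` is not rigid.

`loc` with `N = K ∪ E` (`2 t - 1` elements), `T = s.1`, `T' = s.2 \ E`, index set the powerset of `E`,
`L S = (S, K ∪ (E \ S))`, `a S = (-1)^|E \ S|`.
 * no row `(A, C)` with `A ⊆ N ∪ T`, `C ⊆ N ∪ T'`, `A ∩ N = S`, `C ∩ N = K ∪ (E \ S)`: if `S ≠ E` take
   `b ∈ E \ S`; `C ⊇ K + b` has at least `t` elements, so `C ∈ R`; the member `A_b` with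
   `K + b ⊆ A_b ⊆ K ∪ s.1 + b` satisfies `A_b ∩ C = K + b` (`s.1` is disjoint from `N ∪ T'`), size `t`.
   If `S = E`: `A ⊇ E` has at least `t` elements, so `A ∈ R` and `A ∩ B = E` (`B ⊆ s.2`, so `B` is
   disjoint from `s.1` and from `K`), size `t`.
 * `kap L₁ L₂ = 0` unless `L₁ ⊆ E`, `L₂ ⊆ N` and `E \ L₁ ⊆ L₂`: the condition is `L₁ ⊆ S ⊆ E \ L₂`, and the
   sign is `(-1)^(|E \ S| + |S \ L₁| + |(K ∪ (E \ S)) \ L₂|)`
   `= (-1)^(|S| + |L₁| + |K| + |L₂|)` up to even terms, which sums to `0` over `S` unless
   `L₁ = E \ L₂`.  Then `N \ (L₁ ∪ L₂) ⊆ K` has fewer than `t` elements; so `hill` holds; the value is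
   `± 1`; and `s = (T ∪ ∅, T' ∪ E)` has value `± 1`.
-/

open Finset

namespace Pool.Agent.H37.AV

private noncomputable def ix3 (K E : Finset ℕ) (S : Finset ℕ) : Slot := (S, K ∪ (E \ S))

private noncomputable def co3 (E : Finset ℕ) (S : Finset ℕ) : ℝ := (-1) ^ (E \ S).card

private lemma kap3 {K E : Finset ℕ} (hKE : Disjoint K E) (L₁ L₂ : Finset ℕ) :
    kap E.powerset (ix3 K E) (co3 E) L₁ L₂ =
      if L₂ ⊆ K ∪ E ∧ L₁ ⊆ E \ L₂ ∧ (E \ L₂) \ L₁ = ∅ then (-1) ^ (K.card + L₂.card) else 0 := by
  unfold kap
  rw [← Finset.sum_filter]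
  by_cases hL2 : L₂ ⊆ K ∪ E
  · by_cases hL1 : L₁ ⊆ E \ L₂
    · have hkey : ∑ S ∈ E.powerset.filter (fun S => L₁ ⊆ (ix3 K E S).1 ∧ L₂ ⊆ (ix3 K E S).2),
          co3 E S * (-1) ^ (((ix3 K E S).1 \ L₁).card + ((ix3 K E S).2 \ L₂).card) =
          ∑ U ∈ ((E \ L₂) \ L₁).powerset, (-1) ^ (K.card + L₂.card) * (-1 : ℝ) ^ U.card := by
        refine Finset.sum_nbij' (fun S => S \ L₁) (fun U => L₁ ∪ U) ?_ ?_ ?_ ?_ ?_
        · intro S hS
          rw [mem_filter, mem_powerset] at hS
          simp only [ix3] at hS
          obtain ⟨hSE, hLS, hLS2⟩ := hS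
          rw [mem_powerset]
          intro z hz
          rw [mem_sdiff] at hz
          rw [mem_sdiff, mem_sdiff]
          refine ⟨⟨hSE hz.1, fun hzL => ?_⟩, hz.2⟩
          rcases mem_union.1 (hLS2 hzL) with h1 | h1
          · exact disjoint_left.1 hKE h1 (hSE hz.1)
          · exact (mem_sdiff.1 h1).2 hz.1
        · intro U hU
          rw [mem_powerset] at hU
          rw [mem_filter, mem_powerset]
          simp only [ix3]
          refine ⟨union_subset (hL1.trans sdiff_subset)
            (hU.trans (sdiff_subset.trans sdiff_subset)), subset_union_left, ?_⟩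
          intro z hz
          rcases mem_union.1 (hL2 hz) with h1 | h1
          · exact mem_union_left _ h1
          · refine mem_union_right _ (mem_sdiff.2 ⟨h1, fun h2 => ?_⟩)
            rcases mem_union.1 h2 with h3 | h3
            · exact (mem_sdiff.1 (hL1 h3)).2 hz
            · exact (mem_sdiff.1 (mem_sdiff.1 (hU h3)).1).2 hz
        · intro S hS
          rw [mem_filter, mem_powerset] at hS
          simp only [ix3] at hS
          exact union_sdiff_of_subset hS.2.1
        · intro U hU
          rw [mem_powerset] at hU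
          ext z
          simp only [mem_sdiff, mem_union]
          constructor
          · rintro ⟨h1 | h1, h2⟩
            · exact absurd h1 h2
            · exact h1
          · intro h1
            exact ⟨Or.inr h1, (mem_sdiff.1 (hU h1)).2⟩
        · intro S hS
          rw [mem_filter, mem_powerset] at hS
          simp only [ix3] at hS
          obtain ⟨hSE, hLS, hLS2⟩ := hS
          simp only [ix3, co3]
          have c1 : (K ∪ E \ S).card = K.card + (E \ S).card :=
            card_union_of_disjoint (hKE.mono_right sdiff_subset)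
          have c2 : ((K ∪ E \ S) \ L₂).card + L₂.card = K.card + (E \ S).card := by
            rw [← c1]
            exact card_sdiff_add_card_eq_card hLS2
          have hsq : ∀ n : ℕ, ((-1 : ℝ) ^ n) * (-1) ^ n = 1 := by
            intro n
            rw [← mul_pow]
            simp
          have e1 : (-1 : ℝ) ^ ((K ∪ E \ S) \ L₂).card * (-1) ^ L₂.card =
              (-1) ^ K.card * (-1) ^ (E \ S).card := by
            rw [← pow_add, ← pow_add, c2]
          rw [pow_add, pow_add]
          calc (-1 : ℝ) ^ (E \ S).card * ((-1) ^ (S \ L₁).card * (-1) ^ ((K ∪ E \ S) \ L₂).card)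
              = (-1 : ℝ) ^ (E \ S).card * ((-1) ^ (S \ L₁).card *
                ((-1) ^ ((K ∪ E \ S) \ L₂).card * (-1) ^ L₂.card)) * (-1) ^ L₂.card := by
                linear_combination (-((-1 : ℝ) ^ (E \ S).card * ((-1) ^ (S \ L₁).card *
                  (-1) ^ ((K ∪ E \ S) \ L₂).card))) * hsq L₂.card
            _ = _ := by
                rw [e1]
                linear_combination ((-1 : ℝ) ^ K.card * (-1) ^ L₂.card *
                  (-1) ^ (S \ L₁).card) * hsq (E \ S).card
      rw [hkey, ← Finset.mul_sum]
      have hz : ∑ U ∈ ((E \ L₂) \ L₁).powerset, (-1 : ℝ) ^ U.card =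
          if (E \ L₂) \ L₁ = ∅ then 1 else 0 := by
        have := Finset.sum_powerset_neg_one_pow_card (x := (E \ L₂) \ L₁)
        have h2 := congrArg (fun z : ℤ => (z : ℝ)) this
        push_cast at h2
        exact h2
      rw [hz]
      by_cases hF : (E \ L₂) \ L₁ = ∅
      · rw [if_pos hF, if_pos ⟨hL2, hL1, hF⟩, mul_one]
      · rw [if_neg hF, if_neg (fun h => hF h.2.2), mul_zero]
    · rw [if_neg (fun h => hL1 h.2.1)]
      refine Finset.sum_eq_zero fun S hS => ?_
      exfalso
      rw [mem_filter, mem_powerset] at hS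
      simp only [ix3] at hS
      obtain ⟨hSE, hLS, hLS2⟩ := hS
      apply hL1
      intro z hz
      rw [mem_sdiff]
      refine ⟨hSE (hLS hz), fun hz2 => ?_⟩
      rcases mem_union.1 (hLS2 hz2) with h1 | h1
      · exact disjoint_left.1 hKE h1 (hSE (hLS hz))
      · exact (mem_sdiff.1 h1).2 (hLS hz)
  · rw [if_neg (fun h => hL2 h.1)]
    refine Finset.sum_eq_zero fun S hS => ?_
    exfalso
    rw [mem_filter, mem_powerset] at hS
    simp only [ix3] at hS
    exact hL2 (hS.2.2.trans (union_subset_union_right sdiff_subset))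

theorem nr_three {V : Finset ℕ} {t : ℕ} {R : Finset (Finset ℕ)} (ht : 1 ≤ t) (h : Av V t R)
    {s : Slot} (hs : s ∈ mains V t) {B E : Finset ℕ} (hB : B ∈ R) (hBs : B ⊆ s.2) (hE : E ⊆ B)
    (hEt : E.card = t) (hcap : ∀ b ∈ E, Cap R (ker V s) s.1 b) : NR V t R s := by
  obtain ⟨hs1, hs2, hd, hk⟩ := mem_mains.1 hs
  have hmk : ∀ z, z ∈ ker V s ↔ z ∈ V ∧ z ∉ s.1 ∧ z ∉ s.2 := by
    intro z
    simp only [ker, mem_sdiff, mem_union, not_or]
  have hdd : ∀ z, z ∈ s.1 → z ∉ s.2 := fun z h1 h2 => (disjoint_left.1 hd) h1 h2
  have hEs : E ⊆ s.2 := hE.trans hBs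
  have hKE : Disjoint (ker V s) E := by
    rw [disjoint_left]
    intro z hz hz2
    exact ((hmk z).1 hz).2.2 (hEs hz2)
  have hres : NR V t R (s.1 ∪ ∅, s.2 \ E ∪ E) := by
    refine loc (N := ker V s ∪ E) (T := s.1) (T' := s.2 \ E) ?_ ?_ ?_ ?_ ?_ E.powerset
      (ix3 (ker V s) E) (co3 E) ?_ ?_ ?_ ?_ (empty_subset _) subset_union_right
      (disjoint_empty_left _) ?_
    · rw [disjoint_left]
      intro z hz hz2
      rcases mem_union.1 hz with hz | hz
      · exact ((hmk z).1 hz).2.1 hz2
      · exact hdd z hz2 (hEs hz)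
    · rw [disjoint_left]
      intro z hz hz2
      rw [mem_sdiff] at hz2
      rcases mem_union.1 hz with hz | hz
      · exact ((hmk z).1 hz).2.2 hz2.1
      · exact hz2.2 hz
    · exact hd.mono_right sdiff_subset
    · ext z
      simp only [mem_union, mem_sdiff, hmk]
      constructor
      · rintro ((hz | hz) | hz | hz)
        · exact hz.1
        · exact hs2 (hEs hz)
        · exact hs1 hz
        · exact hs2 hz.1
      · intro hz
        by_cases h1 : z ∈ E <;> by_cases h2 : z ∈ s.1 <;> by_cases h3 : z ∈ s.2 <;> tauto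
    · rw [card_union_of_disjoint hKE, hEt]
      omega
    · intro S hS
      rw [mem_powerset] at hS
      refine ⟨hS.trans subset_union_right, union_subset_union_right sdiff_subset, ?_⟩
      rw [disjoint_left]
      intro z hz hz2
      rcases mem_union.1 hz2 with h1 | h1
      · exact disjoint_left.1 hKE h1 (hS hz)
      · exact (mem_sdiff.1 h1).2 hz
    · intro S hS r hr hr1 hr2 hr3 hr4
      rw [mem_powerset] at hS
      obtain ⟨-, -, -, hr5, hr6, -⟩ := mem_rows.1 hr
      simp only [ix3] at hr3 hr4
      by_cases hSE : E ⊆ S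
      · have hSE' : S = E := Subset.antisymm hS hSE
        subst hSE'
        have hsub : S ⊆ r.1 := by
          rw [← hr3]
          exact inter_subset_left
        have hR : r.1 ∈ R := by
          rcases hr5 with h | h
          · exact h
          · have := card_le_card hsub
            omega
        refine h.av r.1 hR B hB ?_
        have : r.1 ∩ B = S := by
          ext z
          rw [mem_inter]
          constructor
          · rintro ⟨h1, h2⟩
            rcases mem_union.1 (hr1 h1) with h3 | h3
            · rcases mem_union.1 h3 with h4 | h4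
              · exact absurd (hBs h2) ((hmk z).1 h4).2.2
              · exact h4
            · exact absurd (hBs h2) (hdd z h3)
          · intro hz
            exact ⟨hsub hz, hE hz⟩
        rw [this, hEt]
      · obtain ⟨b, hbE, hbS⟩ := not_subset.1 hSE
        obtain ⟨A, hAR, hA1, hA2⟩ := hcap b hbE
        have hbk : b ∉ ker V s := fun hh => disjoint_left.1 hKE hh hbE
        have hcard : (insert b (ker V s)).card = t := by rw [card_insert_of_notMem hbk, hk]
        have hsub : insert b (ker V s) ⊆ r.2 := by
          intro z hz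
          have : z ∈ r.2 ∩ (ker V s ∪ E) := by
            rw [hr4]
            rcases mem_insert.1 hz with rfl | hz
            · exact mem_union_right _ (mem_sdiff.2 ⟨hbE, hbS⟩)
            · exact mem_union_left _ hz
          exact (mem_inter.1 this).1
        have hR : r.2 ∈ R := by
          rcases hr6 with h | h
          · exact h
          · have := card_le_card hsub
            omega
        refine h.av A hAR r.2 hR ?_
        have : A ∩ r.2 = insert b (ker V s) := by
          ext z
          rw [mem_inter]
          constructor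
          · rintro ⟨h1, h2⟩
            rcases mem_insert.1 (hA2 h1) with rfl | h3
            · exact mem_insert_self _ _
            · rcases mem_union.1 h3 with h4 | h4
              · exact mem_insert_of_mem h4
              · exfalso
                rcases mem_union.1 (hr2 h2) with h5 | h5
                · rcases mem_union.1 h5 with h6 | h6
                  · exact ((hmk z).1 h6).2.1 h4
                  · exact hdd z h4 (hEs h6)
                · exact hdd z h4 (mem_sdiff.1 h5).1
          · intro hz
            exact ⟨hA1 hz, hsub hz⟩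
        rw [this, hcard]
    · intro M₁ M₂ hM1 hM2 hM hc
      rw [kap3 hKE, if_neg]
      rintro ⟨h1, h2, h3⟩
      have hsub : (ker V s ∪ E) \ (M₁ ∪ M₂) ⊆ ker V s := by
        intro z hz
        rw [mem_sdiff, mem_union, mem_union] at hz
        rcases hz.1 with h4 | h4
        · exact h4
        · exfalso
          have h5 : z ∉ (E \ M₂) \ M₁ := by rw [h3]; exact notMem_empty _
          rw [mem_sdiff, mem_sdiff] at h5
          tauto
      have := card_le_card hsub
      omega
    · intro M₁ M₂
      rw [kap3 hKE]
      have ht0 : (0 : ℝ) ≤ t := Nat.cast_nonneg t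
      split_ifs
      · rw [abs_pow, abs_neg, abs_one, one_pow]
        linarith
      · rw [abs_zero]
        linarith
    · rw [kap3 hKE, if_pos]
      · rw [abs_pow, abs_neg, abs_one, one_pow]
      · exact ⟨subset_union_right, empty_subset _, by rw [sdiff_self]; rfl⟩
  rw [union_empty, sdiff_union_of_subset hEs] at hres
  exact hres

end Pool.Agent.H37.AV
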