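import Pool.Agent.H37.AV.Loc

/-!
Module TypeTwo.  `N` with `t + 1` elements captured by both sides: every slot `(T ∪ L₁, T' ∪ L₂)` with
`|L₁ ∪ L₂| = 2` is not rigid.

Let `A, B ∈ R`, `N ⊆ A ⊆ N ∪ T`, `N ⊆ B ⊆ N ∪ T'`.  No member `C ⊆ N ∪ T` has `|C ∩ N| = t` (else
`C ∩ B = C ∩ N`), and no member `C ⊆ N ∪ T'` has `|C ∩ N| = t` (else `C ∩ A = C ∩ N`).  Write
`E_j = N \ {j}` (`t` elements).  For different `x, y ∈ N` use in `loc` the combination
 `e_(Ex,∅) - e_(Ey,∅) - e_(∅,Ex) + e_(∅,Ey) - e_({x},Ex) + e_({y},Ey)`  (six indices);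
each pair of traces contains some `E_j`, a set of `t` elements, so the corresponding side of a row would
be a member (size `≥ t`, and the row condition) with trace of size `t`: impossible.
Coefficients `kap L₁ L₂` for `|L₁ ∪ L₂| ≤ 1` (these are the ones with `|N \ (L₁ ∪ L₂)| ≥ t`) are `0`:
 `(∅,∅)`: `(1 - 1 - 1 + 1 + 1 - 1)(-1)^t`;
 `({z},∅)`: `z ≠ x, y`: `(-1)^(t-1) - (-1)^(t-1)`; `z = x`: `-(-1)^(t-1) - (-1)^t`; `z = y`: `(-1)^(t-1) + (-1)^t`;
 `(∅,{z})`: `z ≠ x,y`: `-(-1)^(t-1) + (-1)^(t-1) - (-1)^t + (-1)^t`; `z = x`: `(-1)^(t-1) + (-1)^t`;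
 `z = y`: `-(-1)^(t-1) - (-1)^t`.
Nonzero coefficients (`± 1`) for `|L₁ ∪ L₂| = 2`:
 * `({x},{y})` (coefficient `-(-1)^(t-1)`) and `({y},{x})` (coefficient `(-1)^(t-1)`);
 * `({u,v},∅)`: take `z ∈ N \ {u,v}` (exists, `t ≥ 2`) and use the combination with `x = z`, `y = u`: the vector
   `e_(Ex,∅)` contains `{u,v} ⊆ E_z` with coefficient `(-1)^(t-2)`, `e_(Ey,∅)` does not, the others need
   `L₂ ≠ ∅` or `L₁ ⊆ {x}`: total `(-1)^(t-2)`;
 * `(∅,{u,v})`: by the mirror image: use the combination with the two components exchanged.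
Every coefficient is bounded by `6 ≤ 4 t + 4`.  (The six pairs need not be different, `loc` allows an
arbitrary index type, e.g. `Fin 6`.)
-/

open Finset

namespace Pool.Agent.H37.AV

/-- value of one vector -/
private noncomputable def ev2 (L M L₁ L₂ : Finset ℕ) : ℝ :=
  if L₁ ⊆ L ∧ L₂ ⊆ M then (-1) ^ ((L \ L₁).card + (M \ L₂).card) else 0

private lemma ev2_val {L M L₁ L₂ : Finset ℕ} (h1 : L₁ ⊆ L) (h2 : L₂ ⊆ M) (a b : ℕ)
    (ha : L.card = a + L₁.card) (hb : M.card = b + L₂.card) : ev2 L M L₁ L₂ = (-1) ^ (a + b) := by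
  unfold ev2
  rw [if_pos ⟨h1, h2⟩, card_sdiff_of_subset h1, card_sdiff_of_subset h2]
  congr 2
  · omega
  · omega

private lemma ev2_no1 {L M L₁ L₂ : Finset ℕ} (h : ¬ L₁ ⊆ L) : ev2 L M L₁ L₂ = 0 := by
  unfold ev2
  rw [if_neg (fun hh => h hh.1)]

private lemma ev2_no2 {L M L₁ L₂ : Finset ℕ} (h : ¬ L₂ ⊆ M) : ev2 L M L₁ L₂ = 0 := by
  unfold ev2
  rw [if_neg (fun hh => h hh.2)]

private lemma ev2_abs (L M L₁ L₂ : Finset ℕ) : |ev2 L M L₁ L₂| ≤ 1 := by
  unfold ev2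
  split_ifs
  · simp
  · simp

/-- value of the combination -/
private noncomputable def g2 (N : Finset ℕ) (x y : ℕ) (L₁ L₂ : Finset ℕ) : ℝ :=
  ev2 (N.erase x) ∅ L₁ L₂ - ev2 (N.erase y) ∅ L₁ L₂ - ev2 ∅ (N.erase x) L₁ L₂ +
    ev2 ∅ (N.erase y) L₁ L₂ - ev2 {x} (N.erase x) L₁ L₂ + ev2 {y} (N.erase y) L₁ L₂

private lemma g2_zero {N : Finset ℕ} {k : ℕ} (hN : N.card = k + 3) {x y : ℕ} (hx : x ∈ N)
    (hy : y ∈ N) (hxy : x ≠ y) {L₁ L₂ : Finset ℕ} (h1 : L₁ ⊆ N) (h2 : L₂ ⊆ N)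
    (h12 : Disjoint L₁ L₂) (hc : (L₁ ∪ L₂).card ≤ 1) : g2 N x y L₁ L₂ = 0 := by
  have cx : (N.erase x).card = k + 2 := by rw [card_erase_of_mem hx, hN]; rfl
  have cy : (N.erase y).card = k + 2 := by rw [card_erase_of_mem hy, hN]; rfl
  rw [card_union_of_disjoint h12] at hc
  have hcases : (L₁ = ∅ ∧ L₂ = ∅) ∨ (∃ z, L₁ = {z} ∧ L₂ = ∅) ∨ (∃ z, L₁ = ∅ ∧ L₂ = {z}) := by
    rcases Nat.eq_zero_or_pos L₁.card with h | h
    · rcases Nat.eq_zero_or_pos L₂.card with h' | h'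
      · exact Or.inl ⟨card_eq_zero.1 h, card_eq_zero.1 h'⟩
      · obtain ⟨z, hz⟩ := card_eq_one.1 (show L₂.card = 1 by omega)
        exact Or.inr (Or.inr ⟨z, card_eq_zero.1 h, hz⟩)
    · obtain ⟨z, hz⟩ := card_eq_one.1 (show L₁.card = 1 by omega)
      exact Or.inr (Or.inl ⟨z, hz, card_eq_zero.1 (by omega)⟩)
  rcases hcases with ⟨rfl, rfl⟩ | ⟨z, rfl, rfl⟩ | ⟨z, rfl, rfl⟩
  · unfold g2
    rw [ev2_val (empty_subset _) (empty_subset _) (k + 2) 0 (by simp [cx]) (by simp),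
      ev2_val (empty_subset _) (empty_subset _) (k + 2) 0 (by simp [cy]) (by simp),
      ev2_val (empty_subset _) (empty_subset _) 0 (k + 2) (by simp) (by simp [cx]),
      ev2_val (empty_subset _) (empty_subset _) 0 (k + 2) (by simp) (by simp [cy]),
      ev2_val (empty_subset _) (empty_subset _) 1 (k + 2) (by simp) (by simp [cx]),
      ev2_val (empty_subset _) (empty_subset _) 1 (k + 2) (by simp) (by simp [cy])]
    ring
  · have hz : z ∈ N := singleton_subset_iff.1 h1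
    unfold g2
    rw [ev2_no1 (L := ∅) (M := N.erase x) (by simp), ev2_no1 (L := ∅) (M := N.erase y) (by simp)]
    by_cases zx : z = x
    · subst zx
      rw [ev2_no1 (L := N.erase z) (M := ∅) (by simp),
        ev2_val (L := N.erase y) (M := ∅) (singleton_subset_iff.2 (mem_erase.2 ⟨hxy, hz⟩))
          (empty_subset _) (k + 1) 0 (by simp [cy]) (by simp),
        ev2_val (L := {z}) (M := N.erase z) (Subset.refl _) (empty_subset _) 0 (k + 2) (by simp)
          (by simp [cx]),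
        ev2_no1 (L := {y}) (M := N.erase y) (by simpa using hxy)]
      ring
    · by_cases zy : z = y
      · subst zy
        rw [ev2_no1 (L := N.erase z) (M := ∅) (by simp),
          ev2_val (L := N.erase x) (M := ∅) (singleton_subset_iff.2 (mem_erase.2 ⟨zx, hz⟩))
            (empty_subset _) (k + 1) 0 (by simp [cx]) (by simp),
          ev2_val (L := {z}) (M := N.erase z) (Subset.refl _) (empty_subset _) 0 (k + 2) (by simp)
            (by simp [cy]),
          ev2_no1 (L := {x}) (M := N.erase x) (by simpa using zx)]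
        ring
      · rw [ev2_val (L := N.erase x) (M := ∅) (singleton_subset_iff.2 (mem_erase.2 ⟨zx, hz⟩))
            (empty_subset _) (k + 1) 0 (by simp [cx]) (by simp),
          ev2_val (L := N.erase y) (M := ∅) (singleton_subset_iff.2 (mem_erase.2 ⟨zy, hz⟩))
            (empty_subset _) (k + 1) 0 (by simp [cy]) (by simp),
          ev2_no1 (L := {x}) (M := N.erase x) (by simpa using zx),
          ev2_no1 (L := {y}) (M := N.erase y) (by simpa using zy)]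
        ring
  · have hz : z ∈ N := singleton_subset_iff.1 h2
    unfold g2
    rw [ev2_no2 (L := N.erase x) (M := ∅) (by simp), ev2_no2 (L := N.erase y) (M := ∅) (by simp)]
    by_cases zx : z = x
    · subst zx
      rw [ev2_no2 (L := ∅) (M := N.erase z) (by simp),
        ev2_val (L := ∅) (M := N.erase y) (Subset.refl _)
          (singleton_subset_iff.2 (mem_erase.2 ⟨hxy, hz⟩)) 0 (k + 1) (by simp) (by simp [cy]),
        ev2_no2 (L := {z}) (M := N.erase z) (by simp),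
        ev2_val (L := {y}) (M := N.erase y) (empty_subset _)
          (singleton_subset_iff.2 (mem_erase.2 ⟨hxy, hz⟩)) 1 (k + 1) (by simp) (by simp [cy])]
      ring
    · by_cases zy : z = y
      · subst zy
        rw [ev2_no2 (L := ∅) (M := N.erase z) (by simp),
          ev2_val (L := ∅) (M := N.erase x) (Subset.refl _)
            (singleton_subset_iff.2 (mem_erase.2 ⟨zx, hz⟩)) 0 (k + 1) (by simp) (by simp [cx]),
          ev2_no2 (L := {z}) (M := N.erase z) (by simp),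
          ev2_val (L := {x}) (M := N.erase x) (empty_subset _)
            (singleton_subset_iff.2 (mem_erase.2 ⟨zx, hz⟩)) 1 (k + 1) (by simp) (by simp [cx])]
        ring
      · rw [ev2_val (L := ∅) (M := N.erase x) (Subset.refl _)
            (singleton_subset_iff.2 (mem_erase.2 ⟨zx, hz⟩)) 0 (k + 1) (by simp) (by simp [cx]),
          ev2_val (L := ∅) (M := N.erase y) (Subset.refl _)
            (singleton_subset_iff.2 (mem_erase.2 ⟨zy, hz⟩)) 0 (k + 1) (by simp) (by simp [cy]),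
          ev2_val (L := {x}) (M := N.erase x) (empty_subset _)
            (singleton_subset_iff.2 (mem_erase.2 ⟨zx, hz⟩)) 1 (k + 1) (by simp) (by simp [cx]),
          ev2_val (L := {y}) (M := N.erase y) (empty_subset _)
            (singleton_subset_iff.2 (mem_erase.2 ⟨zy, hz⟩)) 1 (k + 1) (by simp) (by simp [cy])]
        ring

private lemma g2_abs (N : Finset ℕ) (x y : ℕ) (L₁ L₂ : Finset ℕ) : |g2 N x y L₁ L₂| ≤ 6 := by
  unfold g2
  have a1 := abs_le.1 (ev2_abs (N.erase x) ∅ L₁ L₂)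
  have a2 := abs_le.1 (ev2_abs (N.erase y) ∅ L₁ L₂)
  have a3 := abs_le.1 (ev2_abs ∅ (N.erase x) L₁ L₂)
  have a4 := abs_le.1 (ev2_abs ∅ (N.erase y) L₁ L₂)
  have a5 := abs_le.1 (ev2_abs {x} (N.erase x) L₁ L₂)
  have a6 := abs_le.1 (ev2_abs {y} (N.erase y) L₁ L₂)
  rw [abs_le]
  constructor <;> linarith [a1.1, a1.2, a2.1, a2.2, a3.1, a3.2, a4.1, a4.2, a5.1, a5.2, a6.1, a6.2]

/-- the traces -/
private def ix2 (N : Finset ℕ) (x y : ℕ) : Fin 6 → Slot :=
  ![(N.erase x, ∅), (N.erase y, ∅), (∅, N.erase x), (∅, N.erase y), ({x}, N.erase x),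
    ({y}, N.erase y)]

/-- the coefficients -/
private noncomputable def co2 : Fin 6 → ℝ := ![1, -1, -1, 1, -1, 1]

private lemma kap_ix2 (N : Finset ℕ) (x y : ℕ) (L₁ L₂ : Finset ℕ) :
    kap univ (ix2 N x y) co2 L₁ L₂ = g2 N x y L₁ L₂ := by
  have hterm : ∀ (c : ℝ) (L M : Finset ℕ), (if L₁ ⊆ L ∧ L₂ ⊆ M then
      c * (-1) ^ ((L \ L₁).card + (M \ L₂).card) else 0) = c * ev2 L M L₁ L₂ := by
    intro c L M
    unfold ev2
    split_ifs <;> simp
  unfold kap g2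
  rw [Fin.sum_univ_six]
  show (if L₁ ⊆ N.erase x ∧ L₂ ⊆ ∅ then
      (1 : ℝ) * (-1) ^ ((N.erase x \ L₁).card + (∅ \ L₂).card) else 0) +
    (if L₁ ⊆ N.erase y ∧ L₂ ⊆ ∅ then
      (-1 : ℝ) * (-1) ^ ((N.erase y \ L₁).card + (∅ \ L₂).card) else 0) +
    (if L₁ ⊆ ∅ ∧ L₂ ⊆ N.erase x then
      (-1 : ℝ) * (-1) ^ ((∅ \ L₁).card + (N.erase x \ L₂).card) else 0) +
    (if L₁ ⊆ ∅ ∧ L₂ ⊆ N.erase y then
      (1 : ℝ) * (-1) ^ ((∅ \ L₁).card + (N.erase y \ L₂).card) else 0) +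
    (if L₁ ⊆ {x} ∧ L₂ ⊆ N.erase x then
      (-1 : ℝ) * (-1) ^ (({x} \ L₁).card + (N.erase x \ L₂).card) else 0) +
    (if L₁ ⊆ {y} ∧ L₂ ⊆ N.erase y then
      (1 : ℝ) * (-1) ^ (({y} \ L₁).card + (N.erase y \ L₂).card) else 0) = _
  rw [hterm, hterm, hterm, hterm, hterm, hterm]
  ring

private lemma kap_swap2 {ι : Type*} (I : Finset ι) (L : ι → Slot) (a : ι → ℝ)
    (L₁ L₂ : Finset ℕ) : kap I (fun i => (L i).swap) a L₁ L₂ = kap I L a L₂ L₁ := by
  unfold kap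
  refine Finset.sum_congr rfl fun i _ => ?_
  simp only [Prod.fst_swap, Prod.snd_swap]
  rw [add_comm (((L i).2 \ L₁).card)]
  by_cases h : L₂ ⊆ (L i).1 ∧ L₁ ⊆ (L i).2
  · rw [if_pos h, if_pos ⟨h.2, h.1⟩]
  · rw [if_neg h, if_neg (fun hh => h ⟨hh.2, hh.1⟩)]

private lemma ix2_mem {N : Finset ℕ} {k : ℕ} (hN : N.card = k + 3) {x y : ℕ} (hx : x ∈ N)
    (hy : y ∈ N) (i : Fin 6) : (ix2 N x y i).1 ⊆ N ∧ (ix2 N x y i).2 ⊆ N ∧
      Disjoint (ix2 N x y i).1 (ix2 N x y i).2 ∧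
      ((ix2 N x y i).1.card = k + 2 ∨ (ix2 N x y i).2.card = k + 2) := by
  have cx : (N.erase x).card = k + 2 := by rw [card_erase_of_mem hx, hN]; rfl
  have cy : (N.erase y).card = k + 2 := by rw [card_erase_of_mem hy, hN]; rfl
  fin_cases i
  · exact ⟨erase_subset _ _, empty_subset _, disjoint_empty_right _, Or.inl cx⟩
  · exact ⟨erase_subset _ _, empty_subset _, disjoint_empty_right _, Or.inl cy⟩
  · exact ⟨empty_subset _, erase_subset _ _, disjoint_empty_left _, Or.inr cx⟩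
  · exact ⟨empty_subset _, erase_subset _ _, disjoint_empty_left _, Or.inr cy⟩
  · exact ⟨singleton_subset_iff.2 hx, erase_subset _ _,
      disjoint_singleton_left.2 (notMem_erase _ _), Or.inr cx⟩
  · exact ⟨singleton_subset_iff.2 hy, erase_subset _ _,
      disjoint_singleton_left.2 (notMem_erase _ _), Or.inr cy⟩

theorem nr_two {V : Finset ℕ} {t : ℕ} {R : Finset (Finset ℕ)} {N T T' : Finset ℕ} (ht : 2 ≤ t)
    (h : Av V t R) (hNT : Disjoint N T) (hNT' : Disjoint N T') (hTT' : Disjoint T T')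
    (hV : N ∪ (T ∪ T') = V) (hN : N.card = t + 1) (hA : ∃ A ∈ R, N ⊆ A ∧ A ⊆ N ∪ T)
    (hB : ∃ B ∈ R, N ⊆ B ∧ B ⊆ N ∪ T') {L₁ L₂ : Finset ℕ} (h12 : Disjoint L₁ L₂)
    (hL : L₁ ∪ L₂ ⊆ N) (hc : (L₁ ∪ L₂).card = 2) : NR V t R (T ∪ L₁, T' ∪ L₂) := by
  obtain ⟨k, rfl⟩ : ∃ k, t = k + 2 := ⟨t - 2, by omega⟩
  obtain ⟨A, hAR, hNA, hAT⟩ := hA
  obtain ⟨B, hBR, hNB, hBT⟩ := hB
  have hL1 : L₁ ⊆ N := subset_union_left.trans hL
  have hL2 : L₂ ⊆ N := subset_union_right.trans hL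
  -- no member with trace of size t
  have hCB : ∀ C : Finset ℕ, C ⊆ N ∪ T → C ∩ B = C ∩ N := by
    intro C hC
    ext z
    simp only [mem_inter]
    constructor
    · rintro ⟨hz, hzB⟩
      refine ⟨hz, ?_⟩
      rcases mem_union.1 (hC hz) with h1 | h1
      · exact h1
      · rcases mem_union.1 (hBT hzB) with h2 | h2
        · exact h2
        · exact absurd h2 (disjoint_left.1 hTT' h1)
    · rintro ⟨hz, hzN⟩
      exact ⟨hz, hNB hzN⟩
  have hCA : ∀ C : Finset ℕ, C ⊆ N ∪ T' → C ∩ A = C ∩ N := by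
    intro C hC
    ext z
    simp only [mem_inter]
    constructor
    · rintro ⟨hz, hzA⟩
      refine ⟨hz, ?_⟩
      rcases mem_union.1 (hC hz) with h1 | h1
      · exact h1
      · rcases mem_union.1 (hAT hzA) with h2 | h2
        · exact h2
        · exact absurd h1 (disjoint_left.1 hTT' h2)
    · rintro ⟨hz, hzN⟩
      exact ⟨hz, hNA hzN⟩
  have hrow1 : ∀ r ∈ rows V (k + 2) R, r.1 ⊆ N ∪ T → (r.1 ∩ N).card = k + 2 → False := by
    intro r hr hr1 hr2
    obtain ⟨-, -, -, hr5, -, -⟩ := mem_rows.1 hr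
    rcases hr5 with h5 | h5
    · refine h.av r.1 h5 B hBR ?_
      rw [hCB r.1 hr1, hr2]
    · have := card_le_card (inter_subset_left : r.1 ∩ N ⊆ r.1)
      omega
  have hrow2 : ∀ r ∈ rows V (k + 2) R, r.2 ⊆ N ∪ T' → (r.2 ∩ N).card = k + 2 → False := by
    intro r hr hr1 hr2
    obtain ⟨-, -, -, -, hr6, -⟩ := mem_rows.1 hr
    rcases hr6 with h5 | h5
    · refine h.av r.2 h5 A hAR ?_
      rw [hCA r.2 hr1, hr2]
    · have := card_le_card (inter_subset_left : r.2 ∩ N ⊆ r.2)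
      omega
  have hill : ∀ x ∈ N, ∀ y ∈ N, x ≠ y → ∀ M₁ M₂ : Finset ℕ, M₁ ⊆ N → M₂ ⊆ N → Disjoint M₁ M₂ →
      k + 2 ≤ (N \ (M₁ ∪ M₂)).card → g2 N x y M₁ M₂ = 0 := by
    intro x hx y hy hxy M₁ M₂ hM1 hM2 hM hcard
    refine g2_zero hN hx hy hxy hM1 hM2 hM ?_
    rw [card_sdiff_of_subset (union_subset hM1 hM2), hN] at hcard
    omega
  have hbd : ∀ x y : ℕ, ∀ M₁ M₂ : Finset ℕ, |g2 N x y M₁ M₂| ≤ 4 * ((k + 2 : ℕ) : ℝ) + 4 := by
    intro x y M₁ M₂
    have h1 := g2_abs N x y M₁ M₂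
    have h2 : (0 : ℝ) ≤ k := Nat.cast_nonneg k
    push_cast
    linarith
  have core1 : ∀ x ∈ N, ∀ y ∈ N, x ≠ y → 1 ≤ |g2 N x y L₁ L₂| →
      NR V (k + 2) R (T ∪ L₁, T' ∪ L₂) := by
    intro x hx y hy hxy hone
    refine loc hNT hNT' hTT' hV (by omega) univ (ix2 N x y) co2 ?_ ?_ ?_ ?_ hL1 hL2 h12 ?_
    · intro i _
      obtain ⟨a1, a2, a3, -⟩ := ix2_mem hN hx hy i
      exact ⟨a1, a2, a3⟩
    · intro i _ r hr hr1 hr2 hr3 hr4
      obtain ⟨-, -, -, a4⟩ := ix2_mem hN hx hy i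
      rcases a4 with a4 | a4
      · exact hrow1 r hr hr1 (by rw [hr3, a4])
      · exact hrow2 r hr hr2 (by rw [hr4, a4])
    · intro M₁ M₂ hM1 hM2 hM hcard
      rw [kap_ix2]
      exact hill x hx y hy hxy M₁ M₂ hM1 hM2 hM hcard
    · intro M₁ M₂
      rw [kap_ix2]
      exact hbd x y M₁ M₂
    · rw [kap_ix2]
      exact hone
  have core2 : ∀ x ∈ N, ∀ y ∈ N, x ≠ y → 1 ≤ |g2 N x y L₂ L₁| →
      NR V (k + 2) R (T ∪ L₁, T' ∪ L₂) := by
    intro x hx y hy hxy hone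
    refine loc hNT hNT' hTT' hV (by omega) univ (fun i => (ix2 N x y i).swap) co2 ?_ ?_ ?_ ?_
      hL1 hL2 h12 ?_
    · intro i _
      obtain ⟨a1, a2, a3, -⟩ := ix2_mem hN hx hy i
      exact ⟨a2, a1, a3.symm⟩
    · intro i _ r hr hr1 hr2 hr3 hr4
      obtain ⟨-, -, -, a4⟩ := ix2_mem hN hx hy i
      simp only [Prod.fst_swap, Prod.snd_swap] at hr3 hr4
      rcases a4 with a4 | a4
      · exact hrow2 r hr hr2 (by rw [hr4, a4])
      · exact hrow1 r hr hr1 (by rw [hr3, a4])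
    · intro M₁ M₂ hM1 hM2 hM hcard
      rw [kap_swap2, kap_ix2]
      exact hill x hx y hy hxy M₂ M₁ hM2 hM1 hM.symm (by rw [union_comm]; exact hcard)
    · intro M₁ M₂
      rw [kap_swap2, kap_ix2]
      exact hbd x y M₂ M₁
    · rw [kap_swap2, kap_ix2]
      exact hone
  -- one side contains both elements
  have two : ∀ (L : Finset ℕ), L ⊆ N → L.card = 2 →
      ∃ x ∈ N, ∃ y ∈ N, x ≠ y ∧ 1 ≤ |g2 N x y L ∅| := by
    intro L hLN hLc
    obtain ⟨z, hz, hzL⟩ : ∃ z ∈ N, z ∉ L := by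
      by_contra hcon
      push Not at hcon
      have := card_le_card (fun z hz => hcon z hz : N ⊆ L)
      omega
    obtain ⟨u, v, huv, rfl⟩ := card_eq_two.1 hLc
    have hu : u ∈ N := hLN (mem_insert_self _ _)
    have hv : v ∈ N := hLN (mem_insert_of_mem (mem_singleton_self _))
    have hzu : z ≠ u := fun hh => hzL (hh ▸ mem_insert_self _ _)
    have cz : (N.erase z).card = k + 2 := by rw [card_erase_of_mem hz, hN]; rfl
    refine ⟨z, hz, u, hu, hzu, ?_⟩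
    have hsub : ({u, v} : Finset ℕ) ⊆ N.erase z := fun w hw =>
      mem_erase.2 ⟨fun hh => hzL (hh ▸ hw), hLN hw⟩
    have hn1 : ∀ w : ℕ, ¬ ({u, v} : Finset ℕ) ⊆ {w} := by
      intro w hw
      have := card_le_card hw
      rw [hLc, card_singleton] at this
      omega
    unfold g2
    rw [ev2_val (L := N.erase z) (M := ∅) hsub (empty_subset _) k 0 (by rw [cz, hLc]) (by simp),
      ev2_no1 (L := N.erase u) (M := ∅) (fun hh => notMem_erase u N (hh (mem_insert_self _ _))),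
      ev2_no1 (L := ∅) (M := N.erase z) (by simp),
      ev2_no1 (L := ∅) (M := N.erase u) (by simp),
      ev2_no1 (L := {z}) (M := N.erase z) (hn1 z),
      ev2_no1 (L := {u}) (M := N.erase u) (hn1 u)]
    simp
  rcases Nat.eq_zero_or_pos L₂.card with c2 | c2
  · have e2 : L₂ = ∅ := card_eq_zero.1 c2
    subst e2
    rw [union_empty] at hc
    obtain ⟨x, hx, y, hy, hxy, hone⟩ := two L₁ hL1 hc
    exact core1 x hx y hy hxy hone
  · rcases Nat.eq_zero_or_pos L₁.card with c1 | c1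
    · have e1 : L₁ = ∅ := card_eq_zero.1 c1
      subst e1
      rw [empty_union] at hc
      obtain ⟨x, hx, y, hy, hxy, hone⟩ := two L₂ hL2 hc
      exact core2 x hx y hy hxy hone
    · rw [card_union_of_disjoint h12] at hc
      obtain ⟨x, rfl⟩ := card_eq_one.1 (show L₁.card = 1 by omega)
      obtain ⟨y, rfl⟩ := card_eq_one.1 (show L₂.card = 1 by omega)
      have hx : x ∈ N := singleton_subset_iff.1 hL1
      have hy : y ∈ N := singleton_subset_iff.1 hL2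
      have hxy : x ≠ y := by
        rintro rfl
        exact (disjoint_left.1 h12) (mem_singleton_self _) (mem_singleton_self _)
      have cx : (N.erase x).card = k + 2 := by rw [card_erase_of_mem hx, hN]; rfl
      refine core1 x hx y hy hxy ?_
      unfold g2
      rw [ev2_no2 (L := N.erase x) (M := ∅) (by simp), ev2_no2 (L := N.erase y) (M := ∅) (by simp),
        ev2_no1 (L := ∅) (M := N.erase x) (by simp), ev2_no1 (L := ∅) (M := N.erase y) (by simp),
        ev2_val (L := {x}) (M := N.erase x) (Subset.refl _)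
          (singleton_subset_iff.2 (mem_erase.2 ⟨hxy.symm, hy⟩)) 0 (k + 1) (by simp) (by simp [cx]),
        ev2_no1 (L := {y}) (M := N.erase y) (by simpa using hxy)]
      simp

end Pool.Agent.H37.AV
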