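import Pool.Agent.H37.AV.TypeOne
import Pool.Agent.H37.AV.TypeTwo
import Pool.Agent.H37.AV.TypeThree
import Pool.Agent.H37.AV.Sym

/-!
Module Rigid.  Facts about a rigid main slot `s` (`P = s.1`, `Q = s.2`, `K = ker V s`, `G = Gs V R s`,
`Γ = Gs V R s.swap`).

`gs_disj` (for every main slot): if `K + x` is captured by both sides, `K + x ⊆ A ⊆ K ∪ P + x`,
`K + x ⊆ B ⊆ K ∪ Q + x`, then `A ∩ B = K + x` has `t` elements.
`gs_union`: `nr_one`.
`star_left`: `a ∈ G`, `b ∈ Γ`, and a member `A` with `K + a + b ⊆ A ⊆ K ∪ P + a + b`.  Let `B` be the member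
with `K + b ⊆ B ⊆ K ∪ Q + b`.  If `a ∈ B`: `N = K + a + b` is captured by both sides (`T = P \ {a,b}`,
`T' = Q \ {a,b}`), and `nr_two` with `L₁ = {a,b} ∩ P`, `L₂ = {a,b} ∩ Q` says that `s` is not rigid
(`a ≠ b` by `gs_disj`; `a, b ∉ K`).  If `a ∉ B`: `A ∩ B = K + b` has `t` elements.
`star_right`: the mirror image (apply `star_left` to `s.swap`).
`few`: `B ⊆ Q` a member with `|B ∩ G| ≥ t`: `nr_three` for `t` elements `E ⊆ B ∩ G`.
`wit`: the witness `A` of `a ∈ G` contains no `b ∈ Γ` (`star_left`), so `A ⊆ K + a ∪ (P ∩ G)` by `gs_union`.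
-/

open Finset

namespace Pool.Agent.H37.AV

variable {V : Finset ℕ} {t : ℕ} {R : Finset (Finset ℕ)} {s : Slot}

private theorem rg_notker {V : Finset ℕ} {s : Slot} {x : ℕ} (hx : x ∈ s.1 ∨ x ∈ s.2) :
    x ∉ ker V s := by
  intro h
  rw [ker, mem_sdiff, mem_union] at h
  exact h.2 hx

theorem gs_disj (h : Av V t R) (hs : s ∈ mains V t) : Disjoint (Gs V R s) (Gs V R s.swap) := by
  rw [Finset.disjoint_left]
  intro x hx hx'
  obtain ⟨h1, h2, h3, h4⟩ := mem_mains.1 hs
  obtain ⟨hxs, A, hA, hA1, hA2⟩ := mem_Gs.1 hx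
  obtain ⟨-, B, hB, hB1, hB2⟩ := mem_Gs.1 hx'
  rw [ker_swap] at hB1 hB2
  apply h.av A hA B hB
  have he : A ∩ B = insert x (ker V s) := by
    ext y
    rw [mem_inter]
    constructor
    · rintro ⟨hy1, hy2⟩
      have h5 := hA2 hy1
      have h6 := hB2 hy2
      rw [mem_insert, mem_union] at h5 h6
      rw [mem_insert]
      rcases h5 with h5 | h5 | h5
      · exact Or.inl h5
      · exact Or.inr h5
      · rcases h6 with h6 | h6 | h6
        · exact Or.inl h6
        · exact Or.inr h6
        · exact absurd h6 (Finset.disjoint_left.1 h3 h5)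
    · intro hy
      exact ⟨hA1 hy, hB1 hy⟩
  rw [he, card_insert_of_notMem (rg_notker hxs), h4]

theorem gs_union (ht : 1 ≤ t) (h : Av V t R) (hs : s ∈ mains V t) (hr : ¬ NR V t R s) :
    Gs V R s ∪ Gs V R s.swap = s.1 ∪ s.2 := by
  ext x
  rw [mem_union, mem_union]
  constructor
  · rintro (hx | hx)
    · exact (mem_Gs.1 hx).1
    · exact (mem_Gs.1 hx).1.symm
  · intro hx
    by_contra hc
    rw [not_or] at hc
    apply hr
    refine nr_one ht h hs hx (fun hcap => hc.1 (mem_Gs.2 ⟨hx, hcap⟩))
      (fun hcap => hc.2 (mem_Gs.2 ⟨hx.symm, ?_⟩))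
    rw [ker_swap]
    exact hcap

theorem star_left (ht : 2 ≤ t) (h : Av V t R) (hs : s ∈ mains V t) (hr : ¬ NR V t R s) {a b : ℕ}
    (ha : a ∈ Gs V R s) (hb : b ∈ Gs V R s.swap) {A : Finset ℕ} (hA : A ∈ R)
    (h1 : insert a (insert b (ker V s)) ⊆ A) (h2 : A ⊆ insert a (insert b (ker V s ∪ s.1))) :
    False := by
  obtain ⟨hs1, hs2, hs3, hs4⟩ := mem_mains.1 hs
  have hab : a ≠ b := by
    rintro rfl
    exact Finset.disjoint_left.1 (gs_disj h hs) ha hb
  obtain ⟨has, -⟩ := mem_Gs.1 ha
  obtain ⟨hbs, B, hB, hB1, hB2⟩ := mem_Gs.1 hb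
  rw [ker_swap] at hB1 hB2
  have hbs' : b ∈ s.1 ∨ b ∈ s.2 := hbs.symm
  have haK := rg_notker (V := V) has
  have hbK := rg_notker (V := V) hbs'
  have hB2' : B ⊆ insert b (ker V s ∪ s.2) := hB2
  by_cases haB : a ∈ B
  · apply hr
    have key : NR V t R ((s.1 \ {a, b}) ∪ ({a, b} ∩ s.1), (s.2 \ {a, b}) ∪ ({a, b} ∩ s.2)) := by
      refine nr_two (N := insert a (insert b (ker V s))) ht h ?_ ?_ ?_ ?_ ?_
        ⟨A, hA, h1, ?_⟩ ⟨B, hB, ?_, ?_⟩ ?_ ?_ ?_
      · rw [Finset.disjoint_left]
        intro y hy hy'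
        rw [mem_sdiff, mem_insert, mem_singleton] at hy'
        rw [mem_insert, mem_insert] at hy
        rcases hy with hy | hy | hy
        · exact hy'.2 (Or.inl hy)
        · exact hy'.2 (Or.inr hy)
        · exact rg_notker (Or.inl hy'.1) hy
      · rw [Finset.disjoint_left]
        intro y hy hy'
        rw [mem_sdiff, mem_insert, mem_singleton] at hy'
        rw [mem_insert, mem_insert] at hy
        rcases hy with hy | hy | hy
        · exact hy'.2 (Or.inl hy)
        · exact hy'.2 (Or.inr hy)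
        · exact rg_notker (Or.inr hy'.1) hy
      · exact (hs3.mono sdiff_subset sdiff_subset)
      · ext y
        simp only [mem_union, mem_insert, mem_sdiff, mem_singleton, ker]
        constructor
        · rintro ((rfl | rfl | ⟨hy, -⟩) | ⟨hy, -⟩ | ⟨hy, -⟩)
          · rcases has with h | h
            · exact hs1 h
            · exact hs2 h
          · rcases hbs' with h | h
            · exact hs1 h
            · exact hs2 h
          · exact hy
          · exact hs1 hy
          · exact hs2 hy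
        · intro hy
          by_cases e1 : y = a
          · exact Or.inl (Or.inl e1)
          by_cases e2 : y = b
          · exact Or.inl (Or.inr (Or.inl e2))
          by_cases e3 : y ∈ s.1
          · exact Or.inr (Or.inl ⟨e3, by simp [e1, e2]⟩)
          by_cases e4 : y ∈ s.2
          · exact Or.inr (Or.inr ⟨e4, by simp [e1, e2]⟩)
          exact Or.inl (Or.inr (Or.inr ⟨hy, by simp [e3, e4]⟩))
      · rw [card_insert_of_notMem, card_insert_of_notMem hbK, hs4]
        rw [mem_insert, not_or]
        exact ⟨hab, haK⟩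
      · intro y hy
        have h5 := h2 hy
        simp only [mem_union, mem_insert, mem_sdiff, mem_singleton] at h5 ⊢
        by_cases e1 : y = a
        · exact Or.inl (Or.inl e1)
        by_cases e2 : y = b
        · exact Or.inl (Or.inr (Or.inl e2))
        rcases h5 with h5 | h5 | h5 | h5
        · exact absurd h5 e1
        · exact absurd h5 e2
        · exact Or.inl (Or.inr (Or.inr h5))
        · exact Or.inr ⟨h5, by simp [e1, e2]⟩
      · intro y hy
        rw [mem_insert] at hy
        rcases hy with rfl | hy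
        · exact haB
        · exact hB1 hy
      · intro y hy
        have h5 := hB2' hy
        simp only [mem_union, mem_insert, mem_sdiff, mem_singleton] at h5 ⊢
        by_cases e1 : y = a
        · exact Or.inl (Or.inl e1)
        by_cases e2 : y = b
        · exact Or.inl (Or.inr (Or.inl e2))
        rcases h5 with h5 | h5 | h5
        · exact absurd h5 e2
        · exact Or.inl (Or.inr (Or.inr h5))
        · exact Or.inr ⟨h5, by simp [e1, e2]⟩
      · exact hs3.mono inter_subset_right inter_subset_right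
      · intro y hy
        simp only [mem_union, mem_inter, mem_insert, mem_singleton] at hy ⊢
        rcases hy with ⟨h5 | h5, -⟩ | ⟨h5 | h5, -⟩
        · exact Or.inl h5
        · exact Or.inr (Or.inl h5)
        · exact Or.inl h5
        · exact Or.inr (Or.inl h5)
      · have he : ({a, b} ∩ s.1) ∪ ({a, b} ∩ s.2) = {a, b} := by
          rw [← Finset.inter_union_distrib_left, Finset.inter_eq_left]
          intro y hy
          rw [mem_insert, mem_singleton] at hy
          rw [mem_union]
          rcases hy with rfl | rfl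
          · exact has
          · exact hbs'
        rw [he, Finset.card_pair hab]
    have e1 : (s.1 \ {a, b}) ∪ ({a, b} ∩ s.1) = s.1 := by
      rw [Finset.inter_comm]
      exact Finset.sdiff_union_inter _ _
    have e2 : (s.2 \ {a, b}) ∪ ({a, b} ∩ s.2) = s.2 := by
      rw [Finset.inter_comm]
      exact Finset.sdiff_union_inter _ _
    rw [e1, e2] at key
    exact key
  · apply h.av A hA B hB
    have he : A ∩ B = insert b (ker V s) := by
      ext y
      rw [mem_inter]
      constructor
      · rintro ⟨hy1, hy2⟩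
        have h5 := h2 hy1
        have h6 := hB2' hy2
        rw [mem_insert, mem_union] at h6
        rw [mem_insert, mem_insert, mem_union] at h5
        rw [mem_insert]
        rcases h5 with h5 | h5 | h5 | h5
        · exact absurd (h5 ▸ hy2) haB
        · exact Or.inl h5
        · exact Or.inr h5
        · rcases h6 with h6 | h6 | h6
          · exact Or.inl h6
          · exact Or.inr h6
          · exact absurd h6 (Finset.disjoint_left.1 hs3 h5)
      · intro hy
        exact ⟨h1 (mem_insert_of_mem hy), hB1 hy⟩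
    rw [he, card_insert_of_notMem hbK, hs4]

theorem star_right (ht : 2 ≤ t) (h : Av V t R) (hs : s ∈ mains V t) (hr : ¬ NR V t R s) {a b : ℕ}
    (ha : a ∈ Gs V R s) (hb : b ∈ Gs V R s.swap) {B : Finset ℕ} (hB : B ∈ R)
    (h1 : insert a (insert b (ker V s)) ⊆ B) (h2 : B ⊆ insert a (insert b (ker V s ∪ s.2))) :
    False := by
  refine star_left (s := s.swap) (a := b) (b := a) ht h (swap_mem_mains hs)
    (fun hc => hr (nr_swap.1 hc)) hb ?_ hB ?_ ?_
  · rw [Prod.swap_swap]
    exact ha
  · rw [ker_swap, Finset.insert_comm]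
    exact h1
  · rw [ker_swap, Finset.insert_comm]
    exact h2

theorem few (ht : 1 ≤ t) (h : Av V t R) (hs : s ∈ mains V t) (hr : ¬ NR V t R s) {B : Finset ℕ}
    (hB : B ∈ R) (hBs : B ⊆ s.2) : (B ∩ Gs V R s).card < t := by
  by_contra hc
  rw [not_lt] at hc
  obtain ⟨E, hE, hEt⟩ := Finset.exists_subset_card_eq hc
  apply hr
  exact nr_three ht h hs hB hBs (hE.trans inter_subset_left) hEt
    (fun b hb => (mem_Gs.1 (mem_inter.1 (hE hb)).2).2)

theorem few' (ht : 1 ≤ t) (h : Av V t R) (hs : s ∈ mains V t) (hr : ¬ NR V t R s) {A : Finset ℕ}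
    (hA : A ∈ R) (hAs : A ⊆ s.1) : (A ∩ Gs V R s.swap).card < t :=
  few ht h (swap_mem_mains hs) (fun hc => hr (nr_swap.1 hc)) hA hAs

theorem wit (ht : 2 ≤ t) (h : Av V t R) (hs : s ∈ mains V t) (hr : ¬ NR V t R s) {a : ℕ}
    (ha : a ∈ Gs V R s) :
    ∃ A ∈ R, insert a (ker V s) ⊆ A ∧ A ⊆ insert a (ker V s ∪ (s.1 ∩ Gs V R s)) := by
  obtain ⟨has, A, hA, hA1, hA2⟩ := mem_Gs.1 ha
  refine ⟨A, hA, hA1, fun y hy => ?_⟩
  have h5 := hA2 hy
  rw [mem_insert, mem_union] at h5 ⊢
  rcases h5 with h5 | h5 | h5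
  · exact Or.inl h5
  · exact Or.inr (Or.inl h5)
  · refine Or.inr (Or.inr (mem_inter.2 ⟨h5, ?_⟩))
    have h6 : y ∈ Gs V R s ∪ Gs V R s.swap := by
      rw [gs_union (by omega) h hs hr, mem_union]
      exact Or.inl h5
    rcases mem_union.1 h6 with h7 | h7
    · exact h7
    · exfalso
      refine star_left ht h hs hr ha h7 hA ?_ ?_
      · intro z hz
        rw [mem_insert, mem_insert] at hz
        rcases hz with rfl | rfl | hz
        · exact hA1 (mem_insert_self _ _)
        · exact hy
        · exact hA1 (mem_insert_of_mem hz)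
      · intro z hz
        have h8 := hA2 hz
        rw [mem_insert] at h8
        rw [mem_insert, mem_insert]
        rcases h8 with h8 | h8
        · exact Or.inl h8
        · exact Or.inr (Or.inr h8)

/-- A rigid main slot whose first side contains a member has nonempty `Gs`. -/
theorem gs_nonempty (ht : 1 ≤ t) (h : Av V t R) (hs : s ∈ mains V t) (hr : ¬ NR V t R s)
    (hup : Up R s.1) : (Gs V R s).Nonempty := by
  rw [Finset.nonempty_iff_ne_empty]
  intro he
  obtain ⟨A, hA, hAs⟩ := hup
  have h1 := gs_union ht h hs hr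
  rw [he, empty_union] at h1
  have h2 := few' ht h hs hr hA hAs
  have h3 : A ∩ Gs V R s.swap = A := by
    rw [Finset.inter_eq_left, h1]
    exact hAs.trans subset_union_left
  rw [h3] at h2
  have h4 := h.big A hA
  omega

end Pool.Agent.H37.AV
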