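import Pool.Agent.H45.TA.Katona

/-!
Module Sec.  Two-intersecting families with controlled one-element moves.

`S` is a family of subsets of `G`, any two members (equal or not) meet in at least two elements; deleting
an element of a member of `S` gives a member of `S` or of `D`; for every member `X` all but fewer than
`t` elements `x ∈ G \ X` are such that `X + x` is in `S` or in `N`.

`sec_chain`: `a_k ≤ a_(k-1) + d_(k-1)` (`a_k`, `d_k` numbers of sets of size `k` in `S`, `D`): the shadow of
`S_k` has at least `a_k` members by `H45.TA.card_le_shd` (`k ≥ 1`; `S_0 = ∅` as `|X ∩ X| ≥ 2`), and it lies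
in `S_(k-1) ∪ D_(k-1)`.  Iterate: `a_k ≤ d_(k-1) + … + d_0`.
`sec_lym`: count pairs `(X, x)`, `X ∈ S_k`, `x ∈ X`: `k a_k` pairs; `X - x ∈ S_(k-1) ∪ D_(k-1)`, and
every set of size `k - 1` in `G` is `X - x` for at most `|G| - (k-1)` pairs (choose `x ∈ G \ Z`).  (Members of
`D` outside `2^G` are not hit.)
`sec_growth`: count pairs `(X, x)`, `X ∈ S_k`, `x ∈ G \ X \ B_X`: at least `|G| - k - (t-1)` for each `X`;
`X + x ∈ S_(k+1) ∪ N_(k+1)`; every set of size `k + 1` is hit at most `k + 1` times.
-/

open Finset

namespace Pool.Agent.H37.AV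

/-- See the header of the module. -/
structure Sec (G : Finset ℕ) (t : ℕ) (S D N : Finset (Finset ℕ)) : Prop where
  sub : ∀ X ∈ S, X ⊆ G
  int : ∀ X ∈ S, ∀ Y ∈ S, 2 ≤ (X ∩ Y).card
  down : ∀ X ∈ S, ∀ x ∈ X, X.erase x ∈ S ∨ X.erase x ∈ D
  upw : ∀ X ∈ S, ∃ B : Finset ℕ, B.card < t ∧ ∀ x ∈ G, x ∉ X → x ∉ B →
    insert x X ∈ S ∨ insert x X ∈ N

variable {G : Finset ℕ} {t : ℕ} {S D N : Finset (Finset ℕ)}

theorem sec_step (h : Sec G t S D N) (k : ℕ) :
    (S.filter (fun X => X.card = k + 1)).card ≤
      (S.filter (fun X => X.card = k)).card + (D.filter (fun X => X.card = k)).card := by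
  have h1 : (S.filter (fun X => X.card = k + 1)).card ≤
      (H45.TA.shd (S.filter (fun X => X.card = k + 1))).card := by
    apply H45.TA.card_le_shd (k := k + 1) (by omega)
    · intro A hA
      exact (mem_filter.mp hA).2
    · intro A hA B hB
      exact h.int A (mem_filter.mp hA).1 B (mem_filter.mp hB).1
  refine h1.trans (le_trans (card_le_card ?_) (card_union_le _ _))
  intro Z hZ
  unfold H45.TA.shd at hZ
  rw [mem_biUnion] at hZ
  obtain ⟨A, hA, hZ⟩ := hZ
  rw [mem_image] at hZ
  obtain ⟨x, hx, rfl⟩ := hZ
  rw [mem_filter] at hA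
  have hc : (A.erase x).card = k := by
    rw [card_erase_of_mem hx, hA.2]
    rfl
  rw [mem_union, mem_filter, mem_filter]
  rcases h.down A hA.1 x hx with h2 | h2
  · exact Or.inl ⟨h2, hc⟩
  · exact Or.inr ⟨h2, hc⟩

theorem sec_chain (h : Sec G t S D N) (k : ℕ) :
    (S.filter (fun X => X.card = k)).card ≤ (D.filter (fun X => X.card < k)).card := by
  induction k with
  | zero =>
    have : S.filter (fun X => X.card = 0) = ∅ := by
      rw [filter_eq_empty_iff]
      intro X hX h0
      have := h.int X hX X hX
      rw [inter_self] at this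
      omega
    rw [this]
    simp
  | succ k ih =>
    have h1 := sec_step h k
    have h2 : (D.filter (fun X => X.card < k + 1)).card =
        (D.filter (fun X => X.card < k)).card + (D.filter (fun X => X.card = k)).card := by
      rw [← card_union_of_disjoint]
      · congr 1
        ext X
        simp only [mem_filter, mem_union]
        constructor
        · rintro ⟨a, b⟩
          rcases Nat.lt_succ_iff_lt_or_eq.mp b with b | b
          · exact Or.inl ⟨a, b⟩
          · exact Or.inr ⟨a, b⟩
        · rintro (⟨a, b⟩ | ⟨a, b⟩)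
          · exact ⟨a, by omega⟩
          · exact ⟨a, by omega⟩
      · rw [disjoint_filter]
        intro X _ h3 h4
        omega
    omega

theorem sec_lym (h : Sec G t S D N) (k : ℕ) :
    (k + 1) * (S.filter (fun X => X.card = k + 1)).card ≤ (G.card - k) *
      ((S.filter (fun X => X.card = k)).card + (D.filter (fun X => X.card = k)).card) := by
  set T : Finset (Finset ℕ) := ((S.filter (fun X => X.card = k)) ∪
    (D.filter (fun X => X.card = k))).filter (fun Z => Z ⊆ G) with hT
  have h1 : ((S.filter (fun X => X.card = k + 1)).sigma (fun X => X)).card =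
      (k + 1) * (S.filter (fun X => X.card = k + 1)).card := by
    rw [card_sigma, sum_congr rfl (fun X hX => (mem_filter.mp hX).2), sum_const, smul_eq_mul,
      mul_comm]
  have h2 : (T.sigma (fun Z => G \ Z)).card = (G.card - k) * T.card := by
    rw [card_sigma, sum_congr rfl (g := fun _ => G.card - k), sum_const, smul_eq_mul, mul_comm]
    intro Z hZ
    rw [hT, mem_filter, mem_union, mem_filter, mem_filter] at hZ
    rw [card_sdiff_of_subset hZ.2]
    rcases hZ.1 with h3 | h3 <;> rw [h3.2]
  have h3 : T.card ≤ (S.filter (fun X => X.card = k)).card +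
      (D.filter (fun X => X.card = k)).card :=
    (card_filter_le _ _).trans (card_union_le _ _)
  have h4 : ((S.filter (fun X => X.card = k + 1)).sigma (fun X => X)).card ≤
      (T.sigma (fun Z => G \ Z)).card := by
    apply card_le_card_of_injOn (fun p : (_ : Finset ℕ) × ℕ => ⟨p.1.erase p.2, p.2⟩)
    · rintro ⟨X, x⟩ hp
      rw [mem_coe, mem_sigma, mem_filter] at hp
      dsimp only at hp
      rw [mem_coe, mem_sigma, hT, mem_filter, mem_union, mem_filter, mem_filter]
      dsimp only
      have hc : (X.erase x).card = k := by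
        rw [card_erase_of_mem hp.2, hp.1.2]
        rfl
      refine ⟨⟨?_, (erase_subset _ _).trans (h.sub X hp.1.1)⟩, ?_⟩
      · rcases h.down X hp.1.1 x hp.2 with h5 | h5
        · exact Or.inl ⟨h5, hc⟩
        · exact Or.inr ⟨h5, hc⟩
      · rw [mem_sdiff]
        exact ⟨h.sub X hp.1.1 hp.2, notMem_erase x X⟩
    · rintro ⟨X, x⟩ hp ⟨Y, y⟩ hq hpq
      rw [mem_coe, mem_sigma] at hp hq
      dsimp only at hp hq hpq
      have e2 : x = y := congrArg Sigma.snd hpq
      have e1 : X.erase x = Y.erase y := congrArg Sigma.fst hpq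
      subst e2
      have e3 : X = Y := by
        rw [← insert_erase hp.2, ← insert_erase hq.2, e1]
      subst e3
      rfl
  rw [h1, h2] at h4
  exact h4.trans (Nat.mul_le_mul_left _ h3)

theorem sec_growth (h : Sec G t S D N) (k : ℕ) :
    (G.card + 1 - (k + t)) * (S.filter (fun X => X.card = k)).card ≤ (k + 1) *
      ((S.filter (fun X => X.card = k + 1)).card + (N.filter (fun X => X.card = k + 1)).card) := by
  classical
  choose! B hB1 hB2 using h.upw
  set T : Finset (Finset ℕ) := (S.filter (fun X => X.card = k + 1)) ∪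
    (N.filter (fun X => X.card = k + 1)) with hT
  have h1 : (G.card + 1 - (k + t)) * (S.filter (fun X => X.card = k)).card ≤
      ((S.filter (fun X => X.card = k)).sigma (fun X => (G \ X) \ B X)).card := by
    rw [card_sigma, mul_comm, ← smul_eq_mul, ← sum_const]
    apply sum_le_sum
    intro X hX
    rw [mem_filter] at hX
    have h5 := hB1 X hX.1
    have h6 : (G \ X).card = G.card - k := by
      rw [card_sdiff_of_subset (h.sub X hX.1), hX.2]
    have h7 := le_card_sdiff (B X) (G \ X)
    omega
  have h2 : (T.sigma (fun Z => Z)).card = (k + 1) * T.card := by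
    rw [card_sigma, sum_congr rfl (g := fun _ => k + 1), sum_const, smul_eq_mul, mul_comm]
    intro Z hZ
    rw [hT, mem_union, mem_filter, mem_filter] at hZ
    rcases hZ with h3 | h3 <;> exact h3.2
  have h3 : T.card ≤ (S.filter (fun X => X.card = k + 1)).card +
      (N.filter (fun X => X.card = k + 1)).card := card_union_le _ _
  have h4 : ((S.filter (fun X => X.card = k)).sigma (fun X => (G \ X) \ B X)).card ≤
      (T.sigma (fun Z => Z)).card := by
    apply card_le_card_of_injOn (fun p : (_ : Finset ℕ) × ℕ => ⟨insert p.2 p.1, p.2⟩)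
    · rintro ⟨X, x⟩ hp
      rw [mem_coe, mem_sigma, mem_filter, mem_sdiff, mem_sdiff] at hp
      dsimp only at hp
      rw [mem_coe, mem_sigma, hT, mem_union, mem_filter, mem_filter]
      dsimp only
      have hc : (insert x X).card = k + 1 := by
        rw [card_insert_of_notMem hp.2.1.2, hp.1.2]
      refine ⟨?_, mem_insert_self x X⟩
      rcases hB2 X hp.1.1 x hp.2.1.1 hp.2.1.2 hp.2.2 with h5 | h5
      · exact Or.inl ⟨h5, hc⟩
      · exact Or.inr ⟨h5, hc⟩
    · rintro ⟨X, x⟩ hp ⟨Y, y⟩ hq hpq
      rw [mem_coe, mem_sigma, mem_sdiff, mem_sdiff] at hp hq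
      dsimp only at hp hq hpq
      have e2 : x = y := congrArg Sigma.snd hpq
      have e1 : insert x X = insert y Y := congrArg Sigma.fst hpq
      subst e2
      have e3 : X = Y := by
        rw [← erase_insert hp.2.1.2, ← erase_insert hq.2.1.2, e1]
      subst e3
      rfl
  rw [h2] at h4
  exact h1.trans (h4.trans (Nat.mul_le_mul_left _ h3))

end Pool.Agent.H37.AV
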