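import Pool.Agent.H37.AV.Sec
import Pool.Agent.H37.AV.Flip

/-!
Module SecOf.  The sections of the set `Th` of rigid main slots.

For disjoint `G, P₀, Q₀` the slots `mk G P₀ Q₀ X = (P₀ ∪ X, Q₀ ∪ (G \ X))`, `X ⊆ G`, all have the same kernel.
`fS` = the `X` with slot in `Th` and `Gs = G`; `fD` = the `X` with slot in `SQ` or `N2` for which some
`X + x`, `x ∈ G \ X`, is in `fS`; `fN` = the `X` with slot in `N2` for which some `X - x`, `x ∈ X`, is in `fS`.

`sec_of`: (`K` = the common kernel, `t - 1` elements if `fS ≠ ∅`)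
 * `int`: let `X, Y ∈ fS`.  `G ≠ ∅` (`gs_nonempty`).  For every `x ∈ G` the witnesses (`wit`) `A_x`, `B_x` at
   the two slots satisfy `K + x ⊆ A_x ⊆ K + x ∪ X`, `K + x ⊆ B_x ⊆ K + x ∪ Y` (`(P₀ ∪ X) ∩ G = X`), so
   `A_x ∩ B_x ⊆ K + x ∪ (X ∩ Y)`; if `X ∩ Y ⊆ {x}` this is `K + x`, `t` elements, impossible.  So
   `X ∩ Y ≠ ∅` (take any `x ∈ G`), and taking `x ∈ X ∩ Y` gives a second element.
 * `down`: `X ∈ fS`, `x ∈ X`, `s = mk X = (P, Q)`; the slot of `X - x` is `(P - x, Q + x)`, main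
   (`flip_mem_mains`).  `Q + x` contains a member.  If `P - x` contains no member the slot is in `SQ`:
   `Q + x ∈ Y` since the member `A ⊆ P` has `|A ∩ (Q + x)| ≤ 1 ≤ t`.  If `P - x` contains a member and the
   slot is not rigid it is in `N2`.  If it is rigid, `flip_const` says that its `Gs` is `G`, so `X - x ∈ fS`.
   (In the first two cases `X - x ∈ fD`, as `insert x (X - x) = X ∈ fS`.)
 * `upw`: `X ∈ fS`, `Q = (mk X).2` contains a member `B'`; take `B = B' ∩ G`, fewer than `t` elements by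
   `few`.  For `x ∈ G \ X`, `x ∉ B`: `x ∈ Q`, the slot of `X + x` is `(P + x, Q - x)` with `B' ⊆ Q - x`, so both
   sides contain members; it is in `N2` or rigid, and then `flip_const` (for the slot of `X + x` and
   `y = x`) gives `Gs = G`.
-/

open Finset

namespace Pool.Agent.H37.AV

/-- The slot given by `X ⊆ G`. -/
def mk (G P₀ Q₀ X : Finset ℕ) : Slot := (P₀ ∪ X, Q₀ ∪ (G \ X))

/-- The family of the section. -/
noncomputable def fS (V : Finset ℕ) (t : ℕ) (R : Finset (Finset ℕ)) (G P₀ Q₀ : Finset ℕ) :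
    Finset (Finset ℕ) := by
  classical exact
    G.powerset.filter (fun X => mk G P₀ Q₀ X ∈ Th V t R ∧ Gs V R (mk G P₀ Q₀ X) = G)

/-- The exits below. -/
noncomputable def fD (V : Finset ℕ) (t : ℕ) (R : Finset (Finset ℕ)) (G P₀ Q₀ : Finset ℕ) :
    Finset (Finset ℕ) := by
  classical exact
    G.powerset.filter (fun X => (mk G P₀ Q₀ X ∈ SQ V t R ∨ mk G P₀ Q₀ X ∈ N2 V t R) ∧
      ∃ x ∈ G \ X, insert x X ∈ fS V t R G P₀ Q₀)

/-- The exits above. -/
noncomputable def fN (V : Finset ℕ) (t : ℕ) (R : Finset (Finset ℕ)) (G P₀ Q₀ : Finset ℕ) :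
    Finset (Finset ℕ) := by
  classical exact
    G.powerset.filter (fun X => mk G P₀ Q₀ X ∈ N2 V t R ∧ ∃ x ∈ X, X.erase x ∈ fS V t R G P₀ Q₀)

private lemma mem_fS {V : Finset ℕ} {t : ℕ} {R : Finset (Finset ℕ)} {G P₀ Q₀ X : Finset ℕ} :
    X ∈ fS V t R G P₀ Q₀ ↔
      X ⊆ G ∧ mk G P₀ Q₀ X ∈ Th V t R ∧ Gs V R (mk G P₀ Q₀ X) = G := by
  classical
  simp only [fS, mem_filter, mem_powerset]

private lemma mem_fD {V : Finset ℕ} {t : ℕ} {R : Finset (Finset ℕ)} {G P₀ Q₀ X : Finset ℕ} :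
    X ∈ fD V t R G P₀ Q₀ ↔
      X ⊆ G ∧ (mk G P₀ Q₀ X ∈ SQ V t R ∨ mk G P₀ Q₀ X ∈ N2 V t R) ∧
      ∃ x ∈ G \ X, insert x X ∈ fS V t R G P₀ Q₀ := by
  classical
  simp only [fD, mem_filter, mem_powerset]

private lemma mem_fN {V : Finset ℕ} {t : ℕ} {R : Finset (Finset ℕ)} {G P₀ Q₀ X : Finset ℕ} :
    X ∈ fN V t R G P₀ Q₀ ↔
      X ⊆ G ∧ mk G P₀ Q₀ X ∈ N2 V t R ∧ ∃ x ∈ X, X.erase x ∈ fS V t R G P₀ Q₀ := by
  classical
  simp only [fN, mem_filter, mem_powerset]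

private lemma mk_erase {G P₀ Q₀ X : Finset ℕ} (hGP : Disjoint G P₀) (hX : X ⊆ G) {x : ℕ}
    (hx : x ∈ X) : mk G P₀ Q₀ (X.erase x) =
      ((mk G P₀ Q₀ X).1.erase x, insert x (mk G P₀ Q₀ X).2) := by
  have hxP : x ∉ P₀ := fun h => (Finset.disjoint_left.1 hGP) (hX hx) h
  simp only [mk, Prod.mk.injEq]
  constructor
  · ext y
    simp only [mem_union, mem_erase]
    constructor
    · rintro (h | h)
      · exact ⟨fun e => hxP (e ▸ h), Or.inl h⟩
      · exact ⟨h.1, Or.inr h.2⟩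
    · rintro ⟨h1, h | h⟩
      · exact Or.inl h
      · exact Or.inr ⟨h1, h⟩
  · ext y
    simp only [mem_union, mem_sdiff, mem_erase, mem_insert]
    by_cases hy : y = x
    · subst hy
      simp [hX hx]
    · simp [hy]

private lemma mk_insert {G P₀ Q₀ X : Finset ℕ} (hGQ : Disjoint G Q₀) {x : ℕ}
    (hx : x ∈ G) : mk G P₀ Q₀ (insert x X) =
      (insert x (mk G P₀ Q₀ X).1, (mk G P₀ Q₀ X).2.erase x) := by
  have hxQ : x ∉ Q₀ := fun h => (Finset.disjoint_left.1 hGQ) hx h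
  simp only [mk, Prod.mk.injEq]
  constructor
  · ext y
    simp only [mem_union, mem_insert]
    tauto
  · ext y
    simp only [mem_union, mem_sdiff, mem_insert, mem_erase]
    by_cases hy : y = x
    · subst hy
      simp [hxQ]
    · simp [hy]

private lemma mk_ker {V G P₀ Q₀ X Y : Finset ℕ} (hX : X ⊆ G) (hY : Y ⊆ G) :
    ker V (mk G P₀ Q₀ X) = ker V (mk G P₀ Q₀ Y) := by
  have e : ∀ Z : Finset ℕ, Z ⊆ G → (mk G P₀ Q₀ Z).1 ∪ (mk G P₀ Q₀ Z).2 = P₀ ∪ Q₀ ∪ G := by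
    intro Z hZ
    ext y
    have := @hZ y
    simp only [mk, mem_union, mem_sdiff]
    tauto
  simp only [ker, e X hX, e Y hY]

private lemma mk_inter {G P₀ Q₀ X : Finset ℕ} (hGP : Disjoint G P₀) (hX : X ⊆ G) :
    (mk G P₀ Q₀ X).1 ∩ G = X := by
  ext y
  simp only [mk, mem_inter, mem_union]
  constructor
  · rintro ⟨h | h, hG⟩
    · exact absurd h (Finset.disjoint_left.1 hGP hG)
    · exact h
  · intro h
    exact ⟨Or.inr h, hX h⟩

theorem sec_of {V : Finset ℕ} {t : ℕ} {R : Finset (Finset ℕ)} (ht : 2 ≤ t) (h : Av V t R)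
    {G P₀ Q₀ : Finset ℕ} (hGP : Disjoint G P₀) (hGQ : Disjoint G Q₀) :
    Sec G t (fS V t R G P₀ Q₀) (fD V t R G P₀ Q₀) (fN V t R G P₀ Q₀) := by
  have key : ∀ X ∈ fS V t R G P₀ Q₀, ∀ Y ∈ fS V t R G P₀ Q₀, ∀ x ∈ G, ¬ (X ∩ Y ⊆ {x}) := by
    intro X hX Y hY x hx hsub
    obtain ⟨hXG, hXT, hXe⟩ := mem_fS.1 hX
    obtain ⟨hYG, hYT, hYe⟩ := mem_fS.1 hY
    obtain ⟨hXm, -, -, hXr⟩ := mem_Th.1 hXT
    obtain ⟨hYm, -, -, hYr⟩ := mem_Th.1 hYT
    obtain ⟨A, hA, hA1, hA2⟩ := wit ht h hXm hXr (hXe.symm ▸ hx : x ∈ Gs V R (mk G P₀ Q₀ X))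
    obtain ⟨B, hB, hB1, hB2⟩ := wit ht h hYm hYr (hYe.symm ▸ hx : x ∈ Gs V R (mk G P₀ Q₀ Y))
    rw [hXe, mk_inter hGP hXG] at hA2
    rw [hYe, mk_inter hGP hYG, mk_ker hYG hXG] at hB2
    rw [mk_ker hYG hXG] at hB1
    set K := ker V (mk G P₀ Q₀ X) with hK
    have hxK : x ∉ K := by
      have h1 : x ∈ Gs V R (mk G P₀ Q₀ X) := by rw [hXe]; exact hx
      have h2 := (mem_Gs.1 h1).1
      rw [hK, ker]
      simp only [mem_sdiff, mem_union, not_and, not_not]
      exact fun _ => h2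
    have hAB : A ∩ B = insert x K := by
      apply Subset.antisymm
      · intro z hz
        rw [mem_inter] at hz
        have h1 := hA2 hz.1
        have h2 := hB2 hz.2
        simp only [mem_insert, mem_union] at h1 h2 ⊢
        by_cases hzx : z = x
        · exact Or.inl hzx
        · by_cases hzK : z ∈ K
          · exact Or.inr hzK
          · have h3 : z ∈ X := by tauto
            have h4 : z ∈ Y := by tauto
            have := hsub (mem_inter.2 ⟨h3, h4⟩)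
            exact Or.inl (mem_singleton.1 this)
      · exact subset_inter hA1 hB1
    apply h.av A hA B hB
    rw [hAB, card_insert_of_notMem hxK]
    exact (mem_mains.1 hXm).2.2.2
  refine ⟨?_, ?_, ?_, ?_⟩
  · intro X hX
    exact (mem_fS.1 hX).1
  · intro X hX Y hY
    obtain ⟨hXG, hXT, hXe⟩ := mem_fS.1 hX
    obtain ⟨hXm, hXu, hXu2, hXr⟩ := mem_Th.1 hXT
    obtain ⟨x, hx⟩ := gs_nonempty (by omega) h hXm hXr hXu
    rw [hXe] at hx
    have h1 := key X hX Y hY x hx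
    rw [subset_iff] at h1
    push Not at h1
    obtain ⟨y, hy, -⟩ := h1
    have h2 := key X hX Y hY y (hXG (mem_inter.1 hy).1)
    rw [subset_iff] at h2
    push Not at h2
    obtain ⟨z, hz, hzy⟩ := h2
    rw [mem_singleton] at hzy
    exact one_lt_card.2 ⟨y, hy, z, hz, fun e => hzy e.symm⟩
  · intro X hX x hx
    obtain ⟨hXG, hXT, hXe⟩ := mem_fS.1 hX
    obtain ⟨hXm, hXu, hXu2, hXr⟩ := mem_Th.1 hXT
    have hxP : x ∈ (mk G P₀ Q₀ X).1 := by
      simp only [mk, mem_union]; exact Or.inr hx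
    have hmk := mk_erase (Q₀ := Q₀) hGP hXG hx
    have hmain : mk G P₀ Q₀ (X.erase x) ∈ mains V t := by
      rw [hmk]; exact flip_mem_mains hxP (by simpa using hXm)
    have hsubG : X.erase x ⊆ G := (erase_subset x X).trans hXG
    have hup2 : Up R (mk G P₀ Q₀ (X.erase x)).2 := by
      rw [hmk]; exact hXu2.mono (subset_insert _ _)
    have hback : ∃ y ∈ G \ X.erase x, insert y (X.erase x) ∈ fS V t R G P₀ Q₀ :=
      ⟨x, mem_sdiff.2 ⟨hXG hx, notMem_erase x X⟩, by rw [insert_erase hx]; exact hX⟩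
    by_cases hup : Up R (mk G P₀ Q₀ (X.erase x)).1
    · by_cases hnr : NR V t R (mk G P₀ Q₀ (X.erase x))
      · right
        exact mem_fD.2 ⟨hsubG, Or.inr (mem_N2.2 ⟨hmain, hup, hup2, hnr⟩), hback⟩
      · left
        refine mem_fS.2 ⟨hsubG, mem_Th.2 ⟨hmain, hup, hup2, hnr⟩, ?_⟩
        rw [hmk] at hnr ⊢
        rw [flip_const ht h hxP (by simpa using hXm) (by simpa using hXr) hnr]
        simpa using hXe
    · right
      refine mem_fD.2 ⟨hsubG, Or.inl (mem_SQ.2 ⟨hmain, ⟨hup2, ?_⟩, hup⟩), hback⟩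
      obtain ⟨A, hA, hAP⟩ := hXu
      refine ⟨A, hA, ?_⟩
      have hd : Disjoint (mk G P₀ Q₀ X).1 (mk G P₀ Q₀ X).2 := (mem_mains.1 hXm).2.2.1
      have : (mk G P₀ Q₀ (X.erase x)).2 ∩ A ⊆ {x} := by
        rw [hmk]
        intro z hz
        simp only [mem_inter, mem_insert] at hz
        rw [mem_singleton]
        rcases hz.1 with hz1 | hz1
        · exact hz1
        · exact absurd hz1 (Finset.disjoint_left.1 hd (hAP hz.2))
      have := card_le_card this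
      rw [card_singleton] at this
      omega
  · intro X hX
    obtain ⟨hXG, hXT, hXe⟩ := mem_fS.1 hX
    obtain ⟨hXm, hXu, hXu2, hXr⟩ := mem_Th.1 hXT
    obtain ⟨B, hB, hBQ⟩ := hXu2
    refine ⟨B ∩ G, ?_, ?_⟩
    · have := few (by omega) h hXm hXr hB hBQ
      rwa [hXe] at this
    · intro x hxG hxX hxB
      have hxB' : x ∉ B := fun hh => hxB (mem_inter.2 ⟨hh, hxG⟩)
      have hxQ : x ∈ (mk G P₀ Q₀ X).2 := by
        simp only [mk, mem_union, mem_sdiff]; exact Or.inr ⟨hxG, hxX⟩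
      have hd : Disjoint (mk G P₀ Q₀ X).1 (mk G P₀ Q₀ X).2 := (mem_mains.1 hXm).2.2.1
      have hxP : x ∉ (mk G P₀ Q₀ X).1 := fun hh => Finset.disjoint_left.1 hd hh hxQ
      have hmk := mk_insert (P₀ := P₀) (X := X) hGQ hxG
      have hmain : mk G P₀ Q₀ (insert x X) ∈ mains V t := by
        rw [hmk]; exact flip_mem_mains' hxQ (by simpa using hXm)
      have hsubG : insert x X ⊆ G := insert_subset hxG hXG
      have hup1 : Up R (mk G P₀ Q₀ (insert x X)).1 := by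
        rw [hmk]; exact hXu.mono (subset_insert _ _)
      have hup2 : Up R (mk G P₀ Q₀ (insert x X)).2 := by
        rw [hmk]
        exact ⟨B, hB, fun z hz => mem_erase.2 ⟨fun e => hxB' (e ▸ hz), hBQ hz⟩⟩
      by_cases hnr : NR V t R (mk G P₀ Q₀ (insert x X))
      · right
        exact mem_fN.2 ⟨hsubG, mem_N2.2 ⟨hmain, hup1, hup2, hnr⟩, x, mem_insert_self _ _, by
          rw [erase_insert hxX]; exact hX⟩
      · left
        refine mem_fS.2 ⟨hsubG, mem_Th.2 ⟨hmain, hup1, hup2, hnr⟩, ?_⟩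
        rw [hmk] at hnr hmain ⊢
        have e1 : (insert x (mk G P₀ Q₀ X).1).erase x = (mk G P₀ Q₀ X).1 := erase_insert hxP
        have e2 : insert x ((mk G P₀ Q₀ X).2.erase x) = (mk G P₀ Q₀ X).2 := insert_erase hxQ
        have := flip_const ht h (mem_insert_self x _) hmain hnr
          (by rw [e1, e2]; simpa using hXr)
        rw [e1, e2] at this
        rw [← this]
        simpa using hXe

end Pool.Agent.H37.AV
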