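import Pool.Agent.H37.AV.Fkg
import Pool.Agent.H37.AV.Flip

/-!
Module SmallFiber.  A member `C` forces non-rigid main slots with a given kernel `K` disjoint from `C`.

`W = V \ K \ C`.  For `P' ⊆ W` and `D ⊆ C` let `σ(P', D) = (P' ∪ D, (W \ P') ∪ (C \ D))`, a main slot with kernel
`K`.  `P'` is good if all `σ(P', D)`, `D ⊆ C`, are rigid.  `f x P' = Cap R K P' x` (monotone in `P'`).
Apply `fkg_bad`.  Let `P'` be good.  Moving the elements of `C` one by one (`flip_const`) shows that
`G = Gs (σ(P', D))` does not depend on `D`.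
 * `h1`: let `x ∈ C`.  At `σ(P', ∅)` (first side `P'`): `x ∈ G ↔ Cap R K P' x`.  At `σ(P', C)` the second side
   is `W \ P'`: `x ∈ Gs (σ(P', C)).swap ↔ Cap R K (W \ P') x`.  By `gs_disj` and `gs_union` at `σ(P', C)` exactly
   one of `x ∈ G`, `x ∈ Gs (…).swap` holds.
 * `h2`: `C ⊆` the second side of `σ(P', ∅)`, so `|C ∩ G| < t < |C|` by `few`.
So at least `4^(-|C|) 2^|W|` of the `P'` are not good, and each of them gives a slot with kernel `K` that is
not rigid (different `P'` give different slots: `P' = s.1 \ C`).  `|W| = |V \ K| - |C|`, and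
`8^|C| #NR ≥ 2^|C| 4^|C| #bad ≥ 2^|C| 2^|W| = 2^|V \ K|`.
-/

open Finset

namespace Pool.Agent.H37.AV

/-- The slot with sides `P' ∪ D` and the rest. -/
private def SmallFiber_sl (W C P D : Finset ℕ) : Slot := (P ∪ D, (W \ P) ∪ (C \ D))

private theorem SmallFiber_ker {V C K P D : Finset ℕ} (_hC : C ⊆ V) (hK : K ⊆ V \ C)
    (hP : P ⊆ (V \ K) \ C) (hD : D ⊆ C) :
    ker V (SmallFiber_sl ((V \ K) \ C) C P D) = K := by
  ext x
  simp only [ker, SmallFiber_sl, mem_sdiff, mem_union]
  constructor
  · rintro ⟨hx, hn⟩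
    by_contra hk
    apply hn
    by_cases hxC : x ∈ C
    · by_cases hxD : x ∈ D
      · exact Or.inl (Or.inr hxD)
      · exact Or.inr (Or.inr ⟨hxC, hxD⟩)
    · by_cases hxP : x ∈ P
      · exact Or.inl (Or.inl hxP)
      · exact Or.inr (Or.inl ⟨⟨⟨hx, hk⟩, hxC⟩, hxP⟩)
  · intro hx
    have h1 := mem_sdiff.mp (hK hx)
    refine ⟨h1.1, ?_⟩
    rintro ((h | h) | (h | h))
    · exact (mem_sdiff.mp (mem_sdiff.mp (hP h)).1).2 hx
    · exact h1.2 (hD h)
    · exact h.1.1.2 hx
    · exact h1.2 h.1

private theorem SmallFiber_main {V C K P D : Finset ℕ} {t : ℕ} (hC : C ⊆ V) (hK : K ⊆ V \ C)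
    (hKt : K.card + 1 = t) (hP : P ⊆ (V \ K) \ C) (hD : D ⊆ C) :
    SmallFiber_sl ((V \ K) \ C) C P D ∈ mains V t := by
  rw [mem_mains]
  refine ⟨?_, ?_, ?_, ?_⟩
  · refine union_subset (fun x hx => ?_) (hD.trans hC)
    exact (mem_sdiff.mp (mem_sdiff.mp (hP hx)).1).1
  · refine union_subset (fun x hx => ?_) (sdiff_subset.trans hC)
    exact (mem_sdiff.mp (mem_sdiff.mp (mem_sdiff.mp hx).1).1).1
  · rw [Finset.disjoint_left]
    intro x h1 h2
    simp only [SmallFiber_sl, mem_sdiff, mem_union] at h1 h2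
    rcases h1 with h1 | h1
    · rcases h2 with h2 | h2
      · exact h2.2 h1
      · exact (mem_sdiff.mp (hP h1)).2 h2.1
    · rcases h2 with h2 | h2
      · exact h2.1.2 (hD h1)
      · exact h2.2 h1
  · rw [SmallFiber_ker hC hK hP hD]
    exact hKt

private theorem SmallFiber_const {V C K P : Finset ℕ} {t : ℕ} {R : Finset (Finset ℕ)}
    (ht : 2 ≤ t) (h : Av V t R) (hC : C ⊆ V) (hK : K ⊆ V \ C)
    (hKt : K.card + 1 = t) (hP : P ⊆ (V \ K) \ C)
    (hgood : ∀ D ⊆ C, ¬ NR V t R (SmallFiber_sl ((V \ K) \ C) C P D)) (D : Finset ℕ) :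
    D ⊆ C → Gs V R (SmallFiber_sl ((V \ K) \ C) C P D) =
      Gs V R (SmallFiber_sl ((V \ K) \ C) C P ∅) := by
  induction D using Finset.induction_on with
  | empty => intro _; rfl
  | insert y D hy ih =>
    intro hD
    have hyC : y ∈ C := hD (mem_insert_self y D)
    have hDC : D ⊆ C := (subset_insert y D).trans hD
    rw [← ih hDC]
    have hyP : y ∉ P := fun hh => (mem_sdiff.mp (hP hh)).2 hyC
    have e1 : (P ∪ insert y D).erase y = P ∪ D := by
      ext x
      simp only [mem_erase, mem_union, mem_insert]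
      constructor
      · rintro ⟨h1, h2 | h2 | h2⟩
        · exact Or.inl h2
        · exact absurd h2 h1
        · exact Or.inr h2
      · intro hx
        refine ⟨?_, ?_⟩
        · rintro rfl
          rcases hx with hx | hx
          · exact hyP hx
          · exact hy hx
        · rcases hx with hx | hx
          · exact Or.inl hx
          · exact Or.inr (Or.inr hx)
    have e2 : insert y (((V \ K) \ C) \ P ∪ (C \ insert y D)) =
        ((V \ K) \ C) \ P ∪ (C \ D) := by
      ext x
      simp only [mem_insert, mem_union, mem_sdiff, not_or]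
      constructor
      · rintro (rfl | h1 | h1)
        · exact Or.inr ⟨hyC, hy⟩
        · exact Or.inl h1
        · exact Or.inr ⟨h1.1, h1.2.2⟩
      · rintro (h1 | h1)
        · exact Or.inr (Or.inl h1)
        · by_cases hxy : x = y
          · exact Or.inl hxy
          · exact Or.inr (Or.inr ⟨h1.1, hxy, h1.2⟩)
    have hm := SmallFiber_main (t := t) hC hK hKt hP hD
    have hg1 := hgood _ hD
    have hg2 := hgood _ hDC
    have hfl := flip_const (P := P ∪ insert y D)
      (Q := ((V \ K) \ C) \ P ∪ (C \ insert y D)) (y := y) ht h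
      (mem_union_right _ (mem_insert_self y D)) hm hg1 (by rw [e1, e2]; exact hg2)
    rw [e1, e2] at hfl
    exact hfl.symm

private theorem SmallFiber_mono {R : Finset (Finset ℕ)} {K P P' : Finset ℕ} {x : ℕ}
    (hPP : P ⊆ P') (hc : Cap R K P x) : Cap R K P' x := by
  obtain ⟨A, hA, h1, h2⟩ := hc
  exact ⟨A, hA, h1, h2.trans (insert_subset_insert x (union_subset_union_right hPP))⟩

theorem small_fiber {V : Finset ℕ} {t : ℕ} {R : Finset (Finset ℕ)} (ht : 2 ≤ t) (h : Av V t R)
    {C K : Finset ℕ} (hC : C ∈ R) (hK : K ⊆ V \ C) (hKt : K.card + 1 = t) :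
    2 ^ (V \ K).card ≤
      8 ^ C.card * ((mains V t).filter (fun s => ker V s = K ∧ NR V t R s)).card := by
  classical
  have hCV : C ⊆ V := h.sub C hC
  set W := (V \ K) \ C with hW
  set good : Finset ℕ → Prop := fun P => ∀ D ⊆ C, ¬ NR V t R (SmallFiber_sl W C P D) with hgd
  have h1 : ∀ P ⊆ W, good P → ∀ x ∈ C, (Cap R K P x ↔ ¬ Cap R K (W \ P) x) := by
    intro P hP hg x hx
    have hcon := SmallFiber_const ht h hCV hK hKt hP hg C (Subset.refl C)
    rw [← hW] at hcon
    have hm := SmallFiber_main (t := t) hCV hK hKt hP (Subset.refl C)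
    rw [← hW] at hm
    have k0 : ker V (SmallFiber_sl W C P ∅) = K := SmallFiber_ker hCV hK hP (empty_subset C)
    have kC : ker V (SmallFiber_sl W C P C) = K := SmallFiber_ker hCV hK hP (Subset.refl C)
    have m1 : x ∈ Gs V R (SmallFiber_sl W C P ∅) ↔ Cap R K P x := by
      rw [mem_Gs, k0]
      simp only [SmallFiber_sl, union_empty, sdiff_empty, mem_union]
      constructor
      · exact fun hh => hh.2
      · exact fun hh => ⟨Or.inr (Or.inr hx), hh⟩
    have m2 : x ∈ Gs V R (SmallFiber_sl W C P C).swap ↔ Cap R K (W \ P) x := by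
      rw [mem_Gs, ker_swap, kC]
      have hCC : C \ C = ∅ := by simp
      simp only [SmallFiber_sl, Prod.swap, hCC, union_empty, mem_union]
      constructor
      · exact fun hh => hh.2
      · exact fun hh => ⟨Or.inr (Or.inr hx), hh⟩
    have hun := gs_union (by omega) h hm (hg C (Subset.refl C))
    have hdi := gs_disj h hm
    have hxm : x ∈ Gs V R (SmallFiber_sl W C P C) ∪ Gs V R (SmallFiber_sl W C P C).swap := by
      rw [hun]
      exact mem_union_left _ (mem_union_right _ hx)
    rw [← m1, ← m2, ← hcon]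
    rw [mem_union] at hxm
    constructor
    · intro h3 h4
      exact Finset.disjoint_left.mp hdi h3 h4
    · intro h3
      rcases hxm with h4 | h4
      · exact h4
      · exact absurd h4 h3
  have h2 : ∀ P ⊆ W, good P → ∃ x ∈ C, ¬ Cap R K P x := by
    intro P hP hg
    have k0 : ker V (SmallFiber_sl W C P ∅) = K := SmallFiber_ker hCV hK hP (empty_subset C)
    have hm := SmallFiber_main (t := t) hCV hK hKt hP (empty_subset C)
    rw [← hW] at hm
    have hf := few (by omega) h hm (hg ∅ (empty_subset C)) hC (by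
      simp only [SmallFiber_sl, sdiff_empty]
      exact subset_union_right)
    by_contra hcon
    push Not at hcon
    have hsub : C ∩ Gs V R (SmallFiber_sl W C P ∅) = C := by
      rw [inter_eq_left]
      intro x hx
      rw [mem_Gs, k0]
      simp only [SmallFiber_sl, union_empty, sdiff_empty, mem_union]
      exact ⟨Or.inr (Or.inr hx), hcon x hx⟩
    rw [hsub] at hf
    have := h.big C hC
    omega
  have hfkg := fkg_bad W C (fun x P => Cap R K P x)
    (fun x _ P P' hPP _ hc => SmallFiber_mono hPP hc) good h1 h2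
  have hbad : (W.powerset.filter (fun P => ¬ good P)).card ≤
      ((mains V t).filter (fun s => ker V s = K ∧ NR V t R s)).card := by
    refine (card_le_card (?_ : _ ⊆ ((mains V t).filter
      (fun s => ker V s = K ∧ NR V t R s)).image (fun s => s.1 \ C))).trans card_image_le
    intro P hP
    rw [mem_filter, mem_powerset] at hP
    obtain ⟨hPW, hng⟩ := hP
    simp only [hgd, not_forall, not_not] at hng
    obtain ⟨D, hD, hnr⟩ := hng
    rw [mem_image]
    refine ⟨SmallFiber_sl W C P D, ?_, ?_⟩
    · rw [mem_filter]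
      exact ⟨SmallFiber_main hCV hK hKt hPW hD, SmallFiber_ker hCV hK hPW hD, hnr⟩
    · ext x
      simp only [SmallFiber_sl, mem_sdiff, mem_union]
      constructor
      · rintro ⟨h3 | h3, h4⟩
        · exact h3
        · exact absurd (hD h3) h4
      · intro h3
        exact ⟨Or.inl h3, (mem_sdiff.mp (hPW h3)).2⟩
  have hcard : (V \ K).card = W.card + C.card := by
    have hCs : C ⊆ V \ K := fun x hx =>
      mem_sdiff.mpr ⟨hCV hx, fun hk => (mem_sdiff.mp (hK hk)).2 hx⟩
    have h5 := card_sdiff_add_card_eq_card hCs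
    rw [← hW] at h5
    exact h5.symm
  rw [hcard, pow_add]
  calc 2 ^ W.card * 2 ^ C.card
      ≤ (4 ^ C.card * (W.powerset.filter (fun P => ¬ good P)).card) * 2 ^ C.card :=
        Nat.mul_le_mul_right _ hfkg
    _ = 8 ^ C.card * (W.powerset.filter (fun P => ¬ good P)).card := by
        have : (8 : ℕ) ^ C.card = 4 ^ C.card * 2 ^ C.card := by
          rw [← mul_pow]
          norm_num
        rw [this]
        ring
    _ ≤ _ := Nat.mul_le_mul_left _ hbad

end Pool.Agent.H37.AV
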