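import Pool.Agent.H37.AV.Zones

/-!
Module ThPr.  Rigid slots, weighted by the probability that the first side is captured.
`x = rew`, `κ = Bd t`, `ω₁ u = [2 u ≤ n]`, `ω₂ u = pr n r m (n + 1 - t - u)` (both antitone and nonnegative;
`pr_mono`, `n + 1 - t - u ≤ n`); for a main slot `τ` of `[n]`: `|τ.2| = n + 1 - t - |τ.1|`.

`swap_sqrt`: `∑ pr |τ.2| over τ ∈ Th with |Gs τ| ≤ h1²` is at most `24 κ (h1+t) x`: `exits_sqrt` with `ω₂`;
`∑_{SQ} pr |τ.2| ≤ ∑_{S1} pr |σ.1| ≤ x` (`sum_SQ_le`, `s1_pr_le`), `∑_{N2} pr ≤ |N2| ≤ κ x` (`pr_le_one`).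
`swap_top`: the same over `τ ∈ Th` with `7 |Gs τ| < 8 |τ.1 ∩ Gs τ|`: at most `4 x + 4 κ x ≤ 8 κ x` by
`exits_top` with `ω₂`.

`th_pr`: every `σ ∈ Th` with `2 |σ.1| ≤ n` is in one of five classes.
 (a) `|Gs σ| ≤ h1²`: `pr ≤ 1`, `exits_sqrt` with `ω₁`: at most `8 (h1+t) 4 x + 16 (h1+t) κ x ≤ 48 κ (h1+t) x`.
 (b) `|Gs σ.swap| ≤ h1²`: `τ = σ.swap ∈ Th`, `pr |σ.1| = pr |τ.2|`: `swap_sqrt`, `24 κ (h1+t) x`.
 (c) `M ≤ |σ.2 ∩ Gs σ|` and `M ≤ |σ.1 ∩ Gs σ.swap|`: `rate`: `(M-t) # ≤ 2 t n κ x`.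
 (d) `|Gs σ| > h1²` and `|σ.2 ∩ Gs σ| < M`: `Gs σ ⊆ σ.1 ∪ σ.2`, so
   `8 |σ.1 ∩ Gs σ| > 8 |Gs σ| - 8 M ≥ 8 |Gs σ| - h1² > 7 |Gs σ|`: `exits_top` with `ω₁`: `16 x + 4 κ x ≤ 20 κ x`.
 (e) `|Gs σ.swap| > h1²` and `|σ.1 ∩ Gs σ.swap| < M`: (d) for `τ = σ.swap`, with `swap_top`: `8 κ x`.
-/

open Finset

namespace Pool.Agent.H37.AV

variable {n t w r m h1 hh M s c1 : ℕ} {α β θ : ℝ} {R : Finset (Finset ℕ)}

private lemma thp_card {τ : Slot} (ht : 1 ≤ t) (hm : τ ∈ mains (Icc 1 n) t) :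
    τ.1.card + τ.2.card + t = n + 1 := by
  obtain ⟨h1, h2, h3, h4⟩ := mem_mains.1 hm
  have h5 : (ker (Icc 1 n) τ).card = n - (τ.1.card + τ.2.card) := by
    rw [ker, card_sdiff_of_subset (union_subset h1 h2), card_union_of_disjoint h3, Nat.card_Icc]
    simp
  have h6 : τ.1.card + τ.2.card ≤ n := by
    rw [← card_union_of_disjoint h3]
    have := card_le_card (union_subset h1 h2)
    rwa [Nat.card_Icc, Nat.add_sub_cancel] at this
  omega

private noncomputable def thp_w (n t r m : ℕ) (u : ℕ) : ℝ := pr n r m (n + 1 - t - u)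

private lemma thp_w_anti (ht : 1 ≤ t) : Antitone (thp_w n t r m) := by
  intro u u' huu'
  unfold thp_w
  exact pr_mono (by omega) (by omega)

private lemma thp_w_nonneg (u : ℕ) : 0 ≤ thp_w n t r m u := pr_nonneg _ _ _ _

private lemma thp_w_le (ht : 1 ≤ t) (u : ℕ) : thp_w n t r m u ≤ 1 := pr_le_one (by omega)

private lemma thp_w_eq {τ : Slot} (ht : 1 ≤ t) (hm : τ ∈ mains (Icc 1 n) t) :
    thp_w n t r m τ.1.card = pr n r m τ.2.card := by
  have h := thp_card ht hm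
  unfold thp_w
  congr 1
  omega

private lemma thp_sq (P : Prm n t w r m h1 hh M s c1 α β θ) :
    ∑ τ ∈ SQ (Icc 1 n) t R, thp_w n t r m τ.1.card ≤ rew n t r m s θ R := by
  have ht := P.ht
  have e : ∑ τ ∈ SQ (Icc 1 n) t R, thp_w n t r m τ.1.card =
      ∑ τ ∈ SQ (Icc 1 n) t R, (fun σ : Slot => pr n r m σ.1.card) τ.swap := by
    refine Finset.sum_congr rfl fun τ hτ => ?_
    rw [thp_w_eq (by omega) (mem_SQ.1 hτ).1]
    rfl
  rw [e]
  exact (sum_SQ_le (fun σ : Slot => pr n r m σ.1.card) (fun σ => pr_nonneg _ _ _ _)).trans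
    (s1_pr_le P)

private lemma thp_n2 (P : Prm n t w r m h1 hh M s c1 α β θ) {ω : ℕ → ℝ} (h1' : ∀ u, ω u ≤ 1) :
    ∑ τ ∈ N2 (Icc 1 n) t R, ω τ.1.card ≤ Bd t * rew n t r m s θ R := by
  refine le_trans ?_ (n2_le P)
  rw [Finset.card_eq_sum_ones, Nat.cast_sum]
  refine Finset.sum_le_sum fun τ _ => ?_
  rw [Nat.cast_one]
  exact h1' _

private lemma thp_swap_eq {T : Finset Slot} (ht : 1 ≤ t) (hT : T ⊆ Th (Icc 1 n) t R) :
    ∑ τ ∈ T, pr n r m τ.2.card = ∑ τ ∈ T, thp_w n t r m τ.1.card :=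
  Finset.sum_congr rfl fun _ hτ => (thp_w_eq ht (mem_Th.1 (hT hτ)).1).symm

theorem swap_sqrt (P : Prm n t w r m h1 hh M s c1 α β θ) (h : Av (Icc 1 n) t R) :
    ∑ τ ∈ (Th (Icc 1 n) t R).filter (fun τ => (Gs (Icc 1 n) R τ).card ≤ h1 ^ 2),
      pr n r m τ.2.card ≤ 24 * Bd t * (h1 + t) * rew n t r m s θ R := by
  have ht := P.ht
  rw [thp_swap_eq (by omega) (filter_subset _ _)]
  have h2 := exits_sqrt (hh := h1) ht h P.h1p (thp_w_anti (n := n) (t := t) (r := r) (m := m)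
    (by omega)) thp_w_nonneg
  have h3 := thp_sq (R := R) P
  have h4 := thp_n2 (R := R) P (ω := thp_w n t r m) (thp_w_le (by omega))
  have hx := rew_nonneg (R := R) P
  have hB := Bd_pos t
  have hc : (0 : ℝ) ≤ (h1 : ℝ) + t := by positivity
  have h5 : rew n t r m s θ R ≤ Bd t * rew n t r m s θ R := by nlinarith
  have h6 := mul_le_mul_of_nonneg_left (h3.trans h5) hc
  have h7 := mul_le_mul_of_nonneg_left h4 hc
  linarith

theorem swap_top (P : Prm n t w r m h1 hh M s c1 α β θ) (h : Av (Icc 1 n) t R) :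
    ∑ τ ∈ (Th (Icc 1 n) t R).filter
        (fun τ => 7 * (Gs (Icc 1 n) R τ).card < 8 * (τ.1 ∩ Gs (Icc 1 n) R τ).card),
      pr n r m τ.2.card ≤ 8 * Bd t * rew n t r m s θ R := by
  have ht := P.ht
  rw [thp_swap_eq (by omega) (filter_subset _ _)]
  have h2 := exits_top ht h (thp_w_anti (n := n) (t := t) (r := r) (m := m)
    (by omega)) thp_w_nonneg
  have h3 := thp_sq (R := R) P
  have h4 := thp_n2 (R := R) P (ω := thp_w n t r m) (thp_w_le (by omega))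
  have hx := rew_nonneg (R := R) P
  have hB := Bd_pos t
  have h5 : rew n t r m s θ R ≤ Bd t * rew n t r m s θ R := by nlinarith
  linarith

private noncomputable def thp_v (n : ℕ) (u : ℕ) : ℝ := if 2 * u ≤ n then 1 else 0

private lemma thp_v_anti : Antitone (thp_v n) := by
  intro u u' huu'
  unfold thp_v
  split_ifs with h1 h2
  · exact le_rfl
  · omega
  · exact zero_le_one
  · exact le_rfl

private lemma thp_v_nonneg (u : ℕ) : 0 ≤ thp_v n u := by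
  unfold thp_v
  split_ifs
  · exact zero_le_one
  · exact le_rfl

private lemma thp_v_le (u : ℕ) : thp_v n u ≤ 1 := by
  unfold thp_v
  split_ifs
  · exact le_rfl
  · exact zero_le_one

private lemma thp_v_sq (P : Prm n t w r m h1 hh M s c1 α β θ) :
    ∑ τ ∈ SQ (Icc 1 n) t R, thp_v n τ.1.card ≤ 4 * rew n t r m s θ R := by
  refine le_trans (le_of_eq ?_) (sq_zone (R := R) P)
  unfold thp_v
  rw [← Finset.sum_filter, Finset.sum_const, nsmul_eq_mul, mul_one]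

private lemma thp_a (P : Prm n t w r m h1 hh M s c1 α β θ) (h : Av (Icc 1 n) t R) :
    ∑ τ ∈ (Th (Icc 1 n) t R).filter (fun τ => (Gs (Icc 1 n) R τ).card ≤ h1 ^ 2),
      thp_v n τ.1.card ≤ 48 * Bd t * (h1 + t) * rew n t r m s θ R := by
  have ht := P.ht
  have h2 := exits_sqrt (hh := h1) ht h P.h1p (thp_v_anti (n := n)) thp_v_nonneg
  have h3 := thp_v_sq (R := R) P
  have h4 := thp_n2 (R := R) P (ω := thp_v n) thp_v_le
  have hx := rew_nonneg (R := R) P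
  have hB := Bd_pos t
  have hc : (0 : ℝ) ≤ (h1 : ℝ) + t := by positivity
  have h5 : 4 * rew n t r m s θ R ≤ 4 * (Bd t * rew n t r m s θ R) := by nlinarith
  have h6 := mul_le_mul_of_nonneg_left (h3.trans h5) hc
  have h7 := mul_le_mul_of_nonneg_left h4 hc
  linarith

private lemma thp_d (P : Prm n t w r m h1 hh M s c1 α β θ) (h : Av (Icc 1 n) t R) :
    ∑ τ ∈ (Th (Icc 1 n) t R).filter
        (fun τ => 7 * (Gs (Icc 1 n) R τ).card < 8 * (τ.1 ∩ Gs (Icc 1 n) R τ).card),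
      thp_v n τ.1.card ≤ 20 * Bd t * rew n t r m s θ R := by
  have ht := P.ht
  have h2 := exits_top ht h (thp_v_anti (n := n)) thp_v_nonneg
  have h3 := thp_v_sq (R := R) P
  have h4 := thp_n2 (R := R) P (ω := thp_v n) thp_v_le
  have hx := rew_nonneg (R := R) P
  have hB := Bd_pos t
  have h5 : rew n t r m s θ R ≤ Bd t * rew n t r m s θ R := by nlinarith
  linarith

private lemma thp_c (P : Prm n t w r m h1 hh M s c1 α β θ) (h : Av (Icc 1 n) t R) :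
    (((Th (Icc 1 n) t R).filter (fun s => M ≤ (s.2 ∩ Gs (Icc 1 n) R s).card ∧
      M ≤ (s.1 ∩ Gs (Icc 1 n) R s.swap).card)).card : ℝ) ≤
      Bd t * (2 * t * n / (M - t)) * rew n t r m s θ R := by
  have ht := P.ht
  have hM := P.hM
  have h1 := rate ht h M
  rw [Nat.card_Icc, Nat.add_sub_cancel] at h1
  have h2 := n2_le (R := R) P
  have h3 : (0 : ℝ) < (M : ℝ) - t := by
    have : (t : ℝ) < M := by exact_mod_cast hM
    linarith
  have h4 : ((M : ℝ) - t) * ((Th (Icc 1 n) t R).filter (fun s =>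
      M ≤ (s.2 ∩ Gs (Icc 1 n) R s).card ∧ M ≤ (s.1 ∩ Gs (Icc 1 n) R s.swap).card)).card ≤
      2 * t * n * (N2 (Icc 1 n) t R).card := by
    have h5 : ((M - t : ℕ) : ℝ) = (M : ℝ) - t := Nat.cast_sub hM.le
    rw [← h5]
    exact_mod_cast h1
  have h6 : (0 : ℝ) ≤ 2 * t * n := by positivity
  have h7 : ((M : ℝ) - t) * ((Th (Icc 1 n) t R).filter (fun s =>
      M ≤ (s.2 ∩ Gs (Icc 1 n) R s).card ∧ M ≤ (s.1 ∩ Gs (Icc 1 n) R s.swap).card)).card ≤
      2 * t * n * (Bd t * rew n t r m s θ R) := h4.trans (mul_le_mul_of_nonneg_left h2 h6)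
  have h8 : Bd t * (2 * t * n / ((M : ℝ) - t)) * rew n t r m s θ R =
      2 * t * n * (Bd t * rew n t r m s θ R) / ((M : ℝ) - t) := by ring
  rw [h8, le_div_iff₀ h3, mul_comm]
  exact h7

private lemma thp_swap_sum {p : Slot → Prop} [DecidablePred p] :
    ∑ σ ∈ Th (Icc 1 n) t R, (if p σ.swap then pr n r m σ.1.card else 0) =
      ∑ τ ∈ (Th (Icc 1 n) t R).filter p, pr n r m τ.2.card := by
  rw [Finset.sum_filter, ← sum_Th_swap]
  rfl

private lemma thp_pt (P : Prm n t w r m h1 hh M s c1 α β θ) (h : Av (Icc 1 n) t R) {σ : Slot}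
    (hσ : σ ∈ Th (Icc 1 n) t R) (hn : 2 * σ.1.card ≤ n) :
    pr n r m σ.1.card ≤
      (if (Gs (Icc 1 n) R σ).card ≤ h1 ^ 2 then thp_v n σ.1.card else 0) +
      (if (Gs (Icc 1 n) R σ.swap).card ≤ h1 ^ 2 then pr n r m σ.1.card else 0) +
      (if M ≤ (σ.2 ∩ Gs (Icc 1 n) R σ).card ∧ M ≤ (σ.1 ∩ Gs (Icc 1 n) R σ.swap).card
        then 1 else 0) +
      (if 7 * (Gs (Icc 1 n) R σ).card < 8 * (σ.1 ∩ Gs (Icc 1 n) R σ).card
        then thp_v n σ.1.card else 0) +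
      (if 7 * (Gs (Icc 1 n) R σ.swap).card < 8 * (σ.swap.1 ∩ Gs (Icc 1 n) R σ.swap).card
        then pr n r m σ.1.card else 0) := by
  have hM8 := P.hM8
  have hp0 := pr_nonneg n r m σ.1.card
  have hp1 : pr n r m σ.1.card ≤ 1 := pr_le_one (by omega)
  have hv : thp_v n σ.1.card = 1 := if_pos hn
  have key : ∀ τ : Slot, τ ∈ mains (Icc 1 n) t → h1 ^ 2 < (Gs (Icc 1 n) R τ).card →
      (τ.2 ∩ Gs (Icc 1 n) R τ).card < M →
      7 * (Gs (Icc 1 n) R τ).card < 8 * (τ.1 ∩ Gs (Icc 1 n) R τ).card := by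
    intro τ hτ h2 h3
    obtain ⟨-, -, hd, -⟩ := mem_mains.1 hτ
    have h4 : (Gs (Icc 1 n) R τ).card ≤
        (τ.1 ∩ Gs (Icc 1 n) R τ).card + (τ.2 ∩ Gs (Icc 1 n) R τ).card := by
      refine le_trans (card_le_card ?_) (card_union_le _ _)
      intro x hx
      rcases (mem_Gs.1 hx).1 with h5 | h5
      · exact mem_union_left _ (mem_inter.2 ⟨h5, hx⟩)
      · exact mem_union_right _ (mem_inter.2 ⟨h5, hx⟩)
    omega
  have hm := (mem_Th.1 hσ).1
  rw [hv]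
  have A : ∀ (q : Prop) [Decidable q], (0 : ℝ) ≤ if q then pr n r m σ.1.card else 0 := by
    intro q _
    split_ifs
    · exact hp0
    · exact le_rfl
  have B : ∀ (q : Prop) [Decidable q], (0 : ℝ) ≤ if q then 1 else 0 := by
    intro q _
    split_ifs
    · exact zero_le_one
    · exact le_rfl
  have a1 := B ((Gs (Icc 1 n) R σ).card ≤ h1 ^ 2)
  have a2 := A ((Gs (Icc 1 n) R σ.swap).card ≤ h1 ^ 2)
  have a3 := B (M ≤ (σ.2 ∩ Gs (Icc 1 n) R σ).card ∧ M ≤ (σ.1 ∩ Gs (Icc 1 n) R σ.swap).card)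
  have a4 := B (7 * (Gs (Icc 1 n) R σ).card < 8 * (σ.1 ∩ Gs (Icc 1 n) R σ).card)
  have a5 := A (7 * (Gs (Icc 1 n) R σ.swap).card < 8 * (σ.swap.1 ∩ Gs (Icc 1 n) R σ.swap).card)
  by_cases c1 : (Gs (Icc 1 n) R σ).card ≤ h1 ^ 2
  · rw [if_pos c1] at a1 ⊢
    linarith
  by_cases c2 : (Gs (Icc 1 n) R σ.swap).card ≤ h1 ^ 2
  · rw [if_pos c2] at a2 ⊢
    linarith
  by_cases c3 : M ≤ (σ.2 ∩ Gs (Icc 1 n) R σ).card
  · by_cases c4 : M ≤ (σ.1 ∩ Gs (Icc 1 n) R σ.swap).card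
    · rw [if_pos (show M ≤ (σ.2 ∩ Gs (Icc 1 n) R σ).card ∧
        M ≤ (σ.1 ∩ Gs (Icc 1 n) R σ.swap).card from ⟨c3, c4⟩)] at a3 ⊢
      linarith
    · have c5 := key σ.swap (swap_mem_mains hm) (by omega) (by
        rw [Prod.snd_swap]
        omega)
      rw [if_pos c5] at a5 ⊢
      linarith
  · have c5 := key σ hm (by omega) (by omega)
    rw [if_pos c5] at a4 ⊢
    linarith

theorem th_pr (P : Prm n t w r m h1 hh M s c1 α β θ) (h : Av (Icc 1 n) t R) :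
    ∑ σ ∈ (Th (Icc 1 n) t R).filter (fun σ => 2 * σ.1.card ≤ n), pr n r m σ.1.card ≤
      Bd t * (72 * (h1 + t) + 2 * t * n / (M - t) + 28) * rew n t r m s θ R := by
  have h2 : ∑ σ ∈ (Th (Icc 1 n) t R).filter (fun σ => 2 * σ.1.card ≤ n), pr n r m σ.1.card ≤
      ∑ σ ∈ Th (Icc 1 n) t R,
      ((if (Gs (Icc 1 n) R σ).card ≤ h1 ^ 2 then thp_v n σ.1.card else 0) +
      (if (Gs (Icc 1 n) R σ.swap).card ≤ h1 ^ 2 then pr n r m σ.1.card else 0) +
      (if M ≤ (σ.2 ∩ Gs (Icc 1 n) R σ).card ∧ M ≤ (σ.1 ∩ Gs (Icc 1 n) R σ.swap).card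
        then 1 else 0) +
      (if 7 * (Gs (Icc 1 n) R σ).card < 8 * (σ.1 ∩ Gs (Icc 1 n) R σ).card
        then thp_v n σ.1.card else 0) +
      (if 7 * (Gs (Icc 1 n) R σ.swap).card < 8 * (σ.swap.1 ∩ Gs (Icc 1 n) R σ.swap).card
        then pr n r m σ.1.card else 0)) := by
    rw [Finset.sum_filter]
    refine Finset.sum_le_sum fun σ hσ => ?_
    by_cases hn : 2 * σ.1.card ≤ n
    · rw [if_pos hn]
      exact thp_pt P h hσ hn
    · rw [if_neg hn]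
      have hp0 := pr_nonneg n r m σ.1.card
      have hv0 := thp_v_nonneg (n := n) σ.1.card
      refine add_nonneg (add_nonneg (add_nonneg (add_nonneg ?_ ?_) ?_) ?_) ?_
      all_goals split_ifs
      all_goals first | exact hv0 | exact hp0 | exact zero_le_one | exact le_rfl
  refine h2.trans ?_
  rw [Finset.sum_add_distrib, Finset.sum_add_distrib, Finset.sum_add_distrib,
    Finset.sum_add_distrib]
  rw [thp_swap_sum (p := fun τ => (Gs (Icc 1 n) R τ).card ≤ h1 ^ 2),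
    thp_swap_sum (p := fun τ => 7 * (Gs (Icc 1 n) R τ).card < 8 * (τ.1 ∩ Gs (Icc 1 n) R τ).card),
    ← Finset.sum_filter, ← Finset.sum_filter, ← Finset.sum_filter, Finset.sum_const,
    nsmul_eq_mul, mul_one]
  have e1 := thp_a P h
  have e2 := swap_sqrt P h
  have e3 := thp_c P h
  have e4 := thp_d P h
  have e5 := swap_top P h
  linarith

end Pool.Agent.H37.AV
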