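import Pool.Agent.H37.AV.Loc

/-!
Module TypeOne.  `E = K + x` (`K = ker V s`, `|E| = t`) captured by neither side: `s` is not rigid.

`loc` with `N = E`, `T = s.1 \ {x}`, `T' = s.2 \ {x}` (`N ∪ T = K ∪ s.1 + x`), and the combination
`e_{(E,∅)} - e_{(∅,E)}`.  A row `(A, B)` with `A ⊆ N ∪ T`, `A ∩ N = E`: `|A| ≥ t`, so `A ∈ R`, and
`E ⊆ A ⊆ K ∪ s.1 + x`: against `h1`; similarly `(∅, E)`.
Coefficients: at `(L₁, ∅)` the first vector gives `(-1)^(t-|L₁|)`, at `(∅, L₂)` the second gives
`-(-1)^(t-|L₂|)`; the only pair with `|N \ (L₁ ∪ L₂)| ≥ t` is `(∅, ∅)`, with coefficient `0`; if `L₁` and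
`L₂` are nonempty the coefficient is `0`.  `s = (T ∪ {x}, T')` or `(T, T' ∪ {x})`, coefficient `± 1`.
-/

open Finset

namespace Pool.Agent.H37.AV

private def oneL (N : Finset ℕ) : Bool → Slot
  | true => (N, ∅)
  | false => (∅, N)

private def oneA : Bool → ℝ
  | true => 1
  | false => -1

private lemma one_kap (N L₁ L₂ : Finset ℕ) :
    kap Finset.univ (oneL N) oneA L₁ L₂ =
      (if L₁ ⊆ N ∧ L₂ ⊆ ∅ then (-1 : ℝ) ^ ((N \ L₁).card + ((∅ : Finset ℕ) \ L₂).card) else 0) +
      (if L₁ ⊆ ∅ ∧ L₂ ⊆ N then -(-1 : ℝ) ^ (((∅ : Finset ℕ) \ L₁).card + (N \ L₂).card) else 0) := by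
  unfold kap
  simp only [Fintype.sum_bool, oneL, oneA, one_mul, neg_mul]

theorem nr_one {V : Finset ℕ} {t : ℕ} {R : Finset (Finset ℕ)} (ht : 1 ≤ t) (h : Av V t R) {s : Slot}
    (hs : s ∈ mains V t) {x : ℕ} (hx : x ∈ s.1 ∨ x ∈ s.2) (h1 : ¬ Cap R (ker V s) s.1 x)
    (h2 : ¬ Cap R (ker V s) s.2 x) : NR V t R s := by
  classical
  obtain ⟨P, Q⟩ := s
  obtain ⟨hP, hQ, hPQ, hK⟩ := mem_mains.1 hs
  simp only at hP hQ hPQ hx h1 h2
  set K := ker V (P, Q) with hKdef
  have hKV : K ⊆ V := by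
    rw [hKdef]; exact Finset.sdiff_subset
  have hxV : x ∈ V := hx.elim (fun h => hP h) (fun h => hQ h)
  have hxK : x ∉ K := by
    rw [hKdef]
    simp only [ker, mem_sdiff, mem_union, not_and, not_not]
    exact fun _ => hx
  have hKP : Disjoint K P := by
    rw [hKdef]; simp only [ker]
    exact (Finset.disjoint_sdiff.mono_left (Finset.subset_union_left)).symm
  have hKQ : Disjoint K Q := by
    rw [hKdef]; simp only [ker]
    exact (Finset.disjoint_sdiff.mono_left (Finset.subset_union_right)).symm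
  set N := insert x K with hNdef
  have hNc : N.card = t := by
    rw [hNdef, card_insert_of_notMem hxK]; exact hK
  have hNT : Disjoint N (P.erase x) := by
    rw [hNdef, disjoint_insert_left]
    exact ⟨notMem_erase x P, hKP.mono_right (erase_subset _ _)⟩
  have hNT' : Disjoint N (Q.erase x) := by
    rw [hNdef, disjoint_insert_left]
    exact ⟨notMem_erase x Q, hKQ.mono_right (erase_subset _ _)⟩
  have hTT' : Disjoint (P.erase x) (Q.erase x) :=
    (hPQ.mono_left (erase_subset _ _)).mono_right (erase_subset _ _)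
  have hV : N ∪ (P.erase x ∪ Q.erase x) = V := by
    ext z
    simp only [hNdef, hKdef, ker, mem_union, mem_insert, mem_erase, mem_sdiff]
    constructor
    · rintro ((rfl | ⟨hz, -⟩) | ⟨-, hz⟩ | ⟨-, hz⟩)
      · exact hxV
      · exact hz
      · exact hP hz
      · exact hQ hz
    · intro hz
      by_cases hzx : z = x
      · exact Or.inl (Or.inl hzx)
      · by_cases hzP : z ∈ P
        · exact Or.inr (Or.inl ⟨hzx, hzP⟩)
        · by_cases hzQ : z ∈ Q
          · exact Or.inr (Or.inr ⟨hzx, hzQ⟩)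
          · exact Or.inl (Or.inr ⟨hz, by rintro (h | h) <;> contradiction⟩)
  have key : ∀ L₁ L₂ : Finset ℕ, L₁ ⊆ N → L₂ ⊆ N → Disjoint L₁ L₂ →
      1 ≤ |kap Finset.univ (oneL N) oneA L₁ L₂| →
      NR V t R (P.erase x ∪ L₁, Q.erase x ∪ L₂) := by
    intro L₁ L₂ hL1 hL2 hL12 hone
    refine loc hNT hNT' hTT' hV (by omega) Finset.univ (oneL N) oneA ?_ ?_ ?_ ?_ hL1 hL2 hL12 hone
    · rintro (_ | _) -
      · exact ⟨empty_subset _, Subset.refl _, disjoint_empty_left _⟩
      · exact ⟨Subset.refl _, empty_subset _, disjoint_empty_right _⟩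
    · rintro (_ | _) - r hr hr1 hr2 ht1 ht2
      · -- index false: second side
        simp only [oneL] at ht1 ht2
        obtain ⟨-, -, -, -, h5, -⟩ := mem_rows.1 hr
        have hNr : N ⊆ r.2 := by rw [← ht2]; exact inter_subset_left
        have hrR : r.2 ∈ R := by
          rcases h5 with h5 | h5
          · exact h5
          · have := card_le_card hNr; omega
        refine h2 ⟨r.2, hrR, hNr, ?_⟩
        intro z hz
        have := hr2 hz
        simp only [hNdef, mem_union, mem_insert, mem_erase] at this ⊢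
        tauto
      · simp only [oneL] at ht1 ht2
        obtain ⟨-, -, -, h4, -, -⟩ := mem_rows.1 hr
        have hNr : N ⊆ r.1 := by rw [← ht1]; exact inter_subset_left
        have hrR : r.1 ∈ R := by
          rcases h4 with h4 | h4
          · exact h4
          · have := card_le_card hNr; omega
        refine h1 ⟨r.1, hrR, hNr, ?_⟩
        intro z hz
        have := hr1 hz
        simp only [hNdef, mem_union, mem_insert, mem_erase] at this ⊢
        tauto
    · intro M₁ M₂ hM1 hM2 hM12 hM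
      have hsub : M₁ ∪ M₂ ⊆ N := union_subset hM1 hM2
      have hc := card_sdiff_add_card_eq_card hsub
      have h0 : M₁ ∪ M₂ = ∅ := by
        rw [← card_eq_zero]; omega
      have hM1' : M₁ = ∅ := (union_eq_empty.1 h0).1
      have hM2' : M₂ = ∅ := (union_eq_empty.1 h0).2
      subst hM1' hM2'
      rw [one_kap]
      simp
    · intro M₁ M₂
      rw [one_kap]
      have e1 : ∀ n : ℕ, |(-1 : ℝ) ^ n| = 1 := fun n => by rw [abs_pow]; simp
      have b1 : |(if M₁ ⊆ N ∧ M₂ ⊆ ∅ then
          (-1 : ℝ) ^ ((N \ M₁).card + ((∅ : Finset ℕ) \ M₂).card) else 0)| ≤ 1 := by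
        split_ifs
        · exact (e1 _).le
        · simp
      have b2 : |(if M₁ ⊆ ∅ ∧ M₂ ⊆ N then
          -(-1 : ℝ) ^ (((∅ : Finset ℕ) \ M₁).card + (N \ M₂).card) else 0)| ≤ 1 := by
        split_ifs
        · rw [abs_neg]; exact (e1 _).le
        · simp
      have ht0 : (0 : ℝ) ≤ t := Nat.cast_nonneg t
      refine (abs_add_le _ _).trans ?_
      linarith
  have e1 : ∀ n : ℕ, |(-1 : ℝ) ^ n| = 1 := fun n => by rw [abs_pow]; simp
  have hxN : {x} ⊆ N := by
    rw [singleton_subset_iff, hNdef]; exact mem_insert_self _ _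
  have hne : ¬ ({x} : Finset ℕ) ⊆ ∅ := by
    simp
  rcases hx with hx | hx
  · have hxQ : x ∉ Q := fun hq => (Finset.disjoint_left.1 hPQ) hx hq
    have := key {x} ∅ hxN (empty_subset _) (disjoint_empty_right _) (by
      rw [one_kap, if_pos ⟨hxN, Subset.refl _⟩, if_neg (fun hh => hne hh.1), add_zero, e1])
    have hP' : P.erase x ∪ {x} = P := by
      rw [union_comm, ← insert_eq, insert_erase hx]
    have hQ' : Q.erase x ∪ ∅ = Q := by
      rw [union_empty, erase_eq_of_notMem hxQ]
    rwa [hP', hQ'] at this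
  · have hxP : x ∉ P := fun hp => (Finset.disjoint_left.1 hPQ) hp hx
    have := key ∅ {x} (empty_subset _) hxN (disjoint_empty_left _) (by
      rw [one_kap, if_neg (fun hh => hne hh.2), if_pos ⟨Subset.refl _, hxN⟩, zero_add, abs_neg, e1])
    have hP' : P.erase x ∪ ∅ = P := by
      rw [union_empty, erase_eq_of_notMem hxP]
    have hQ' : Q.erase x ∪ {x} = Q := by
      rw [union_comm, ← insert_eq, insert_erase hx]
    rwa [hP', hQ'] at this

end Pool.Agent.H37.AV
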