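import Pool.Agent.H37.AV.Prm

/-!
Module Zones.  Numbers of slots whose first side has at most half of the elements, in terms of the reward
`x = rew`; `κ = Bd t ≥ 1`.

`sq_zone`: `σ ∈ SQ` is a main slot, so `|σ.2| = n + 1 - t - |σ.1|` and `n ≤ 2 |σ.2| + 2 t ≤ 2 |σ.2| + 4 c1`;
`σ.swap ∈ S1` (`swap_mem_S1`); `s1_count_le` for the image under `Prod.swap`.
`sq_zone'`: the same with the hypothesis on `σ.2` itself.
`th_zone`: `exits_sqrt` with `hh` (`|Gs| ≤ n ≤ hh²`, so the filter is everything) and the antitone weight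
`ω u = [2 u ≤ n]`: at most `8 (hh+t) · 4 x + 16 (hh+t) κ x ≤ 48 κ (hh+t) x` (`sq_zone`, `n2_le`).
`s2_zone`: by `sum_S2_swap` it is the number of `σ ∈ S2` with `2 |σ.2| ≤ n`.  `nonmain` with
`g σ = [2 |σ.2| ≤ n]` (removing an element of `σ.2` does not decrease `g`; `2 t ≤ 8 t² ≤ w`): at most
`2 (|N2| + #{Th : 2 |σ.2| ≤ n}) + 2 #{S1 : 2 |σ.2| ≤ n}`.  The `Th` term is `th_zone` by `sum_Th_swap`; for
`σ ∈ S1` with `2 |σ.2| ≤ n`: `|σ.1| + |σ.2| ≥ n + 1 - t`, so `n ≤ 2 |σ.1| + 2 t ≤ 2 |σ.1| + 4 c1` and the number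
is at most `4 x` by `s1_count_le`.  Total `2 κ x + 96 κ (hh+t) x + 8 x ≤ 120 κ (hh+t) x`.
`s2_card`: the two sides of a slot are disjoint subsets of `[n]`, so `2 |σ.1| ≤ n` or `2 |σ.2| ≤ n`.
-/

open Finset

namespace Pool.Agent.H37.AV

variable {n t w r m h1 hh M s c1 : ℕ} {α β θ : ℝ} {R : Finset (Finset ℕ)}

private lemma zn_card {V : Finset ℕ} {s : Slot} (h1 : s.1 ⊆ V) (h2 : s.2 ⊆ V)
    (hd : Disjoint s.1 s.2) : s.1.card + s.2.card + (ker V s).card = V.card := by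
  rw [← card_union_of_disjoint hd, ker, add_comm]
  exact card_sdiff_add_card_eq_card (union_subset h1 h2)

private lemma zn_icc (n : ℕ) : (Icc 1 n).card = n := by simp

theorem sq_zone' (P : Prm n t w r m h1 hh M s c1 α β θ) {X : Finset Slot}
    (hX : X ⊆ SQ (Icc 1 n) t R) (hc : ∀ σ ∈ X, n ≤ 2 * σ.2.card + 4 * c1) :
    (X.card : ℝ) ≤ 4 * rew n t r m s θ R := by
  have h1 : (X.image Prod.swap).card = X.card :=
    card_image_of_injective _ Prod.swap_injective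
  have h2 := s1_count_le (R := R) P (X := X.image Prod.swap) (fun σ hσ => by
    obtain ⟨σ', hσ', rfl⟩ := mem_image.1 hσ
    exact swap_mem_S1 (hX hσ')) (fun σ hσ => by
    obtain ⟨σ', hσ', rfl⟩ := mem_image.1 hσ
    rw [Prod.fst_swap]
    exact hc σ' hσ')
  rw [h1] at h2
  exact h2

theorem sq_zone (P : Prm n t w r m h1 hh M s c1 α β θ) :
    (((SQ (Icc 1 n) t R).filter (fun σ => 2 * σ.1.card ≤ n)).card : ℝ) ≤
      4 * rew n t r m s θ R := by
  refine sq_zone' P (filter_subset _ _) fun σ hσ => ?_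
  obtain ⟨h1, h2⟩ := mem_filter.1 hσ
  obtain ⟨h3, h4, h5, h6⟩ := mem_mains.1 (mem_SQ.1 h1).1
  have h7 := zn_card h3 h4 h5
  rw [zn_icc] at h7
  have h8 := P.htc
  omega

theorem th_zone (P : Prm n t w r m h1 hh M s c1 α β θ) (h : Av (Icc 1 n) t R) :
    (((Th (Icc 1 n) t R).filter (fun σ => 2 * σ.1.card ≤ n)).card : ℝ) ≤
      48 * Bd t * (hh + t) * rew n t r m s θ R := by
  have hB := Bd_pos t
  have hx := rew_nonneg (R := R) P
  have hn2 := n2_le (R := R) P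
  have hsq := sq_zone (R := R) P
  let ω : ℕ → ℝ := fun u => if 2 * u ≤ n then 1 else 0
  have hω : Antitone ω := by
    intro a b hab
    show (if 2 * b ≤ n then (1 : ℝ) else 0) ≤ if 2 * a ≤ n then 1 else 0
    split_ifs with h1 h2 <;> first | exact le_rfl | (exfalso; omega) | norm_num
  have h0 : ∀ u, 0 ≤ ω u := fun u => by
    show (0 : ℝ) ≤ if 2 * u ≤ n then 1 else 0
    split_ifs <;> norm_num
  have hω1 : ∀ u, ω u ≤ 1 := fun u => by
    show (if 2 * u ≤ n then (1 : ℝ) else 0) ≤ 1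
    split_ifs <;> norm_num
  have hex := exits_sqrt (R := R) P.ht h P.hhp hω h0
  have hall : (Th (Icc 1 n) t R).filter (fun s => (Gs (Icc 1 n) R s).card ≤ hh ^ 2) =
      Th (Icc 1 n) t R := by
    refine filter_true_of_mem fun s hs => ?_
    obtain ⟨h3, h4, h5, h6⟩ := mem_mains.1 (mem_Th.1 hs).1
    have h7 : Gs (Icc 1 n) R s ⊆ Icc 1 n := (filter_subset _ _).trans (union_subset h3 h4)
    have h8 := card_le_card h7
    rw [zn_icc] at h8
    exact h8.trans P.hhn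
  rw [hall] at hex
  have e : ∀ Y : Finset Slot, ∑ s ∈ Y, ω s.1.card =
      ((Y.filter (fun σ => 2 * σ.1.card ≤ n)).card : ℝ) := by
    intro Y
    show ∑ s ∈ Y, (if 2 * s.1.card ≤ n then (1 : ℝ) else 0) = _
    rw [← Finset.sum_filter, Finset.sum_const, nsmul_eq_mul, mul_one]
  rw [e, e] at hex
  have hN : ∑ s ∈ N2 (Icc 1 n) t R, ω s.1.card ≤ (N2 (Icc 1 n) t R).card := by
    have h9 := Finset.sum_le_card_nsmul (N2 (Icc 1 n) t R) (fun s => ω s.1.card) 1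
      (fun s _ => hω1 _)
    rwa [nsmul_eq_mul, mul_one] at h9
  have hc : (0 : ℝ) ≤ (hh : ℝ) + t := by positivity
  refine hex.trans ?_
  have h10 : 8 * ((hh : ℝ) + t) *
      (((SQ (Icc 1 n) t R).filter (fun σ => 2 * σ.1.card ≤ n)).card : ℝ) ≤
      8 * ((hh : ℝ) + t) * (4 * rew n t r m s θ R) :=
    mul_le_mul_of_nonneg_left hsq (by positivity)
  have h11 : 16 * ((hh : ℝ) + t) * ∑ s ∈ N2 (Icc 1 n) t R, ω s.1.card ≤
      16 * ((hh : ℝ) + t) * (Bd t * rew n t r m s θ R) :=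
    mul_le_mul_of_nonneg_left (hN.trans hn2) (by positivity)
  have h12 : rew n t r m s θ R * ((hh : ℝ) + t) ≤ Bd t * (rew n t r m s θ R * ((hh : ℝ) + t)) := by
    have := mul_nonneg hx hc
    nlinarith
  nlinarith

theorem s2_zone (P : Prm n t w r m h1 hh M s c1 α β θ) (h : Av (Icc 1 n) t R)
    (hbig : ∀ A ∈ R, w ≤ A.card) :
    (((S2 (Icc 1 n) t R).filter (fun σ => 2 * σ.1.card ≤ n)).card : ℝ) ≤
      120 * Bd t * (hh + t) * rew n t r m s θ R := by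
  have hB := Bd_pos t
  have hx := rew_nonneg (R := R) P
  have hn2 := n2_le (R := R) P
  have hth := th_zone P h
  let g : Slot → ℝ := fun σ => if 2 * σ.2.card ≤ n then 1 else 0
  have hg : ∀ σ, 0 ≤ g σ := fun σ => by
    show (0 : ℝ) ≤ if 2 * σ.2.card ≤ n then 1 else 0
    split_ifs <;> norm_num
  have hg1 : ∀ σ, g σ ≤ 1 := fun σ => by
    show (if 2 * σ.2.card ≤ n then (1 : ℝ) else 0) ≤ 1
    split_ifs <;> norm_num
  have hmono : ∀ σ : Slot, ∀ x ∈ σ.2, g σ ≤ g (σ.1, σ.2.erase x) := by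
    intro σ x hxσ
    have h1 : (σ.2.erase x).card ≤ σ.2.card := card_le_card (erase_subset _ _)
    show (if 2 * σ.2.card ≤ n then (1 : ℝ) else 0) ≤ if 2 * (σ.2.erase x).card ≤ n then 1 else 0
    split_ifs with h2 h3 <;> first | exact le_rfl | (exfalso; omega) | norm_num
  have ht := P.ht
  have hw2 : ∀ A ∈ R, 2 * t ≤ A.card := by
    intro A hA
    have h1 := hbig A hA
    have h2 := P.hw
    nlinarith
  have hnm := nonmain (R := R) (by omega : 1 ≤ t) h hw2 g hg hmono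
  have e1 : (((S2 (Icc 1 n) t R).filter (fun σ => 2 * σ.1.card ≤ n)).card : ℝ) =
      ∑ σ ∈ S2 (Icc 1 n) t R, g σ := by
    rw [← sum_S2_swap g]
    show _ = ∑ σ ∈ S2 (Icc 1 n) t R, (if 2 * σ.1.card ≤ n then (1 : ℝ) else 0)
    rw [← Finset.sum_filter, Finset.sum_const, nsmul_eq_mul, mul_one]
  have e2 : ∑ σ ∈ Th (Icc 1 n) t R, g σ =
      (((Th (Icc 1 n) t R).filter (fun σ => 2 * σ.1.card ≤ n)).card : ℝ) := by
    rw [← sum_Th_swap g]
    show ∑ σ ∈ Th (Icc 1 n) t R, (if 2 * σ.1.card ≤ n then (1 : ℝ) else 0) = _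
    rw [← Finset.sum_filter, Finset.sum_const, nsmul_eq_mul, mul_one]
  have e3 : ∑ σ ∈ S1 (Icc 1 n) t R, g σ =
      (((S1 (Icc 1 n) t R).filter (fun σ => 2 * σ.2.card ≤ n)).card : ℝ) := by
    show ∑ σ ∈ S1 (Icc 1 n) t R, (if 2 * σ.2.card ≤ n then (1 : ℝ) else 0) = _
    rw [← Finset.sum_filter, Finset.sum_const, nsmul_eq_mul, mul_one]
  have h4 : (((S1 (Icc 1 n) t R).filter (fun σ => 2 * σ.2.card ≤ n)).card : ℝ) ≤
      4 * rew n t r m s θ R := by
    refine s1_count_le P (filter_subset _ _) fun σ hσ => ?_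
    obtain ⟨h1, h2⟩ := mem_filter.1 hσ
    obtain ⟨h3, h4, h5, h6⟩ := mem_slots.1 (mem_S1.1 h1).1
    have h7 := zn_card h3 h4 h5
    rw [zn_icc] at h7
    have h8 := P.htc
    omega
  have hN : ∑ σ ∈ N2 (Icc 1 n) t R, g σ ≤ (N2 (Icc 1 n) t R).card := by
    have h9 := Finset.sum_le_card_nsmul (N2 (Icc 1 n) t R) g 1 (fun s _ => hg1 _)
    rwa [nsmul_eq_mul, mul_one] at h9
  rw [e1]
  rw [e2, e3] at hnm
  have hc : (3 : ℝ) ≤ (hh : ℝ) + t := by
    have h5 : 3 ≤ hh + t := by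
      have := P.hhp
      omega
    exact_mod_cast h5
  have h12 : 0 ≤ (Bd t - 1) * rew n t r m s θ R := mul_nonneg (by linarith) hx
  have h13 : 0 ≤ (Bd t * rew n t r m s θ R) * ((hh : ℝ) + t - 3) :=
    mul_nonneg (mul_nonneg (by linarith) hx) (by linarith)
  nlinarith

theorem s2_card (P : Prm n t w r m h1 hh M s c1 α β θ) (h : Av (Icc 1 n) t R)
    (hbig : ∀ A ∈ R, w ≤ A.card) :
    ((S2 (Icc 1 n) t R).card : ℝ) ≤ 240 * Bd t * (hh + t) * rew n t r m s θ R := by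
  have hz := s2_zone P h hbig
  have hsw : ((S2 (Icc 1 n) t R).filter (fun σ => 2 * σ.2.card ≤ n)).card =
      ((S2 (Icc 1 n) t R).filter (fun σ => 2 * σ.1.card ≤ n)).card := by
    refine card_bij' (fun σ _ => σ.swap) (fun σ _ => σ.swap) ?_ ?_ (fun σ _ => Prod.swap_swap σ)
      (fun σ _ => Prod.swap_swap σ)
    · intro σ hσ
      rw [mem_filter] at hσ ⊢
      exact ⟨swap_mem_S2.2 hσ.1, hσ.2⟩
    · intro σ hσ
      rw [mem_filter] at hσ ⊢
      exact ⟨swap_mem_S2.2 hσ.1, hσ.2⟩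
  have hsub : S2 (Icc 1 n) t R ⊆ (S2 (Icc 1 n) t R).filter (fun σ => 2 * σ.1.card ≤ n) ∪
      (S2 (Icc 1 n) t R).filter (fun σ => 2 * σ.2.card ≤ n) := by
    intro σ hσ
    obtain ⟨h3, h4, h5, h6⟩ := mem_slots.1 (mem_S2.1 hσ).1
    have h7 := zn_card h3 h4 h5
    rw [zn_icc] at h7
    rw [mem_union, mem_filter, mem_filter]
    rcases Nat.lt_or_ge n (2 * σ.1.card) with h8 | h8
    · exact Or.inr ⟨hσ, by omega⟩
    · exact Or.inl ⟨hσ, h8⟩
  have h1 := (card_le_card hsub).trans (card_union_le _ _)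
  rw [hsw] at h1
  have h2 : ((S2 (Icc 1 n) t R).card : ℝ) ≤
      (((S2 (Icc 1 n) t R).filter (fun σ => 2 * σ.1.card ≤ n)).card : ℝ) +
      (((S2 (Icc 1 n) t R).filter (fun σ => 2 * σ.1.card ≤ n)).card : ℝ) := by
    exact_mod_cast h1
  linarith

end Pool.Agent.H37.AV
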